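import Pool.Agent.LibPeps.DefsA

set_option autoImplicit false

/-! Task A1: tokens. -/

namespace Pool.Agent.LibPeps
open Ltr

variable {Fr Sym : Type} {M : Mach Fr Sym}

theorem flat_nil : flat ([] : List (Ltr Fr Sym × List (Ltr Fr Sym))) = [] := rfl

theorem flat_cons (p : Ltr Fr Sym × List (Ltr Fr Sym)) (l) : flat (p :: l) = p.1 :: (p.2 ++ flat l) := by
  simp [flat]

theorem flat_append (l l' : List (Ltr Fr Sym × List (Ltr Fr Sym))) :
    flat (l ++ l') = flat l ++ flat l' := by
  simp [flat]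

theorem setA_setA (x : Ltr Fr Sym) (a b : Bool) : (x.setA a).setA b = x.setA b := rfl

theorem setA_self (x : Ltr Fr Sym) (b : Bool) (h : x.a = b) : x.setA b = x := by
  subst h; rfl

/-- The spine. -/
theorem Blk.spine : ∀ {j : ℕ} {t α : Bool} {w : List (Ltr Fr Sym)}, Blk j t α w → t = false →
    ∃ y l, O0 y ∧ y.a = α ∧ w = y :: flat l ∧
    l.length = j ∧ ∀ (i : ℕ) (h : i < l.length), X0 l[i].1 ∧ Blk i true false l[i].2 := by
  intro j t α w h
  induction h with
  | z0 x hx => intro _; exact ⟨x, [], hx, rfl, rfl, rfl, fun i h => absurd h (by simp)⟩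
  | z1 x hx hp => intro h; cases h
  | s0 j α u s v hu hs hv ih _ =>
    intro _
    obtain ⟨y, l, h1, h2, h3, h4, h5⟩ := ih rfl
    refine ⟨y, l ++ [(s, v)], h1, h2, ?_, by simp [h4], ?_⟩
    · rw [h3, flat_append, flat_cons, flat_nil]; simp
    · intro i hi
      rcases Nat.lt_or_ge i l.length with h | h
      · rw [List.getElem_append_left h]
        exact h5 i h
      · have hi' : i = l.length := by simp at hi; omega
        subst hi'
        rw [List.getElem_append_right (le_refl _)]
        simp only [Nat.sub_self, List.getElem_cons_zero]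
        exact ⟨hs, by rw [h4]; exact hv⟩
  | s1 j u s v hu hs hp hv _ _ => intro h; cases h

/-- All letters but the first are plain. -/
theorem Blk.plain : ∀ {j : ℕ} {t α : Bool} {w : List (Ltr Fr Sym)}, Blk j t α w →
    ∃ y C, w = y :: C ∧ y.a = α ∧ (∀ x ∈ C, Pl x) ∧ (t = false → O0 y) ∧ (t = true → α = false) := by
  intro j t α w h
  induction h with
  | z0 x hx => exact ⟨x, [], rfl, rfl, by simp, fun _ => hx, fun h => by cases h⟩
  | z1 x hx hp => exact ⟨x, [], rfl, hp, by simp, (fun h => by cases h), fun _ => rfl⟩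
  | s0 j α u s v hu hs hv ih1 ih2 =>
    obtain ⟨y, C, h1, h2, h3, h4, _⟩ := ih1
    obtain ⟨y', C', h1', h2', h3', _, _⟩ := ih2
    refine ⟨y, C ++ s :: v, by rw [h1]; rfl, h2, ?_, fun _ => h4 rfl, fun h => by cases h⟩
    intro x hx
    rw [List.mem_append, List.mem_cons] at hx
    rcases hx with hx | rfl | hx
    · exact h3 x hx
    · exact hs.2
    · rw [h1', List.mem_cons] at hx
      rcases hx with rfl | hx
      · exact h2'
      · exact h3' x hx
  | s1 j u s v hu hs hp hv ih1 ih2 =>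
    obtain ⟨y, C, h1, h2, h3, h4, _⟩ := ih1
    obtain ⟨y', C', h1', h2', h3', _, _⟩ := ih2
    refine ⟨y, C ++ s :: v, by rw [h1]; rfl, h2, ?_, (fun h => by cases h), fun _ => rfl⟩
    intro x hx
    rw [List.mem_append, List.mem_cons] at hx
    rcases hx with hx | rfl | hx
    · exact h3 x hx
    · exact hp
    · rw [h1', List.mem_cons] at hx
      rcases hx with rfl | hx
      · exact h2'
      · exact h3' x hx

theorem Blk.setHead : ∀ {j : ℕ} {t α : Bool} {w : List (Ltr Fr Sym)}, Blk j t α w → t = false →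
    ∀ y C b, w = y :: C → Blk j false b (y.setA b :: C) := by
  intro j t α w h
  induction h with
  | z0 x hx =>
    intro _ y C b h
    rw [List.cons.injEq] at h
    obtain ⟨rfl, rfl⟩ := h
    exact Blk.z0 (x.setA b) hx
  | z1 x hx hp => intro h; cases h
  | s0 j α u s v hu hs hv ih _ =>
    intro _ y C b h
    obtain ⟨y', C', rfl, _⟩ := hu.plain
    rw [List.cons_append, List.cons.injEq] at h
    obtain ⟨rfl, rfl⟩ := h
    exact Blk.s0 j b (y'.setA b :: C') s v (ih rfl _ _ b rfl) hs hv
  | s1 j u s v hu hs hp hv _ _ => intro h; cases h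

/-- Replace the blocks of a spine by tokens. -/
theorem tok_flat (l : List (Ltr Fr Sym × List (Ltr Fr Sym)))
    (h : ∀ p ∈ l, X0 p.1 ∧ ∃ z, IsZ z ∧ EqM M p.2 z) :
    ∃ l' : List (Ltr Fr Sym × List (Ltr Fr Sym)), Spn (fun _ => True) l' ∧ EqM M (flat l) (flat l') ∧
      l'.map Prod.fst = l.map Prod.fst := by
  induction l with
  | nil => exact ⟨[], by simp [Spn], Eqv.refl _, rfl⟩
  | cons p l ih =>
    obtain ⟨l', h1, h2, h3⟩ := ih fun q hq => h q (List.mem_cons_of_mem _ hq)
    obtain ⟨hx, z, hz, he⟩ := h p List.mem_cons_self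
    refine ⟨(p.1, z) :: l', ?_, ?_, ?_⟩
    · intro q hq
      rw [List.mem_cons] at hq
      rcases hq with rfl | hq
      · exact ⟨hx, trivial, hz⟩
      · exact h1 q hq
    · rw [flat_cons, flat_cons]
      exact (he.append h2).cons _
    · simp [h3]

theorem mark_aux (j : ℕ)
    (IH : ∀ i < j, ∀ w : List (Ltr Fr Sym), Blk i true false w → ∃ z, IsZ z ∧ EqM M w z)
    (y : Ltr Fr Sym) (C : List (Ltr Fr Sym)) (α : Bool) (h : Blk j false α (y :: C)) :
    ∃ l' : List (Ltr Fr Sym × List (Ltr Fr Sym)), Spn (fun _ => True) l' ∧ EqM M C (flat l') := by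
  obtain ⟨y', l, h1, h2, h3, h4, h5⟩ := h.spine rfl
  rw [List.cons.injEq] at h3
  obtain ⟨rfl, rfl⟩ := h3
  obtain ⟨l', h6, h7, _⟩ := tok_flat (M := M) l (fun p hp => by
    obtain ⟨i, hi, rfl⟩ := List.getElem_of_mem hp
    exact ⟨(h5 i hi).1, IH i (h4 ▸ hi) _ (h5 i hi).2⟩)
  exact ⟨l', h6, h7⟩

theorem mark_aux' (j : ℕ)
    (IH : ∀ i < j, ∀ w : List (Ltr Fr Sym), Blk i true false w → ∃ z, IsZ z ∧ EqM M w z)
    (y : Ltr Fr Sym) (C : List (Ltr Fr Sym)) (m : Ltr Fr Sym) (h : Blk j false false (y :: C))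
    (hm : X1 m) (hp : Pl m) :
    EqM M (y :: (C ++ [m])) (y.setA true :: (C ++ [m.setA true])) := by
  obtain ⟨l', h1, h2⟩ := mark_aux j IH y C false h
  obtain ⟨y', C', h3, h4, _, h5, _⟩ := h.plain
  rw [List.cons.injEq] at h3
  obtain ⟨rfl, rfl⟩ := h3
  have e1 : EqM M (y :: (C ++ [m])) (y :: (flat l' ++ [m])) := (h2.right [m]).cons y
  have e2 : EqM M (y.setA true :: (C ++ [m.setA true])) (y.setA true :: (flat l' ++ [m.setA true])) :=
    (h2.right [m.setA true]).cons _
  refine e1.trans ((Eqv.of_rule (Or.inl (RuleA.a1 y l' m (h5 rfl) h4 h1 hm hp))).trans e2.symm)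

theorem tok (j : ℕ) : ∀ w : List (Ltr Fr Sym), Blk j true false w → ∃ z, IsZ z ∧ EqM M w z := by
  induction j using Nat.strong_induction_on with
  | _ j IH =>
    intro w hw
    cases hw with
    | z1 x hx hp =>
      exact ⟨[x.setA true], IsZ.one _ ⟨hx, rfl⟩, Eqv.of_rule (Or.inl (RuleA.a0 x hx hp))⟩
    | s1 j u s v hu hs hp hv =>
      obtain ⟨y, C, rfl, h2, h3, h4, _⟩ := hu.plain
      obtain ⟨z, hz, hz'⟩ := IH j (Nat.lt_succ_self j) v hv
      have e := mark_aux' j (fun i hi => IH i (Nat.lt_succ_of_lt hi)) y C s hu hs hp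
      refine ⟨y.setA true :: (C ++ s.setA true :: z), IsZ.ext _ _ _ _ ⟨h4 rfl, rfl⟩ h3 ⟨hs, rfl⟩ hz,
        ?_⟩
      have := e.append hz'
      simpa using this

theorem mark (j : ℕ) (y : Ltr Fr Sym) (C : List (Ltr Fr Sym)) (m : Ltr Fr Sym)
    (h : Blk j false false (y :: C)) (hm : X1 m) (hp : Pl m) :
    EqM M (y :: (C ++ [m])) (y.setA true :: (C ++ [m.setA true])) :=
  mark_aux' j (fun i _ => tok i) y C m h hm hp

theorem tA1 : StA1 := by
  intro Fr Sym M
  refine ⟨fun j w hw => tok j w hw, fun j α w hw => hw.spine rfl, ?_, ?_⟩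
  · intro j y C m h hm hp
    refine ⟨?_, mark j y C m h hm hp⟩
    obtain ⟨y', C', h3, h4, h5, _⟩ := h.plain
    rw [List.cons.injEq] at h3
    obtain ⟨rfl, rfl⟩ := h3
    exact h5
  · intro j α u s v hu hs hv
    obtain ⟨y, C, rfl, h2, h3, h4, _⟩ := hu.plain
    obtain ⟨l', hl', hCl⟩ := mark_aux (M := M) j (fun i _ => tok i) y C α hu
    rcases hs with hs | hs
    · -- x0
      rcases hsa : s.a with _ | _
      · exact .inr ⟨false, α, _, Eqv.refl _, Blk.s0 j α _ s v hu ⟨hs, hsa⟩ hv⟩
      · left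
        have : DeadM M [s] := Dead.of_kill (Or.inl (KillA.a3 s hs hsa))
        have h := (this.left (y :: C)).right v
        simpa using h
    · have e1 : ∀ m : Ltr Fr Sym, EqM M (y :: (C ++ [m])) (y :: (flat l' ++ [m])) :=
        fun m => (hCl.right [m]).cons y
      rcases hα : α with _ | _
      · subst hα
        rcases hsa : s.a with _ | _
        · exact .inr ⟨true, false, _, Eqv.refl _, Blk.s1 j _ s v hu hs hsa hv⟩
        · left
          have h5 : DeadM M (y :: (flat l' ++ [s])) :=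
            Dead.of_kill (Or.inl (KillA.a2 y l' s (h4 rfl) h2 hl' ⟨hs, hsa⟩))
          have h6 := ((e1 s).dead.2 h5).right v
          simpa using h6
      · subst hα
        rcases hsa : s.a with _ | _
        · left
          have h5 : DeadM M (y :: (flat l' ++ [s])) :=
            Dead.of_kill (Or.inl (KillA.a1 y l' s ⟨h4 rfl, h2⟩ hl' hs hsa))
          have h6 := ((e1 s).dead.2 h5).right v
          simpa using h6
        · right
          have hb : Blk j false false (y.setA false :: C) := hu.setHead rfl y C false rfl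
          have h7 := mark (M := M) j (y.setA false) C (s.setA false) hb hs rfl
          rw [setA_setA, setA_setA, setA_self y true h2, setA_self s true hsa] at h7
          refine ⟨true, false, (y.setA false :: C) ++ s.setA false :: v, ?_,
            Blk.s1 j _ _ v hb hs rfl hv⟩
          have h8 := h7.symm.right v
          simpa using h8

end Pool.Agent.LibPeps
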