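import Pool.Agent.LibPeps.DefsA

set_option autoImplicit false

/-! Task A2: neighbouring blocks of the same level have different types. -/

namespace Pool.Agent.LibPeps
open Ltr

/-! ### The game on bits -/

section game

/-- the abstract game: a predicate on pairs of bit lists of length n + 1 -/
structure A2Game (n : ℕ) (D : List Bool → List Bool → Prop) : Prop where
  m0 : ∀ L R, L.length = n → R.length = n → (D (false :: L) (false :: R) ↔ D (true :: L) (true :: R))
  m1 : ∀ i i' L R, i + 1 + L.length = n → i' + 1 + R.length = n →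
    (D (List.replicate i false ++ true :: false :: L) (List.replicate i' false ++ true :: false :: R) ↔
     D (List.replicate i false ++ false :: true :: L) (List.replicate i' false ++ false :: true :: R))
  k0 : ∀ b b' L R, L.length = n → R.length = n → b ≠ b' → D (b :: L) (b' :: R)
  kb : ∀ i i' b b' L R, i + 1 + L.length = n → i' + 1 + R.length = n → b ≠ b' →
    D (List.replicate i false ++ true :: b :: L) (List.replicate i' false ++ true :: b' :: R)
  kt : D (List.replicate n false ++ [true]) (List.replicate n false ++ [true])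

variable {n : ℕ} {D : List Bool → List Bool → Prop}

theorem A2Game.out (h : A2Game n D) (m : ℕ) : ∀ L R : List Bool, m + L.length = n →
    m + R.length = n → (D (List.replicate (m + 1) false ++ L) (List.replicate (m + 1) false ++ R) ↔
      D (List.replicate m false ++ true :: L) (List.replicate m false ++ true :: R)) := by
  induction m with
  | zero =>
    intro L R hL hR
    simpa using h.m0 L R (by simpa using hL) (by simpa using hR)
  | succ m ih =>
    intro L R hL hR
    have e : ∀ X : List Bool, List.replicate (m + 1 + 1) false ++ X =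
        List.replicate (m + 1) false ++ false :: X := by
      intro X
      rw [List.replicate_succ' (n := m + 1)]; simp
    have e2 : ∀ X : List Bool, List.replicate (m + 1) false ++ true :: X =
        List.replicate m false ++ false :: true :: X := by
      intro X
      rw [List.replicate_succ' (n := m)]; simp
    rw [e, e, ih (false :: L) (false :: R) (by simp; omega) (by simp; omega), e2, e2]
    exact h.m1 m m L R (by omega) (by omega)

theorem A2Game.inn (h : A2Game n D) (c : ℕ)
    (IH : ∀ L R : List Bool, L.length = n + 1 → R.length = n + 1 → L.count true < c → D L R) :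
    ∀ (i i' : ℕ) (L R : List Bool), i + L.length = n → i' + R.length = n → L.count true + 1 = c →
      D (List.replicate i false ++ true :: L) (List.replicate i' false ++ true :: R) := by
  intro i
  induction i with
  | zero =>
    intro i' L R hL hR hc
    cases i' with
    | zero =>
      have := (h.m0 L R (by simpa using hL) (by simpa using hR)).1
        (IH _ _ (by simp at *; omega) (by simp at *; omega) (by simp; omega))
      simpa using this
    | succ i' =>
      have := h.k0 true false L (List.replicate i' false ++ true :: R) (by simpa using hL)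
        (by simp; omega) (by simp)
      simpa [List.replicate_succ] using this
  | succ i ih =>
    intro i' L R hL hR hc
    cases i' with
    | zero =>
      have := h.k0 false true (List.replicate i false ++ true :: L) R (by simp; omega)
        (by simpa using hR) (by simp)
      simpa [List.replicate_succ] using this
    | succ i' =>
      have e2 : ∀ (m : ℕ) (X : List Bool), List.replicate (m + 1) false ++ true :: X =
          List.replicate m false ++ false :: true :: X := by
        intro m X
        rw [List.replicate_succ' (n := m)]; simp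
      rw [e2, e2]
      exact (h.m1 i i' L R (by omega) (by omega)).1
        (ih i' (false :: L) (false :: R) (by simp; omega) (by simp; omega) (by simpa using hc))

theorem A2_split (L : List Bool) : L = List.replicate L.length false ∨
    ∃ i L', L = List.replicate i false ++ true :: L' ∧ L.count true = L'.count true + 1 := by
  induction L with
  | nil => left; rfl
  | cons b L ih =>
    cases b with
    | true => right; exact ⟨0, L, by simp, by simp⟩
    | false =>
      rcases ih with h | ⟨i, L', h, hc⟩
      · left
        rw [List.length_cons, List.replicate_succ, ← h]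
      · right
        refine ⟨i + 1, L', ?_, ?_⟩
        · rw [List.replicate_succ, List.cons_append, ← h]
        · rw [List.count_cons_of_ne (by simp), hc]

theorem A2Game.all (h : A2Game n D) : ∀ (c : ℕ) (L R : List Bool), L.length = n + 1 →
    R.length = n + 1 → L.count true ≤ c → D L R := by
  intro c
  induction c using Nat.strong_induction_on with
  | _ c IHc =>
  have IH : ∀ L R : List Bool, L.length = n + 1 → R.length = n + 1 → L.count true < c → D L R := by
    intro L R hL hR hc
    exact IHc (L.count true) hc L R hL hR le_rfl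
  intro L R hL hR hc
  rcases Nat.lt_or_ge (L.count true) c with hlt | hge
  · exact IH L R hL hR hlt
  rcases A2_split L with hL0 | ⟨i, L', hL', hcL⟩
  · rcases A2_split R with hR0 | ⟨i', R', hR', -⟩
    · -- both empty
      rw [hL0, hR0, hL, hR]
      have := (h.out n [] [] (by simp) (by simp)).2 (by simpa using h.kt)
      simpa using this
    · -- only the right side
      cases i' with
      | zero =>
        rw [hL0, hL, hR', List.replicate_succ]
        have hl : R'.length = n := by rw [hR'] at hR; simpa using hR
        simpa using h.k0 false true (List.replicate n false) R' (by simp) hl (by simp)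
      | succ m =>
        have hl : m + 1 + (R'.length + 1) = n + 1 := by rw [hR'] at hR; simpa using hR
        obtain ⟨q, hq⟩ : ∃ q, n = m + 1 + q := ⟨n - (m + 1), by omega⟩
        have e : List.replicate L.length false =
            List.replicate (m + 1) false ++ (false :: List.replicate q false) := by
          rw [hL, hq, ← List.replicate_succ, List.replicate_append_replicate]
          congr 1
        rw [hL0, e, hR']
        refine (h.out m (false :: List.replicate q false) (true :: R') (by simp; omega)
          (by simp; omega)).2 ?_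
        exact h.kb m m false true _ _ (by simp; omega) (by omega) (by simp)
  · rcases A2_split R with hR0 | ⟨i', R', hR', -⟩
    · -- only the left side
      cases i with
      | zero =>
        rw [hR0, hR, hL', List.replicate_succ]
        have hl : L'.length = n := by rw [hL'] at hL; simpa using hL
        simpa using h.k0 true false L' (List.replicate n false) hl (by simp) (by simp)
      | succ m =>
        have hl : m + 1 + (L'.length + 1) = n + 1 := by rw [hL'] at hL; simpa using hL
        obtain ⟨q, hq⟩ : ∃ q, n = m + 1 + q := ⟨n - (m + 1), by omega⟩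
        have e : List.replicate R.length false =
            List.replicate (m + 1) false ++ (false :: List.replicate q false) := by
          rw [hR, hq, ← List.replicate_succ, List.replicate_append_replicate]
          congr 1
        rw [hR0, e, hL']
        refine (h.out m (true :: L') (false :: List.replicate q false) (by simp; omega)
          (by simp; omega)).2 ?_
        exact h.kb m m true false _ _ (by omega) (by simp; omega) (by simp)
    · rw [hL', hR']
      refine h.inn c IH i i' L' R' ?_ ?_ ?_
      · rw [hL'] at hL; simp at hL; omega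
      · rw [hR'] at hR; simp at hR; omega
      · omega

end game


variable {Fr Sym : Type}

/-! ### Frames -/

theorem A2_setK_self (x : Ltr Fr Sym) : x.setK x.k = x := rfl
theorem A2_setK_setK (x : Ltr Fr Sym) (b c : Bool) : (x.setK b).setK c = x.setK c := rfl
theorem A2_setK_k (x : Ltr Fr Sym) (b : Bool) : (x.setK b).k = b := rfl

theorem A2_setK_of {x : Ltr Fr Sym} {b : Bool} (h : x.k = b) : x.setK b = x := by
  subst h; rfl

/-- a chain element, any bit -/
def A2GE (e : Ltr Fr Sym × List (Ltr Fr Sym) × Ltr Fr Sym) : Prop :=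
  mL e.1 ∧ (∀ x ∈ e.2.1, Pl x) ∧ mM e.2.2

theorem A2GE.setK {e : Ltr Fr Sym × List (Ltr Fr Sym) × Ltr Fr Sym} (h : A2GE e) (b : Bool) :
    A2GE (e.1.setK b, e.2) := h

theorem A2GE.ce {e : Ltr Fr Sym × List (Ltr Fr Sym) × Ltr Fr Sym} (h : A2GE e) :
    CE e.1.k e := ⟨h.1, rfl, h.2.1, h.2.2⟩

theorem A2_cflat_nil : cflat ([] : List (Ltr Fr Sym × List (Ltr Fr Sym) × Ltr Fr Sym)) = [] := rfl

theorem A2_cflat_cons (e : Ltr Fr Sym × List (Ltr Fr Sym) × Ltr Fr Sym)
    (l : List (Ltr Fr Sym × List (Ltr Fr Sym) × Ltr Fr Sym)) :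
    cflat (e :: l) = e.1 :: (e.2.1 ++ (e.2.2 :: cflat l)) := by
  simp [cflat]

theorem A2_cflat_append (l l' : List (Ltr Fr Sym × List (Ltr Fr Sym) × Ltr Fr Sym)) :
    cflat (l ++ l') = cflat l ++ cflat l' := by
  simp [cflat]

theorem A2_flat_append (l l' : List (Ltr Fr Sym × List (Ltr Fr Sym))) :
    flat (l ++ l') = flat l ++ flat l' := by
  simp [flat]

theorem A2_flat_cons (p : Ltr Fr Sym × List (Ltr Fr Sym))
    (l : List (Ltr Fr Sym × List (Ltr Fr Sym))) :
    flat (p :: l) = p.1 :: (p.2 ++ flat l) := by
  simp [flat]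

/-- bits of the left side, from the inside -/
def A2LB (es : List (Ltr Fr Sym × List (Ltr Fr Sym) × Ltr Fr Sym)) (o : Ltr Fr Sym) : List Bool :=
  o.k :: es.map fun e => e.1.k

/-- a good left side -/
def A2GL (es : List (Ltr Fr Sym × List (Ltr Fr Sym) × Ltr Fr Sym)) (o : Ltr Fr Sym) : Prop :=
  (∀ e ∈ es, A2GE e) ∧ O1 o

/-- a good right side, the last separator satisfies X -/
def A2GR (X : Ltr Fr Sym → Prop) (rs : List (Ltr Fr Sym × List (Ltr Fr Sym))) : Prop :=
  ∃ l q, rs = l ++ [q] ∧ (∀ p ∈ l, X0 p.1 ∧ IsZ p.2) ∧ X q.1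

theorem A2_map_rep {α : Type} (f : α → Bool) : ∀ (i : ℕ) (l : List α) (M : List Bool),
    l.map f = List.replicate i false ++ M →
    ∃ l1 l2, l = l1 ++ l2 ∧ (∀ x ∈ l1, f x = false) ∧ l2.map f = M ∧ l1.length = i := by
  intro i l M h
  obtain ⟨l1, l2, rfl, h1, h2⟩ := List.map_eq_append_iff.1 h
  refine ⟨l1, l2, rfl, ?_, h2, by simpa using congrArg List.length h1⟩
  intro x hx
  have : f x ∈ List.replicate i false := by rw [← h1]; exact List.mem_map_of_mem hx
  exact List.eq_of_mem_replicate this

/-- the left template -/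
theorem A2_TL (i : ℕ) (a b : Bool) (L : List Bool)
    (es : List (Ltr Fr Sym × List (Ltr Fr Sym) × Ltr Fr Sym)) (o : Ltr Fr Sym)
    (hg : A2GL es o) (hb : A2LB es o = List.replicate i false ++ a :: b :: L) :
    ∃ (es2 : List (Ltr Fr Sym × List (Ltr Fr Sym) × Ltr Fr Sym))
      (E : Bool → Ltr Fr Sym × List (Ltr Fr Sym) × Ltr Fr Sym) (U : Bool → List (Ltr Fr Sym)),
      (∀ c d, ∃ es' o', A2GL es' o' ∧ A2LB es' o' = List.replicate i false ++ c :: d :: L ∧
        ∀ T, cflat es'.reverse ++ (o' :: T) =
          cflat es2.reverse ++ (cflat [E d] ++ (U c ++ T))) ∧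
      (∀ T, cflat es.reverse ++ (o :: T) = cflat es2.reverse ++ (cflat [E b] ++ (U a ++ T))) ∧
      (∀ d, CE d (E d)) ∧ E true = ((E false).1.setK true, (E false).2) ∧
      InL (U true) (U false) := by
  unfold A2LB at hb
  cases i with
  | zero =>
    simp only [List.replicate_zero, List.nil_append, List.cons.injEq] at hb
    obtain ⟨ho, hm⟩ := hb
    cases es with
    | nil => simp at hm
    | cons e es2 =>
      simp only [List.map_cons, List.cons.injEq] at hm
      obtain ⟨he, hm⟩ := hm
      refine ⟨es2, fun d => (e.1.setK d, e.2), fun c => [o.setK c], ?_, ?_, ?_, rfl, ?_⟩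
      · intro c d
        refine ⟨(e.1.setK d, e.2) :: es2, o.setK c, ⟨?_, hg.2⟩, ?_, ?_⟩
        · intro e' he'
          rcases List.mem_cons.1 he' with rfl | h
          · exact (hg.1 e (by simp)).setK d
          · exact hg.1 e' (by simp [h])
        · simp [A2LB, A2_setK_k, hm]
        · intro T
          rw [List.reverse_cons, A2_cflat_append]; simp
      · intro T
        beta_reduce
        rw [List.reverse_cons, A2_cflat_append, A2_setK_of ho, A2_setK_of he]; simp
      · intro d
        exact ((hg.1 e (by simp)).setK d).ce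
      · exact InL.cell (o.setK true) hg.2 rfl
  | succ m =>
    rw [List.replicate_succ, List.cons_append, List.cons.injEq] at hb
    obtain ⟨ho, hm⟩ := hb
    obtain ⟨es1, es3, rfl, h1, h2, h3⟩ := A2_map_rep _ m es _ hm
    cases es3 with
    | nil => simp at h2
    | cons e1 es4 =>
    cases es4 with
    | nil => simp at h2
    | cons e es2 =>
      simp only [List.map_cons, List.cons.injEq] at h2
      obtain ⟨ha, hb, hL⟩ := h2
      refine ⟨es2, fun d => (e.1.setK d, e.2),
        fun c => cflat ((e1.1.setK c, e1.2) :: es1.reverse) ++ [o], ?_, ?_, ?_, rfl, ?_⟩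
      · intro c d
        refine ⟨es1 ++ (e1.1.setK c, e1.2) :: (e.1.setK d, e.2) :: es2, o, ⟨?_, hg.2⟩, ?_, ?_⟩
        · intro e' he'
          simp only [List.mem_append, List.mem_cons] at he'
          rcases he' with h | rfl | rfl | h
          · exact hg.1 e' (by simp [h])
          · exact (hg.1 e1 (by simp)).setK c
          · exact (hg.1 e (by simp)).setK d
          · exact hg.1 e' (by simp [h])
        · have : List.map (fun e : Ltr Fr Sym × List (Ltr Fr Sym) × Ltr Fr Sym => e.1.k) es1
              = List.replicate m false := by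
            rw [List.eq_replicate_iff]
            refine ⟨by simpa using h3, ?_⟩
            intro x hx
            obtain ⟨y, hy, rfl⟩ := List.mem_map.1 hx
            exact h1 y hy
          simp [A2LB, A2_setK_k, ho, this, List.replicate_succ, hL]
        · intro T
          simp [A2_cflat_append, A2_cflat_cons, A2_cflat_nil, List.append_assoc]
      · intro T
        beta_reduce
        rw [A2_setK_of ha, A2_setK_of hb]
        simp [A2_cflat_append, A2_cflat_cons, A2_cflat_nil, List.append_assoc]
      · intro d
        exact ((hg.1 e (by simp)).setK d).ce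
      · refine InL.chain (e1.1.setK true, e1.2) es1.reverse o ?_ ?_ hg.2 ho
        · exact ((hg.1 e1 (by simp)).setK true).ce
        · intro e' he'
          have he'' : e' ∈ es1 := by simpa using he'
          have hh := (hg.1 e' (by simp [he''])).ce
          rw [h1 e' he''] at hh
          exact hh

/-- the right template -/
theorem A2_TR (X : Ltr Fr Sym → Prop) (hX : ∀ x, X x → Sep x) (hXk : ∀ x b, X x → X (x.setK b))
    (i : ℕ) (a b : Bool) (R : List Bool)
    (rs : List (Ltr Fr Sym × List (Ltr Fr Sym)))
    (hg : A2GR X rs) (hb : (rs.map fun p => p.1.k) = List.replicate i false ++ a :: b :: R) :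
    ∃ (rs1 : List (Ltr Fr Sym × List (Ltr Fr Sym))) (x x' : Bool → Ltr Fr Sym)
      (z rest : List (Ltr Fr Sym)),
      (∀ c d, ∃ rs', A2GR X rs' ∧
        (rs'.map fun p => p.1.k) = List.replicate i false ++ c :: d :: R ∧
        flat rs' = flat rs1 ++ x c :: (z ++ x' d :: rest)) ∧
      flat rs = flat rs1 ++ x a :: (z ++ x' b :: rest) ∧
      Spn (fun x => x.k = false) rs1 ∧ (∀ c, X0 (x c) ∧ (x c).k = c) ∧
      x false = (x true).setK false ∧ IsZ z ∧ (∀ d, Sep (x' d) ∧ (x' d).k = d) ∧
      x' true = (x' false).setK true := by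
  obtain ⟨l, q, rfl, hl, hq⟩ := hg
  obtain ⟨rs1, rs2, he, h1, h2, h3⟩ := A2_map_rep _ i _ _ hb
  cases rs2 with
  | nil => simp at h2
  | cons p rs3 =>
  cases rs3 with
  | nil => simp at h2
  | cons p' rs4 =>
    simp only [List.map_cons, List.cons.injEq] at h2
    obtain ⟨ha, hb', hR⟩ := h2
    -- p is not the last
    have hmap : List.map (fun p : Ltr Fr Sym × List (Ltr Fr Sym) => p.1.k) rs1
        = List.replicate i false := by
      rw [List.eq_replicate_iff]
      refine ⟨by simpa using h3, ?_⟩
      intro x hx
      obtain ⟨y, hy, rfl⟩ := List.mem_map.1 hx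
      exact h1 y hy
    have hlast : ∀ (ll : List (Ltr Fr Sym × List (Ltr Fr Sym))) (r : Ltr Fr Sym × List (Ltr Fr Sym)),
        p' :: rs4 = ll ++ [r] → l = rs1 ++ p :: ll ∧ q = r := by
      intro ll r h
      have : l ++ [q] = (rs1 ++ p :: ll) ++ [r] := by rw [he, h]; simp
      exact List.append_inj' this rfl |>.imp id (by simp)
    obtain ⟨ll, r, hll⟩ : ∃ ll r, p' :: rs4 = ll ++ [r] :=
      ⟨(p' :: rs4).dropLast, (p' :: rs4).getLast (by simp), by
        rw [List.dropLast_append_getLast]⟩
    obtain ⟨hl', hqr⟩ := hlast ll r hll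
    subst hqr
    have hp : X0 p.1 ∧ IsZ p.2 := hl p (by rw [hl']; simp)
    have hp' : Sep p'.1 := by
      cases ll with
      | nil =>
        simp only [List.nil_append, List.cons.injEq] at hll
        rw [hll.1]; exact hX _ hq
      | cons p'' ll' =>
        simp only [List.cons_append, List.cons.injEq] at hll
        rw [hll.1]; exact Or.inl (hl p'' (by rw [hl']; simp)).1.1
    refine ⟨rs1, fun c => p.1.setK c, fun d => p'.1.setK d, p.2, p'.2 ++ flat rs4, ?_, ?_, ?_, ?_,
      rfl, hp.2, ?_, rfl⟩
    · intro c d
      refine ⟨rs1 ++ (p.1.setK c, p.2) :: (p'.1.setK d, p'.2) :: rs4, ?_, ?_, ?_⟩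
      · cases ll with
        | nil =>
          simp only [List.nil_append, List.cons.injEq] at hll
          obtain ⟨rfl, rfl⟩ := hll
          refine ⟨rs1 ++ [(p.1.setK c, p.2)], (p'.1.setK d, p'.2), by simp, ?_, hXk _ _ hq⟩
          intro p1 hp1
          simp only [List.mem_append, List.mem_singleton] at hp1
          rcases hp1 with h | rfl
          · exact hl p1 (by rw [hl']; simp [h])
          · exact hp
        | cons p'' ll' =>
          simp only [List.cons_append, List.cons.injEq] at hll
          obtain ⟨rfl, rfl⟩ := hll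
          refine ⟨rs1 ++ (p.1.setK c, p.2) :: (p'.1.setK d, p'.2) :: ll', q, by simp, ?_, hq⟩
          intro p1 hp1
          simp only [List.mem_append, List.mem_cons] at hp1
          rcases hp1 with h | rfl | rfl | h
          · exact hl p1 (by rw [hl']; simp [h])
          · exact hp
          · exact hl p' (by rw [hl']; simp)
          · exact hl p1 (by rw [hl']; simp [h])
      · simp [hmap, A2_setK_k, hR]
      · simp [A2_flat_append, A2_flat_cons]
    · beta_reduce
      rw [he, A2_setK_of ha, A2_setK_of hb']
      simp [A2_flat_append, A2_flat_cons]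
    · intro p1 hp1
      have hm : p1 ∈ l := by rw [hl']; simp [hp1]
      exact ⟨(hl p1 hm).1, h1 p1 hp1, (hl p1 hm).2⟩
    · intro c; exact ⟨hp.1, rfl⟩
    · intro d; exact ⟨hp', rfl⟩


theorem A2GR.head {X : Ltr Fr Sym → Prop} (hX : ∀ x, X x → Sep x)
    (hXk : ∀ x b, X x → X (x.setK b)) {p : Ltr Fr Sym × List (Ltr Fr Sym)}
    {rs : List (Ltr Fr Sym × List (Ltr Fr Sym))} (h : A2GR X (p :: rs)) :
    Sep p.1 ∧ ∀ c, A2GR X ((p.1.setK c, p.2) :: rs) := by
  obtain ⟨l, q, he, hl, hq⟩ := h
  cases l with
  | nil =>
    simp only [List.nil_append, List.cons.injEq] at he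
    obtain ⟨rfl, rfl⟩ := he
    exact ⟨hX _ hq, fun c => ⟨[], (p.1.setK c, p.2), rfl, by simp, hXk _ _ hq⟩⟩
  | cons p' l =>
    simp only [List.cons_append, List.cons.injEq] at he
    obtain ⟨rfl, rfl⟩ := he
    refine ⟨Or.inl (hl p (by simp)).1.1, fun c => ⟨(p.1.setK c, p.2) :: l, q, rfl, ?_, hq⟩⟩
    intro p1 hp1
    rcases List.mem_cons.1 hp1 with rfl | h
    · exact hl p (by simp)
    · exact hl p1 (by simp [h])

/-- the predicate of the game -/
def A2D (M : Mach Fr Sym) (X : Ltr Fr Sym → Prop) (w s y : Ltr Fr Sym) (L R : List Bool) : Prop :=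
  ∀ (es : List (Ltr Fr Sym × List (Ltr Fr Sym) × Ltr Fr Sym)) (o : Ltr Fr Sym)
    (rs : List (Ltr Fr Sym × List (Ltr Fr Sym))), A2GL es o → A2GR X rs → A2LB es o = L →
    (rs.map fun p => p.1.k) = R →
    DeadM M (w :: (cflat es.reverse ++ (o :: s :: y :: flat rs)))

/-- swapping a rule inside -/
theorem A2_rule {M : Mach Fr Sym} {u v : List (Ltr Fr Sym)} (h : RuleK u v) : EqM M u v :=
  Eqv.of_rule (Or.inr (Or.inl h))

theorem A2_kill {M : Mach Fr Sym} {u : List (Ltr Fr Sym)} (h : KillK u) : DeadM M u :=
  Dead.of_kill (Or.inr (Or.inl h))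

theorem A2_game (M : Mach Fr Sym) (X : Ltr Fr Sym → Prop) (w s y : Ltr Fr Sym) (n : ℕ)
    (hs : Sep s) (hy : O0 y)
    (ht : (X0 w ∧ X = X0) ∨ (X1 w ∧ X = X1)) : A2Game n (A2D M X w s y) := by
  have hX : ∀ x, X x → Sep x := by
    intro x hx
    rcases ht with ⟨-, rfl⟩ | ⟨-, rfl⟩
    · exact Or.inl hx.1
    · exact Or.inr hx
  have hXk : ∀ x b, X x → X (x.setK b) := by
    intro x b hx
    rcases ht with ⟨-, rfl⟩ | ⟨-, rfl⟩
    · exact hx
    · exact hx
  constructor
  · -- m0
    intro L R hL hR
    have key : ∀ b c, A2D M X w s y (c :: L) (c :: R) → A2D M X w s y (b :: L) (b :: R) := by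
      intro b c hD es o rs hgl hgr hbl hbr
      cases rs with
      | nil => simp at hbr
      | cons p rs =>
        simp only [List.map_cons, List.cons.injEq] at hbr
        obtain ⟨hpb, hR'⟩ := hbr
        simp only [A2LB, List.cons.injEq] at hbl
        obtain ⟨hob, hL'⟩ := hbl
        obtain ⟨hsep, hgr'⟩ := hgr.head hX hXk
        have h1 := hD es (o.setK c) ((p.1.setK c, p.2) :: rs) hgl (hgr' c)
          (by simp [A2LB, A2_setK_k, hL']) (by simp [A2_setK_k, hR'])
        rw [A2_flat_cons] at h1 ⊢
        have hE : ∀ b c : Bool, EqM M [o.setK b, s, y, p.1.setK b] [o.setK c, s, y, p.1.setK c] := by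
          have h0 : EqM M [o.setK false, s, y, p.1.setK false] [o.setK true, s, y, p.1.setK true] :=
            A2_rule (RuleK.k0 (o.setK false) s y (p.1.setK false) hgl.2 rfl hs hy hsep rfl)
          intro b c
          cases b <;> cases c
          · exact Eqv.refl _
          · exact h0
          · exact h0.symm
          · exact Eqv.refl _
        have h2 := ((hE b c).ctx (w :: cflat es.reverse) (p.2 ++ flat rs)).dead.2
          (by simpa using h1)
        rw [A2_setK_of hob, A2_setK_of hpb] at h2
        simpa using h2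
    exact ⟨key true false, key false true⟩
  · -- m1
    intro i i' L R hL hR
    have key : ∀ a b : Bool, a ≠ b →
        A2D M X w s y (List.replicate i false ++ b :: a :: L)
          (List.replicate i' false ++ b :: a :: R) →
        A2D M X w s y (List.replicate i false ++ a :: b :: L)
          (List.replicate i' false ++ a :: b :: R) := by
      intro a b hab hD es o rs hgl hgr hbl hbr
      obtain ⟨es2, E, U, hl1, hl2, hE, hE', hU⟩ := A2_TL i a b L es o hgl hbl
      obtain ⟨rs1, x, x', z, rest, hr1, hr2, hsp, hx, hx2, hz, hx', hx3⟩ :=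
        A2_TR X hX hXk i' a b R rs hgr hbr
      obtain ⟨es', o', hgl', hbl', hw'⟩ := hl1 b a
      obtain ⟨rs', hgr', hbr', hwr'⟩ := hr1 b a
      have h1 := hD es' o' rs' hgl' hgr' hbl' hbr'
      rw [hw', hwr'] at h1
      rw [hl2, hr2]
      have h0 : EqM M (cflat [E false] ++ (U true ++ s :: y :: (flat rs1 ++ x true :: (z ++ [x' false]))))
          (cflat [E true] ++ (U false ++ s :: y :: (flat rs1 ++ x false :: (z ++ [x' true])))) := by
        rw [hE', hx2, hx3]
        exact A2_rule (RuleK.k1 (E false) (U true) (U false) s y rs1 (x true) z (x' false)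
          (hE false) hU hs hy hsp (hx true).1 (hx true).2 hz (hx' false).1 (hx' false).2)
      have h2 := h0.ctx (w :: cflat es2.reverse) rest
      have hb : b = !a := by
        cases a <;> cases b <;> first | rfl | exact absurd rfl hab
      subst hb
      cases a
      · have h3 := h2.dead.1 (by simpa using h1)
        simpa using h3
      · have h3 := h2.dead.2 (by simpa using h1)
        simpa using h3
    exact ⟨key false true (by simp), key true false (by simp)⟩
  · -- k0
    intro b b' L R hL hR hbb es o rs hgl hgr hbl hbr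
    cases rs with
    | nil => simp at hbr
    | cons p rs =>
      simp only [List.map_cons, List.cons.injEq] at hbr
      simp only [A2LB, List.cons.injEq] at hbl
      obtain ⟨hsep, -⟩ := hgr.head hX hXk
      have h1 : DeadM M [o, s, y, p.1] :=
        A2_kill (KillK.k0 o s y p.1 hgl.2 hs hy hsep (by rw [hbl.1, hbr.1]; exact hbb))
      rw [A2_flat_cons]
      have h2 := h1.ctx (w :: cflat es.reverse) (p.2 ++ flat rs)
      simpa using h2
  · -- kb
    intro i i' b b' L R hL hR hbb es o rs hgl hgr hbl hbr
    obtain ⟨es2, E, U, hl1, hl2, hE, hE', hU⟩ := A2_TL i true b L es o hgl hbl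
    obtain ⟨rs1, x, x', z, rest, hr1, hr2, hsp, hx, hx2, hz, hx', hx3⟩ :=
      A2_TR X hX hXk i' true b' R rs hgr hbr
    rw [hl2, hr2]
    have h1 : DeadM M (cflat [E b] ++ (U true ++ s :: y :: (flat rs1 ++ x true :: (z ++ [x' b'])))) :=
      A2_kill (KillK.kb b (E b) (U true) (U false) s y rs1 (x true) z (x' b')
        (hE b) hU hs hy hsp (hx true).1 (hx true).2 hz (hx' b').1
        (by rw [(hx' b').2]; exact fun h => hbb h.symm))
    have h2 := h1.ctx (w :: cflat es2.reverse) rest
    simpa using h2
  · -- kt
    intro es o rs hgl hgr hbl hbr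
    obtain ⟨l, q, rfl, hl, hq⟩ := hgr
    have hlq : (∀ p ∈ l, p.1.k = false) ∧ q.1.k = true := by
      rw [List.map_append, List.map_singleton] at hbr
      obtain ⟨h1, h2⟩ := List.append_inj' hbr rfl
      refine ⟨?_, by simpa using h2⟩
      intro p hp
      have : p.1.k ∈ List.replicate n false := by
        rw [← h1]; exact List.mem_map.2 ⟨p, hp, rfl⟩
      exact List.eq_of_mem_replicate this
    have hspn : Spn (fun x : Ltr Fr Sym => x.k = false) l :=
      fun p hp => ⟨(hl p hp).1, hlq.1 p hp, (hl p hp).2⟩
    obtain ⟨u, u', hu, hInL⟩ : ∃ u u', cflat es.reverse ++ [o] = u ∧ InL u u' := by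
      cases n with
      | zero =>
        simp only [A2LB, List.replicate_zero, List.nil_append, List.cons.injEq,
          List.map_eq_nil_iff] at hbl
        obtain ⟨ho, rfl⟩ := hbl
        exact ⟨_, _, rfl, by simpa [A2_cflat_nil] using InL.cell o hgl.2 ho⟩
      | succ m =>
        simp only [A2LB, List.replicate_succ, List.cons_append, List.cons.injEq] at hbl
        obtain ⟨ho, hm⟩ := hbl
        obtain ⟨es1, es3, rfl, h1, h2, h3⟩ := A2_map_rep _ m es _ hm
        cases es3 with
        | nil => simp at h2
        | cons e1 es4 =>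
          simp only [List.map_cons, List.cons.injEq, List.map_eq_nil_iff] at h2
          obtain ⟨he1, rfl⟩ := h2
          refine ⟨_, cflat ((e1.1.setK false, e1.2) :: es1.reverse) ++ [o], rfl, ?_⟩
          have := InL.chain e1 es1.reverse o ?_ ?_ hgl.2 ho
          · simpa using this
          · have := (hgl.1 e1 (by simp)).ce
            rwa [he1] at this
          · intro e' he'
            have he'' : e' ∈ es1 := by simpa using he'
            have hh := (hgl.1 e' (by simp [he''])).ce
            rw [h1 e' he''] at hh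
            exact hh
    have h1 : DeadM M (w :: (u ++ s :: y :: (flat l ++ [q.1]))) := by
      rcases ht with ⟨hw, rfl⟩ | ⟨hw, rfl⟩
      · exact A2_kill (KillK.k2 w u u' s y l q.1 hw hInL hs hy hspn hq hlq.2)
      · exact A2_kill (KillK.k3 w u u' s y l q.1 hw hInL hs hy hspn hq hlq.2)
    have h2 := h1.right q.2
    rw [← hu] at h2
    rw [A2_flat_append, A2_flat_cons]
    simpa [flat] using h2


/-- the chain of a type 1 block -/
theorem A2_chain (h : StA1) (M : Mach Fr Sym) : ∀ (j : ℕ) (v : List (Ltr Fr Sym)),
    Blk j true false v → ∃ (es : List (Ltr Fr Sym × List (Ltr Fr Sym) × Ltr Fr Sym)) (o : Ltr Fr Sym),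
      es.length = j ∧ (∀ e ∈ es, A2GE e) ∧ O1 o ∧ EqM M v (cflat es ++ [o]) := by
  intro j
  induction j with
  | zero =>
    intro v hv
    cases hv with
    | z1 x hx hp => exact ⟨[], x, rfl, by simp, hx, by simpa [A2_cflat_nil] using Eqv.refl _⟩
  | succ j ih =>
    intro v hv
    cases hv with
    | s1 _ u s v' hu hs hps hv' =>
      obtain ⟨es, o, hlen, hes, ho, heq⟩ := ih v' hv'
      obtain ⟨-, hspine, hmark, -⟩ := h Fr Sym M
      obtain ⟨y, l, hy, hya, rfl, hll, -⟩ := hspine j false u hu
      obtain ⟨hpl, hm⟩ := hmark j y (flat l) s hu hs hps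
      refine ⟨(y.setA true, flat l, s.setA true) :: es, o, by simp [hlen], ?_, ho, ?_⟩
      · intro e he
        rcases List.mem_cons.1 he with rfl | h
        · exact ⟨⟨hy, rfl⟩, hpl, ⟨hs, rfl⟩⟩
        · exact hes e h
      · rw [A2_cflat_cons]
        have := hm.append heq
        simpa using this

/-- tokenising the spine -/
theorem A2_spine (h : StA1) (M : Mach Fr Sym) : ∀ (l : List (Ltr Fr Sym × List (Ltr Fr Sym))),
    (∀ (i : ℕ) (h : i < l.length), X0 l[i].1 ∧ ∃ j, Blk j true false l[i].2) →
    ∃ l' : List (Ltr Fr Sym × List (Ltr Fr Sym)), l'.length = l.length ∧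
      (∀ p ∈ l', X0 p.1 ∧ IsZ p.2) ∧ EqM M (flat l) (flat l') := by
  intro l
  induction l with
  | nil => intro _; exact ⟨[], rfl, by simp, Eqv.refl _⟩
  | cons p l ih =>
    intro hl
    obtain ⟨l', hlen, hg, heq⟩ := ih (fun i hi => by
      have := hl (i + 1) (by simpa using hi)
      simpa using this)
    obtain ⟨hp, j, hb⟩ := hl 0 (by simp)
    obtain ⟨z, hz, hze⟩ := (h Fr Sym M).1 j p.2 hb
    refine ⟨(p.1, z) :: l', by simp [hlen], ?_, ?_⟩
    · intro q hq
      rcases List.mem_cons.1 hq with rfl | h
      · exact ⟨hp, hz⟩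
      · exact hg q h
    · rw [A2_flat_cons, A2_flat_cons]
      exact (hze.append heq).cons p.1

theorem tA2 (h : StA1) : StA2 := by
  intro Fr Sym M j t α β u s v hu hs hv
  cases j with
  | zero =>
    cases hu with
    | z0 x hx =>
      cases hv with
      | z0 y hy => exact Dead.of_kill (Or.inl (KillA.s3 x s y hx hs hy))
    | z1 x hx _ =>
      cases hv with
      | z1 y hy _ => exact Dead.of_kill (Or.inl (KillA.s4 x s y hx hs hy))
  | succ n =>
    -- the general form
    have gen : ∀ (X : Ltr Fr Sym → Prop) (u1 v1 u2 v2 : List (Ltr Fr Sym)) (w w' : Ltr Fr Sym)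
        (γ : Bool), Blk n true false v1 → Blk n false γ u2 →
        ((X0 w ∧ X = X0) ∨ (X1 w ∧ X = X1)) → X w' →
        DeadM M ((u1 ++ w :: v1) ++ s :: (u2 ++ w' :: v2)) := by
      intro X u1 v1 u2 v2 w w' γ hv1 hu2 ht hw'
      obtain ⟨es, o, hlen, hes, ho, heq⟩ := A2_chain h M n v1 hv1
      obtain ⟨-, hspine, -, -⟩ := h Fr Sym M
      obtain ⟨y, l, hy, hya, rfl, hll, hblk⟩ := hspine n γ u2 hu2
      obtain ⟨l', hlen', hl', heq'⟩ := A2_spine h M l
        (fun i hi => ⟨(hblk i hi).1, i, (hblk i hi).2⟩)
      have hD := (A2_game M X w s y n hs hy ht).all ((A2LB es.reverse o).count true)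
        (A2LB es.reverse o) ((l' ++ [(w', v2)]).map fun p => p.1.k)
        (by simp [A2LB, hlen]) (by simp [hlen', hll]) le_rfl es.reverse o (l' ++ [(w', v2)])
        ⟨by simpa using hes, ho⟩ ⟨l', (w', v2), rfl, hl', hw'⟩ rfl rfl
      rw [List.reverse_reverse, A2_flat_append, A2_flat_cons] at hD
      have e1 := (heq.ctx (u1 ++ [w]) (s :: y :: (flat l ++ w' :: v2)))
      have e2 := heq'.ctx (u1 ++ [w] ++ (cflat es ++ [o]) ++ [s, y]) (w' :: v2)
      have e3 : DeadM M (u1 ++ (w :: (cflat es ++ (o :: s :: y :: (flat l' ++ (w' :: (v2 ++ flat []))))))) :=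
        hD.left u1
      have e4 := e2.dead.2 (by simpa [flat] using e3)
      have e5 := e1.dead.2 (by simpa using e4)
      simpa using e5
    cases hu with
    | s0 _ _ u1 w v1 hu1 hw hv1 =>
      cases hv with
      | s0 _ _ u2 w' v2 hu2 hw' hv2 =>
        exact gen X0 u1 v1 u2 v2 w w' _ hv1 hu2 (Or.inl ⟨hw, rfl⟩) hw'
    | s1 _ u1 w v1 hu1 hw hpw hv1 =>
      cases hv with
      | s1 _ u2 w' v2 hu2 hw' hpw' hv2 =>
        exact gen X1 u1 v1 u2 v2 w w' _ hv1 hu2 (Or.inr ⟨hw, rfl⟩) hw'

end Pool.Agent.LibPeps
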