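import Pool.Agent.LibPeps.DefsA

set_option autoImplicit false

/-! Task A3: a clean block of type 1 and level J is dead if the machine halts within length J. -/

namespace Pool.Agent.LibPeps
open Ltr

variable {Fr Sym : Type}

/-- A spine word. -/
def A3_wd (y : Ltr Fr Sym) (l : List (Ltr Fr Sym × List (Ltr Fr Sym))) (s : Ltr Fr Sym) :
    List (Ltr Fr Sym) := y :: (flat l ++ [s])

/-- The contents of a spine. -/
def A3_cont (l : List (Ltr Fr Sym × List (Ltr Fr Sym))) (s : Ltr Fr Sym) :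
    List (Con Fr Sym) := l.map (fun p => p.1.c) ++ [s.c]

/-- Complete spines. -/
def A3_good (l : List (Ltr Fr Sym × List (Ltr Fr Sym))) (s : Ltr Fr Sym) : Prop :=
  Spn (fun _ => True) l ∧ X1 s

/-- All spines with the contents cs are dead. -/
def A3_AD (M : Mach Fr Sym) (cs : List (Con Fr Sym)) : Prop :=
  ∀ y l s, O0 y → A3_good l s → A3_cont l s = cs → DeadM M (A3_wd y l s)

theorem A3_flat_append (l l' : List (Ltr Fr Sym × List (Ltr Fr Sym))) :
    flat (l ++ l') = flat l ++ flat l' := by simp [flat]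

theorem A3_flat_cons (p : Ltr Fr Sym × List (Ltr Fr Sym))
    (l : List (Ltr Fr Sym × List (Ltr Fr Sym))) :
    flat (p :: l) = p.1 :: (p.2 ++ flat l) := by simp [flat]

theorem A3_flat_nil : flat ([] : List (Ltr Fr Sym × List (Ltr Fr Sym))) = [] := rfl

theorem A3_split {l : List (Ltr Fr Sym × List (Ltr Fr Sym))} {s : Ltr Fr Sym}
    {A B : List (Con Fr Sym)} {c : Con Fr Sym} (h : A3_cont l s = A ++ c :: B) :
    (B = [] ∧ l.map (fun p => p.1.c) = A ∧ s.c = c) ∨
    ∃ l1 p l2, l = l1 ++ p :: l2 ∧ l1.map (fun p => p.1.c) = A ∧ p.1.c = c ∧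
      A3_cont l2 s = B := by
  induction A generalizing l with
  | nil =>
    cases l with
    | nil => left; simp [A3_cont] at h; simp [h]
    | cons p l =>
      right
      simp only [A3_cont, List.map_cons, List.nil_append, List.cons_append, List.cons.injEq] at h
      exact ⟨[], p, l, rfl, rfl, h.1, h.2⟩
  | cons a A ih =>
    cases l with
    | nil => simp [A3_cont] at h
    | cons p l =>
      simp only [A3_cont, List.map_cons, List.cons_append, List.cons.injEq] at h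
      rcases ih (l := l) h.2 with ⟨h1, h2, h3⟩ | ⟨l1, q, l2, h1, h2, h3, h4⟩
      · left; exact ⟨h1, by simp [h2, h.1], h3⟩
      · right; exact ⟨p :: l1, q, l2, by simp [h1], by simp [h2, h.1], h3, h4⟩

theorem A3_setC_self (x : Ltr Fr Sym) : x.setC x.c = x := rfl

theorem A3_setC_self' (x : Ltr Fr Sym) {c : Con Fr Sym} (h : x.c = c) : x.setC c = x := by
  subst h; rfl

theorem A3_setC_setC (x : Ltr Fr Sym) (c d : Con Fr Sym) : (x.setC c).setC d = x.setC d := rfl

theorem A3_X0_setC {x : Ltr Fr Sym} (h : X0 x) (c : Con Fr Sym) : X0 (x.setC c) := h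
theorem A3_X1_setC {x : Ltr Fr Sym} (h : X1 x) (c : Con Fr Sym) : X1 (x.setC c) := h
theorem A3_sep0 {x : Ltr Fr Sym} (h : X0 x) : Sep x := Or.inl h.1
theorem A3_sep1 {x : Ltr Fr Sym} (h : X1 x) : Sep x := Or.inr h

theorem A3_spn_app {P : Ltr Fr Sym → Prop} {l l' : List (Ltr Fr Sym × List (Ltr Fr Sym))} :
    Spn P (l ++ l') ↔ Spn P l ∧ Spn P l' := by
  unfold Spn
  constructor
  · intro h
    exact ⟨fun p hp => h p (by simp [hp]), fun p hp => h p (by simp [hp])⟩
  · rintro ⟨h, h'⟩ p hp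
    rcases List.mem_append.1 hp with hp | hp
    · exact h p hp
    · exact h' p hp

theorem A3_spn_cons {P : Ltr Fr Sym → Prop} {p : Ltr Fr Sym × List (Ltr Fr Sym)}
    {l : List (Ltr Fr Sym × List (Ltr Fr Sym))} :
    Spn P (p :: l) ↔ (X0 p.1 ∧ P p.1 ∧ IsZ p.2) ∧ Spn P l := by
  unfold Spn; simp

/-- A transfer step. -/
theorem A3_AD.of (M : Mach Fr Sym) {cs cs' : List (Con Fr Sym)}
    (h : ∀ y l s, O0 y → A3_good l s → A3_cont l s = cs →
      ∃ l' s', A3_good l' s' ∧ A3_cont l' s' = cs' ∧ EqM M (A3_wd y l s) (A3_wd y l' s'))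
    (hd : A3_AD M cs') : A3_AD M cs := by
  intro y l s hy hg hc
  obtain ⟨l', s', hg', hc', he⟩ := h y l s hy hg hc
  exact he.dead.2 (hd y l' s' hy hg' hc')

theorem A3_rc {M : Mach Fr Sym} {u v : List (Ltr Fr Sym)} (h : RuleC M u v) : EqM M u v :=
  Eqv.of_rule (Or.inr (Or.inr h))

theorem A3_kc {M : Mach Fr Sym} {u : List (Ltr Fr Sym)} (h : KillC M u) : DeadM M u :=
  Dead.of_kill (Or.inr (Or.inr h))


/-- The next separator. -/
theorem A3_next {l : List (Ltr Fr Sym × List (Ltr Fr Sym))} {s : Ltr Fr Sym}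
    {d : Con Fr Sym} {N : List (Con Fr Sym)} (hg : A3_good l s) (h : A3_cont l s = d :: N) :
    ∃ x' rest, Sep x' ∧ x'.c = d ∧ flat l ++ [s] = x' :: rest ∧
      ∀ d', ∃ l' s', A3_good l' s' ∧ A3_cont l' s' = d' :: N ∧
        flat l' ++ [s'] = x'.setC d' :: rest := by
  rcases A3_split (A := []) h with ⟨rfl, h2, h3⟩ | ⟨l1, p, l2, rfl, h2, h3, h4⟩
  · have hl : l = [] := by simpa using h2
    subst hl
    refine ⟨s, [], A3_sep1 hg.2, h3, rfl, fun d' => ⟨[], s.setC d', ⟨hg.1, hg.2⟩, rfl, rfl⟩⟩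
  · have hl : l1 = [] := by simpa using h2
    subst hl
    have hs := A3_spn_cons.1 hg.1
    refine ⟨p.1, p.2 ++ (flat l2 ++ [s]), A3_sep0 hs.1.1, h3, ?_, fun d' =>
      ⟨(p.1.setC d', p.2) :: l2, s, ⟨A3_spn_cons.2 ⟨⟨hs.1.1, trivial, hs.1.2.2⟩, hs.2⟩, hg.2⟩,
        ?_, ?_⟩⟩
    · simp [A3_flat_cons]
    · simp only [A3_cont, List.map_cons] at h4 ⊢
      rw [← h4]; rfl
    · simp [A3_flat_cons]

/-- creation and removal of the front -/
theorem A3_c0 (M : Mach Fr Sym) (B : List (Con Fr Sym)) :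
    A3_AD M (.fr M.ini :: B) ↔ A3_AD M (.nil :: B) := by
  constructor
  · apply A3_AD.of
    intro y l s hy hg hc
    obtain ⟨x, rest, hx, hxc, he, hm⟩ := A3_next hg hc
    obtain ⟨l', s', hg', hc', he'⟩ := hm (.fr M.ini)
    refine ⟨l', s', hg', hc', ?_⟩
    have := (A3_rc (RuleC.c0 (M := M) y x hy hx hxc)).right rest
    simpa [A3_wd, he, he'] using this
  · apply A3_AD.of
    intro y l s hy hg hc
    obtain ⟨x, rest, hx, hxc, he, hm⟩ := A3_next hg hc
    obtain ⟨l', s', hg', hc', he'⟩ := hm .nil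
    refine ⟨l', s', hg', hc', ?_⟩
    have := (A3_rc (RuleC.c0 (M := M) y (x.setC .nil) hy hx rfl)).symm
    rw [A3_setC_setC, A3_setC_self' x hxc] at this
    have := this.right rest
    simpa [A3_wd, he, he'] using this

/-- a separator and the rest -/
theorem A3_sh3 {l : List (Ltr Fr Sym × List (Ltr Fr Sym))} {s : Ltr Fr Sym}
    {A N : List (Con Fr Sym)} {c d : Con Fr Sym} (hg : A3_good l s)
    (h : A3_cont l s = A ++ c :: d :: N) :
    ∃ l1 x z l3, l = l1 ++ (x, z) :: l3 ∧ l1.map (fun p => p.1.c) = A ∧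
      Spn (fun _ => True) l1 ∧ X0 x ∧ x.c = c ∧ IsZ z ∧ A3_good l3 s ∧
      A3_cont l3 s = d :: N := by
  rcases A3_split h with ⟨h1, _, _⟩ | ⟨l1, p, l2, rfl, h2, h3, h4⟩
  · simp at h1
  · have h5 := A3_spn_app.1 hg.1
    have h6 := A3_spn_cons.1 h5.2
    exact ⟨l1, p.1, p.2, l2, rfl, h2, h5.1, h6.1.1, h3, h6.1.2.2, ⟨h6.2, hg.2⟩, h4⟩

/-- local change of two neighbouring contents -/
theorem A3_loc3 (M : Mach Fr Sym) (A N : List (Con Fr Sym)) (c d c' d' : Con Fr Sym)
    (H : ∀ (x : Ltr Fr Sym) z x', X0 x → IsZ z → Sep x' → x.c = c → x'.c = d →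
      EqM M (x :: (z ++ [x'])) (x.setC c' :: (z ++ [x'.setC d']))) :
    A3_AD M (A ++ c' :: d' :: N) → A3_AD M (A ++ c :: d :: N) := by
  apply A3_AD.of
  intro y l s hy hg hc
  obtain ⟨l1, x, z, l3, rfl, h2, h3, h4, h5, h6, h7, h8⟩ := A3_sh3 hg hc
  obtain ⟨x', rest, hx, hxc, he, hm⟩ := A3_next h7 h8
  obtain ⟨l', s', hg', hc', he'⟩ := hm d'
  refine ⟨l1 ++ (x.setC c', z) :: l', s', ⟨A3_spn_app.2 ⟨h3, A3_spn_cons.2 ⟨⟨h4, trivial, h6⟩,
    hg'.1⟩⟩, hg'.2⟩, ?_, ?_⟩
  · simp only [A3_cont, List.map_append, List.map_cons, h2, List.append_assoc,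
      List.cons_append] at hc' ⊢
    rw [hc']; rfl
  · have := (H x z x' h4 h6 hx h5 hxc).ctx (y :: flat l1) rest
    simpa [A3_wd, A3_flat_append, A3_flat_cons, he, he'] using this

/-- kill by two neighbouring contents -/
theorem A3_kil3 (M : Mach Fr Sym) (A N : List (Con Fr Sym)) (c d : Con Fr Sym)
    (H : ∀ (x : Ltr Fr Sym) z x', X0 x → IsZ z → Sep x' → x.c = c → x'.c = d →
      KillC M (x :: (z ++ [x']))) :
    A3_AD M (A ++ c :: d :: N) := by
  intro y l s hy hg hc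
  obtain ⟨l1, x, z, l3, rfl, h2, h3, h4, h5, h6, h7, h8⟩ := A3_sh3 hg hc
  obtain ⟨x', rest, hx, hxc, he, hm⟩ := A3_next h7 h8
  have := (A3_kc (H x z x' h4 h6 hx h5 hxc)).ctx (y :: flat l1) rest
  simpa [A3_wd, A3_flat_append, A3_flat_cons, he] using this

theorem A3_spn_unc {l : List (Ltr Fr Sym × List (Ltr Fr Sym))} {u : List Sym}
    (h : Spn (fun _ => True) l) (h' : l.map (fun p => p.1.c) = u.map .unc) :
    Spn (fun x => x.c.IsUnc) l := by
  intro p hp
  refine ⟨(h p hp).1, ?_, (h p hp).2.2⟩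
  have : p.1.c ∈ u.map Con.unc := by
    rw [← h']; exact List.mem_map_of_mem hp
  obtain ⟨b, _, hb⟩ := List.mem_map.1 this
  exact ⟨b, hb.symm⟩

/-- shape: front, uncs, last -/
theorem A3_sh1 {l : List (Ltr Fr Sym × List (Ltr Fr Sym))} {s : Ltr Fr Sym}
    {A : List (Con Fr Sym)} {u : List Sym} {c d : Con Fr Sym} (hg : A3_good l s)
    (h : A3_cont l s = A ++ c :: (u.map .unc ++ [d])) :
    ∃ l1 x z lu, l = l1 ++ (x, z) :: lu ∧ l1.map (fun p => p.1.c) = A ∧
      Spn (fun _ => True) l1 ∧ X0 x ∧ x.c = c ∧ IsZ z ∧ Spn (fun _ => True) lu ∧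
      lu.map (fun p => p.1.c) = u.map .unc ∧ s.c = d := by
  rcases A3_split h with ⟨h1, _, _⟩ | ⟨l1, p, l2, rfl, h2, h3, h4⟩
  · simp at h1
  · have h5 := A3_spn_app.1 hg.1
    have h6 := A3_spn_cons.1 h5.2
    have h7 : l2.map (fun p => p.1.c) = u.map .unc ∧ s.c = d := by
      unfold A3_cont at h4
      have := List.append_inj' h4 rfl
      exact ⟨this.1, by simpa using this.2⟩
    exact ⟨l1, p.1, p.2, l2, rfl, h2, h5.1, h6.1.1, h3, h6.1.2.2, h6.2, h7.1, h7.2⟩

theorem A3_loc1 (M : Mach Fr Sym) (A : List (Con Fr Sym)) (u : List Sym) (c d c' d' : Con Fr Sym)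
    (H : ∀ (x : Ltr Fr Sym) z lu x', X0 x → IsZ z → Spn (fun x => x.c.IsUnc) lu → X1 x' →
      x.c = c → x'.c = d →
      EqM M (x :: (z ++ (flat lu ++ [x']))) (x.setC c' :: (z ++ (flat lu ++ [x'.setC d'])))) :
    A3_AD M (A ++ c' :: (u.map .unc ++ [d'])) → A3_AD M (A ++ c :: (u.map .unc ++ [d])) := by
  apply A3_AD.of
  intro y l s hy hg hc
  obtain ⟨l1, x, z, lu, rfl, h2, h3, h4, h5, h6, h7, h8, h9⟩ := A3_sh1 hg hc
  refine ⟨l1 ++ (x.setC c', z) :: lu, s.setC d', ⟨A3_spn_app.2 ⟨h3, A3_spn_cons.2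
    ⟨⟨h4, trivial, h6⟩, h7⟩⟩, hg.2⟩, ?_, ?_⟩
  · simp only [A3_cont, List.map_append, List.map_cons, h2, h8, List.append_assoc,
      List.cons_append]
    rfl
  · have := (H x z lu s h4 h6 (A3_spn_unc h7 h8) hg.2 h5 h9).left (y :: flat l1)
    simpa [A3_wd, A3_flat_append, A3_flat_cons] using this

theorem A3_kil1 (M : Mach Fr Sym) (A : List (Con Fr Sym)) (u : List Sym) (c d : Con Fr Sym)
    (H : ∀ (x : Ltr Fr Sym) z lu x', X0 x → IsZ z → Spn (fun x => x.c.IsUnc) lu → X1 x' →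
      x.c = c → x'.c = d → KillC M (x :: (z ++ (flat lu ++ [x'])))) :
    A3_AD M (A ++ c :: (u.map .unc ++ [d])) := by
  intro y l s hy hg hc
  obtain ⟨l1, x, z, lu, rfl, h2, h3, h4, h5, h6, h7, h8, h9⟩ := A3_sh1 hg hc
  have := (A3_kc (H x z lu s h4 h6 (A3_spn_unc h7 h8) hg.2 h5 h9)).left (y :: flat l1)
  simpa [A3_wd, A3_flat_append, A3_flat_cons] using this

/-- shape: front, uncs, x', next -/
theorem A3_sh2 {l : List (Ltr Fr Sym × List (Ltr Fr Sym))} {s : Ltr Fr Sym}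
    {A N : List (Con Fr Sym)} {u : List Sym} {c d e : Con Fr Sym} (hg : A3_good l s)
    (h : A3_cont l s = A ++ c :: (u.map .unc ++ d :: e :: N)) :
    ∃ l1 x z lu x' z' l3, l = l1 ++ (x, z) :: (lu ++ (x', z') :: l3) ∧
      l1.map (fun p => p.1.c) = A ∧
      Spn (fun _ => True) l1 ∧ X0 x ∧ x.c = c ∧ IsZ z ∧ Spn (fun _ => True) lu ∧
      lu.map (fun p => p.1.c) = u.map .unc ∧ X0 x' ∧ x'.c = d ∧ IsZ z' ∧ A3_good l3 s ∧
      A3_cont l3 s = e :: N := by
  rcases A3_split h with ⟨h1, _, _⟩ | ⟨l1, p, l2, rfl, h2, h3, h4⟩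
  · simp at h1
  · have h5 := A3_spn_app.1 hg.1
    have h6 := A3_spn_cons.1 h5.2
    obtain ⟨lu, x', z', l3, rfl, g2, g3, g4, g5, g6, g7, g8⟩ :=
      A3_sh3 (l := l2) ⟨h6.2, hg.2⟩ h4
    exact ⟨l1, p.1, p.2, lu, x', z', l3, rfl, h2, h5.1, h6.1.1, h3, h6.1.2.2, g3, g2, g4, g5, g6,
      g7, g8⟩

theorem A3_loc2 (M : Mach Fr Sym) (A N : List (Con Fr Sym)) (u : List Sym)
    (c d c' d' e : Con Fr Sym)
    (H : ∀ (x : Ltr Fr Sym) z lu x' z' s, X0 x → IsZ z → Spn (fun x => x.c.IsUnc) lu → X0 x' →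
      IsZ z' → Sep s → x.c = c → x'.c = d → s.c = e →
      EqM M (x :: (z ++ (flat lu ++ x' :: (z' ++ [s]))))
        (x.setC c' :: (z ++ (flat lu ++ x'.setC d' :: (z' ++ [s]))))) :
    A3_AD M (A ++ c' :: (u.map .unc ++ d' :: e :: N)) →
      A3_AD M (A ++ c :: (u.map .unc ++ d :: e :: N)) := by
  apply A3_AD.of
  intro y l s hy hg hc
  obtain ⟨l1, x, z, lu, x', z', l3, rfl, h2, h3, h4, h5, h6, h7, h8, g1, g2, g3, g4, g5⟩ :=
    A3_sh2 hg hc
  obtain ⟨s', rest, hx, hxc, he, hm⟩ := A3_next g4 g5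
  refine ⟨l1 ++ (x.setC c', z) :: (lu ++ (x'.setC d', z') :: l3), s, ⟨A3_spn_app.2 ⟨h3,
    A3_spn_cons.2 ⟨⟨h4, trivial, h6⟩, A3_spn_app.2 ⟨h7, A3_spn_cons.2 ⟨⟨g1, trivial, g3⟩,
      g4.1⟩⟩⟩⟩, hg.2⟩, ?_, ?_⟩
  · simp only [A3_cont, List.map_append, List.map_cons, h2, h8, List.append_assoc,
      List.cons_append] at g5 ⊢
    rw [g5]; rfl
  · have := (H x z lu x' z' s' h4 h6 (A3_spn_unc h7 h8) g1 g3 hx h5 g2 hxc).ctx
      (y :: flat l1) rest
    simpa [A3_wd, A3_flat_append, A3_flat_cons, he] using this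

theorem A3_kil2 (M : Mach Fr Sym) (A N : List (Con Fr Sym)) (u : List Sym)
    (c d e : Con Fr Sym)
    (H : ∀ (x : Ltr Fr Sym) z lu x' z' s, X0 x → IsZ z → Spn (fun x => x.c.IsUnc) lu → X0 x' →
      IsZ z' → Sep s → x.c = c → x'.c = d → s.c = e →
      KillC M (x :: (z ++ (flat lu ++ x' :: (z' ++ [s]))))) :
    A3_AD M (A ++ c :: (u.map .unc ++ d :: e :: N)) := by
  intro y l s hy hg hc
  obtain ⟨l1, x, z, lu, x', z', l3, rfl, h2, h3, h4, h5, h6, h7, h8, g1, g2, g3, g4, g5⟩ :=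
    A3_sh2 hg hc
  obtain ⟨s', rest, hx, hxc, he, hm⟩ := A3_next g4 g5
  have := (A3_kc (H x z lu x' z' s' h4 h6 (A3_spn_unc h7 h8) g1 g3 hx h5 g2 hxc)).ctx
      (y :: flat l1) rest
  simpa [A3_wd, A3_flat_append, A3_flat_cons, he] using this

/-! ### the rules on contents -/

theorem A3_push1 (M : Mach Fr Sym) (A : List (Con Fr Sym)) (u : List Sym) (φ φ' : Fr) (b : Sym)
    (h : M.push φ = some (b, φ')) :
    A3_AD M (A ++ .fr φ :: (u.map .unc ++ [.nil])) ↔
      A3_AD M (A ++ .fr φ' :: (u.map .unc ++ [.unc b])) := by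
  constructor
  · apply A3_loc1
    intro x z lu x' hx hz hl hx' hc hc'
    have := (A3_rc (RuleC.push1 φ φ' b (x.setC (.fr φ)) z lu (x'.setC .nil) h hx rfl hz hl hx'
      rfl)).symm
    rwa [A3_setC_setC, A3_setC_setC, A3_setC_self' x hc, A3_setC_self' x' hc'] at this
  · apply A3_loc1
    intro x z lu x' hx hz hl hx' hc hc'
    exact A3_rc (RuleC.push1 φ φ' b x z lu x' h hx hc hz hl hx' hc')

theorem A3_push2 (M : Mach Fr Sym) (A N : List (Con Fr Sym)) (u : List Sym) (φ φ' : Fr) (b : Sym)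
    (h : M.push φ = some (b, φ')) :
    A3_AD M (A ++ .fr φ :: (u.map .unc ++ .nil :: .nil :: N)) ↔
      A3_AD M (A ++ .fr φ' :: (u.map .unc ++ .unc b :: .nil :: N)) := by
  constructor
  · apply A3_loc2
    intro x z lu x' z' s hx hz hl hx' hz' hs hc hc' hsc
    have := (A3_rc (RuleC.push2 φ φ' b (x.setC (.fr φ)) z lu (x'.setC .nil) z' s h hx rfl hz hl hx'
      rfl hz' hs hsc)).symm
    rwa [A3_setC_setC, A3_setC_setC, A3_setC_self' x hc, A3_setC_self' x' hc'] at this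
  · apply A3_loc2
    intro x z lu x' z' s hx hz hl hx' hz' hs hc hc' hsc
    exact A3_rc (RuleC.push2 φ φ' b x z lu x' z' s h hx hc hz hl hx' hc' hz' hs hsc)

theorem A3_push (M : Mach Fr Sym) (A : List (Con Fr Sym)) (u : List Sym) (φ φ' : Fr) (b : Sym)
    (r : ℕ) (h : M.push φ = some (b, φ')) :
    A3_AD M (A ++ .fr φ :: (u.map .unc ++ List.replicate (r + 1) .nil)) ↔
      A3_AD M (A ++ .fr φ' :: ((u ++ [b]).map .unc ++ List.replicate r .nil)) := by
  cases r with
  | zero => simpa using A3_push1 M A u φ φ' b h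
  | succ r => simpa [List.replicate_succ] using A3_push2 M A (List.replicate r .nil) u φ φ' b h

theorem A3_move (M : Mach Fr Sym) (A N : List (Con Fr Sym)) (φ : Fr) (b : Sym)
    (h : M.push φ = none) :
    A3_AD M (A ++ .fr φ :: .unc b :: N) ↔
      A3_AD M (A ++ .cons φ :: .fr (M.enter φ b) :: N) := by
  constructor
  · apply A3_loc3
    intro x z x' hx hz hx' hc hc'
    have := (A3_rc (RuleC.move φ b (x.setC (.fr φ)) z (x'.setC (.unc b)) h hx rfl hz hx'
      rfl)).symm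
    rwa [A3_setC_setC, A3_setC_setC, A3_setC_self' x hc, A3_setC_self' x' hc'] at this
  · apply A3_loc3
    intro x z x' hx hz hx' hc hc'
    exact A3_rc (RuleC.move φ b x z x' h hx hc hz hx' hc')

/-- A configuration as a list of contents. -/
def A3_cfg (c : List Fr) (φ : Fr) (u : List Sym) (r : ℕ) : List (Con Fr Sym) :=
  c.map .cons ++ .fr φ :: (u.map .unc ++ List.replicate r .nil)

theorem A3_halt (M : Mach Fr Sym) (c : List Fr) (φ : Fr) (u : List Sym) (r : ℕ)
    (h : M.halt φ) : A3_AD M (A3_cfg c φ u r) := by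
  intro y l s hy hg hc
  rcases A3_split hc with ⟨h1, h2, h3⟩ | ⟨l1, p, l2, rfl, h2, h3, h4⟩
  · have := (A3_kc (KillC.c9 φ s (A3_sep1 hg.2) h3 h)).left (y :: flat l)
    simpa [A3_wd] using this
  · have hp : X0 p.1 := (A3_spn_cons.1 (A3_spn_app.1 hg.1).2).1.1
    have := (A3_kc (KillC.c9 φ p.1 (A3_sep0 hp) h3 h)).ctx (y :: flat l1)
      (p.2 ++ (flat l2 ++ [s]))
    simpa [A3_wd, A3_flat_append, A3_flat_cons] using this

/-- forward simulation -/
theorem A3_fwd (M : Mach Fr Sym) (J : ℕ) : ∀ (t : ℕ) (c : List Fr) (φ : Fr) (u : List Sym) (r : ℕ),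
    M.run t = some (c, φ, u) → c.length + u.length + 1 + r = J →
    A3_AD M (A3_cfg c φ u r) → A3_AD M (List.replicate J .nil) := by
  intro t
  induction t with
  | zero =>
    intro c φ u r ht hJ h
    simp only [Mach.run, Option.some.injEq, Prod.mk.injEq] at ht
    obtain ⟨rfl, rfl, rfl⟩ := ht
    have : J = r + 1 := by simp at hJ; omega
    subst this
    rw [List.replicate_succ]
    exact (A3_c0 M _).1 (by simpa [A3_cfg] using h)
  | succ t ih =>
    intro c φ u r ht hJ h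
    simp only [Mach.run, Option.bind_eq_some_iff] at ht
    obtain ⟨⟨c0, φ0, u0⟩, ht0, hn⟩ := ht
    unfold Mach.nxt at hn
    cases hp : M.push φ0 with
    | some q =>
      obtain ⟨b, φ'⟩ := q
      simp only [hp, Option.some.injEq, Prod.mk.injEq] at hn
      obtain ⟨rfl, rfl, rfl⟩ := hn
      refine ih c0 φ0 u0 (r + 1) ht0 (by simp at hJ; omega) ?_
      exact (A3_push M _ u0 φ0 φ' b r hp).2 h
    | none =>
      simp only [hp] at hn
      cases u0 with
      | nil => simp at hn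
      | cons b u' =>
        simp only [Option.some.injEq, Prod.mk.injEq] at hn
        obtain ⟨rfl, rfl, rfl⟩ := hn
        refine ih c0 φ0 (b :: u') r ht0 (by simp at hJ ⊢; omega) ?_
        have := (A3_move M (c0.map .cons) (u'.map .unc ++ List.replicate r .nil) φ0 b hp).2
          (by simpa [A3_cfg] using h)
        simpa [A3_cfg] using this


/-- first position -/
theorem A3_kilF (M : Mach Fr Sym) (B : List (Con Fr Sym)) (c : Con Fr Sym)
    (H : ∀ y x : Ltr Fr Sym, O0 y → Sep x → x.c = c → KillC M [y, x]) :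
    A3_AD M (c :: B) := by
  intro y l s hy hg hc
  obtain ⟨x, rest, hx, hxc, he, -⟩ := A3_next hg hc
  have := (A3_kc (H y x hy hx hxc)).right rest
  simpa [A3_wd, he] using this

/-- last position -/
theorem A3_kilL (M : Mach Fr Sym) (A : List (Con Fr Sym)) (c : Con Fr Sym)
    (H : ∀ x : Ltr Fr Sym, X1 x → x.c = c → KillC M [x]) :
    A3_AD M (A ++ [c]) := by
  intro y l s hy hg hc
  have h2 : s.c = c := by
    unfold A3_cont at hc
    simpa using (List.append_inj' hc rfl).2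
  have := (A3_kc (H s hg.2 h2)).left (y :: flat l)
  simpa [A3_wd] using this

/-- backward simulation -/
theorem A3_bwd (M : Mach Fr Sym) (J : ℕ) (h0 : A3_AD M (List.replicate J .nil)) :
    ∀ (n : ℕ) (c : List Fr) (φ : Fr) (u : List Sym) (r : ℕ),
    2 * c.length + u.length ≤ n → c.length + u.length + 1 + r = J →
    A3_AD M (A3_cfg c φ u r) := by
  intro n
  induction n using Nat.strong_induction_on with
  | _ n ih =>
  intro c φ u r hn hJ
  by_cases hP : M.Pushed φ
  · obtain ⟨ψ, b, hψ⟩ := hP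
    rcases List.eq_nil_or_concat u with rfl | ⟨u', b', rfl⟩
    · -- no content in front of the front
      cases r with
      | zero =>
        have := A3_kilL M (c.map .cons) (.fr φ) (fun x hx h => KillC.c7 φ x hx h ⟨ψ, b, hψ⟩)
        simpa [A3_cfg] using this
      | succ r =>
        have := A3_kil3 M (c.map .cons) (List.replicate r .nil) (.fr φ) .nil
          (fun x z x' hx hz hx' h h' => KillC.c8 φ x z x' hx h ⟨ψ, b, hψ⟩ hz hx' h')
        simpa [A3_cfg, List.replicate_succ] using this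
    · by_cases hb : b' = b
      · subst hb
        have h1 : 2 * c.length + u'.length < n := by simp at hn; omega
        have := ih _ h1 c ψ u' (r + 1) le_rfl (by simp at hJ; omega)
        have := (A3_push M (c.map .cons) u' ψ φ b' r hψ).1 this
        simpa [A3_cfg] using this
      · cases r with
        | zero =>
          have := A3_kil1 M (c.map .cons) u' (.fr φ) (.unc b')
            (fun x z lu x' hx hz hl hx' h h' => KillC.c5 φ ψ b b' x z lu x' hψ hb hx h hz hl hx' h')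
          simpa [A3_cfg] using this
        | succ r =>
          have := A3_kil2 M (c.map .cons) (List.replicate r .nil) u' (.fr φ) (.unc b') .nil
            (fun x z lu x' z' s hx hz hl hx' hz' hs h h' h'' =>
              KillC.c6 φ ψ b b' x z lu x' z' s hψ hb hx h hz hl hx' h' hz' hs h'')
          simpa [A3_cfg, List.replicate_succ] using this
  · rcases List.eq_nil_or_concat c with rfl | ⟨c', ψ, rfl⟩
    · by_cases hi : φ = M.ini
      · subst hi
        cases u with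
        | nil =>
          have : A3_AD M (.nil :: List.replicate r .nil) := by
            rw [← List.replicate_succ]
            have : r + 1 = J := by simp at hJ; omega
            rwa [this]
          have := (A3_c0 M _).2 this
          simpa [A3_cfg] using this
        | cons b u =>
          have := A3_kil3 M [] (u.map .unc ++ List.replicate r .nil) (.fr M.ini) (.unc b)
            (fun x z x' hx hz hx' h h' => by
              refine KillC.c2 x z x' hx hz hx' ?_
              rw [h, h']; exact BadPair.p5 b)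
          simpa [A3_cfg] using this
      · have := A3_kilF M (u.map .unc ++ List.replicate r .nil) (.fr φ)
          (fun y x hy hx h => KillC.c4 y x φ hy hx h hP hi)
        simpa [A3_cfg] using this
    · by_cases hm : M.push ψ = none ∧ ∃ b, φ = M.enter ψ b
      · obtain ⟨hp, b, rfl⟩ := hm
        have h1 : 2 * c'.length + (b :: u).length < n := by simp at hn ⊢; omega
        have := ih _ h1 c' ψ (b :: u) r le_rfl (by simp at hJ ⊢; omega)
        have := (A3_move M (c'.map .cons) (u.map .unc ++ List.replicate r .nil) ψ b hp).1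
          (by simpa [A3_cfg] using this)
        simpa [A3_cfg] using this
      · have := A3_kil3 M (c'.map .cons) (u.map .unc ++ List.replicate r .nil) (.cons ψ) (.fr φ)
          (fun x z x' hx hz hx' h h' => by
            refine KillC.c2 x z x' hx hz hx' ?_
            rw [h, h']; exact BadPair.p4 ψ φ hP hm)
        simpa [A3_cfg] using this

/-- The possible formats. -/
theorem A3_format (M : Mach Fr Sym) : ∀ cs : List (Con Fr Sym),
    (∃ A c d N, cs = A ++ c :: d :: N ∧ BadPair M c d) ∨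
    (∃ (u : List Sym) (r : ℕ), cs = u.map .unc ++ List.replicate r .nil) ∨
    (∃ c φ u r, cs = A3_cfg c φ u r) ∨ (∃ c : List Fr, c ≠ [] ∧ cs = c.map .cons) := by
  intro cs
  induction cs with
  | nil => right; left; exact ⟨[], 0, rfl⟩
  | cons x xs ih =>
    rcases ih with ⟨A, c, d, N, rfl, h⟩ | ⟨u, r, rfl⟩ | ⟨c, φ, u, r, rfl⟩ | ⟨c, hc, rfl⟩
    · left; exact ⟨x :: A, c, d, N, rfl, h⟩
    · cases x with
      | nil =>
        cases u with
        | nil => right; left; exact ⟨[], r + 1, by simp [List.replicate_succ]⟩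
        | cons b u => left; exact ⟨[], .nil, .unc b, _, rfl, BadPair.p1 _ (by simp)⟩
      | unc b => right; left; exact ⟨b :: u, r, rfl⟩
      | cons ψ =>
        cases u with
        | nil =>
          cases r with
          | zero => right; right; right; exact ⟨[ψ], by simp, by simp⟩
          | succ r => left; exact ⟨[], .cons ψ, .nil, _, rfl, BadPair.p3 _ _ ⟨ψ, rfl⟩ (Or.inr rfl)⟩
        | cons b u =>
          left; exact ⟨[], .cons ψ, .unc b, _, rfl, BadPair.p3 _ _ ⟨ψ, rfl⟩ (Or.inl ⟨b, rfl⟩)⟩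
      | fr φ => right; right; left; exact ⟨[], φ, u, r, rfl⟩
    · cases x with
      | nil =>
        left
        cases c with
        | nil => exact ⟨[], .nil, .fr φ, _, rfl, BadPair.p1 _ (by simp)⟩
        | cons ψ c => exact ⟨[], .nil, .cons ψ, _, rfl, BadPair.p1 _ (by simp)⟩
      | unc b =>
        left
        cases c with
        | nil => exact ⟨[], .unc b, .fr φ, _, rfl, BadPair.p2 _ _ (Or.inl ⟨b, rfl⟩) (Or.inr ⟨φ, rfl⟩)⟩
        | cons ψ c =>
          exact ⟨[], .unc b, .cons ψ, _, rfl, BadPair.p2 _ _ (Or.inl ⟨b, rfl⟩) (Or.inl ⟨ψ, rfl⟩)⟩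
      | cons ψ => right; right; left; exact ⟨ψ :: c, φ, u, r, rfl⟩
      | fr χ =>
        left
        cases c with
        | nil => exact ⟨[], .fr χ, .fr φ, _, rfl, BadPair.p2 _ _ (Or.inr ⟨χ, rfl⟩) (Or.inr ⟨φ, rfl⟩)⟩
        | cons ψ c =>
          exact ⟨[], .fr χ, .cons ψ, _, rfl, BadPair.p2 _ _ (Or.inr ⟨χ, rfl⟩) (Or.inl ⟨ψ, rfl⟩)⟩
    · obtain ⟨ψ, c, rfl⟩ := List.exists_cons_of_ne_nil hc
      cases x with
      | nil => left; exact ⟨[], .nil, .cons ψ, _, rfl, BadPair.p1 _ (by simp)⟩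
      | unc b =>
        left; exact ⟨[], .unc b, .cons ψ, _, rfl, BadPair.p2 _ _ (Or.inl ⟨b, rfl⟩) (Or.inl ⟨ψ, rfl⟩)⟩
      | cons χ => right; right; right; exact ⟨χ :: ψ :: c, by simp, rfl⟩
      | fr χ =>
        left; exact ⟨[], .fr χ, .cons ψ, _, rfl, BadPair.p2 _ _ (Or.inr ⟨χ, rfl⟩) (Or.inl ⟨ψ, rfl⟩)⟩

theorem A3_all (M : Mach Fr Sym) (J : ℕ)
    (hrun : ∃ t c φ u, M.run t = some (c, φ, u) ∧ M.halt φ ∧ c.length + u.length + 1 ≤ J)
    (cs : List (Con Fr Sym)) (hcs : cs.length = J) : A3_AD M cs := by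
  have h0 : A3_AD M (List.replicate J .nil) := by
    obtain ⟨t, c, φ, u, ht, hh, hl⟩ := hrun
    exact A3_fwd M J t c φ u (J - (c.length + u.length + 1)) ht (by omega) (A3_halt M c φ u _ hh)
  have hJ : 1 ≤ J := by obtain ⟨t, c, φ, u, ht, hh, hl⟩ := hrun; omega
  rcases A3_format M cs with ⟨A, c, d, N, rfl, h⟩ | ⟨u, r, rfl⟩ | ⟨c, φ, u, r, rfl⟩ | ⟨c, hc, rfl⟩
  · apply A3_kil3
    intro x z x' hx hz hx' h1 h2
    subst h1 h2
    exact KillC.c2 x z x' hx hz hx' h
  · cases u with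
    | nil => simpa using (by simpa using hcs : r = J) ▸ h0
    | cons b u =>
      apply A3_kilF
      intro y x hy hx h
      exact KillC.c1 y x hy hx ⟨b, h⟩
  · exact A3_bwd M J h0 _ c φ u r le_rfl (by simp [A3_cfg] at hcs; omega)
  · rw [← List.dropLast_append_getLast hc, List.map_append]
    apply A3_kilL
    intro x hx h
    exact KillC.c3 x hx ⟨_, h⟩

theorem A3_tok (M : Mach Fr Sym)
    (h : ∀ j (w : List (Ltr Fr Sym)), Blk j true false w → ∃ z, IsZ z ∧ EqM M w z) :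
    ∀ l : List (Ltr Fr Sym × List (Ltr Fr Sym)),
    (∀ (i : ℕ) (h : i < l.length), X0 l[i].1 ∧ ∃ j, Blk j true false l[i].2) →
    ∃ l', Spn (fun _ => True) l' ∧ l'.length = l.length ∧ EqM M (flat l) (flat l') := by
  intro l
  induction l with
  | nil => intro _; exact ⟨[], by simp [Spn], rfl, Eqv.refl _⟩
  | cons p l ih =>
    intro hl
    obtain ⟨l', h1, h2, h3⟩ := ih (fun i hi => hl (i + 1) (by simpa using hi))
    obtain ⟨hx, j, hb⟩ := hl 0 (by simp)
    obtain ⟨z, hz, he⟩ := h j _ hb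
    refine ⟨(p.1, z) :: l', A3_spn_cons.2 ⟨⟨hx, trivial, hz⟩, h1⟩, by simp [h2], ?_⟩
    rw [A3_flat_cons, A3_flat_cons]
    exact (he.append h3).cons p.1

theorem tA3 (h : StA1) : StA3 := by
  intro Fr Sym M J hrun w hw
  have hJ : 1 ≤ J := by obtain ⟨t, c, φ, u, ht, hh, hl⟩ := hrun; omega
  obtain ⟨h1, h2, h3, h4⟩ := h Fr Sym M
  cases hw with
  | z1 x hx hp => omega
  | s1 j u s v hu hs hps hv =>
    obtain ⟨y, l, hy, hya, rfl, hl, hb⟩ := h2 j false u hu
    obtain ⟨l', g1, g2, g3⟩ := A3_tok M h1 l (fun i hi => ⟨(hb i hi).1, i, (hb i hi).2⟩)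
    have hd : DeadM M (A3_wd y l' s) :=
      A3_all M (j + 1) hrun (A3_cont l' s) (by simp [A3_cont, g2, hl]) y l' s hy ⟨g1, hs⟩ rfl
    have he : EqM M (A3_wd y l s) (A3_wd y l' s) := (g3.right [s]).cons y
    have := (he.dead.2 hd).right v
    simpa [A3_wd] using this

end Pool.Agent.LibPeps
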