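import Pool.Agent.LibPeps.DefsA

set_option autoImplicit false

/-! Task A4: all long words are dead. -/

namespace Pool.Agent.LibPeps
open Ltr

variable {Fr Sym : Type} {M : Mach Fr Sym}

/-- A list of blocks with separators, as a word. -/
def bflat (xs : List (Bool × List (Ltr Fr Sym) × Ltr Fr Sym)) : List (Ltr Fr Sym) :=
  (xs.map fun p => p.2.1 ++ [p.2.2]).flatten

theorem bflat_cons (p : Bool × List (Ltr Fr Sym) × Ltr Fr Sym) (l) :
    bflat (p :: l) = p.2.1 ++ p.2.2 :: bflat l := by
  simp [bflat]

/-- All blocks have level j. -/
def Lev (j : ℕ) (xs : List (Bool × List (Ltr Fr Sym) × Ltr Fr Sym)) : Prop :=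
  ∀ p ∈ xs, Sep p.2.2 ∧ ∃ α, Blk j p.1 α p.2.1

theorem kill_pair {u : List (Ltr Fr Sym)} (h : KillA u) (q : List (Ltr Fr Sym)) :
    DeadM M (u ++ q) := (Dead.of_kill (Or.inl h)).right q

theorem lev0 : ∀ (n : ℕ) (w : List (Ltr Fr Sym)), w.length ≤ n →
    (∀ c ∈ w.head?, Cell c) →
    DeadM M w ∨ ∃ xs post, EqM M w (bflat xs ++ post) ∧ Lev 0 xs ∧ w.length ≤ 2 * xs.length + 1 := by
  intro n
  induction n with
  | zero =>
    intro w hw _
    have : w = [] := List.length_eq_zero_iff.1 (by omega)
    subst this
    exact .inr ⟨[], [], Eqv.refl _, by simp [Lev], by simp⟩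
  | succ n ih =>
    intro w hw hc
    match w, hw, hc with
    | [], _, _ => exact .inr ⟨[], [], Eqv.refl _, by simp [Lev], by simp⟩
    | [c], _, _ => exact .inr ⟨[], [c], Eqv.refl _, by simp [Lev], by simp⟩
    | c :: d :: rest, hw, hc =>
      have hcc : Cell c := hc c rfl
      -- d is a separator
      have hd : Cell d ∨ Sep d := by
        unfold Cell Ltr.Sep
        cases d.sk <;> simp
      rcases hd with hd | hd
      · left
        exact kill_pair (KillA.s1 c d hcc hd) rest
      -- clean the cell c
      have hb : ∃ t α c', EqM M [c] [c'] ∧ Blk 0 t α [c'] := by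
        rcases hcc with h | h
        · exact ⟨false, c.a, c, Eqv.refl _, Blk.z0 c h⟩
        · refine ⟨true, false, c.setA false, ?_, Blk.z1 _ h rfl⟩
          rcases hca : c.a with _ | _
          · have : c.setA false = c := by cases c; simp_all [setA]
            rw [this]; exact Eqv.refl _
          · have h1 := Eqv.of_rule (St := Rul M) (Kl := Kls M)
              (Or.inl (RuleA.a0 (c.setA false) h rfl))
            have h2 : (c.setA false).setA true = c := by cases c; simp_all [setA]
            rw [h2] at h1
            exact h1.symm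
      obtain ⟨t, α, c', he, hbl⟩ := hb
      match rest, hw with
      | [], hw =>
        refine .inr ⟨[(t, [c'], d)], [], ?_, ?_, by simp⟩
        · have := he.right [d]
          simpa [bflat] using this
        · intro p hp
          rw [List.mem_singleton] at hp
          subst hp
          exact ⟨hd, α, hbl⟩
      | e :: rest', hw =>
        have hee : Cell e ∨ Sep e := by
          unfold Cell Ltr.Sep
          cases e.sk <;> simp
        rcases hee with hee | hee
        · rcases ih (e :: rest') (by simp at hw ⊢; omega) (by simpa using hee) with h | ⟨xs, post, h1, h2, h3⟩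
          · left
            exact (h.left [c, d])
          · refine .inr ⟨(t, [c'], d) :: xs, post, ?_, ?_, by simp at h3 ⊢; omega⟩
            · rw [bflat_cons]
              have := he.append (h1.cons d)
              simpa using this
            · intro p hp
              rw [List.mem_cons] at hp
              rcases hp with rfl | hp
              · exact ⟨hd, α, hbl⟩
              · exact h2 p hp
        · left
          exact (kill_pair (KillA.s2 d e hd hee) rest').left [c]

theorem lev_dead2 (h2 : StA2) {j : ℕ} {t : Bool} {b b' : List (Ltr Fr Sym)} {s s' : Ltr Fr Sym}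
    {rest} (hl : Lev j ((t, b, s) :: (t, b', s') :: rest)) :
    DeadM M (bflat ((t, b, s) :: (t, b', s') :: rest)) := by
  obtain ⟨hs, α, hb⟩ := hl (t, b, s) (by simp)
  obtain ⟨hs', β, hb'⟩ := hl (t, b', s') (by simp)
  have := (h2 Fr Sym M j t α β b s b' hb hs hb').right (s' :: bflat rest)
  rw [bflat_cons, bflat_cons]
  simpa using this

theorem Lev.tail {j : ℕ} {p} {rest : List (Bool × List (Ltr Fr Sym) × Ltr Fr Sym)}
    (h : Lev j (p :: rest)) : Lev j rest := fun q hq => h q (List.mem_cons_of_mem _ hq)

theorem levS (h1 : StA1) (h2 : StA2) (j : ℕ) : ∀ (n : ℕ)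
    (xs : List (Bool × List (Ltr Fr Sym) × Ltr Fr Sym)), xs.length ≤ n → Lev j xs →
    (∀ p ∈ xs.head?, p.1 = false) →
    DeadM M (bflat xs) ∨ ∃ ys post, EqM M (bflat xs) (bflat ys ++ post) ∧ Lev (j + 1) ys ∧
      xs.length ≤ 2 * ys.length + 1 := by
  intro n
  induction n with
  | zero =>
    intro xs hxs _ _
    have : xs = [] := List.length_eq_zero_iff.1 (by omega)
    subst this
    exact .inr ⟨[], [], Eqv.refl _, by simp [Lev], by simp⟩
  | succ n ih =>
    intro xs hn hl hc
    match xs, hn, hl, hc with
    | [], _, _, _ => exact .inr ⟨[], [], Eqv.refl _, by simp [Lev], by simp⟩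
    | [p], _, _, _ => exact .inr ⟨[], bflat [p], by simpa [bflat] using Eqv.refl _, by simp [Lev], by simp⟩
    | (t1, b1, s1) :: (t2, b2, s2) :: rest, hn, hl, hc =>
      have ht1 : t1 = false := hc (t1, b1, s1) rfl
      subst ht1
      rcases t2 with _ | _
      · exact .inl (lev_dead2 h2 hl)
      obtain ⟨hs1, α, hb1⟩ := hl (false, b1, s1) (by simp)
      obtain ⟨hs2, β, hb2⟩ := hl (true, b2, s2) (by simp)
      have hβ : β = false := by cases hb2 <;> rfl
      subst hβ
      rcases (h1 Fr Sym M).2.2.2 j α b1 s1 b2 hb1 hs1 hb2 with hd | ⟨t, γ, w', he, hw'⟩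
      · left
        have := hd.right (s2 :: bflat rest)
        rw [bflat_cons, bflat_cons]
        simpa using this
      match rest, hn, hl with
      | [], hn, hl =>
        refine .inr ⟨[(t, w', s2)], [], ?_, ?_, by simp⟩
        · have := he.right [s2]
          rw [bflat_cons, bflat_cons, bflat_cons]
          simpa [bflat] using this
        · intro p hp
          rw [List.mem_singleton] at hp
          subst hp
          exact ⟨hs2, γ, hw'⟩
      | (t3, b3, s3) :: rest', hn, hl =>
        rcases t3 with _ | _
        · rcases ih ((false, b3, s3) :: rest') (by simp at hn ⊢; omega) hl.tail.tail (by simp) with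
            h | ⟨ys, post, h4, h5, h6⟩
          · left
            have := h.left (b1 ++ s1 :: (b2 ++ [s2]))
            rw [bflat_cons, bflat_cons]
            simpa using this
          · refine .inr ⟨(t, w', s2) :: ys, post, ?_, ?_, by simp at h6 ⊢; omega⟩
            · have := he.append (h4.cons s2)
              rw [bflat_cons (false, b1, s1), bflat_cons (true, b2, s2), bflat_cons (t, w', s2)]
              simpa using this
            · intro p hp
              rw [List.mem_cons] at hp
              rcases hp with rfl | hp
              · exact ⟨hs2, γ, hw'⟩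
              · exact h5 p hp
        · left
          have := (lev_dead2 (M := M) h2 hl.tail).left (b1 ++ [s1])
          rw [bflat_cons]
          simpa using this

theorem levMain (h1 : StA1) (h2 : StA2) (w : List (Ltr Fr Sym)) (j : ℕ) :
    DeadM M w ∨ ∃ pre xs post, EqM M w (pre ++ bflat xs ++ post) ∧ Lev j xs ∧
      w.length + 2 ≤ 2 ^ (j + 1) * (xs.length + 2) := by
  induction j with
  | zero =>
    match w with
    | [] => exact .inr ⟨[], [], [], Eqv.refl _, by simp [Lev], by simp⟩
    | c :: w' =>
      have hc : Cell c ∨ Sep c := by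
        unfold Cell Ltr.Sep
        cases c.sk <;> simp
      rcases hc with hc | hc
      · rcases lev0 (M := M) _ (c :: w') (le_refl _) (by simpa using hc) with h | ⟨xs, post, h3, h4, h5⟩
        · exact .inl h
        · exact .inr ⟨[], xs, post, by simpa using h3, h4, by simp at h5 ⊢; omega⟩
      · match w' with
        | [] => exact .inr ⟨[c], [], [], Eqv.refl _, by simp [Lev], by simp⟩
        | d :: w'' =>
          have hd : Cell d ∨ Sep d := by
            unfold Cell Ltr.Sep
            cases d.sk <;> simp
          rcases hd with hd | hd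
          · rcases lev0 (M := M) _ (d :: w'') (le_refl _) (by simpa using hd) with
              h | ⟨xs, post, h3, h4, h5⟩
            · exact .inl (h.cons c)
            · exact .inr ⟨[c], xs, post, by simpa using h3.cons c, h4, by simp at h5 ⊢; omega⟩
          · left
            exact kill_pair (KillA.s2 c d hc hd) w''
  | succ j ih =>
    rcases ih with ih | ⟨pre, xs, post, h3, h4, h5⟩
    · exact .inl ih
    have key : DeadM M (bflat xs) ∨ ∃ p ys q, EqM M (bflat xs) (p ++ bflat ys ++ q) ∧
        Lev (j + 1) ys ∧ xs.length ≤ 2 * ys.length + 2 := by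
      match xs, h4 with
      | [], _ => exact .inr ⟨[], [], [], Eqv.refl _, by simp [Lev], by simp⟩
      | (false, b, s) :: rest, h4 =>
        rcases levS (M := M) h1 h2 j _ _ (le_refl _) h4 (by simp) with h | ⟨ys, q, h6, h7, h8⟩
        · exact .inl h
        · exact .inr ⟨[], ys, q, by simpa using h6, h7, by omega⟩
      | [(true, b, s)], h4 => exact .inr ⟨bflat [(true, b, s)], [], [], by
          simpa [bflat] using Eqv.refl _, by simp [Lev], by simp⟩
      | (true, b, s) :: (true, b', s') :: rest, h4 => exact .inl (lev_dead2 h2 h4)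
      | (true, b, s) :: (false, b', s') :: rest, h4 =>
        rcases levS (M := M) h1 h2 j _ _ (le_refl _) h4.tail (by simp) with h | ⟨ys, q, h6, h7, h8⟩
        · left
          have := h.left (b ++ [s])
          rw [bflat_cons]
          simpa using this
        · refine .inr ⟨b ++ [s], ys, q, ?_, h7, by simp at h8 ⊢; omega⟩
          have := h6.left (b ++ [s])
          rw [bflat_cons]
          simpa using this
    rcases key with h | ⟨p, ys, q, h6, h7, h8⟩
    · left
      have := (h.left pre).right post
      exact h3.dead.2 this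
    · refine .inr ⟨pre ++ p, ys, q ++ post, ?_, h7, ?_⟩
      · have := (h6.left pre).right post
        exact h3.trans (by simpa using this)
      · calc w.length + 2 ≤ 2 ^ (j + 1) * (xs.length + 2) := h5
          _ ≤ 2 ^ (j + 1) * (2 * (ys.length + 2)) := Nat.mul_le_mul_left _ (by omega)
          _ = 2 ^ (j + 1 + 1) * (ys.length + 2) := by ring

theorem tA4 (h1 : StA1) (h2 : StA2) (h3 : StA3) : StA4 := by
  intro Fr Sym M J hJ w hw
  have hd := h3 Fr Sym M J hJ
  rcases levMain (M := M) h1 h2 w J with h | ⟨pre, xs, post, h4, h5, h6⟩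
  · exact h
  have hlen : 2 ≤ xs.length := by
    by_contra hlt
    have : xs.length + 2 ≤ 3 := by omega
    have h7 : 2 ^ (J + 1) * (xs.length + 2) ≤ 2 ^ (J + 1) * 3 := Nat.mul_le_mul_left _ this
    have h8 : 2 ^ (J + 4) = 2 ^ (J + 1) * 8 := by ring
    have h9 : 1 ≤ 2 ^ (J + 1) := Nat.one_le_two_pow
    omega
  refine h4.dead.2 ?_
  have key : DeadM M (bflat xs) := by
    match xs, hlen, h5 with
    | (true, b, s) :: rest, _, h5 =>
      obtain ⟨_, β, hb⟩ := h5 (true, b, s) (by simp)
      have hβ : β = false := by cases hb <;> rfl
      subst hβ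
      have := (hd b hb).right (s :: bflat rest)
      rw [bflat_cons]
      exact this
    | (false, b, s) :: (false, b', s') :: rest, _, h5 => exact lev_dead2 h2 h5
    | (false, b, s) :: (true, b', s') :: rest, _, h5 =>
      obtain ⟨_, β, hb⟩ := h5 (true, b', s') (by simp)
      have hβ : β = false := by cases hb <;> rfl
      subst hβ
      have := ((hd b' hb).right (s' :: bflat rest)).left (b ++ [s])
      rw [bflat_cons, bflat_cons]
      simpa using this
  exact (key.left pre).right post

end Pool.Agent.LibPeps
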