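import Pool.Agent.LibPeps.DefsP

set_option autoImplicit false

/-! Task AU: automata of rational expressions. -/

namespace Pool.Agent.LibPeps

variable {α Q Q₁ Q₂ : Type}

theorem Path.append {T : Q → α → Q → Prop} : ∀ (u v : List α) (p q : Q),
    Path T p (u ++ v) q ↔ ∃ m, Path T p u m ∧ Path T m v q := by
  intro u
  induction u with
  | nil => intro v p q; simp [Path]
  | cons x u ih =>
    intro v p q
    simp only [List.cons_append, Path, ih]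
    constructor
    · rintro ⟨p', h1, m, h2, h3⟩; exact ⟨m, ⟨p', h1, h2⟩, h3⟩
    · rintro ⟨m, ⟨p', h1, h2⟩, h3⟩; exact ⟨p', h1, m, h2, h3⟩

theorem Rex.not_lang_nil : ∀ r : Rex α, ¬ r.lang [] := by
  intro r
  induction r with
  | atom P => rintro ⟨x, _, h⟩; cases h
  | alt r s ihr ihs => rintro (h | h); exacts [ihr h, ihs h]
  | cat r s ihr _ =>
    rintro ⟨u, v, h1, _, h3⟩
    have := (List.append_eq_nil_iff.1 h3.symm).1
    subst this; exact ihr h1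
  | sc r s _ ihs =>
    rintro ⟨us, v, _, h2, h3⟩
    have := (List.append_eq_nil_iff.1 h3.symm).2
    subst this; exact ihs h2
  | big n f ih => rintro ⟨i, h⟩; exact ih i h

/-- An automaton for r. -/
def HasAuto (r : Rex α) : Prop :=
  ∃ (Q : Type) (_ : Fintype Q) (I F : Q → Prop) (T : Q → α → Q → Prop),
    Fintype.card Q ≤ r.sz ∧ ∀ w, r.lang w ↔ ∃ i f, I i ∧ F f ∧ Path T i w f

theorem auto_atom (P : α → Prop) : HasAuto (.atom P) := by
  refine ⟨Bool, inferInstance, fun p => p = false, fun p => p = true,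
    fun p x q => p = false ∧ q = true ∧ P x, by simp [Rex.sz], fun w => ?_⟩
  constructor
  · rintro ⟨x, hx, rfl⟩
    exact ⟨false, true, rfl, rfl, true, ⟨rfl, rfl, hx⟩, rfl⟩
  · rintro ⟨i, f, rfl, rfl, h⟩
    match w, h with
    | [], h => cases h
    | [x], ⟨p', ⟨_, _, hx⟩, _⟩ => exact ⟨x, hx, rfl⟩
    | x :: y :: w, ⟨p', ⟨_, h1, _⟩, ⟨_, ⟨h2, _, _⟩, _⟩⟩ => rw [h1] at h2; cases h2

/-- Transitions of a sum. -/
def sumT (T₁ : Q₁ → α → Q₁ → Prop) (T₂ : Q₂ → α → Q₂ → Prop) (X : Q₁ → α → Q₂ → Prop) :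
    Q₁ ⊕ Q₂ → α → Q₁ ⊕ Q₂ → Prop
  | .inl p, x, .inl q => T₁ p x q
  | .inl p, x, .inr q => X p x q
  | .inr p, x, .inr q => T₂ p x q
  | .inr _, _, .inl _ => False

section
variable {T₁ : Q₁ → α → Q₁ → Prop} {T₂ : Q₂ → α → Q₂ → Prop} {X : Q₁ → α → Q₂ → Prop}

theorem path_inr : ∀ (w : List α) (p : Q₂) (q : Q₁ ⊕ Q₂),
    Path (sumT T₁ T₂ X) (.inr p) w q ↔ ∃ q', q = .inr q' ∧ Path T₂ p w q' := by
  intro w
  induction w with
  | nil =>
    intro p q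
    simp only [Path]
    constructor
    · rintro rfl; exact ⟨p, rfl, rfl⟩
    · rintro ⟨q', rfl, rfl⟩; rfl
  | cons x w ih =>
    intro p q
    simp only [Path]
    constructor
    · rintro ⟨p' | p', h1, h2⟩
      · cases h1
      · obtain ⟨q', h3, h4⟩ := (ih p' q).1 h2
        exact ⟨q', h3, p', h1, h4⟩
    · rintro ⟨q', h3, p', h1, h4⟩
      exact ⟨.inr p', h1, (ih p' q).2 ⟨q', h3, h4⟩⟩

theorem path_inl_inl : ∀ (w : List α) (p q : Q₁),
    Path (sumT T₁ T₂ X) (.inl p) w (.inl q) ↔ Path T₁ p w q := by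
  intro w
  induction w with
  | nil => intro p q; simp [Path]
  | cons x w ih =>
    intro p q
    simp only [Path]
    constructor
    · rintro ⟨p' | p', h1, h2⟩
      · exact ⟨p', h1, (ih p' q).1 h2⟩
      · obtain ⟨q', h3, _⟩ := (path_inr w p' _).1 h2
        cases h3
    · rintro ⟨p', h1, h2⟩
      exact ⟨.inl p', h1, (ih p' q).2 h2⟩

theorem path_inl_inr : ∀ (w : List α) (p : Q₁) (q : Q₂),
    Path (sumT T₁ T₂ X) (.inl p) w (.inr q) ↔
      ∃ u x v p' q', w = u ++ x :: v ∧ Path T₁ p u p' ∧ X p' x q' ∧ Path T₂ q' v q := by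
  intro w
  induction w with
  | nil =>
    intro p q
    simp only [Path]
    constructor
    · intro h; cases h
    · rintro ⟨u, x, v, p', q', h, _⟩
      simp at h
  | cons y w ih =>
    intro p q
    simp only [Path]
    constructor
    · rintro ⟨p' | p', h1, h2⟩
      · obtain ⟨u, x, v, p'', q', rfl, h4, h5, h6⟩ := (ih p' q).1 h2
        exact ⟨y :: u, x, v, p'', q', rfl, ⟨p', h1, h4⟩, h5, h6⟩
      · obtain ⟨q', h3, h4⟩ := (path_inr w p' _).1 h2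
        rw [Sum.inr.injEq] at h3
        subst h3
        exact ⟨[], y, w, p, p', rfl, rfl, h1, h4⟩
    · rintro ⟨u, x, v, p', q', h, h4, h5, h6⟩
      match u, h, h4 with
      | [], h, h4 =>
        rw [List.nil_append, List.cons.injEq] at h
        obtain ⟨rfl, rfl⟩ := h
        cases h4
        exact ⟨.inr q', h5, (path_inr _ _ _).2 ⟨q, rfl, h6⟩⟩
      | z :: u, h, ⟨p'', h7, h8⟩ =>
        rw [List.cons_append, List.cons.injEq] at h
        obtain ⟨rfl, rfl⟩ := h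
        exact ⟨.inl p'', h7, (ih p'' q).2 ⟨u, x, v, p', q', rfl, h8, h5, h6⟩⟩
end

theorem auto_alt {r s : Rex α} (hr : HasAuto r) (hs : HasAuto s) : HasAuto (.alt r s) := by
  obtain ⟨Q₁, i₁, I₁, F₁, T₁, h1, h2⟩ := hr
  obtain ⟨Q₂, i₂, I₂, F₂, T₂, h3, h4⟩ := hs
  refine ⟨Q₁ ⊕ Q₂, inferInstance, Sum.elim I₁ I₂, Sum.elim F₁ F₂, sumT T₁ T₂ fun _ _ _ => False,
    by simp only [Fintype.card_sum, Rex.sz]; omega, fun w => ?_⟩
  constructor
  · rintro (h | h)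
    · obtain ⟨i, f, hi, hf, hp⟩ := (h2 w).1 h
      exact ⟨.inl i, .inl f, hi, hf, (path_inl_inl _ _ _).2 hp⟩
    · obtain ⟨i, f, hi, hf, hp⟩ := (h4 w).1 h
      exact ⟨.inr i, .inr f, hi, hf, (path_inr _ _ _).2 ⟨f, rfl, hp⟩⟩
  · rintro ⟨i | i, f, hi, hf, hp⟩
    · rcases f with f | f
      · exact .inl ((h2 w).2 ⟨i, f, hi, hf, (path_inl_inl _ _ _).1 hp⟩)
      · obtain ⟨_, _, _, _, _, _, _, h, _⟩ := (path_inl_inr _ _ _).1 hp
        exact h.elim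
    · obtain ⟨q, rfl, hq⟩ := (path_inr _ _ _).1 hp
      exact .inr ((h4 w).2 ⟨i, q, hi, hf, hq⟩)

theorem auto_cat {r s : Rex α} (hr : HasAuto r) (hs : HasAuto s) : HasAuto (.cat r s) := by
  obtain ⟨Q₁, i₁, I₁, F₁, T₁, h1, h2⟩ := hr
  obtain ⟨Q₂, i₂, I₂, F₂, T₂, h3, h4⟩ := hs
  refine ⟨Q₁ ⊕ Q₂, inferInstance, Sum.elim I₁ fun _ => False, Sum.elim (fun _ => False) F₂,
    sumT T₁ T₂ fun p x q => F₁ p ∧ ∃ i, I₂ i ∧ T₂ i x q,
    by simp only [Fintype.card_sum, Rex.sz]; omega, fun w => ?_⟩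
  constructor
  · rintro ⟨u, v, hu, hv, rfl⟩
    obtain ⟨i, f, hi, hf, hp⟩ := (h2 u).1 hu
    obtain ⟨i', f', hi', hf', hp'⟩ := (h4 v).1 hv
    match v, hv, hp' with
    | [], hv, _ => exact (Rex.not_lang_nil s hv).elim
    | x :: v, hv, ⟨q', hx, hp'⟩ =>
      exact ⟨.inl i, .inr f', hi, hf', (path_inl_inr _ _ _).2
        ⟨u, x, v, f, q', rfl, hp, ⟨hf, i', hi', hx⟩, hp'⟩⟩
  · rintro ⟨i | i, f | f, hi, hf, hp⟩
    · exact hf.elim
    · obtain ⟨u, x, v, p', q', rfl, h5, ⟨h6, i', h7, h8⟩, h9⟩ := (path_inl_inr _ _ _).1 hp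
      exact ⟨u, x :: v, (h2 u).2 ⟨i, p', hi, h6, h5⟩, (h4 _).2 ⟨i', f, h7, hf, q', h8, h9⟩, rfl⟩
    · exact hf.elim
    · exact hi.elim

theorem path_star {T₁ : Q₁ → α → Q₁ → Prop} {I₁ F₁ : Q₁ → Prop} : ∀ (w : List α) (p q : Q₁),
    Path (fun p x q => T₁ p x q ∨ (F₁ p ∧ ∃ i, I₁ i ∧ T₁ i x q)) p w q → F₁ q →
    ∃ (u : List α) (us : List (List α)) (f : Q₁), w = u ++ us.flatten ∧ Path T₁ p u f ∧ F₁ f ∧
      ∀ v ∈ us, ∃ i f, I₁ i ∧ F₁ f ∧ Path T₁ i v f := by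
  intro w
  induction w with
  | nil =>
    intro p q h hq
    cases h
    exact ⟨[], [], p, rfl, rfl, hq, by simp⟩
  | cons x w ih =>
    intro p q h hq
    obtain ⟨p', h1, h2⟩ := h
    obtain ⟨u, us, f, rfl, h4, h5, h6⟩ := ih p' q h2 hq
    rcases h1 with h1 | ⟨h1, i, hi, hx⟩
    · exact ⟨x :: u, us, f, rfl, ⟨p', h1, h4⟩, h5, h6⟩
    · refine ⟨[], (x :: u) :: us, p, by simp, rfl, h1, ?_⟩
      intro v hv
      rw [List.mem_cons] at hv
      rcases hv with rfl | hv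
      · exact ⟨i, f, hi, h5, p', hx, h4⟩
      · exact h6 v hv

theorem path_mono {T T' : Q → α → Q → Prop} (h : ∀ p x q, T p x q → T' p x q) :
    ∀ (w : List α) (p q : Q), Path T p w q → Path T' p w q := by
  intro w
  induction w with
  | nil => intro p q h; exact h
  | cons x w ih =>
    rintro p q ⟨p', h1, h2⟩
    exact ⟨p', h _ _ _ h1, ih _ _ h2⟩

theorem star_path {T₁ : Q₁ → α → Q₁ → Prop} {I₁ F₁ : Q₁ → Prop} (hne : ∀ i f, I₁ i → F₁ f → i ≠ f) :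
    ∀ (us : List (List α)) (u : List α) (i f : Q₁),
    Path T₁ i u f → F₁ f → (∀ v ∈ us, ∃ i f, I₁ i ∧ F₁ f ∧ Path T₁ i v f) →
    ∃ q, F₁ q ∧ Path (fun p x q => T₁ p x q ∨ (F₁ p ∧ ∃ i, I₁ i ∧ T₁ i x q)) i (u ++ us.flatten) q := by
  intro us
  induction us with
  | nil =>
    intro u i f h hf _
    refine ⟨f, hf, ?_⟩
    simp only [List.flatten_nil, List.append_nil]
    exact path_mono (fun _ _ _ => Or.inl) _ _ _ h
  | cons v us ih =>
    intro u i f h hf hus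
    obtain ⟨i', f', hi', hf', hv⟩ := hus v List.mem_cons_self
    obtain ⟨q, hq, hp⟩ := ih v i' f' hv hf' fun v hv => hus v (List.mem_cons_of_mem _ hv)
    refine ⟨q, hq, ?_⟩
    rw [List.flatten_cons, Path.append]
    refine ⟨f, path_mono (fun _ _ _ => Or.inl) _ _ _ h, ?_⟩
    match v, hv, hp with
    | [], hv, _ => exact (hne i' f' hi' hf' hv).elim
    | x :: v, ⟨p', hx, _⟩, hp =>
      obtain ⟨p'', h1, h2⟩ := hp
      refine ⟨p'', ?_, h2⟩
      right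
      rcases h1 with h1 | ⟨h1, i'', h3, h4⟩
      · exact ⟨hf, i', hi', h1⟩
      · exact ⟨hf, i'', h3, h4⟩

theorem auto_sc {r s : Rex α} (hr : HasAuto r) (hs : HasAuto s) : HasAuto (.sc r s) := by
  obtain ⟨Q₁, i₁, I₁, F₁, T₁, h1, h2⟩ := hr
  obtain ⟨Q₂, i₂, I₂, F₂, T₂, h3, h4⟩ := hs
  have hne : ∀ i f, I₁ i → F₁ f → i ≠ f := by
    rintro i f hi hf rfl
    exact Rex.not_lang_nil r ((h2 []).2 ⟨i, i, hi, hf, rfl⟩)
  refine ⟨Q₁ ⊕ Q₂, inferInstance, Sum.elim I₁ I₂, Sum.elim (fun _ => False) F₂,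
    sumT (fun p x q => T₁ p x q ∨ (F₁ p ∧ ∃ i, I₁ i ∧ T₁ i x q)) T₂
      fun p x q => F₁ p ∧ ∃ i, I₂ i ∧ T₂ i x q,
    by simp only [Fintype.card_sum, Rex.sz]; omega, fun w => ?_⟩
  constructor
  · rintro ⟨us, v, hus, hv, rfl⟩
    obtain ⟨i', f', hi', hf', hp'⟩ := (h4 v).1 hv
    match us, hus with
    | [], _ => exact ⟨.inr i', .inr f', hi', hf', (path_inr _ _ _).2 ⟨f', rfl, hp'⟩⟩
    | u :: us, hus =>
      obtain ⟨i, f, hi, hf, hp⟩ := (h2 u).1 (hus u List.mem_cons_self)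
      obtain ⟨q, hq, hpq⟩ := star_path (T₁ := T₁) (I₁ := I₁) (F₁ := F₁) hne us u i f hp hf
        fun v hv => (h2 v).1 (hus v (List.mem_cons_of_mem _ hv))
      match v, hv, hp' with
      | [], hv, _ => exact (Rex.not_lang_nil s hv).elim
      | x :: v, hv, ⟨q', hx, hp'⟩ =>
        exact ⟨.inl i, .inr f', hi, hf', (path_inl_inr _ _ _).2
          ⟨u ++ us.flatten, x, v, q, q', rfl, hpq, ⟨hq, i', hi', hx⟩, hp'⟩⟩
  · rintro ⟨i | i, f | f, hi, hf, hp⟩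
    · exact hf.elim
    · obtain ⟨u, x, v, p', q', rfl, h5, ⟨h6, i', h7, h8⟩, h9⟩ := (path_inl_inr _ _ _).1 hp
      obtain ⟨u', us, f', rfl, h10, h11, h12⟩ := path_star _ _ _ h5 h6
      refine ⟨u' :: us, x :: v, ?_, (h4 _).2 ⟨i', f, h7, hf, q', h8, h9⟩, rfl⟩
      intro y hy
      rw [List.mem_cons] at hy
      rcases hy with rfl | hy
      · exact (h2 _).2 ⟨i, f', hi, h11, h10⟩
      · exact (h2 y).2 (h12 y hy)
    · exact hf.elim
    · obtain ⟨q, h5, h6⟩ := (path_inr _ _ _).1 hp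
      rw [Sum.inr.injEq] at h5
      subst h5
      exact ⟨[], w, by simp, (h4 w).2 ⟨i, f, hi, hf, h6⟩, rfl⟩

theorem auto_big {n : ℕ} {f : Fin n → Rex α} (h : ∀ i, HasAuto (f i)) : HasAuto (.big n f) := by
  choose Q iQ I F T hc hw using h
  refine ⟨Σ i, Q i, inferInstance, fun p => I p.1 p.2, fun p => F p.1 p.2,
    fun a x b => ∃ i p q, a = ⟨i, p⟩ ∧ b = ⟨i, q⟩ ∧ T i p x q, ?_, fun w => ?_⟩
  · rw [Fintype.card_sigma]
    exact Finset.sum_le_sum fun i _ => hc i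
  have key : ∀ (w : List α) (i : Fin n) (p : Q i) (b : Σ i, Q i),
      Path (fun a x b => ∃ i p q, a = ⟨i, p⟩ ∧ b = ⟨i, q⟩ ∧ T i p x q) ⟨i, p⟩ w b ↔
        ∃ q, b = ⟨i, q⟩ ∧ Path (T i) p w q := by
    intro w
    induction w with
    | nil =>
      intro i p b
      simp only [Path]
      constructor
      · rintro rfl; exact ⟨p, rfl, rfl⟩
      · rintro ⟨q, rfl, rfl⟩; rfl
    | cons x w ih =>
      intro i p b
      simp only [Path]
      constructor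
      · rintro ⟨c, ⟨j, p', q, h1, rfl, h2⟩, h3⟩
        cases h1
        obtain ⟨q', h4, h5⟩ := (ih _ _ _).1 h3
        exact ⟨q', h4, q, h2, h5⟩
      · rintro ⟨q, h1, p', h2, h3⟩
        exact ⟨⟨i, p'⟩, ⟨i, p, p', rfl, rfl, h2⟩, (ih _ _ _).2 ⟨q, h1, h3⟩⟩
  constructor
  · rintro ⟨i, h⟩
    obtain ⟨p, q, h1, h2, h3⟩ := (hw i w).1 h
    exact ⟨⟨i, p⟩, ⟨i, q⟩, h1, h2, (key _ _ _ _).2 ⟨q, rfl, h3⟩⟩
  · rintro ⟨⟨i, p⟩, b, h1, h2, h3⟩
    obtain ⟨q, rfl, h4⟩ := (key _ _ _ _).1 h3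
    exact ⟨i, (hw i w).2 ⟨p, q, h1, h2, h4⟩⟩

theorem tAU : StAU := by
  intro α r
  refine ⟨Rex.not_lang_nil r, ?_⟩
  change HasAuto r
  induction r with
  | atom P => exact auto_atom P
  | alt r s ihr ihs => exact auto_alt ihr ihs
  | cat r s ihr ihs => exact auto_cat ihr ihs
  | sc r s ihr ihs => exact auto_sc ihr ihs
  | big n f ih => exact auto_big ih

end Pool.Agent.LibPeps
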