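import Pool.Agent.LibPeps.DefsB

set_option autoImplicit false

/-! Task B1: alignment lemmas in legitimate words. -/

namespace Pool.Agent.LibPeps
open Ltr

namespace B1

theorem skp_pow (m r : ℕ) (hm : 1 ≤ m) :
    skp (2 ^ m * (2 * r + 1)) = if r % 2 = 0 then .x0 else .x1 := by
  have h2 : 2 ∣ 2 ^ m * (2 * r + 1) := Dvd.dvd.mul_right (dvd_pow_self 2 (by omega)) _
  have hv : padicValNat 2 (2 ^ m * (2 * r + 1)) = m := by
    rw [padicValNat.mul (by positivity) (by omega), padicValNat.prime_pow,
      padicValNat.eq_zero_of_not_dvd (by omega), add_zero]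
  have hd : 2 ^ m * (2 * r + 1) / 2 ^ (m + 1) = r := by
    rw [pow_succ, Nat.mul_div_mul_left _ _ (by positivity)]
    omega
  unfold skp
  rw [hv, hd]
  have h1 : (2 ^ m * (2 * r + 1)) % 4 ≠ 1 := by omega
  have h3 : (2 ^ m * (2 * r + 1)) % 4 ≠ 3 := by omega
  simp [h1, h3]

/-- every positive even number -/
theorem even_form (p : ℕ) (hp : 0 < p) (h2 : 2 ∣ p) : ∃ m r, 1 ≤ m ∧ p = 2 ^ m * (2 * r + 1) := by
  obtain ⟨k, m, ⟨r, hr⟩, hk⟩ := Nat.exists_eq_two_pow_mul_odd (n := p) (by omega)
  refine ⟨k, r, ?_, by rw [hk, hr]⟩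
  rcases Nat.eq_zero_or_pos k with h | h
  · subst h; subst hr; simp at hk; omega
  · exact h

theorem even_of_x0 {p : ℕ} (h : skp p = .x0) : 2 ∣ p := by
  unfold skp at h
  split_ifs at h <;> omega

theorem even_of_x1 {p : ℕ} (h : skp p = .x1) : 2 ∣ p := by
  unfold skp at h
  split_ifs at h <;> omega

theorem mod_of_o0 {p : ℕ} (h : skp p = .o0) : p % 4 = 1 := by
  unfold skp at h
  split_ifs at h; assumption

theorem mod_of_o1 {p : ℕ} (h : skp p = .o1) : p % 4 = 3 := by
  unfold skp at h
  split_ifs at h; assumption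

/-- F1 -/
theorem close (n p d j s : ℕ) (h : 2 ^ n ∣ p) (hd : 0 < d) (hd2 : d < 2 ^ n)
    (hq : p + d = 2 ^ j * (2 * s + 1)) : j < n ∧ ∃ s', d = 2 ^ j * (2 * s' + 1) := by
  have hj : j < n := by
    by_contra hcon
    have h1 : 2 ^ n ∣ p + d := by
      rw [hq]; exact Dvd.dvd.mul_right (pow_dvd_pow 2 (by omega)) _
    have h2 : 2 ^ n ∣ d := (Nat.dvd_add_right h).mp h1
    exact absurd (Nat.le_of_dvd hd h2) (by omega)
  refine ⟨hj, ?_⟩
  obtain ⟨c, hc⟩ : 2 ^ (j + 1) ∣ p := (pow_dvd_pow 2 (by omega)).trans h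
  have hle : 2 ^ j * (2 * c) < 2 ^ j * (2 * s + 1) := by
    rw [← hq, hc, pow_succ]; nlinarith
  have hcs : 2 * c < 2 * s + 1 := lt_of_mul_lt_mul_left hle (by positivity)
  refine ⟨s - c, ?_⟩
  obtain ⟨e, rfl⟩ : ∃ e, s = c + e := ⟨s - c, by omega⟩
  have : c + e - c = e := by omega
  rw [this]
  rw [hc, pow_succ] at hq
  nlinarith

variable {Fr Sym : Type}

theorem gp_mid (a : List (Ltr Fr Sym)) (x : Ltr Fr Sym) (b : List (Ltr Fr Sym)) :
    gp (a ++ x :: b) (a.length + 1) = x := by
  simp [gp]

theorem gp_plain (a u b : List (Ltr Fr Sym)) (hu : ∀ x ∈ u, Pl x) (p : ℕ) (h1 : a.length < p)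
    (h2 : p ≤ a.length + u.length) : (gp (a ++ u ++ b) p).a = false := by
  unfold gp
  have hlt : p - 1 < (a ++ u).length := by simp; omega
  rw [List.getD_append _ _ _ _ hlt]
  rw [List.getD_append_right _ _ _ _ (by omega)]
  have hlt2 : p - 1 - a.length < u.length := by omega
  rw [List.getD_eq_getElem _ _ hlt2]
  exact hu _ (List.getElem_mem hlt2)

theorem sk_mid {w : List (Ltr Fr Sym)} (hw : LegA w) (a : List (Ltr Fr Sym)) (x : Ltr Fr Sym)
    (b : List (Ltr Fr Sym)) (h : w = a ++ x :: b) : skp (a.length + 1) = x.sk := by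
  subst h
  rw [← hw.sk (a.length + 1) (by omega) (by simp), gp_mid]

theorem token {w : List (Ltr Fr Sym)} (hw : LegA w) {z : List (Ltr Fr Sym)} (hz : IsZ z) :
    ∀ (a b : List (Ltr Fr Sym)) (m r : ℕ), w = a ++ z ++ b → a.length = 2 ^ m * (2 * r + 1) →
      1 ≤ m → z.length + 1 = 2 ^ m := by
  induction hz with
  | one x hx =>
    intro a b m r h hl hm
    have h1 : skp (a.length + 1) = .o1 := by
      rw [sk_mid hw a x b (by rw [h]; simp), hx.1]
    have h2 := mod_of_o1 h1
    have h3 : m = 1 := by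
      by_contra hne
      obtain ⟨m', rfl⟩ : ∃ m', m = m' + 2 := ⟨m - 2, by omega⟩
      have : 4 ∣ a.length := by
        rw [hl, pow_add]
        exact ⟨2 ^ m' * (2 * r + 1), by ring⟩
      omega
    subst h3
    simp
  | ext y C m' z hy hC hm' hz ih =>
    intro a b m r h hl hm
    have h1 : skp (a.length + 1) = .o0 := by
      rw [sk_mid hw a y (C ++ m' :: z ++ b) (by rw [h]; simp), hy.1]
    have h2 := mod_of_o0 h1
    obtain ⟨n, rfl⟩ : ∃ n, m = n + 1 := ⟨m - 1, by omega⟩
    have hn : 1 ≤ n := by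
      by_contra hne
      have : n = 0 := by omega
      subst this
      simp at hl; omega
    have hya : (gp w (a.length + 1)).a = true := by
      have : w = a ++ y :: (C ++ m' :: z ++ b) := by rw [h]; simp
      rw [this, gp_mid]; exact hy.2
    have hpair := hw.pair n r hn
    rw [← hl, hya] at hpair
    have hpn2 : 2 ≤ 2 ^ n := by
      calc 2 = 2 ^ 1 := by norm_num
        _ ≤ 2 ^ n := Nat.pow_le_pow_right (by norm_num) hn
    -- plain letters
    have hplain : ∀ p, a.length + 1 < p → p ≤ a.length + 1 + C.length → (gp w p).a = false := by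
      intro p hp1 hp2
      have : w = (a ++ [y]) ++ C ++ (m' :: z ++ b) := by rw [h]; simp
      rw [this]
      exact gp_plain _ _ _ hC p (by simp; omega) (by simp; omega)
    have hq0 : a.length + 1 + C.length < a.length + 2 ^ n := by
      by_contra hcon
      rw [hplain (a.length + 2 ^ n) (by omega) (by omega)] at hpair
      exact absurd hpair (by simp)
    have hqw : w = (a ++ y :: C) ++ m' :: (z ++ b) := by rw [h]; simp
    have hskq : skp ((a ++ y :: C).length + 1) = .x1 := by rw [sk_mid hw _ _ _ hqw, hm'.1]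
    have hqa : (gp w ((a ++ y :: C).length + 1)).a = true := by
      rw [hqw, gp_mid]; exact hm'.2
    have hlen : (a ++ y :: C).length + 1 = a.length + (C.length + 2) := by simp; omega
    rw [hlen] at hskq hqa
    have hdvd : 2 ^ (n + 1) ∣ a.length := by rw [hl]; exact Dvd.intro _ rfl
    have hCl : C.length + 2 = 2 ^ n := by
      by_contra hne
      have hlt : C.length + 2 < 2 ^ n := by omega
      obtain ⟨j, s, hj, hjs⟩ := even_form (a.length + (C.length + 2)) (by omega) (even_of_x1 hskq)
      have hs : s % 2 = 1 := by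
        rw [hjs, skp_pow j s hj] at hskq
        by_contra hcon
        have : s % 2 = 0 := by omega
        simp [this] at hskq
      obtain ⟨t, rfl⟩ : ∃ t, s = 2 * t + 1 := ⟨s / 2, by omega⟩
      obtain ⟨hjn, s', hs'⟩ := close n a.length (C.length + 2) j (2 * t + 1)
        ((pow_dvd_pow 2 (by omega)).trans hdvd) (by omega) hlt hjs
      have hp := hw.pair j t hj
      have e1 : 2 ^ (j + 1) * (2 * t + 1) + 2 ^ j = a.length + (C.length + 2) := by
        rw [hjs, pow_succ]; ring
      rw [e1, hqa] at hp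
      have hj2 : 2 ≤ 2 ^ j := by
        calc 2 = 2 ^ 1 := by norm_num
          _ ≤ 2 ^ j := Nat.pow_le_pow_right (by norm_num) hj
      have hs2 : 2 ^ j ≤ C.length + 2 := by rw [hs']; exact Nat.le_mul_of_pos_right _ (by omega)
      have hge : a.length ≤ 2 ^ (j + 1) * (2 * t + 1) := by omega
      rcases Nat.eq_or_lt_of_le hge with heq | hgt
      · -- contradiction with divisibility
        obtain ⟨c, hc⟩ : 2 ^ (j + 2) ∣ a.length := (pow_dvd_pow 2 (by omega)).trans hdvd
        rw [heq] at hc
        have : 2 ^ (j + 2) * c = 2 ^ (j + 1) * (2 * c) := by rw [pow_succ 2 (j + 1)]; ring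
        rw [this] at hc
        have := Nat.eq_of_mul_eq_mul_left (by positivity) hc
        omega
      · rw [hplain _ (by omega) (by omega)] at hp
        exact absurd hp (by simp)
    have hih := ih (a ++ y :: C ++ [m']) b n (2 * r + 1) (by rw [h]; simp) (by
      have : (a ++ y :: C ++ [m']).length = a.length + (C.length + 2) := by simp
      rw [this, hCl, hl, pow_succ]; ring) hn
    have : (y :: (C ++ m' :: z)).length + 1 = (C.length + 2) + (z.length + 1) := by
      simp only [List.length_cons, List.length_append]; omega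
    rw [this, hCl, hih, pow_succ]; ring

theorem spine {w : List (Ltr Fr Sym)} (hw : LegA w) (l : List (Ltr Fr Sym × List (Ltr Fr Sym))) :
    ∀ (a b : List (Ltr Fr Sym)) (m P : ℕ), w = a ++ flat l ++ b → Spn (fun _ => True) l →
      a.length + 1 = P + 2 ^ m → 1 ≤ m → 2 ^ (m + 1) ∣ P →
      2 ^ (m + 1 + l.length) ∣ P ∧ (flat l).length + 2 ^ m = 2 ^ (m + l.length) := by
  induction l with
  | nil => intro a b m P _ _ _ _ hP; simpa [flat] using hP
  | cons e l ih =>
    intro a b m P h hs hl hm hP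
    obtain ⟨x, z⟩ := e
    have hx := hs (x, z) (by simp)
    have hfl : flat ((x, z) :: l) = x :: (z ++ flat l) := by simp [flat]
    rw [hfl] at h
    have hsk : skp (a.length + 1) = .x0 := by
      rw [sk_mid hw a x (z ++ flat l ++ b) (by rw [h]; simp), hx.1.1]
    obtain ⟨Q, hQ⟩ := hP
    have e1 : a.length + 1 = 2 ^ m * (2 * Q + 1) := by rw [hl, hQ, pow_succ]; ring
    rw [e1, skp_pow m Q hm] at hsk
    have hQe : Q % 2 = 0 := by
      by_contra hcon
      simp [hcon] at hsk
    obtain ⟨Q', rfl⟩ : ∃ Q', Q = 2 * Q' := ⟨Q / 2, by omega⟩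
    have hP2 : 2 ^ (m + 1 + 1) ∣ P := ⟨Q', by rw [hQ, pow_succ 2 (m + 1)]; ring⟩
    have hz := token hw hx.2.2 (a ++ [x]) (flat l ++ b) m (2 * Q') (by rw [h]; simp)
      (by simp only [List.length_append, List.length_singleton]; exact e1) hm
    have hz' : z.length + 1 = 2 ^ m := hz
    have hih := ih (a ++ x :: z) b (m + 1) P (by rw [h]; simp)
      (fun p hp => hs p (by simp [hp]))
      (by simp only [List.length_append, List.length_cons]; rw [pow_succ]; omega) (by omega) hP2
    refine ⟨?_, ?_⟩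
    · have : m + 1 + (((x, z) :: l).length) = m + 1 + 1 + l.length := by simp; omega
      rw [this]; exact hih.1
    · have h3 := hih.2
      have : m + (((x, z) :: l).length) = m + 1 + l.length := by simp; omega
      rw [this, ← h3, hfl]
      simp only [List.length_cons, List.length_append]
      rw [pow_succ]; omega

theorem x0pos {w : List (Ltr Fr Sym)} (hw : LegA w) (a : List (Ltr Fr Sym)) (x : Ltr Fr Sym)
    (b : List (Ltr Fr Sym)) (h : w = a ++ x :: b) (hx : X0 x) :
    ∃ P m, 1 ≤ m ∧ a.length + 1 = P + 2 ^ m ∧ 2 ^ (m + 2) ∣ P := by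
  have hsk : skp (a.length + 1) = .x0 := by rw [sk_mid hw a x b h, hx.1]
  obtain ⟨m, r, hm, hr⟩ := even_form (a.length + 1) (by omega) (even_of_x0 hsk)
  rw [hr, skp_pow m r hm] at hsk
  have hre : r % 2 = 0 := by
    by_contra hcon
    simp [hcon] at hsk
  obtain ⟨t, rfl⟩ : ∃ t, r = 2 * t := ⟨r / 2, by omega⟩
  refine ⟨2 ^ (m + 2) * t, m, hm, ?_, Dvd.intro _ rfl⟩
  rw [hr, pow_add]; ring

theorem chain {w : List (Ltr Fr Sym)} (hw : LegA w)
    (ch : List (Ltr Fr Sym × List (Ltr Fr Sym) × Ltr Fr Sym)) :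
    ∀ (a : List (Ltr Fr Sym)) (o s : Ltr Fr Sym) (b : List (Ltr Fr Sym)),
      w = a ++ cflat ch ++ o :: s :: b →
      (∀ e ∈ ch, mL e.1 ∧ (∀ x ∈ e.2.1, Pl x) ∧ mM e.2.2) → O1 o → Sep s →
      2 ^ (ch.length + 2) ∣ a.length + (cflat ch).length + 2 ∧
        (cflat ch).length + 2 = 2 ^ (ch.length + 1) := by
  induction ch with
  | nil =>
    intro a o s b h _ ho _
    have h1 : skp (a.length + 1) = .o1 := by
      rw [sk_mid hw a o (s :: b) (by rw [h]; simp [cflat]), ho]
    have h2 := mod_of_o1 h1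
    simp only [cflat, List.map_nil, List.flatten_nil, List.length_nil]
    refine ⟨?_, by norm_num⟩
    norm_num
    omega
  | cons e ch ih =>
    intro a o s b h hch ho hs
    obtain ⟨y, C, m⟩ := e
    obtain ⟨hy, hC, hm⟩ := hch (y, C, m) (by simp)
    simp only at hy hC hm
    have hfl : cflat ((y, C, m) :: ch) = y :: (C ++ m :: cflat ch) := by simp [cflat]
    rw [hfl] at h
    obtain ⟨hd, hlen⟩ := ih (a ++ y :: (C ++ [m])) o s b (by rw [h]; simp)
      (fun e he => hch e (by simp [he])) ho hs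
    set k := ch.length with hk
    have hlenA : (a ++ y :: (C ++ [m])).length = a.length + C.length + 2 := by simp; omega
    rw [hlenA] at hd
    set S := a.length + C.length + 2 + (cflat ch).length + 2 with hS
    have hSq : a.length + C.length + 2 + 2 ^ (k + 1) = S := by omega
    obtain ⟨T, hT⟩ := hd
    -- the letter m is at position a.length + C.length + 2
    have hqw : w = (a ++ y :: C) ++ m :: (cflat ch ++ o :: s :: b) := by rw [h]; simp
    have hlen2 : (a ++ y :: C).length + 1 = a.length + C.length + 2 := by simp; omega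
    have hskq : skp (a.length + C.length + 2) = .x1 := by
      rw [← hlen2, sk_mid hw _ _ _ hqw, hm.1]
    have hqa : (gp w (a.length + C.length + 2)).a = true := by
      rw [← hlen2, hqw, gp_mid]; exact hm.2
    have hpk : 2 ^ (k + 2) = 2 * 2 ^ (k + 1) := by rw [pow_succ 2 (k + 1)]; ring
    have hpk3 : 2 ^ (k + 3) = 4 * 2 ^ (k + 1) := by rw [pow_succ 2 (k + 2), hpk]; ring
    have hT1 : 1 ≤ T := by
      rcases Nat.eq_zero_or_pos T with h0 | h0
      · subst h0; omega
      · exact h0
    obtain ⟨T', rfl⟩ : ∃ T', T = T' + 1 := ⟨T - 1, by omega⟩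
    have hq2 : a.length + C.length + 2 = 2 ^ (k + 1) * (2 * T' + 1) := by
      have : a.length + C.length + 2 + 2 ^ (k + 1) = 2 ^ (k + 1) * (2 * T' + 1) + 2 ^ (k + 1) := by
        rw [hSq, hT, hpk]; ring
      omega
    have hT'o : T' % 2 = 1 := by
      rw [hq2, skp_pow (k + 1) T' (by omega)] at hskq
      by_contra hcon
      have : T' % 2 = 0 := by omega
      simp [this] at hskq
    obtain ⟨t, rfl⟩ : ∃ t, T' = 2 * t + 1 := ⟨T' / 2, by omega⟩
    have hp := hw.pair (k + 1) t (by omega)
    have e1 : 2 ^ (k + 1 + 1) * (2 * t + 1) + 2 ^ (k + 1) = a.length + C.length + 2 := by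
      rw [hq2, pow_succ 2 (k + 1)]; ring
    rw [e1, hqa] at hp
    -- plain letters
    have hplain : ∀ p, a.length + 1 < p → p ≤ a.length + 1 + C.length → (gp w p).a = false := by
      intro p hp1 hp2
      have : w = (a ++ [y]) ++ C ++ (m :: (cflat ch ++ o :: s :: b)) := by rw [h]; simp
      rw [this]
      exact gp_plain _ _ _ hC p (by simp; omega) (by simp; omega)
    have hpos : 2 ≤ 2 ^ (k + 1) := by
      rw [pow_succ]
      have : 1 ≤ 2 ^ k := Nat.one_le_two_pow
      omega
    set P := 2 ^ (k + 1 + 1) * (2 * t + 1) with hPdef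
    have hPa : P ≤ a.length := by
      by_contra hcon
      rw [hplain (P + 1) (by omega) (by omega)] at hp
      exact absurd hp (by simp)
    have hPeq : P = a.length := by
      by_contra hne
      have hlt : P < a.length := by omega
      have hyw : w = a ++ y :: (C ++ m :: (cflat ch ++ o :: s :: b)) := by rw [h]; simp
      have hsky : skp (a.length + 1) = .o0 := by rw [sk_mid hw _ _ _ hyw, hy.1]
      have hya : (gp w (a.length + 1)).a = true := by rw [hyw, gp_mid]; exact hy.2
      have hmod := mod_of_o0 hsky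
      obtain ⟨i, r, hi, hir⟩ := even_form a.length (by omega) (by omega)
      have hi2 : 2 ≤ i := by
        by_contra hcon
        have : i = 1 := by omega
        subst this
        omega
      obtain ⟨i', rfl⟩ : ∃ i', i = i' + 1 := ⟨i - 1, by omega⟩
      obtain ⟨hin, s', hs'⟩ := close (k + 1) P (a.length - P) (i' + 1) r
        ((pow_dvd_pow 2 (by omega : k + 1 ≤ k + 1 + 1)).trans (Dvd.intro _ rfl)) (by omega)
        (by omega) (by rw [← hir]; omega)
      have hp2 := hw.pair i' r (by omega)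
      rw [← hir, hya] at hp2
      have hi'pos : 2 ≤ 2 ^ i' := by
        calc 2 = 2 ^ 1 := by norm_num
          _ ≤ 2 ^ i' := Nat.pow_le_pow_right (by norm_num) (by omega)
      -- 2^(i'+1) divides the difference and 2^(k+1)
      obtain ⟨c, hc⟩ : 2 ^ (i' + 1) ∣ 2 ^ (k + 1) := pow_dvd_pow 2 (by omega)
      have hlt2 : a.length - P < 2 ^ (k + 1) := by omega
      rw [hs', hc] at hlt2
      have hlt3 : 2 * s' + 1 < c := lt_of_mul_lt_mul_left hlt2 (by positivity)
      have hlt4 : 2 ^ (i' + 1) * (2 * s' + 1 + 1) ≤ 2 ^ (i' + 1) * c :=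
        Nat.mul_le_mul_left _ (by omega)
      rw [← hc, mul_add, ← hs', mul_one] at hlt4
      have h22 : 2 ^ (i' + 1) = 2 * 2 ^ i' := by rw [pow_succ]; ring
      rw [hplain (a.length + 2 ^ i') (by omega) (by omega)] at hp2
      exact absurd hp2 (by simp)
    have hCl : C.length + 2 = 2 ^ (k + 1) := by omega
    refine ⟨?_, ?_⟩
    · have h1 : a.length + (cflat ((y, C, m) :: ch)).length + 2 = S := by
        rw [hfl, hS]; simp only [List.length_cons, List.length_append]; omega
      rw [h1, hT]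
      have h2 : ((y, C, m) :: ch).length + 2 = k + 3 := by simp [hk]
      rw [h2, hpk3, hpk]
      exact ⟨t + 1, by ring⟩
    · rw [hfl]
      have h2 : ((y, C, m) :: ch).length + 1 = k + 2 := by simp [hk]
      rw [h2, hpk]
      simp only [List.length_cons, List.length_append]
      omega

end B1

/-- Task B1. -/
theorem tB1 : StB1 := by
  intro Fr Sym w hw
  refine ⟨?_, ?_, ?_, ?_⟩
  · intro a z b m r h hz hl hm
    exact B1.token hw hz a b m r h hl hm
  · intro a l b m P h hs hl hm hP
    exact B1.spine hw l a b m P h hs hl hm hP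
  · intro a x b h hx
    exact B1.x0pos hw a x b h hx
  · intro a ch o s b h hch ho hs
    exact B1.chain hw ch a o s b h hch ho hs

end Pool.Agent.LibPeps
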