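import Pool.Agent.LibPeps.DefsB

set_option autoImplicit false

/-! TASK B2: layer A rules preserve the legitimate words; layer A kills never occur. -/

namespace Pool.Agent.LibPeps
namespace B2
open Ltr

variable {Fr Sym : Type}

/-! ### the skeleton -/

theorem skp_o0 {p : ℕ} (h : skp p = .o0) : p % 4 = 1 := by
  unfold skp at h
  split_ifs at h with h1 h2 h3
  exact h1

theorem skp_o1 {p : ℕ} (h : skp p = .o1) : p % 4 = 3 := by
  unfold skp at h
  split_ifs at h with h1 h2 h3
  exact h2

theorem skp_x0 {p : ℕ} (h : skp p = .x0) : p % 2 = 0 := by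
  unfold skp at h
  split_ifs at h with h1 h2 h3
  omega

theorem skp_x1 {p : ℕ} (h : skp p = .x1) : p % 2 = 0 := by
  unfold skp at h
  split_ifs at h with h1 h2 h3
  omega

theorem skp_sep {i q : ℕ} (hi : 1 ≤ i) (h : skp (2 ^ i * (2 * q + 1)) = .x1) : q % 2 = 1 := by
  have hev : 2 ^ i * (2 * q + 1) % 2 = 0 := by
    obtain ⟨j, rfl⟩ : ∃ j, i = j + 1 := ⟨i - 1, by omega⟩
    rw [pow_succ, mul_comm (2 ^ j) 2, mul_assoc]
    exact Nat.mul_mod_right 2 _
  have hv : padicValNat 2 (2 ^ i * (2 * q + 1)) = i := by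
    rw [padicValNat.mul (by positivity) (by omega), padicValNat.prime_pow,
      padicValNat.eq_zero_of_not_dvd (by omega), add_zero]
  have hd : 2 ^ i * (2 * q + 1) / 2 ^ (i + 1) = q := by
    rw [pow_succ, Nat.mul_div_mul_left _ _ (by positivity)]
    omega
  unfold skp at h
  rw [hv, hd] at h
  split_ifs at h with h1 h2 h3
  omega

/-! ### letters of a word -/

theorem gp_map {β : Type} (g : Ltr Fr Sym → β) {w w' : List (Ltr Fr Sym)}
    (h : w.map g = w'.map g) (p : ℕ) : g (gp w p) = g (gp w' p) := by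
  unfold gp
  have e : ∀ v : List (Ltr Fr Sym), ∀ n : ℕ, ∀ d : Ltr Fr Sym,
      g (v.getD n d) = (v.map g).getD n (g d) := by
    intro v n d
    simp only [List.getD_eq_getElem?_getD, List.getElem?_map]
    cases v[n]? <;> rfl
  rw [e, e, h]

theorem gp_at (a : List (Ltr Fr Sym)) (x : Ltr Fr Sym) (b : List (Ltr Fr Sym)) :
    gp (a ++ x :: b) (a.length + 1) = x := by
  unfold gp
  simp

theorem gp_ne (a : List (Ltr Fr Sym)) (x x' : Ltr Fr Sym) (b : List (Ltr Fr Sym)) {p : ℕ}
    (h1 : 1 ≤ p) (hp : p ≠ a.length + 1) : gp (a ++ x :: b) p = gp (a ++ x' :: b) p := by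
  unfold gp
  rcases Nat.lt_or_ge (p - 1) a.length with h | h
  · rw [List.getD_append _ _ _ _ h, List.getD_append _ _ _ _ h]
  · rw [List.getD_append_right _ _ _ _ h, List.getD_append_right _ _ _ _ h]
    obtain ⟨n, hn⟩ : ∃ n, p - 1 - a.length = n + 1 := ⟨p - 1 - a.length - 1, by omega⟩
    rw [hn, List.getD_cons_succ, List.getD_cons_succ]

/-! ### changing marks -/

/-- K and C do not see the marks -/
theorem leg_of {M : Mach Fr Sym} {w w' : List (Ltr Fr Sym)} (hk : w.map Ltr.k = w'.map Ltr.k)
    (hc : w.map Ltr.c = w'.map Ltr.c) (hw : Leg M w) (hA : LegA w') : Leg M w' := by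
  have hlen : w.length = w'.length := by
    have := congrArg List.length hk
    simpa using this
  refine ⟨hA, ?_, ?_⟩
  · intro s i h1 h2
    rw [← gp_map Ltr.k hk, ← gp_map Ltr.k hk]
    exact hw.2.1 s i h1 h2
  · intro P hP
    obtain ⟨cs, h1, h2, h3⟩ := hw.2.2 P hP
    refine ⟨cs, h1, ?_, ?_⟩
    · intro k hk1 hk2
      rw [← gp_map Ltr.c hc]
      exact h2 k hk1 hk2
    · rw [← hlen]
      exact h3

/-- change of one mark at a cell o1 -/
theorem leg_one {M : Mach Fr Sym} (a : List (Ltr Fr Sym)) (x : Ltr Fr Sym) (β : Bool)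
    (b : List (Ltr Fr Sym)) (hx : x.sk = .o1) (hw : Leg M (a ++ x :: b)) :
    Leg M (a ++ x.setA β :: b) := by
  refine leg_of (by simp [Ltr.setA]) (by simp [Ltr.setA]) hw ?_
  have hs : (a ++ x :: b).map Ltr.sk = (a ++ x.setA β :: b).map Ltr.sk := by simp [Ltr.setA]
  have hp0 : (a.length + 1) % 4 = 3 := by
    apply skp_o1
    rw [← hw.1.sk _ (by omega) (by simp), gp_at]
    exact hx
  refine ⟨?_, ?_, ?_⟩
  · intro p h1 h2
    rw [← gp_map Ltr.sk hs]
    exact hw.1.sk p h1 (by simpa using h2)
  · intro p h1 h2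
    by_cases hp : p = a.length + 1
    · subst hp
      rw [gp_at] at h2
      have h3 : x.sk = .x0 := h2
      rw [hx] at h3
      exact absurd h3 (by decide)
    · rw [gp_ne a (x.setA β) x b h1 hp] at h2 ⊢
      exact hw.1.x0 p h1 h2
  · intro i r hi
    obtain ⟨j, rfl⟩ : ∃ j, i = j + 1 := ⟨i - 1, by omega⟩
    have e1 : 2 ^ (j + 1 + 1) * (2 * r + 1) = 4 * (2 ^ j * (2 * r + 1)) := by ring
    have e2 : 2 ^ (j + 1) = 2 * 2 ^ j := by ring
    have hj0 : 0 < 2 ^ j := by positivity
    rw [gp_ne a (x.setA β) x b (by omega) (by omega), gp_ne a (x.setA β) x b (by omega) (by omega)]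
    exact hw.1.pair (j + 1) r hi

theorem odd_unique {i j r s : ℕ} (h : 2 ^ i * (2 * r + 1) = 2 ^ j * (2 * s + 1)) :
    i = j ∧ r = s := by
  have h1 : padicValNat 2 (2 ^ i * (2 * r + 1)) = i := by
    rw [padicValNat.mul (by positivity) (by omega), padicValNat.prime_pow,
      padicValNat.eq_zero_of_not_dvd (by omega), add_zero]
  have h2 : padicValNat 2 (2 ^ j * (2 * s + 1)) = j := by
    rw [padicValNat.mul (by positivity) (by omega), padicValNat.prime_pow,
      padicValNat.eq_zero_of_not_dvd (by omega), add_zero]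
  have h3 : i = j := by rw [← h1, ← h2, h]
  subst h3
  have h4 := Nat.eq_of_mul_eq_mul_left (by positivity : 0 < 2 ^ i) h
  exact ⟨rfl, by omega⟩

/-- change of two paired marks -/
theorem leg_two {M : Mach Fr Sym} (a : List (Ltr Fr Sym)) (y : Ltr Fr Sym)
    (f : List (Ltr Fr Sym)) (m : Ltr Fr Sym) (b : List (Ltr Fr Sym)) (β : Bool) (i r : ℕ)
    (hi : 1 ≤ i) (hy : y.sk = .o0) (hm : m.sk = .x1) (ha : a.length = 2 ^ (i + 1) * (2 * r + 1))
    (hf : a.length + 2 ^ i = a.length + 1 + f.length + 1)
    (hw : Leg M (a ++ y :: (f ++ m :: b))) :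
    Leg M (a ++ y.setA β :: (f ++ m.setA β :: b)) := by
  refine leg_of (by simp [Ltr.setA]) (by simp [Ltr.setA]) hw ?_
  have hs : (a ++ y :: (f ++ m :: b)).map Ltr.sk =
      (a ++ y.setA β :: (f ++ m.setA β :: b)).map Ltr.sk := by simp [Ltr.setA]
  have hne : ∀ p, 1 ≤ p → p ≠ a.length + 1 → p ≠ a.length + 2 ^ i →
      gp (a ++ y.setA β :: (f ++ m.setA β :: b)) p = gp (a ++ y :: (f ++ m :: b)) p := by
    intro p h1 h2 h3
    rw [gp_ne a (y.setA β) y _ h1 h2]
    have e1 : ∀ m' : Ltr Fr Sym, a ++ y :: (f ++ m' :: b) = (a ++ y :: f) ++ m' :: b := by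
      intro m'
      simp
    rw [e1, e1]
    apply gp_ne _ _ _ _ h1
    rw [List.length_append, List.length_cons]
    omega
  have hat1 : gp (a ++ y.setA β :: (f ++ m.setA β :: b)) (a.length + 1) = y.setA β := gp_at _ _ _
  have hat2 : gp (a ++ y.setA β :: (f ++ m.setA β :: b)) (a.length + 2 ^ i) = m.setA β := by
    have e1 : a ++ y.setA β :: (f ++ m.setA β :: b) = (a ++ y.setA β :: f) ++ m.setA β :: b := by
      simp
    have e2 : a.length + 2 ^ i = (a ++ y.setA β :: f).length + 1 := by
      rw [List.length_append, List.length_cons]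
      omega
    rw [e1, e2, gp_at]
  refine ⟨?_, ?_, ?_⟩
  · intro p h1 h2
    rw [← gp_map Ltr.sk hs]
    exact hw.1.sk p h1 (by simpa using h2)
  · intro p h1 h2
    by_cases hp : p = a.length + 1
    · subst hp
      rw [hat1] at h2
      have h3 : y.sk = .x0 := h2
      rw [hy] at h3
      exact absurd h3 (by decide)
    · by_cases hp' : p = a.length + 2 ^ i
      · subst hp'
        rw [hat2] at h2
        have h3 : m.sk = .x0 := h2
        rw [hm] at h3
        exact absurd h3 (by decide)
      · rw [hne p h1 hp hp'] at h2 ⊢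
        exact hw.1.x0 p h1 h2
  · intro j s hj
    by_cases hjs : 2 ^ (j + 1) * (2 * s + 1) = a.length
    · obtain ⟨h1, h2⟩ := odd_unique (hjs.trans ha)
      have h3 : j = i := by omega
      subst h3
      rw [hjs, hat1, hat2]
      rfl
    · obtain ⟨j', rfl⟩ : ∃ j', j = j' + 1 := ⟨j - 1, by omega⟩
      obtain ⟨i', rfl⟩ : ∃ i', i = i' + 1 := ⟨i - 1, by omega⟩
      have e1 : 2 ^ (j' + 1 + 1) * (2 * s + 1) = 4 * (2 ^ j' * (2 * s + 1)) := by ring
      have e2 : 2 ^ (j' + 1) = 2 * 2 ^ j' := by ring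
      have e3 : 2 ^ (i' + 1 + 1) * (2 * r + 1) = 4 * (2 ^ i' * (2 * r + 1)) := by ring
      have e4 : 2 ^ (i' + 1) = 2 * 2 ^ i' := by ring
      have hj0 : 0 < 2 ^ j' := by positivity
      have hpr : 2 ^ (j' + 1 + 1) * (2 * s + 1) + 2 ^ (j' + 1) ≠ a.length + 2 ^ (i' + 1) := by
        intro he
        have e5 : 2 ^ (j' + 1) * (2 * (2 * s + 1) + 1) = 2 ^ (i' + 1) * (2 * (2 * r + 1) + 1) := by
          rw [ha] at he
          calc 2 ^ (j' + 1) * (2 * (2 * s + 1) + 1)
              = 2 ^ (j' + 1 + 1) * (2 * s + 1) + 2 ^ (j' + 1) := by ring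
            _ = _ := he
            _ = 2 ^ (i' + 1) * (2 * (2 * r + 1) + 1) := by ring
        obtain ⟨h1, h2⟩ := odd_unique e5
        apply hjs
        rw [ha, h1]
        congr 1
      rw [hne _ (by omega) (by omega) (by omega), hne _ (by omega) (by omega) hpr]
      exact hw.1.pair (j' + 1) s hj

/-- alignment of the rule a1 -/
theorem align (h : StB1) (a : List (Ltr Fr Sym)) (y : Ltr Fr Sym)
    (l : List (Ltr Fr Sym × List (Ltr Fr Sym))) (m : Ltr Fr Sym) (b : List (Ltr Fr Sym))
    (hy : y.sk = .o0) (hl : Spn (fun _ => True) l) (hm : m.sk = .x1)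
    (hw : LegA (a ++ y :: (flat l ++ m :: b))) :
    ∃ i r, 1 ≤ i ∧ a.length = 2 ^ (i + 1) * (2 * r + 1) ∧
      a.length + 2 ^ i = a.length + 1 + (flat l).length + 1 := by
  have h1 : (a.length + 1) % 4 = 1 := by
    apply skp_o0
    rw [← hw.sk _ (by omega) (by simp), gp_at]
    exact hy
  have e1 : a ++ y :: (flat l ++ m :: b) = (a ++ [y]) ++ flat l ++ (m :: b) := by simp
  obtain ⟨h2, h3⟩ := (h Fr Sym _ hw).2.1 (a ++ [y]) l (m :: b) 1 a.length e1 hl (by simp)
    le_rfl (by
      rw [show 2 ^ (1 + 1) = 4 from rfl]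
      omega)
  have e2 : a.length + 2 ^ (l.length + 1) = a.length + 1 + (flat l).length + 1 := by
    rw [add_comm 1 l.length] at h3
    omega
  have e3 : 1 + 1 + l.length = l.length + 1 + 1 := by ring
  rw [e3] at h2
  obtain ⟨q, hq⟩ := h2
  have h4 : skp (a.length + 2 ^ (l.length + 1)) = .x1 := by
    have e4 : a ++ y :: (flat l ++ m :: b) = (a ++ y :: flat l) ++ m :: b := by simp
    have e5 : a.length + 2 ^ (l.length + 1) = (a ++ y :: flat l).length + 1 := by
      rw [List.length_append, List.length_cons]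
      omega
    rw [← hw.sk _ (by omega) (by
      rw [e5, e4, List.length_append (as := a ++ y :: flat l), List.length_cons]
      omega), e5, e4, gp_at]
    exact hm
  have h5 : q % 2 = 1 := by
    apply skp_sep (i := l.length + 1) (by omega)
    rw [← h4, hq]
    congr 1
    ring
  refine ⟨l.length + 1, q / 2, by omega, ?_, e2⟩
  rw [hq]
  congr 1
  omega

end B2

open Ltr B2

theorem tB2 (h : StB1) : StB2 := by
  intro Fr Sym M a u v b
  constructor
  · intro hr
    cases hr with
    | a0 x hx hp =>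
      have e1 : a ++ [x] ++ b = a ++ x :: b := by simp
      have e2 : a ++ [x.setA true] ++ b = a ++ x.setA true :: b := by simp
      rw [e1, e2]
      constructor
      · exact leg_one a x true b hx
      · intro hw
        have := leg_one a (x.setA true) false b hx hw
        have e3 : (x.setA true).setA false = x := by
          have h0 : x.a = false := hp
          cases x
          simp only [Ltr.setA] at h0 ⊢
          rw [h0]
        rwa [e3] at this
    | a1 y l m hy hyp hl hm hmp =>
      have e1 : a ++ (y :: (flat l ++ [m])) ++ b = a ++ y :: (flat l ++ m :: b) := by simp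
      have e2 : a ++ (y.setA true :: (flat l ++ [m.setA true])) ++ b =
          a ++ y.setA true :: (flat l ++ m.setA true :: b) := by simp
      rw [e1, e2]
      constructor
      · intro hw
        obtain ⟨i, r, hi, ha, hf⟩ := align h a y l m b hy hl hm hw.1
        exact leg_two a y (flat l) m b true i r hi hy hm ha hf hw
      · intro hw
        obtain ⟨i, r, hi, ha, hf⟩ :=
          align h a (y.setA true) l (m.setA true) b hy hl hm hw.1
        have := leg_two a (y.setA true) (flat l) (m.setA true) b false i r hi hy hm ha hf hw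
        have e3 : ∀ x : Ltr Fr Sym, x.a = false → (x.setA true).setA false = x := by
          intro x h0
          cases x
          simp only [Ltr.setA] at h0 ⊢
          rw [h0]
        rwa [e3 y hyp, e3 m hmp] at this
  · intro hk hw
    have pair_eq : ∀ (y : Ltr Fr Sym) (l : List (Ltr Fr Sym × List (Ltr Fr Sym)))
        (m : Ltr Fr Sym), y.sk = .o0 → Spn (fun _ => True) l → m.sk = .x1 →
        Leg M (a ++ y :: (flat l ++ m :: b)) → y.a = m.a := by
      intro y l m hy hl hm hw
      obtain ⟨i, r, hi, ha, hf⟩ := align h a y l m b hy hl hm hw.1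
      have h1 := hw.1.pair i r hi
      rw [← ha, gp_at] at h1
      rw [h1]
      have e4 : a ++ y :: (flat l ++ m :: b) = (a ++ y :: flat l) ++ m :: b := by simp
      have e5 : a.length + 2 ^ i = (a ++ y :: flat l).length + 1 := by
        rw [List.length_append, List.length_cons]
        omega
      rw [e5, e4, gp_at]
    have two : ∀ (x y : Ltr Fr Sym) (b' : List (Ltr Fr Sym)), Leg M (a ++ x :: y :: b') →
        skp (a.length + 1) = x.sk ∧ skp (a.length + 2) = y.sk := by
      intro x y b' hw
      constructor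
      · rw [← hw.1.sk _ (by omega) (by simp), gp_at]
      · have e4 : a ++ x :: y :: b' = (a ++ [x]) ++ y :: b' := by simp
        have e5 : a.length + 2 = (a ++ [x]).length + 1 := by simp
        rw [← hw.1.sk _ (by omega) (by simp), e5, e4, gp_at]
    have three : ∀ (x s y : Ltr Fr Sym) (b' : List (Ltr Fr Sym)), Leg M (a ++ x :: s :: y :: b') →
        skp (a.length + 1) = x.sk ∧ skp (a.length + 3) = y.sk := by
      intro x s y b' hw
      refine ⟨(two x s (y :: b') hw).1, ?_⟩
      have e4 : a ++ x :: s :: y :: b' = (a ++ [x, s]) ++ y :: b' := by simp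
      have e5 : a.length + 3 = (a ++ [x, s]).length + 1 := by simp
      rw [← hw.1.sk _ (by omega) (by simp), e5, e4, gp_at]
    have cellpar : ∀ (x : Ltr Fr Sym) (p : ℕ), skp p = x.sk → Cell x → p % 2 = 1 := by
      intro x p hp hx
      rcases hx with hx | hx
      · have := skp_o0 (hp.trans hx)
        omega
      · have := skp_o1 (hp.trans hx)
        omega
    have seppar : ∀ (x : Ltr Fr Sym) (p : ℕ), skp p = x.sk → Sep x → p % 2 = 0 := by
      intro x p hp hx
      rcases hx with hx | hx
      · exact skp_x0 (hp.trans hx)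
      · exact skp_x1 (hp.trans hx)
    cases hk with
    | a1 y l m hy hl hm hmp =>
      have e1 : a ++ (y :: (flat l ++ [m])) ++ b = a ++ y :: (flat l ++ m :: b) := by simp
      rw [e1] at hw
      have h1 := pair_eq y l m hy.1 hl hm hw
      have h2 : m.a = false := hmp
      rw [hy.2, h2] at h1
      exact absurd h1 (by decide)
    | a2 y l m hy hyp hl hm =>
      have e1 : a ++ (y :: (flat l ++ [m])) ++ b = a ++ y :: (flat l ++ m :: b) := by simp
      rw [e1] at hw
      have h1 := pair_eq y l m hy hl hm.1 hw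
      have h2 : y.a = false := hyp
      rw [hm.2, h2] at h1
      exact absurd h1 (by decide)
    | a3 x hx hxa =>
      have e1 : a ++ [x] ++ b = a ++ x :: b := by simp
      rw [e1] at hw
      have h1 := hw.1.x0 (a.length + 1) (by omega) (by rw [gp_at]; exact hx)
      rw [gp_at, hxa] at h1
      exact absurd h1 (by decide)
    | s1 x y hx hy =>
      have e1 : a ++ [x, y] ++ b = a ++ x :: y :: b := by simp
      rw [e1] at hw
      obtain ⟨h1, h2⟩ := two x y b hw
      have h3 := cellpar x _ h1 hx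
      have h4 := cellpar y _ h2 hy
      omega
    | s2 x y hx hy =>
      have e1 : a ++ [x, y] ++ b = a ++ x :: y :: b := by simp
      rw [e1] at hw
      obtain ⟨h1, h2⟩ := two x y b hw
      have h3 := seppar x _ h1 hx
      have h4 := seppar y _ h2 hy
      omega
    | s3 x s y hx hs hy =>
      have e1 : a ++ [x, s, y] ++ b = a ++ x :: s :: y :: b := by simp
      rw [e1] at hw
      obtain ⟨h1, h2⟩ := three x s y b hw
      have h3 := skp_o0 (h1.trans hx)
      have h4 := skp_o0 (h2.trans hy)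
      omega
    | s4 x s y hx hs hy =>
      have e1 : a ++ [x, s, y] ++ b = a ++ x :: s :: y :: b := by simp
      rw [e1] at hw
      obtain ⟨h1, h2⟩ := three x s y b hw
      have h3 := skp_o1 (h1.trans hx)
      have h4 := skp_o1 (h2.trans hy)
      omega

end Pool.Agent.LibPeps
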