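import Pool.Agent.LibPeps.DefsB

set_option autoImplicit false

/-! Part B3: layer K preserves the legitimate words. -/

namespace Pool.Agent.LibPeps
open Ltr

namespace B3
variable {Fr Sym : Type}

/-- erase the k bits -/
def er (w : List (Ltr Fr Sym)) : List (Ltr Fr Sym) := w.map fun x => x.setK false

theorem er_append (u v : List (Ltr Fr Sym)) : er (u ++ v) = er u ++ er v := by simp [er]

theorem er_cons (x : Ltr Fr Sym) (v : List (Ltr Fr Sym)) :
    er (x :: v) = x.setK false :: er v := by simp [er]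

theorem er_length (w : List (Ltr Fr Sym)) : (er w).length = w.length := by simp [er]

theorem gp_er (w : List (Ltr Fr Sym)) (p : ℕ) : gp (er w) p = (gp w p).setK false := by
  unfold gp er
  rw [List.getD_eq_getElem?_getD, List.getD_eq_getElem?_getD, List.getElem?_map]
  cases w[p - 1]? <;> rfl

theorem legA_er (w : List (Ltr Fr Sym)) : LegA (er w) ↔ LegA w := by
  constructor
  · intro h
    refine ⟨fun p h1 h2 => ?_, fun p h1 h2 => ?_, fun i r hi => ?_⟩
    · have := h.sk p h1 (by rw [er_length]; exact h2)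
      rw [gp_er] at this; exact this
    · have := h.x0 p h1
      rw [gp_er] at this; exact this h2
    · have := h.pair i r hi
      rw [gp_er, gp_er] at this; exact this
  · intro h
    refine ⟨fun p h1 h2 => ?_, fun p h1 h2 => ?_, fun i r hi => ?_⟩
    · have := h.sk p h1 (by rw [er_length] at h2; exact h2)
      rw [gp_er]; exact this
    · have := h.x0 p h1
      rw [gp_er] at h2 ⊢; exact this h2
    · have := h.pair i r hi
      rw [gp_er, gp_er]; exact this

theorem legC_er (M : Mach Fr Sym) (w : List (Ltr Fr Sym)) : LegC M (er w) ↔ LegC M w := by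
  have e : ∀ p, (gp (er w) p).c = (gp w p).c := fun p => by rw [gp_er]; rfl
  constructor
  · intro h P hP
    obtain ⟨cs, h1, h2, h3⟩ := h P hP
    refine ⟨cs, h1, fun k hk hk2 => ?_, ?_⟩
    · rw [← e]; exact h2 k hk hk2
    · rw [er_length] at h3; exact h3
  · intro h P hP
    obtain ⟨cs, h1, h2, h3⟩ := h P hP
    refine ⟨cs, h1, fun k hk hk2 => ?_, ?_⟩
    · rw [e]; exact h2 k hk hk2
    · rw [er_length]; exact h3

/-- one pair -/
def LK (w : List (Ltr Fr Sym)) (s i : ℕ) : Prop :=
  (gp w (s + 1 - 2 ^ (i + 1))).k = (gp w (s + 2 ^ (i + 1))).k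

theorem two_pow_dvd_le {s i : ℕ} (hs : 0 < s) (h : 2 ^ (i + 2) ∣ s) : 2 * 2 ^ (i + 1) ≤ s := by
  have := Nat.le_of_dvd hs h
  rw [pow_succ] at this; omega

/-- uniqueness of i from an odd multiple -/
theorem uniq {s s' i i' : ℕ} (h : 2 ^ (i + 2) ∣ s) (h' : 2 ^ (i' + 2) ∣ s')
    (e : (s : ℤ) - 2 ^ (i + 1) = s' - 2 ^ (i' + 1) ∨ (s : ℤ) + 2 ^ (i + 1) = s' + 2 ^ (i' + 1)) :
    s = s' ∧ i = i' := by
  have key : i = i' := by
    have main : ∀ (s s' i i' : ℕ), 2 ^ (i + 2) ∣ s → 2 ^ (i' + 2) ∣ s' →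
        ((s : ℤ) - 2 ^ (i + 1) = s' - 2 ^ (i' + 1) ∨ (s : ℤ) + 2 ^ (i + 1) = s' + 2 ^ (i' + 1)) →
        ¬ i < i' := by
      intro s s' i i' h h' e hlt
      have hs : (2 : ℤ) ^ (i + 2) ∣ s := by exact_mod_cast h
      have hs' : (2 : ℤ) ^ (i + 2) ∣ s' :=
        dvd_trans (pow_dvd_pow 2 (by omega)) (by exact_mod_cast h' : (2 : ℤ) ^ (i' + 2) ∣ s')
      have h2 : (2 : ℤ) ^ (i + 2) ∣ 2 ^ (i' + 1) := pow_dvd_pow 2 (by omega)
      have h3 : (2 : ℤ) ^ (i + 2) ∣ 2 ^ (i + 1) := by
        rcases e with e | e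
        · have : (2 : ℤ) ^ (i + 1) = s - s' + 2 ^ (i' + 1) := by linarith
          rw [this]; exact dvd_add (dvd_sub hs hs') h2
        · have : (2 : ℤ) ^ (i + 1) = s' - s + 2 ^ (i' + 1) := by linarith
          rw [this]; exact dvd_add (dvd_sub hs' hs) h2
      have h4 : (2 : ℤ) ^ (i + 2) ≤ 2 ^ (i + 1) := Int.le_of_dvd (by positivity) h3
      have h5 : (2 : ℤ) ^ (i + 2) = 2 * 2 ^ (i + 1) := by ring
      have h6 : (0 : ℤ) < 2 ^ (i + 1) := by positivity
      linarith
    have a1 := main s s' i i' h h' e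
    have a2 := main s' s i' i h' h (by rcases e with e | e; exacts [Or.inl e.symm, Or.inr e.symm])
    omega
  subst key
  refine ⟨?_, rfl⟩
  rcases e with e | e
  · have : (s : ℤ) = s' := by linarith
    exact_mod_cast this
  · have : (s : ℤ) = s' := by linarith
    exact_mod_cast this

theorem left_inj {s s' i i' : ℕ} (hs : 0 < s) (hs' : 0 < s') (h : 2 ^ (i + 2) ∣ s)
    (h' : 2 ^ (i' + 2) ∣ s') (e : s + 1 - 2 ^ (i + 1) = s' + 1 - 2 ^ (i' + 1)) :
    s = s' ∧ i = i' := by
  apply uniq h h'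
  left
  have a := two_pow_dvd_le hs h
  have b := two_pow_dvd_le hs' h'
  have a' : (2 : ℤ) * 2 ^ (i + 1) ≤ s := by exact_mod_cast a
  have e' : s + 2 ^ (i' + 1) = s' + 2 ^ (i + 1) := by omega
  have e'' : (s : ℤ) + 2 ^ (i' + 1) = s' + 2 ^ (i + 1) := by exact_mod_cast e'
  linarith

theorem right_inj {s s' i i' : ℕ} (h : 2 ^ (i + 2) ∣ s)
    (h' : 2 ^ (i' + 2) ∣ s') (e : s + 2 ^ (i + 1) = s' + 2 ^ (i' + 1)) :
    s = s' ∧ i = i' := by
  apply uniq h h'
  right
  exact_mod_cast e

theorem left_ne_right {s s' i i' : ℕ} (hs : 0 < s) (h : 2 ^ (i + 2) ∣ s)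
    (h' : 2 ^ (i' + 2) ∣ s') : s + 1 - 2 ^ (i + 1) ≠ s' + 2 ^ (i' + 1) := by
  have a := two_pow_dvd_le hs h
  have b1 : 2 ∣ s := dvd_trans (dvd_pow_self 2 (by omega)) h
  have b2 : 2 ∣ s' := dvd_trans (dvd_pow_self 2 (by omega)) h'
  have b3 : 2 ∣ 2 ^ (i + 1) := dvd_pow_self 2 (by omega)
  have b4 : 2 ∣ 2 ^ (i' + 1) := dvd_pow_self 2 (by omega)
  omega

/-- p is one of the two places of the pair (s,i) -/
def At (s i p : ℕ) : Prop := p = s + 1 - 2 ^ (i + 1) ∨ p = s + 2 ^ (i + 1)

theorem at_uniq {s i s' i' p : ℕ} (hs : 0 < s) (hs' : 0 < s') (h : 2 ^ (i + 2) ∣ s)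
    (h' : 2 ^ (i' + 2) ∣ s') (a : At s i p) (a' : At s' i' p) : s = s' ∧ i = i' := by
  rcases a with a | a <;> rcases a' with a' | a'
  · exact left_inj hs hs' h h' (a.symm.trans a')
  · exact absurd (a.symm.trans a') (left_ne_right hs h h')
  · exact absurd (a'.symm.trans a) (left_ne_right hs' h' h)
  · exact right_inj h h' (a.symm.trans a')

/-- words which differ only in pairs of S which are balanced in the second word -/
theorem legK_of {w w' : List (Ltr Fr Sym)} (S : ℕ → ℕ → Prop)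
    (hS : ∀ s i, S s i → 0 < s ∧ 2 ^ (i + 2) ∣ s ∧ LK w' s i)
    (hd : ∀ p, 1 ≤ p → (gp w p).k = (gp w' p).k ∨ ∃ s i, S s i ∧ At s i p)
    (h : LegK w) : LegK w' := by
  intro s i hs hi
  by_cases hSs : S s i
  · exact (hS s i hSs).2.2
  · have aux : ∀ p, 1 ≤ p → At s i p → (gp w p).k = (gp w' p).k := by
      intro p h1 hp
      rcases hd p h1 with h2 | ⟨s', i', h2, h3⟩
      · exact h2
      · obtain ⟨e1, e2⟩ := at_uniq hs (hS _ _ h2).1 hi (hS _ _ h2).2.1 hp h3
        subst e1; subst e2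
        exact absurd h2 hSs
    have a := two_pow_dvd_le hs hi
    have b : 0 < 2 ^ (i + 1) := by positivity
    rw [← aux _ (by omega) (Or.inl rfl), ← aux _ (by omega) (Or.inr rfl)]
    exact h s i hs hi

/-! ### reading letters -/

theorem gp_at (a : List (Ltr Fr Sym)) (x : Ltr Fr Sym) (b : List (Ltr Fr Sym)) (p : ℕ)
    (hp : p = a.length + 1) : gp (a ++ x :: b) p = x := by
  subst hp
  unfold gp
  simp

theorem gp_ne (a : List (Ltr Fr Sym)) (x x' : Ltr Fr Sym) (b : List (Ltr Fr Sym)) (p : ℕ)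
    (h1 : 1 ≤ p) (hp : p ≠ a.length + 1) : gp (a ++ x :: b) p = gp (a ++ x' :: b) p := by
  unfold gp
  rw [List.getD_eq_getElem?_getD, List.getD_eq_getElem?_getD]
  congr 1
  rcases lt_trichotomy (p - 1) a.length with h | h | h
  · rw [List.getElem?_append_left h, List.getElem?_append_left h]
  · omega
  · rw [List.getElem?_append_right h.le, List.getElem?_append_right h.le]
    obtain ⟨k, hk⟩ : ∃ k, p - 1 - a.length = k + 1 := ⟨p - 1 - a.length - 1, by omega⟩
    rw [hk]; simp

/-! ### chains and spines -/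

theorem cflat_append (c d : List (Ltr Fr Sym × List (Ltr Fr Sym) × Ltr Fr Sym)) :
    cflat (c ++ d) = cflat c ++ cflat d := by simp [cflat]

theorem cflat_cons (e : Ltr Fr Sym × List (Ltr Fr Sym) × Ltr Fr Sym)
    (d : List (Ltr Fr Sym × List (Ltr Fr Sym) × Ltr Fr Sym)) :
    cflat (e :: d) = e.1 :: (e.2.1 ++ e.2.2 :: cflat d) := by simp [cflat]

theorem cflat_nil : cflat ([] : List (Ltr Fr Sym × List (Ltr Fr Sym) × Ltr Fr Sym)) = [] := rfl

theorem flat_append (c d : List (Ltr Fr Sym × List (Ltr Fr Sym))) :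
    flat (c ++ d) = flat c ++ flat d := by simp [flat]

theorem flat_cons (p : Ltr Fr Sym × List (Ltr Fr Sym)) (d : List (Ltr Fr Sym × List (Ltr Fr Sym))) :
    flat (p :: d) = p.1 :: (p.2 ++ flat d) := by simp [flat]

theorem flat_nil : flat ([] : List (Ltr Fr Sym × List (Ltr Fr Sym))) = [] := rfl

/-- an element L C M of a chain -/
def Good (e : Ltr Fr Sym × List (Ltr Fr Sym) × Ltr Fr Sym) : Prop :=
  mL e.1 ∧ (∀ x ∈ e.2.1, Pl x) ∧ mM e.2.2

theorem ce_good {b : Bool} {e : Ltr Fr Sym × List (Ltr Fr Sym) × Ltr Fr Sym} (h : CE b e) :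
    Good e := ⟨h.1, h.2.2.1, h.2.2.2⟩

theorem inL_data {u u' : List (Ltr Fr Sym)} (h : InL u u') :
    ∃ (ch : List (Ltr Fr Sym × List (Ltr Fr Sym) × Ltr Fr Sym)) (o ux : Ltr Fr Sym)
      (ut : List (Ltr Fr Sym)),
      u = cflat ch ++ [o] ∧ (∀ e ∈ ch, Good e) ∧ O1 o ∧ u = ux :: ut ∧
      u' = ux.setK false :: ut ∧ ux.k = true ∧
      (∀ c1 e c2, ch = c1 ++ e :: c2 → c1 ≠ [] → e.1.k = false) ∧ (ch ≠ [] → o.k = false) := by
  cases h with
  | cell o h1 h2 =>
    refine ⟨[], o, o, [], by simp [cflat_nil], by simp, h1, rfl, rfl, h2, ?_, by simp⟩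
    intro c1 e c2 h
    simp at h
  | chain e es o h1 h2 h3 h4 =>
    refine ⟨e :: es, o, e.1, e.2.1 ++ e.2.2 :: cflat es ++ [o], rfl, ?_, h3, ?_, ?_, h1.2.1, ?_,
      fun _ => h4⟩
    · intro e' he'
      rcases List.mem_cons.1 he' with h | h
      · subst h; exact ce_good h1
      · exact ce_good (h2 e' h)
    · rw [cflat_cons]; simp
    · rw [cflat_cons]; simp
    · intro c1 e' c2 hc hne
      cases c1 with
      | nil => exact absurd rfl hne
      | cons d c1 =>
        rw [List.cons_append, List.cons.injEq] at hc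
        have : e' ∈ es := by rw [hc.2]; simp
        exact (h2 e' this).2.1

theorem good_of_append {c1 c2 : List (Ltr Fr Sym × List (Ltr Fr Sym) × Ltr Fr Sym)}
    (h : ∀ e ∈ c1 ++ c2, Good e) : ∀ e ∈ c2, Good e :=
  fun e he => h e (List.mem_append_right _ he)

/-- positions in a chain: S is the position of s -/
theorem chain_pos (h1 : StB1) {w a b : List (Ltr Fr Sym)} {o s : Ltr Fr Sym}
    {ch : List (Ltr Fr Sym × List (Ltr Fr Sym) × Ltr Fr Sym)} (hA : LegA w)
    (hw : w = a ++ cflat ch ++ o :: s :: b) (hch : ∀ e ∈ ch, Good e) (ho : O1 o) (hs : Sep s) :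
    2 ^ (ch.length + 2) ∣ a.length + (cflat ch).length + 2 ∧
      (cflat ch).length + 2 = 2 ^ (ch.length + 1) :=
  (h1 Fr Sym w hA).2.2.2 a ch o s b hw hch ho hs

/-- the left side: the first letter of u is at the left place of the pair (S, i) -/
theorem left_idx (h1 : StB1) {w a u u' b : List (Ltr Fr Sym)} {s : Ltr Fr Sym} (hA : LegA w)
    (hw : w = a ++ (u ++ s :: b)) (hu : InL u u') (hs : Sep s) :
    ∃ i, 2 ^ (i + 2) ∣ a.length + u.length + 1 ∧ u.length + 1 = 2 ^ (i + 1) ∧
      (gp w (a.length + 1)).k = true ∧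
      ∀ j < i, (gp w (a.length + u.length + 1 + 1 - 2 ^ (j + 1))).k = false := by
  obtain ⟨ch, o, ux, ut, e1, hg, ho, e2, e3, hk, hin, hok⟩ := inL_data hu
  have e1l : u.length = (cflat ch).length + 1 := by rw [e1]; simp
  have hw' : w = a ++ cflat ch ++ o :: s :: b := by rw [hw, e1]; simp
  obtain ⟨c1, c2⟩ := chain_pos h1 hA hw' hg ho hs
  refine ⟨ch.length, ?_, by omega, ?_, ?_⟩
  · rw [e1l]; exact c1
  · rw [hw, e2, List.cons_append, gp_at _ _ _ _ rfl]; exact hk
  · intro j hj
    cases j with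
    | zero =>
      rw [hw', gp_at _ _ _ _ (by rw [e1l, List.length_append]; omega)]
      apply hok
      rintro rfl
      simp at hj
    | succ j =>
      -- the element with j elements after it
      have hlt : ch.length - (j + 1) < ch.length := by omega
      have hsplit : ch = ch.take (ch.length - (j + 1)) ++
          ch[ch.length - (j + 1)] :: ch.drop (ch.length - (j + 1) + 1) := by
        rw [List.getElem_cons_drop, List.take_append_drop]
      set d1 := ch.take (ch.length - (j + 1)) with hd1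
      set e := ch[ch.length - (j + 1)] with he
      set d2 := ch.drop (ch.length - (j + 1) + 1) with hd2
      have l1 : d1.length = ch.length - (j + 1) := by
        rw [hd1, List.length_take]; omega
      have l2 : d2.length = j := by rw [hd2, List.length_drop]; omega
      have hk' : e.1.k = false := by
        apply hin d1 e d2 hsplit
        intro h0
        rw [h0] at l1
        simp at l1
        omega
      have hg' : ∀ e' ∈ e :: d2, Good e' := by
        apply good_of_append (c1 := d1)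
        rw [← hsplit]; exact hg
      have hw2 : w = (a ++ cflat d1) ++ cflat (e :: d2) ++ o :: s :: b := by
        rw [hw']
        conv_lhs => rw [hsplit]
        rw [cflat_append]; simp
      have hc := (chain_pos h1 hA hw2 hg' ho hs).2
      have hlen : (cflat ch).length = (cflat d1).length + (cflat (e :: d2)).length := by
        conv_lhs => rw [hsplit]
        rw [cflat_append, List.length_append]
      have hw3 : w = (a ++ cflat d1) ++ e.1 :: (e.2.1 ++ e.2.2 :: cflat d2 ++ o :: s :: b) := by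
        rw [hw2, cflat_cons]; simp
      rw [hw3, gp_at _ _ _ _ ?_]
      · exact hk'
      · rw [e1l, List.length_append, hlen]
        rw [List.length_cons, l2] at hc
        omega

/-- the right side -/
theorem right_idx (h1 : StB1) {w a r : List (Ltr Fr Sym)} {s y : Ltr Fr Sym}
    {l : List (Ltr Fr Sym × List (Ltr Fr Sym))} (hA : LegA w)
    (hw : w = a ++ s :: y :: (flat l ++ r)) (h4 : 4 ∣ a.length + 1)
    (hl : Spn (fun x => x.k = false) l) :
    (flat l).length + 2 = 2 ^ (l.length + 1) ∧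
      ∀ j < l.length, (gp w (a.length + 1 + 2 ^ (j + 1))).k = false := by
  have key : ∀ l1 l2 : List (Ltr Fr Sym × List (Ltr Fr Sym)), l = l1 ++ l2 →
      (flat l1).length + 2 = 2 ^ (l1.length + 1) := by
    intro l1 l2 h
    have hs1 : Spn (fun _ => True) l1 := by
      intro p hp
      have := hl p (by rw [h]; exact List.mem_append_left _ hp)
      exact ⟨this.1, trivial, this.2.2⟩
    have := ((h1 Fr Sym w hA).2.1 (a ++ [s, y]) l1 (flat l2 ++ r) 1 (a.length + 1)
      (by rw [hw, h, flat_append]; simp) hs1 (by simp) le_rfl (by simpa using h4)).2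
    rw [add_comm 1 l1.length] at this
    simpa using this
  refine ⟨key l [] (by simp), ?_⟩
  intro j hj
  have hsplit : l = l.take j ++ l[j] :: l.drop (j + 1) := by
    rw [List.getElem_cons_drop, List.take_append_drop]
  have l1 : (l.take j).length = j := by rw [List.length_take]; omega
  have hk := key (l.take j) (l[j] :: l.drop (j + 1)) hsplit
  rw [l1] at hk
  have hw3 : w = (a ++ s :: y :: flat (l.take j)) ++ (l[j]).1 ::
      ((l[j]).2 ++ flat (l.drop (j + 1)) ++ r) := by
    rw [hw]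
    conv_lhs => rw [hsplit]
    rw [flat_append, flat_cons]; simp
  rw [hw3, gp_at _ _ _ _ ?_]
  · exact (hl _ (List.getElem_mem hj)).2.1
  · simp only [List.length_append, List.length_cons]
    omega

theorem idx_eq (h1 : StB1) {w a u u' b : List (Ltr Fr Sym)} {s y x : Ltr Fr Sym}
    {l : List (Ltr Fr Sym × List (Ltr Fr Sym))} (hA : LegA w) (hK : LegK w)
    (hw : w = a ++ (u ++ s :: y :: (flat l ++ x :: b))) (hu : InL u u') (hs : Sep s)
    (hl : Spn (fun x => x.k = false) l) (hx : x.k = true) :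
    2 ^ (l.length + 2) ∣ a.length + u.length + 1 ∧ u.length + 1 = 2 ^ (l.length + 1) ∧
      (flat l).length + 2 = 2 ^ (l.length + 1) := by
  obtain ⟨i, i1, i2, i3, i4⟩ := left_idx h1 hA hw hu hs
  have hw2 : w = (a ++ u) ++ s :: y :: (flat l ++ x :: b) := by rw [hw]; simp
  have h4 : 4 ∣ (a ++ u).length + 1 := by
    rw [List.length_append]
    exact dvd_trans (by rw [pow_add]; exact Dvd.intro_left _ rfl) i1
  obtain ⟨r1, r2⟩ := right_idx h1 hA hw2 h4 hl
  rw [List.length_append] at r2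
  have hxk : (gp w (a.length + u.length + 1 + 2 ^ (l.length + 1))).k = true := by
    have hw3 : w = (a ++ u ++ s :: y :: flat l) ++ x :: b := by rw [hw]; simp
    rw [hw3, gp_at _ _ _ _ (by simp only [List.length_append, List.length_cons]; omega)]
    exact hx
  have hik : (gp w (a.length + u.length + 1 + 1 - 2 ^ (i + 1))).k = true := by
    rw [show a.length + u.length + 1 + 1 - 2 ^ (i + 1) = a.length + 1 by omega]
    exact i3
  have hil : i = l.length := by
    rcases lt_trichotomy i l.length with h | h | h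
    · have := hK (a.length + u.length + 1) i (by omega) i1
      rw [hik, r2 i h] at this
      exact absurd this (by simp)
    · exact h
    · have := hK (a.length + u.length + 1) l.length (by omega)
        (dvd_trans (pow_dvd_pow 2 (by omega)) i1)
      rw [hxk, i4 _ h] at this
      exact absurd this (by simp)
  subst hil
  exact ⟨i1, i2, r1⟩

/-! ### the rules -/

theorem skp_eval (i r : ℕ) : skp (2 ^ (i + 1) * (2 * r + 1)) = if r % 2 = 0 then .x0 else .x1 := by
  have h2 : 2 ∣ 2 ^ (i + 1) * (2 * r + 1) := Dvd.dvd.mul_right (dvd_pow_self 2 (by omega)) _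
  have hv : padicValNat 2 (2 ^ (i + 1) * (2 * r + 1)) = i + 1 := by
    rw [padicValNat.mul (by positivity) (by omega), padicValNat.prime_pow,
      padicValNat.eq_zero_of_not_dvd (by omega)]
  have hd : 2 ^ (i + 1) * (2 * r + 1) / 2 ^ (i + 1 + 1) = r := by
    rw [pow_succ 2 (i + 1), Nat.mul_div_mul_left _ _ (by positivity)]
    omega
  unfold skp
  rw [if_neg (by omega), if_neg (by omega), hv, hd]

theorem skp_flip {s i : ℕ} (hs : 0 < s) (h : 2 ^ (i + 2) ∣ s) :
    ¬ (skp (s - 2 ^ (i + 1)) = skp (s + 2 ^ (i + 1))) := by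
  obtain ⟨t, rfl⟩ := h
  obtain ⟨t, rfl⟩ : ∃ t', t = t' + 1 := by
    rcases t with _ | t
    · simp at hs
    · exact ⟨t, rfl⟩
  have e1 : 2 ^ (i + 2) * (t + 1) - 2 ^ (i + 1) = 2 ^ (i + 1) * (2 * t + 1) := by
    have : 2 ^ (i + 2) * (t + 1) = 2 ^ (i + 1) * (2 * t + 1) + 2 ^ (i + 1) := by ring
    omega
  have e2 : 2 ^ (i + 2) * (t + 1) + 2 ^ (i + 1) = 2 ^ (i + 1) * (2 * (t + 1) + 1) := by ring
  rw [e1, e2, skp_eval, skp_eval]
  rcases Nat.mod_two_eq_zero_or_one t with h | h
  · rw [if_pos h, if_neg (by omega)]; decide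
  · rw [if_neg (by omega), if_pos (by omega)]; decide

theorem ruleK_er {u v : List (Ltr Fr Sym)} (h : RuleK u v) : er u = er v := by
  cases h with
  | k0 o s y x h1 h2 h3 h4 h5 h6 =>
    simp [er, setK]
  | k1 e u u' s y l x z x' h1 h2 h3 h4 h5 h6 h7 h8 h9 h10 =>
    obtain ⟨ch, o, ux, ut, e1, hg, ho, e2, e3, hk, hin, hok⟩ := inL_data h2
    rw [e2, e3]
    simp [er, setK, cflat]

/-- one direction of both rules -/
theorem legK_k0 (h1 : StB1) {w w' a b : List (Ltr Fr Sym)} {o s y x : Ltr Fr Sym} {c : Bool}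
    (hA : LegA w) (hw : w = a ++ o :: s :: y :: x :: b) (ho : O1 o) (hs : Sep s)
    (hw' : w' = a ++ o.setK c :: s :: y :: x.setK c :: b) (hK : LegK w) : LegK w' := by
  have h4 : 2 ^ 2 ∣ a.length + 2 := by
    have := (chain_pos h1 (a := a) (ch := []) (b := y :: x :: b) hA (by rw [hw, cflat_nil]; simp)
      (by simp) ho hs).1
    simpa [cflat_nil] using this
  have q2 : w' = (a ++ o.setK c :: [s, y]) ++ x.setK c :: b := by rw [hw']; simp
  refine legK_of (fun s i => s = a.length + 2 ∧ i = 0) ?_ ?_ hK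
  · rintro s i ⟨rfl, rfl⟩
    refine ⟨by omega, h4, ?_⟩
    unfold LK
    rw [q2, gp_at _ _ _ (a.length + 2 + 2 ^ (0 + 1)) (by simp), ← q2, hw',
      gp_at _ _ _ _ (by simp)]
    rfl
  · intro p hp
    by_cases p1 : p = a.length + 1
    · right
      exact ⟨_, _, ⟨rfl, rfl⟩, Or.inl (by rw [p1]; simp)⟩
    by_cases p2 : p = a.length + 4
    · right
      exact ⟨_, _, ⟨rfl, rfl⟩, Or.inr (by rw [p2]; simp)⟩
    left
    rw [hw, gp_ne a o (o.setK c) _ p hp p1]
    rw [show a ++ o.setK c :: s :: y :: x :: b = (a ++ o.setK c :: [s, y]) ++ x :: b by simp,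
      gp_ne _ x (x.setK c) _ p hp (by simpa using p2), ← q2]

/-- the pair (S,i) is moved; both directions -/
theorem legK_k1 {w w' a b ut z : List (Ltr Fr Sym)}
    {e1 ux s y x x' : Ltr Fr Sym} {E : List (Ltr Fr Sym)} {c c' : Bool}
    {l : List (Ltr Fr Sym × List (Ltr Fr Sym))} {S i : ℕ}
    (hw : w = a ++ e1 :: (E ++ ux :: (ut ++ s :: y :: (flat l ++ x :: (z ++ x' :: b)))))
    (hw' : w' = a ++ e1.setK c' :: (E ++ ux.setK c :: (ut ++ s :: y :: (flat l ++ x.setK c ::
      (z ++ x'.setK c' :: b)))))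
    (hS : 0 < S) (hd : 2 ^ (i + 3) ∣ S) (p1 : a.length + 1 = S + 1 - 2 ^ (i + 2))
    (p2 : a.length + 1 + E.length + 1 = S + 1 - 2 ^ (i + 1))
    (p3 : a.length + 1 + E.length + 1 + ut.length + 2 + (flat l).length + 1 = S + 2 ^ (i + 1))
    (p4 : a.length + 1 + E.length + 1 + ut.length + 2 + (flat l).length + 1 + z.length + 1 =
      S + 2 ^ (i + 2))
    (hK : LegK w) : LegK w' := by
  have q1 : w' = a ++ e1.setK c' :: (E ++ ux.setK c :: (ut ++ s :: y :: (flat l ++ x.setK c ::
      (z ++ x'.setK c' :: b)))) := hw'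
  have q2 : w' = (a ++ e1.setK c' :: E) ++ ux.setK c :: (ut ++ s :: y :: (flat l ++ x.setK c ::
      (z ++ x'.setK c' :: b))) := by rw [hw']; simp
  have q3 : w' = (a ++ e1.setK c' :: (E ++ ux.setK c :: (ut ++ s :: y :: flat l))) ++ x.setK c ::
      (z ++ x'.setK c' :: b) := by rw [hw']; simp
  have q4 : w' = (a ++ e1.setK c' :: (E ++ ux.setK c :: (ut ++ s :: y :: (flat l ++ x.setK c ::
      z)))) ++ x'.setK c' :: b := by rw [hw']; simp
  have g1 : gp w' (S + 1 - 2 ^ (i + 1 + 1)) = e1.setK c' := by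
    rw [q1, gp_at _ _ _ _ p1.symm]
  have g2 : gp w' (S + 1 - 2 ^ (i + 1)) = ux.setK c := by
    rw [q2, gp_at _ _ _ _ (by rw [← p2, List.length_append, List.length_cons]; omega)]
  have g3 : gp w' (S + 2 ^ (i + 1)) = x.setK c := by
    rw [q3, gp_at _ _ _ _ (by
      rw [← p3]; simp only [List.length_append, List.length_cons]; omega)]
  have g4 : gp w' (S + 2 ^ (i + 1 + 1)) = x'.setK c' := by
    rw [q4, gp_at _ _ _ _ (by
      rw [show i + 1 + 1 = i + 2 from rfl, ← p4]
      simp only [List.length_append, List.length_cons]; omega)]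
  refine legK_of (fun s j => s = S ∧ (j = i ∨ j = i + 1)) ?_ ?_ hK
  · rintro s j ⟨rfl, rfl | rfl⟩
    · refine ⟨hS, dvd_trans (pow_dvd_pow 2 (by omega)) hd, ?_⟩
      unfold LK
      rw [g2, g3]; rfl
    · refine ⟨hS, dvd_trans (pow_dvd_pow 2 (by omega)) hd, ?_⟩
      unfold LK
      rw [g1, g4]; rfl
  · intro p hp
    by_cases r1 : p = S + 1 - 2 ^ (i + 1 + 1)
    · right; exact ⟨S, i + 1, ⟨rfl, Or.inr rfl⟩, Or.inl r1⟩
    by_cases r2 : p = S + 1 - 2 ^ (i + 1)
    · right; exact ⟨S, i, ⟨rfl, Or.inl rfl⟩, Or.inl r2⟩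
    by_cases r3 : p = S + 2 ^ (i + 1)
    · right; exact ⟨S, i, ⟨rfl, Or.inl rfl⟩, Or.inr r3⟩
    by_cases r4 : p = S + 2 ^ (i + 1 + 1)
    · right; exact ⟨S, i + 1, ⟨rfl, Or.inr rfl⟩, Or.inr r4⟩
    left
    have s1 : p ≠ a.length + 1 := by rw [p1]; exact r1
    rw [hw, gp_ne a e1 (e1.setK c') _ p hp s1]
    rw [show a ++ e1.setK c' :: (E ++ ux :: (ut ++ s :: y :: (flat l ++ x :: (z ++ x' :: b)))) =
      (a ++ e1.setK c' :: E) ++ ux :: (ut ++ s :: y :: (flat l ++ x :: (z ++ x' :: b))) by simp]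
    rw [gp_ne _ ux (ux.setK c) _ p hp (by
      rw [List.length_append, List.length_cons]; omega)]
    rw [show (a ++ e1.setK c' :: E) ++ ux.setK c :: (ut ++ s :: y :: (flat l ++ x ::
      (z ++ x' :: b))) = (a ++ e1.setK c' :: (E ++ ux.setK c :: (ut ++ s :: y :: flat l))) ++
      x :: (z ++ x' :: b) by simp]
    rw [gp_ne _ x (x.setK c) _ p hp (by
      simp only [List.length_append, List.length_cons]; omega)]
    rw [show (a ++ e1.setK c' :: (E ++ ux.setK c :: (ut ++ s :: y :: flat l))) ++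
      x.setK c :: (z ++ x' :: b) = (a ++ e1.setK c' :: (E ++ ux.setK c :: (ut ++ s :: y ::
      (flat l ++ x.setK c :: z)))) ++ x' :: b by simp]
    rw [gp_ne _ x' (x'.setK c') _ p hp (by
      rw [show i + 1 + 1 = i + 2 from rfl, ← p4] at r4
      simp only [List.length_append, List.length_cons]; omega)]
    rw [← q4]

theorem right_len (h1 : StB1) {w a r : List (Ltr Fr Sym)} {s y : Ltr Fr Sym}
    {l : List (Ltr Fr Sym × List (Ltr Fr Sym))} (hA : LegA w)
    (hw : w = a ++ s :: y :: (flat l ++ r)) (h4 : 4 ∣ a.length + 1)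
    (hl : Spn (fun _ => True) l) : (flat l).length + 2 = 2 ^ (l.length + 1) := by
  have := ((h1 Fr Sym w hA).2.1 (a ++ [s, y]) l r 1 (a.length + 1)
    (by rw [hw]; simp) hl (by simp) le_rfl (by simpa using h4)).2
  rw [add_comm 1 l.length] at this
  simpa using this

theorem pow_inj {m n : ℕ} (h : 2 ^ m = 2 ^ n) : m = n := Nat.pow_right_injective le_rfl h

theorem spn_true {P : Ltr Fr Sym → Prop} {l : List (Ltr Fr Sym × List (Ltr Fr Sym))}
    (h : Spn P l) : Spn (fun _ => True) l := fun p hp => ⟨(h p hp).1, trivial, (h p hp).2.2⟩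

theorem k1_common (h1 : StB1) {w a b z : List (Ltr Fr Sym)}
    {e : Ltr Fr Sym × List (Ltr Fr Sym) × Ltr Fr Sym} {o s y x : Ltr Fr Sym}
    {ch : List (Ltr Fr Sym × List (Ltr Fr Sym) × Ltr Fr Sym)}
    {l : List (Ltr Fr Sym × List (Ltr Fr Sym))} (hA : LegA w)
    (hw : w = a ++ cflat (e :: ch) ++ o :: s :: y :: (flat l ++ x :: (z ++ b)))
    (hg : ∀ e' ∈ e :: ch, Good e') (ho : O1 o) (hs : Sep s)
    (hl : Spn (fun _ => True) l) (hx : X0 x) (hz : IsZ z) :
    2 ^ (ch.length + 3) ∣ a.length + (cflat (e :: ch)).length + 2 ∧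
    (cflat (e :: ch)).length + 2 = 2 ^ (ch.length + 2) ∧
    (cflat ch).length + 2 = 2 ^ (ch.length + 1) ∧
    (flat l).length + 2 = 2 ^ (l.length + 1) ∧
    (flat l).length + 1 + z.length + 2 = 2 ^ (l.length + 2) := by
  obtain ⟨c1, c2⟩ := chain_pos h1 hA hw hg ho hs
  have hw2 : w = (a ++ cflat [e]) ++ cflat ch ++ o :: s :: y :: (flat l ++ x :: (z ++ b)) := by
    rw [hw, show e :: ch = [e] ++ ch from rfl, cflat_append]; simp
  obtain ⟨c3, c4⟩ := chain_pos h1 hA hw2 (fun e' he' => hg e' (List.mem_cons_of_mem _ he')) ho hs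
  have h4 : 4 ∣ (a ++ cflat (e :: ch) ++ [o]).length + 1 := by
    rw [List.length_append, List.length_append]
    exact dvd_trans (by rw [pow_add]; exact Dvd.intro_left _ rfl) c1
  have r1 := right_len h1 (a := a ++ cflat (e :: ch) ++ [o]) (s := s) (y := y) (l := l)
    (r := x :: (z ++ b)) hA (by rw [hw]; simp) h4 hl
  have r2 := right_len h1 (a := a ++ cflat (e :: ch) ++ [o]) (s := s) (y := y) (l := l ++ [(x, z)])
    (r := b) hA (by rw [hw, flat_append, flat_cons, flat_nil]; simp) h4 (by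
      intro p hp
      rcases List.mem_append.1 hp with h | h
      · exact hl p h
      · rw [List.mem_singleton] at h
        subst h
        exact ⟨hx, trivial, hz⟩)
  rw [flat_append, flat_cons, flat_nil] at r2
  simp only [List.length_append, List.length_cons, List.length_nil, List.append_nil] at r2
  refine ⟨c1, c2, c4, r1, ?_⟩
  rw [show l.length + 2 = l.length + (0 + 1) + 1 from rfl, ← r2]
  omega

theorem inL_step {e : Ltr Fr Sym × List (Ltr Fr Sym) × Ltr Fr Sym} {u u' : List (Ltr Fr Sym)}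
    (he : CE true e) (hu : InL u u') : ∃ v, InL (cflat [e] ++ u') v := by
  cases hu with
  | cell o h1 h2 =>
    exact ⟨_, InL.chain e [] (o.setK false) he (by simp) h1 rfl⟩
  | chain e0 es o h1 h2 h3 h4 =>
    refine ⟨cflat ((e.1.setK false, e.2) :: ((e0.1.setK false, e0.2) :: es)) ++ [o], ?_⟩
    rw [← List.append_assoc, ← cflat_append]
    refine InL.chain e ((e0.1.setK false, e0.2) :: es) o he ?_ h3 h4
    intro e' he'
    rcases List.mem_cons.1 he' with h | h
    · subst h
      exact ⟨h1.1, rfl, h1.2.2.1, h1.2.2.2⟩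
    · exact h2 e' h

theorem setK_self {x : Ltr Fr Sym} {c : Bool} (h : x.k = c) : x.setK c = x := by
  cases x; subst h; rfl

theorem setK_setK (x : Ltr Fr Sym) (c d : Bool) : (x.setK c).setK d = x.setK d := rfl

theorem rule_k0 (h1 : StB1) {a b : List (Ltr Fr Sym)} {o s y x : Ltr Fr Sym}
    (hA : LegA (a ++ [o, s, y, x] ++ b)) (ho : O1 o) (hok : o.k = false) (hs : Sep s)
    (hxk : x.k = false) : LegK (a ++ [o, s, y, x] ++ b) ↔
      LegK (a ++ [o.setK true, s, y, x.setK true] ++ b) := by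
  have e1 : a ++ [o, s, y, x] ++ b = a ++ o :: s :: y :: x :: b := by simp
  have e2 : a ++ [o.setK true, s, y, x.setK true] ++ b =
    a ++ o.setK true :: s :: y :: x.setK true :: b := by simp
  have hA' : LegA (a ++ [o.setK true, s, y, x.setK true] ++ b) := by
    rw [← legA_er] at hA ⊢
    convert hA using 1
    simp [er, setK]
  constructor
  · intro hK
    exact legK_k0 h1 hA e1 ho hs e2 hK
  · intro hK
    refine legK_k0 h1 (o := o.setK true) (x := x.setK true) (c := false) hA' e2 ho hs ?_ hK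
    rw [setK_setK, setK_setK, setK_self hok, setK_self hxk]
    exact e1

theorem rule_k1 (h1 : StB1) {a b u u' z : List (Ltr Fr Sym)}
    {e : Ltr Fr Sym × List (Ltr Fr Sym) × Ltr Fr Sym} {s y x x' : Ltr Fr Sym}
    {l : List (Ltr Fr Sym × List (Ltr Fr Sym))} {w w' : List (Ltr Fr Sym)}
    (hw : w = a ++ (cflat [e] ++ (u ++ s :: y :: (flat l ++ x :: (z ++ [x'])))) ++ b)
    (hw' : w' = a ++ (cflat [(e.1.setK true, e.2)] ++
          (u' ++ s :: y :: (flat l ++ x.setK false :: (z ++ [x'.setK true])))) ++ b)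
    (hA : LegA w) (hA' : LegA w') (he : CE false e) (hu : InL u u') (hs : Sep s)
    (hl : Spn (fun x => x.k = false) l) (hx : X0 x) (hxk : x.k = true) (hz : IsZ z)
    (hxk' : x'.k = false) : LegK w ↔ LegK w' := by
  obtain ⟨ch, o, ux, ut, e1, hg, ho, e2, e3, hk, hin, hok⟩ := inL_data hu
  have lu : u.length = (cflat ch).length + 1 := by rw [e1]; simp
  have lu2 : u.length = ut.length + 1 := by rw [e2]; simp
  have lu' : u'.length = u.length := by rw [e2, e3]; simp
  have hwc : w = a ++ cflat (e :: ch) ++ o :: s :: y :: (flat l ++ x :: (z ++ x' :: b)) := by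
    rw [hw, e1, show e :: ch = [e] ++ ch from rfl, cflat_append]; simp
  have hge : ∀ e' ∈ e :: ch, Good e' := by
    intro e' he'
    rcases List.mem_cons.1 he' with h | h
    · subst h; exact ce_good he
    · exact hg e' h
  obtain ⟨q1, q2, q3, q4, q5⟩ := k1_common h1 hA hwc hge ho hs (spn_true hl) hx hz
  have lce : (cflat (e :: ch)).length = (cflat [e]).length + (cflat ch).length := by
    rw [show e :: ch = [e] ++ ch from rfl, cflat_append, List.length_append]
  have lce1 : (cflat [e]).length = 1 + (e.2.1 ++ [e.2.2]).length := by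
    rw [cflat_cons, cflat_nil, List.length_cons]; omega
  have lce2 : (cflat [(e.1.setK true, e.2)]).length = (cflat [e]).length := by
    rw [cflat_cons, cflat_cons]; rfl
  -- the common index
  have fin : ch.length = l.length → (LegK w ↔ LegK w') := by
    intro hi
    have hwa : w = a ++ e.1 :: ((e.2.1 ++ [e.2.2]) ++ ux :: (ut ++ s :: y :: (flat l ++ x ::
        (z ++ x' :: b)))) := by
      rw [hw, e2, cflat_cons, cflat_nil]; simp
    have hwa' : w' = a ++ e.1.setK true :: ((e.2.1 ++ [e.2.2]) ++ ux.setK false :: (ut ++ s :: y ::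
        (flat l ++ x.setK false :: (z ++ x'.setK true :: b)))) := by
      rw [hw', e3, cflat_cons, cflat_nil]; simp
    rw [← hi] at q4 q5
    have p1 : a.length + 1 = a.length + (cflat (e :: ch)).length + 2 + 1 - 2 ^ (ch.length + 2) := by
      omega
    have p2 : a.length + 1 + (e.2.1 ++ [e.2.2]).length + 1 =
        a.length + (cflat (e :: ch)).length + 2 + 1 - 2 ^ (ch.length + 1) := by
      omega
    have p3 : a.length + 1 + (e.2.1 ++ [e.2.2]).length + 1 + ut.length + 2 + (flat l).length + 1 =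
        a.length + (cflat (e :: ch)).length + 2 + 2 ^ (ch.length + 1) := by
      omega
    have p4 : a.length + 1 + (e.2.1 ++ [e.2.2]).length + 1 + ut.length + 2 + (flat l).length + 1 +
        z.length + 1 =
        a.length + (cflat (e :: ch)).length + 2 + 2 ^ (ch.length + 2) := by
      omega
    constructor
    · exact legK_k1 hwa hwa' (by omega) q1 p1 p2 p3 p4
    · refine legK_k1 (c' := false) (c := true) hwa' ?_ (by omega) q1 p1 p2 p3 p4
      rw [setK_setK, setK_setK, setK_setK, setK_setK, setK_self he.2.1, setK_self hk,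
        setK_self hxk, setK_self hxk']
      exact hwa
  constructor
  · intro hK
    refine (fin ?_).1 hK
    have := (idx_eq h1 (a := a ++ cflat [e]) (b := z ++ x' :: b) (s := s) (y := y) hA hK (by rw [hw]; simp) hu hs
      hl hxk).2.1
    rw [lu, q3] at this
    have := pow_inj this
    omega
  · intro hK
    refine (fin ?_).2 hK
    obtain ⟨v, hv⟩ := inL_step (e := (e.1.setK true, e.2)) ⟨he.1, rfl, he.2.2.1, he.2.2.2⟩ hu
    have := (idx_eq h1 (a := a) (b := b) (l := l ++ [(x.setK false, z)]) (x := x'.setK true)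
      (s := s) (y := y)
      hA' hK (by rw [hw', flat_append, flat_cons, flat_nil]; simp) hv hs (by
        intro p hp
        rcases List.mem_append.1 hp with h | h
        · exact hl p h
        · rw [List.mem_singleton] at h
          subst h
          exact ⟨hx, rfl, hz⟩) rfl).2.1
    rw [List.length_append, List.length_append, lu', lce2, lu] at this
    have e5 : (cflat [e]).length + ((cflat ch).length + 1) + 1 = 2 ^ (ch.length + 2) := by omega
    rw [e5] at this
    have := pow_inj this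
    simp only [List.length_cons, List.length_nil] at this
    omega

theorem kill_k0 (h1 : StB1) {a b : List (Ltr Fr Sym)} {o s y x : Ltr Fr Sym}
    (hA : LegA (a ++ [o, s, y, x] ++ b)) (hK : LegK (a ++ [o, s, y, x] ++ b)) (ho : O1 o)
    (hs : Sep s) : o.k = x.k := by
  have e1 : a ++ [o, s, y, x] ++ b = a ++ o :: s :: y :: x :: b := by simp
  have e2 : a ++ [o, s, y, x] ++ b = (a ++ [o, s, y]) ++ x :: b := by simp
  have h4 : 2 ^ 2 ∣ a.length + 2 := by
    have := (chain_pos h1 (a := a) (ch := []) (b := y :: x :: b) hA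
      (by rw [e1, cflat_nil]; simp) (by simp) ho hs).1
    simpa [cflat_nil] using this
  have := hK (a.length + 2) 0 (by omega) h4
  rw [e1, gp_at _ _ _ _ (by simp), ← e1, e2, gp_at _ _ _ _ (by simp)] at this
  exact this

theorem kill_kb (h1 : StB1) {a b u u' z : List (Ltr Fr Sym)} {c : Bool}
    {e : Ltr Fr Sym × List (Ltr Fr Sym) × Ltr Fr Sym} {s y x x' : Ltr Fr Sym}
    {l : List (Ltr Fr Sym × List (Ltr Fr Sym))} {w : List (Ltr Fr Sym)}
    (hw : w = a ++ (cflat [e] ++ (u ++ s :: y :: (flat l ++ x :: (z ++ [x'])))) ++ b)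
    (hA : LegA w) (hK : LegK w) (he : CE c e) (hu : InL u u') (hs : Sep s)
    (hl : Spn (fun x => x.k = false) l) (hx : X0 x) (hxk : x.k = true) (hz : IsZ z) :
    x'.k = c := by
  obtain ⟨ch, o, ux, ut, e1, hg, ho, e2, e3, hk, hin, hok⟩ := inL_data hu
  have lu : u.length = (cflat ch).length + 1 := by rw [e1]; simp
  have hwc : w = a ++ cflat (e :: ch) ++ o :: s :: y :: (flat l ++ x :: (z ++ x' :: b)) := by
    rw [hw, e1, show e :: ch = [e] ++ ch from rfl, cflat_append]; simp
  have hge : ∀ e' ∈ e :: ch, Good e' := by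
    intro e' he'
    rcases List.mem_cons.1 he' with h | h
    · subst h; exact ce_good he
    · exact hg e' h
  obtain ⟨q1, q2, q3, q4, q5⟩ := k1_common h1 hA hwc hge ho hs (spn_true hl) hx hz
  have hi : ch.length = l.length := by
    have := (idx_eq h1 (a := a ++ cflat [e]) (b := z ++ x' :: b) (s := s) (y := y) hA hK
      (by rw [hw]; simp) hu hs hl hxk).2.1
    rw [lu, q3] at this
    have := pow_inj this
    omega
  have := hK (a.length + (cflat (e :: ch)).length + 2) (ch.length + 1) (by omega) q1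
  have g1 : gp w (a.length + (cflat (e :: ch)).length + 2 + 1 - 2 ^ (ch.length + 1 + 1)) = e.1 := by
    have hwa : w = a ++ e.1 :: (e.2.1 ++ e.2.2 :: (u ++ s :: y :: (flat l ++ x ::
        (z ++ x' :: b)))) := by
      rw [hw, cflat_cons, cflat_nil]; simp
    rw [show a.length + (cflat (e :: ch)).length + 2 + 1 - 2 ^ (ch.length + 1 + 1) =
      a.length + 1 by rw [show ch.length + 1 + 1 = ch.length + 2 from rfl]; omega]
    rw [hwa, gp_at _ _ _ _ rfl]
  have g2 : gp w (a.length + (cflat (e :: ch)).length + 2 + 2 ^ (ch.length + 1 + 1)) = x' := by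
    have hwa : w = (a ++ cflat (e :: ch) ++ o :: s :: y :: (flat l ++ x :: z)) ++ x' :: b := by
      rw [hwc]; simp
    rw [hi, show l.length + 1 + 1 = l.length + 2 from rfl, ← q5]
    rw [hwa, gp_at _ _ _ _ ?_]
    simp only [List.length_append, List.length_cons]
    omega
  rw [g1, g2, he.2.1] at this
  exact this.symm

theorem kill_k23 (h1 : StB1) {a b u u' : List (Ltr Fr Sym)} {v s y x : Ltr Fr Sym}
    {l : List (Ltr Fr Sym × List (Ltr Fr Sym))} {w : List (Ltr Fr Sym)}
    (hw : w = a ++ (v :: (u ++ s :: y :: (flat l ++ [x]))) ++ b)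
    (hA : LegA w) (hK : LegK w) (hu : InL u u') (hs : Sep s)
    (hl : Spn (fun x => x.k = false) l) (hxk : x.k = true) : v.sk ≠ x.sk := by
  obtain ⟨q1, q2, q3⟩ := idx_eq h1 (a := a ++ [v]) (b := b) (s := s) (y := y) hA hK
    (by rw [hw]; simp) hu hs hl hxk
  rw [List.length_append] at q1
  simp only [List.length_cons, List.length_nil] at q1
  have hf := skp_flip (by omega) q1
  intro hsk
  apply hf
  have w1 : w = a ++ v :: (u ++ s :: y :: (flat l ++ x :: b)) := by rw [hw]; simp
  have w2 : w = (a ++ v :: (u ++ s :: y :: flat l)) ++ x :: b := by rw [hw]; simp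
  have g1 : gp w (a.length + (0 + 1) + u.length + 1 - 2 ^ (l.length + 1)) = v := by
    rw [w1, gp_at _ _ _ _ (by omega)]
  have g2 : gp w (a.length + (0 + 1) + u.length + 1 + 2 ^ (l.length + 1)) = x := by
    rw [w2, gp_at _ _ _ _ (by simp only [List.length_append, List.length_cons]; omega)]
  have lw : w.length = a.length + 1 + u.length + 2 + (flat l).length + 1 + b.length := by
    rw [w2]; simp only [List.length_append, List.length_cons]; omega
  rw [← hA.sk _ (by omega) (by omega), ← hA.sk _ (by omega) (by omega), g1, g2]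
  exact hsk

end B3

/-- TASK B3. -/
theorem tB3 (h : StB1) : StB3 := by
  intro Fr Sym M a u v b
  constructor
  · intro hr
    have he : B3.er (a ++ u ++ b) = B3.er (a ++ v ++ b) := by
      rw [B3.er_append, B3.er_append, B3.er_append, B3.er_append, B3.ruleK_er hr]
    have hA : LegA (a ++ u ++ b) ↔ LegA (a ++ v ++ b) := by
      rw [← B3.legA_er, he, B3.legA_er]
    have hC : LegC M (a ++ u ++ b) ↔ LegC M (a ++ v ++ b) := by
      rw [← B3.legC_er, he, B3.legC_er]
    have hK : LegA (a ++ u ++ b) → (LegK (a ++ u ++ b) ↔ LegK (a ++ v ++ b)) := by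
      intro hAu
      have hAv := hA.1 hAu
      cases hr with
      | k0 o s y x h1 h2 h3 h4 h5 h6 => exact B3.rule_k0 h hAu h1 h2 h3 h6
      | k1 e u u' s y l x z x' h1 h2 h3 h4 h5 h6 h7 h8 h9 h10 =>
        exact B3.rule_k1 h rfl rfl hAu hAv h1 h2 h3 h5 h6 h7 h8 h10
    unfold Leg
    constructor
    · rintro ⟨x1, x2, x3⟩
      exact ⟨hA.1 x1, (hK x1).1 x2, hC.1 x3⟩
    · rintro ⟨x1, x2, x3⟩
      exact ⟨hA.2 x1, (hK (hA.2 x1)).2 x2, hC.2 x3⟩
  · rintro hk ⟨hA, hK, -⟩
    cases hk with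
    | k0 o s y x h1 h2 h3 h4 h5 => exact h5 (B3.kill_k0 h hA hK h1 h2)
    | kb c e u u' s y l x z x' h1 h2 h3 h4 h5 h6 h7 h8 h9 h10 =>
      exact h10 (B3.kill_kb h rfl hA hK h1 h2 h3 h5 h6 h7 h8)
    | k2 v u u' s y l x h1 h2 h3 h4 h5 h6 h7 =>
      exact B3.kill_k23 h rfl hA hK h2 h3 h5 h7 (h1.1.trans h6.1.symm)
    | k3 v u u' s y l x h1 h2 h3 h4 h5 h6 h7 =>
      exact B3.kill_k23 h rfl hA hK h2 h3 h5 h7 (h1.trans h6.symm)

end Pool.Agent.LibPeps
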