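import Pool.Agent.LibPeps.DefsB

set_option autoImplicit false

namespace Pool.Agent.LibPeps
open Ltr

variable {Fr Sym : Type}

/-! ### the run -/
theorem B4_run_inv (M : Mach Fr Sym) (t : ℕ) (c : List Fr) (φ : Fr) (u : List Sym)
    (h : M.run t = some (c, φ, u)) :
    (c = [] ∧ φ = M.ini ∧ u = []) ∨
    (∃ t' ψ b u0, M.run t' = some (c, ψ, u0) ∧ M.push ψ = some (b, φ) ∧ u = u0 ++ [b]) ∨
    (∃ t' c0 ψ b, M.run t' = some (c0, ψ, b :: u) ∧ M.push ψ = none ∧ c = c0 ++ [ψ] ∧
      φ = M.enter ψ b) := by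
  cases t with
  | zero =>
    left
    simp only [Mach.run, Option.some.injEq, Prod.mk.injEq] at h
    exact ⟨h.1.symm, h.2.1.symm, h.2.2.symm⟩
  | succ t =>
    right
    rw [Mach.run] at h
    rcases hr : M.run t with _ | ⟨c1, ψ, u1⟩
    · rw [hr] at h; simp at h
    · rw [hr] at h
      simp only [Option.bind_some, Mach.nxt] at h
      rcases hp : M.push ψ with _ | ⟨b, φ'⟩
      · rw [hp] at h
        right
        cases u1 with
        | nil => simp at h
        | cons b u' =>
          simp only [Option.some.injEq, Prod.mk.injEq] at h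
          obtain ⟨h1, h2, h3⟩ := h
          subst h3
          exact ⟨t, c1, ψ, b, hr, hp, h1.symm, h2.symm⟩
      · rw [hp] at h
        left
        simp only [Option.some.injEq, Prod.mk.injEq] at h
        obtain ⟨h1, h2, h3⟩ := h
        subst h1
        subst h2
        exact ⟨t, ψ, b, u1, hr, hp, h3.symm⟩

theorem B4_run_push (M : Mach Fr Sym) (t : ℕ) (c : List Fr) (φ φ' : Fr) (u : List Sym) (b : Sym)
    (h : M.run t = some (c, φ, u)) (hp : M.push φ = some (b, φ')) :
    M.run (t + 1) = some (c, φ', u ++ [b]) := by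
  rw [Mach.run, h]
  simp [Mach.nxt, hp]

theorem B4_run_move (M : Mach Fr Sym) (t : ℕ) (c : List Fr) (φ : Fr) (u : List Sym) (b : Sym)
    (h : M.run t = some (c, φ, b :: u)) (hp : M.push φ = none) :
    M.run (t + 1) = some (c ++ [φ], M.enter φ b, u) := by
  rw [Mach.run, h]
  simp [Mach.nxt, hp]

/-- if the front is pushed by (ψ, b), the last step was this push -/
theorem B4_pushed (M : Mach Fr Sym) (t : ℕ) (c : List Fr) (φ ψ : Fr) (u : List Sym) (b : Sym)
    (h : M.run t = some (c, φ, u)) (hp : M.push ψ = some (b, φ)) :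
    ∃ t' u0, M.run t' = some (c, ψ, u0) ∧ u = u0 ++ [b] := by
  rcases B4_run_inv M t c φ u h with ⟨_, h2, _⟩ | ⟨t', ψ', b', u0, h1, h2, h3⟩ | ⟨t', c0, ψ', b', _, _, _, h4⟩
  · subst h2
    exact absurd hp (M.ini_push ψ b)
  · have e := M.push_inj ψ ψ' φ b b' hp h2
    subst e
    rw [hp] at h2
    simp only [Option.some.injEq, Prod.mk.injEq] at h2
    obtain ⟨e, _⟩ := h2
    subst e
    exact ⟨t', u0, h1, h3⟩
  · subst h4
    exact absurd hp (M.enter_push ψ ψ' b b')

theorem B4_entered (M : Mach Fr Sym) (t : ℕ) (c : List Fr) (ψ : Fr) (u : List Sym) (b : Sym)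
    (h : M.run t = some (c ++ [ψ], M.enter ψ b, u)) :
    ∃ t', M.run t' = some (c, ψ, b :: u) ∧ M.push ψ = none := by
  rcases B4_run_inv M t _ _ u h with ⟨_, h2, _⟩ | ⟨t', ψ', b', u0, h1, h2, h3⟩ | ⟨t', c0, ψ', b', h1, h2, h3, h4⟩
  · exact absurd h2 (M.ini_enter ψ b)
  · exact absurd h2 (M.enter_push ψ' ψ b' b)
  · have h5 := List.append_inj' h3 rfl
    obtain ⟨h5, h6⟩ := h5
    simp only [List.cons.injEq, and_true] at h6
    subst h5
    subst h6
    have := M.enter_inj _ _ _ h4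
    subst this
    exact ⟨t', h1, h2⟩

/-! ### words of configurations -/
theorem B4_word_length (q : List Fr) (φ : Fr) (u : List Sym) :
    (word (q, φ, u)).length = q.length + 1 + u.length := by
  simp [word]; omega

theorem B4_wd (q : List Fr) (φ : Fr) (u : List Sym) (i : ℕ) :
    (word (q, φ, u)).getD i .nil = if h : i < q.length then .cons q[i] else
      if i = q.length then .fr φ else
      if h : i - q.length - 1 < u.length then .unc u[i - q.length - 1] else .nil := by
  unfold word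
  simp only
  rw [List.getD_eq_getElem?_getD]
  by_cases h : i < q.length
  · rw [dif_pos h, List.getElem?_append_left (by simpa using h)]
    simp [h]
  · rw [dif_neg h, List.getElem?_append_right (by simpa using h)]
    simp only [List.length_map]
    by_cases h1 : i = q.length
    · subst h1; simp
    · rw [if_neg h1]
      obtain ⟨j, hj⟩ : ∃ j, i - q.length = j + 1 := ⟨i - q.length - 1, by omega⟩
      rw [hj]
      simp only [List.getElem?_cons_succ, List.getElem?_map, Nat.add_sub_cancel]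
      by_cases h2 : j < u.length
      · rw [dif_pos h2]; simp [h2]
      · rw [dif_neg h2]
        rw [List.getElem?_eq_none (by omega)]
        simp

theorem B4_wd_fr {q : List Fr} {φ ψ : Fr} {u : List Sym} {i : ℕ}
    (h : (word (q, φ, u)).getD i .nil = .fr ψ) : i = q.length ∧ φ = ψ := by
  rw [B4_wd] at h
  split_ifs at h with h1 h2 h3
  · simp only [Con.fr.injEq] at h
    exact ⟨h2, h⟩

theorem B4_wd_cons {q : List Fr} {φ ψ : Fr} {u : List Sym} {i : ℕ}
    (h : (word (q, φ, u)).getD i .nil = .cons ψ) : ∃ h : i < q.length, q[i] = ψ := by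
  rw [B4_wd] at h
  split_ifs at h with h1 h2 h3
  · simp only [Con.cons.injEq] at h
    exact ⟨h1, h⟩

theorem B4_wd_unc {q : List Fr} {φ : Fr} {u : List Sym} {i : ℕ} {b : Sym}
    (h : (word (q, φ, u)).getD i .nil = .unc b) :
    q.length < i ∧ ∃ h : i - q.length - 1 < u.length, u[i - q.length - 1] = b := by
  rw [B4_wd] at h
  split_ifs at h with h1 h2 h3
  · simp only [Con.unc.injEq] at h
    exact ⟨by omega, h3, h⟩

theorem B4_wd_nil {q : List Fr} {φ : Fr} {u : List Sym} {i : ℕ}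
    (h : (word (q, φ, u)).getD i .nil = .nil) : q.length + 1 + u.length ≤ i := by
  rw [B4_wd] at h
  split_ifs at h with h1 h2 h3
  · omega

theorem B4_wd_push (q : List Fr) (φ φ' : Fr) (u : List Sym) (b : Sym) (i : ℕ) :
    (word (q, φ', u ++ [b])).getD i .nil = if i = q.length then .fr φ' else
      if i = q.length + 1 + u.length then .unc b else (word (q, φ, u)).getD i .nil := by
  rw [B4_wd, B4_wd]
  by_cases h1 : i < q.length
  · rw [dif_pos h1, dif_pos h1, if_neg (by omega), if_neg (by omega)]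
  · rw [dif_neg h1, dif_neg h1]
    by_cases h2 : i = q.length
    · rw [if_pos h2, if_pos h2]
    · rw [if_neg h2, if_neg h2, if_neg h2]
      by_cases h3 : i = q.length + 1 + u.length
      · rw [if_pos h3]
        have h4 : i - q.length - 1 = u.length := by omega
        rw [dif_pos (by simp; omega)]
        simp only [h4]
        simp
      · rw [if_neg h3]
        by_cases h5 : i - q.length - 1 < u.length
        · rw [dif_pos h5, dif_pos (by simp; omega)]
          simp only [List.getElem_append_left h5]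
        · rw [dif_neg h5, dif_neg (by simp; omega)]

theorem B4_wd_move (q : List Fr) (φ φ' : Fr) (u : List Sym) (b : Sym) (i : ℕ) :
    (word (q ++ [φ], φ', u)).getD i .nil = if i = q.length then .cons φ else
      if i = q.length + 1 then .fr φ' else (word (q, φ, b :: u)).getD i .nil := by
  rw [B4_wd, B4_wd]
  by_cases h1 : i < q.length
  · rw [dif_pos h1, dif_pos (by simp; omega), if_neg (by omega), if_neg (by omega)]
    simp only [List.getElem_append_left h1]
  · rw [dif_neg h1]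
    by_cases h2 : i = q.length
    · subst h2
      rw [dif_pos (by simp)]
      simp
    · rw [if_neg h2, if_neg h2, dif_neg (by simp; omega)]
      by_cases h3 : i = q.length + 1
      · rw [if_pos (by simpa using h3), if_pos h3]
      · rw [if_neg (by simpa using h3), if_neg h3]
        by_cases h5 : i - q.length - 1 < (b :: u).length
        · rw [dif_pos h5, dif_pos (by simp at h5 ⊢; omega)]
          obtain ⟨j, hj⟩ : ∃ j, i - q.length - 1 = j + 1 := ⟨i - q.length - 1 - 1, by omega⟩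
          have h6 : i - (q ++ [φ]).length - 1 = j := by simp; omega
          simp only [h6, hj, List.getElem_cons_succ]
        · rw [dif_neg h5, dif_neg (by simp at h5 ⊢; omega)]

/-! ### positions -/
theorem B4_pos_inj {P P' m k : ℕ} (h : P + 2 ^ m = P' + 2 ^ k) (hP : 2 ^ (m + 1) ∣ P) (hP' : 2 ^ (k + 1) ∣ P') :
    P = P' ∧ m = k := by
  obtain ⟨r, hr⟩ := hP
  obtain ⟨r', hr'⟩ := hP'
  have key : ∀ {m k r r' : ℕ}, m < k → 2 ^ (m + 1) * r + 2 ^ m = 2 ^ (k + 1) * r' + 2 ^ k → False := by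
    intro m k r r' hmk he
    obtain ⟨j, rfl⟩ : ∃ j, k = m + 1 + j := ⟨k - m - 1, by omega⟩
    have h1 : 2 ^ m * (2 * r + 1) = 2 ^ m * (2 * (2 ^ (j + 1) * r' + 2 ^ j)) := by
      have e1 : 2 ^ (m + 1 + j + 1) = 2 ^ m * (2 * 2 ^ (j + 1)) := by
        rw [show m + 1 + j + 1 = m + (1 + (j + 1)) by omega, pow_add, pow_add, pow_one]
      have e2 : 2 ^ (m + 1 + j) = 2 ^ m * (2 * 2 ^ j) := by
        rw [show m + 1 + j = m + (1 + j) by omega, pow_add, pow_add, pow_one]
      rw [e1, e2] at he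
      calc 2 ^ m * (2 * r + 1) = 2 ^ (m + 1) * r + 2 ^ m := by ring
        _ = _ := he
        _ = _ := by ring
    have h2 := Nat.eq_of_mul_eq_mul_left (by positivity) h1
    omega
  rcases lt_trichotomy m k with hmk | hmk | hmk
  · exact (key hmk (by rw [← hr, ← hr']; exact h)).elim
  · subst hmk; exact ⟨by omega, rfl⟩
  · exact (key hmk (by rw [← hr, ← hr']; exact h.symm)).elim

theorem B4_skp_ne (k r : ℕ) (hk : 1 ≤ k) :
    skp (2 ^ k * (2 * r + 1)) = if r % 2 = 0 then Sk.x0 else Sk.x1 := by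
  have h2 : 2 ^ k * (2 * r + 1) % 2 = 0 := by
    obtain ⟨j, rfl⟩ : ∃ j, k = j + 1 := ⟨k - 1, by omega⟩
    rw [pow_succ, mul_comm (2 ^ j) 2, mul_assoc]
    omega
  have hv : padicValNat 2 (2 ^ k * (2 * r + 1)) = k := by
    rw [padicValNat.mul (by positivity) (by omega), padicValNat.prime_pow]
    have : padicValNat 2 (2 * r + 1) = 0 := by
      apply padicValNat.eq_zero_of_not_dvd
      omega
    omega
  have hd : 2 ^ k * (2 * r + 1) / 2 ^ (k + 1) = r := by
    rw [pow_succ, mul_comm (2 ^ k) 2, mul_comm (2 ^ k) (2 * r + 1), Nat.mul_comm 2 (2 ^ k), ← Nat.div_div_eq_div_mul,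
      Nat.mul_div_cancel _ (by positivity)]
    omega
  unfold skp
  rw [if_neg (by omega), if_neg (by omega), hv, hd]

/-- position of a separator -/
theorem B4_sep_pos (p : ℕ) (hp : 1 ≤ p) (h : skp p = .x0 ∨ skp p = .x1) :
    ∃ P m, 1 ≤ m ∧ p = P + 2 ^ m ∧ 2 ^ (m + 1) ∣ P ∧ (skp p = .x1 → ¬ 2 ^ (m + 2) ∣ P) ∧
      (skp p = .x0 → 2 ^ (m + 2) ∣ P) := by
  obtain ⟨m, r, hr⟩ : ∃ m r, p = 2 ^ m * (2 * r + 1) := by
    obtain ⟨m, q, hq, he⟩ := Nat.exists_eq_two_pow_mul_odd (n := p) (by omega)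
    obtain ⟨r, hr⟩ := hq
    exact ⟨m, r, by rw [he, hr]⟩
  have hm : 1 ≤ m := by
    by_contra hm
    have hm0 : m = 0 := by omega
    subst hm0
    rw [pow_zero, one_mul] at hr
    unfold skp at h
    split_ifs at h with h1 h2 h3
    · rcases h with h | h <;> cases h
    · rcases h with h | h <;> cases h
    all_goals omega
  have hs := B4_skp_ne m r hm
  rw [← hr] at hs
  refine ⟨2 ^ (m + 1) * r, m, hm, by rw [hr]; ring, ⟨r, rfl⟩, ?_, ?_⟩
  · intro h1 hd
    rw [h1] at hs
    have h3 : ¬ r % 2 = 0 := by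
      intro h4; rw [if_pos h4] at hs; cases hs
    apply h3
    rw [pow_succ 2 (m + 1)] at hd
    have := Nat.dvd_of_mul_dvd_mul_left (by positivity) hd
    omega
  · intro h1
    rw [h1] at hs
    have h3 : r % 2 = 0 := by
      by_contra h4; rw [if_neg h4] at hs; cases hs
    rw [pow_succ 2 (m + 1)]
    exact Nat.mul_dvd_mul_left _ (Nat.dvd_of_mod_eq_zero h3)

theorem B4_skp_o0 (p : ℕ) (h : skp p = .o0) : p % 4 = 1 := by
  unfold skp at h
  split_ifs at h with h1
  · exact h1

/-! ### letters at positions -/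
theorem B4_gp_mid (A B : List (Ltr Fr Sym)) (x : Ltr Fr Sym) : gp (A ++ x :: B) (A.length + 1) = x := by
  unfold gp
  rw [Nat.add_sub_cancel, List.getD_eq_getElem?_getD, List.getElem?_append_right (le_refl _)]
  simp

theorem B4_gp_other (A B : List (Ltr Fr Sym)) (x y : Ltr Fr Sym) (p : ℕ) (h1 : 1 ≤ p) (hp : p ≠ A.length + 1) :
    gp (A ++ x :: B) p = gp (A ++ y :: B) p := by
  unfold gp
  rw [List.getD_eq_getElem?_getD, List.getD_eq_getElem?_getD]
  rcases lt_or_ge (p - 1) A.length with h | h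
  · rw [List.getElem?_append_left h, List.getElem?_append_left h]
  · rw [List.getElem?_append_right h, List.getElem?_append_right h]
    obtain ⟨j, hj⟩ : ∃ j, p - 1 - A.length = j + 1 := ⟨p - 1 - A.length - 1, by omega⟩
    rw [hj, List.getElem?_cons_succ, List.getElem?_cons_succ]

/-- the fields other than the content -/
def B4_f (x : Ltr Fr Sym) : Sk × Bool × Bool := (x.sk, x.a, x.k)

theorem B4_gp_f {w w' : List (Ltr Fr Sym)} (h : w.map B4_f = w'.map B4_f) (p : ℕ) :
    B4_f (gp w p) = B4_f (gp w' p) := by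
  unfold gp
  rw [← List.getD_map (f := B4_f), ← List.getD_map (f := B4_f), h]

theorem B4_len {w w' : List (Ltr Fr Sym)} (h : w.map B4_f = w'.map B4_f) : w.length = w'.length := by
  have := congrArg List.length h
  simpa using this

theorem B4_legA {w w' : List (Ltr Fr Sym)} (h : w.map B4_f = w'.map B4_f) (hw : LegA w) : LegA w' := by
  have hf := B4_gp_f h
  have hl := B4_len h
  have hsk : ∀ p, (gp w' p).sk = (gp w p).sk := fun p => (congrArg (fun t => t.1) (hf p)).symm
  have ha : ∀ p, (gp w' p).a = (gp w p).a := fun p => (congrArg (fun t => t.2.1) (hf p)).symm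
  constructor
  · intro p h1 h2
    rw [hsk]; exact hw.sk p h1 (by rw [hl]; exact h2)
  · intro p h1 h2
    rw [hsk] at h2
    rw [ha]; exact hw.x0 p h1 h2
  · intro i r hi
    rw [ha, ha]; exact hw.pair i r hi

theorem B4_legK {w w' : List (Ltr Fr Sym)} (h : w.map B4_f = w'.map B4_f) (hw : LegK w) : LegK w' := by
  have hf := B4_gp_f h
  have hk : ∀ p, (gp w' p).k = (gp w p).k := fun p => (congrArg (fun t => t.2.2) (hf p)).symm
  intro s i hs hd
  rw [hk, hk]; exact hw s i hs hd

theorem B4_ruleC_f {M : Mach Fr Sym} {u v : List (Ltr Fr Sym)} (h : RuleC M u v) : u.map B4_f = v.map B4_f := by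
  cases h <;> simp [B4_f, Ltr.setC]

/-! ### spines -/
/-- the condition of LegC for one spine -/
def B4_Sp (M : Mach Fr Sym) (w : List (Ltr Fr Sym)) (P : ℕ) : Prop :=
  ∃ cs, ValidC M cs ∧
    (∀ k, 1 ≤ k → 2 ^ (k + 1) ∣ P → (gp w (P + 2 ^ k)).c = cs.getD (k - 1) .nil) ∧
    (cs = [] ∨ (2 ^ (cs.length + 1) ∣ P ∧ P + 2 ^ cs.length ≤ w.length))

theorem B4_legC_iff (M : Mach Fr Sym) (w : List (Ltr Fr Sym)) : LegC M w ↔ ∀ P, 4 ∣ P → B4_Sp M w P := Iff.rfl

theorem B4_sp_congr {M : Mach Fr Sym} {w w' : List (Ltr Fr Sym)} {P : ℕ} (hl : w.length = w'.length)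
    (h : ∀ k, 1 ≤ k → 2 ^ (k + 1) ∣ P → (gp w (P + 2 ^ k)).c = (gp w' (P + 2 ^ k)).c) :
    B4_Sp M w P → B4_Sp M w' P := by
  rintro ⟨cs, h1, h2, h3⟩
  refine ⟨cs, h1, fun k hk hd => ?_, ?_⟩
  · rw [← h k hk hd]; exact h2 k hk hd
  · rw [← hl]; exact h3

/-- changing the contents at positions of one spine -/
theorem B4_change {M : Mach Fr Sym} {w w' : List (Ltr Fr Sym)} {P : ℕ} (S : ℕ → Prop) (hl : w.length = w'.length)
    (hS : ∀ m, S m → 2 ^ (m + 1) ∣ P)
    (h : ∀ p, 1 ≤ p → (∀ m, S m → p ≠ P + 2 ^ m) → (gp w p).c = (gp w' p).c)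
    (hP : B4_Sp M w P → B4_Sp M w' P) : LegC M w → LegC M w' := by
  rw [B4_legC_iff, B4_legC_iff]
  intro hw P' hP'
  by_cases e : P' = P
  · subst e; exact hP (hw P' hP')
  · refine B4_sp_congr hl (fun k hk hd => ?_) (hw P' hP')
    apply h _ (by have : 0 < 2 ^ k := by positivity
                  omega)
    intro m hm he
    exact e (B4_pos_inj he hd (hS m hm)).1

theorem B4_getD_ne {cs : List (Con Fr Sym)} {i : ℕ} (h : cs.getD i .nil ≠ .nil) : i < cs.length := by
  by_contra hc
  apply h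
  rw [List.getD_eq_default]
  omega

theorem B4_pow_ne {P k m : ℕ} (h : k ≠ m) : P + 2 ^ k ≠ P + 2 ^ m := by
  intro he
  apply h
  have h2 : 2 ^ k = 2 ^ m := by omega
  exact Nat.pow_right_injective (le_refl 2) h2

theorem B4_dvd_le {P a b : ℕ} (hab : a ≤ b) (h : 2 ^ b ∣ P) : 2 ^ a ∣ P :=
  (pow_dvd_pow 2 hab).trans h

/-- a nonempty spine -/
theorem B4_get {M : Mach Fr Sym} {w : List (Ltr Fr Sym)} {P m : ℕ} (h : B4_Sp M w P) (hm : 1 ≤ m)
    (hd : 2 ^ (m + 1) ∣ P) (hn : (gp w (P + 2 ^ m)).c ≠ .nil) :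
    ∃ t q φ u, M.run t = some (q, φ, u) ∧
      (∀ k, 1 ≤ k → 2 ^ (k + 1) ∣ P → (gp w (P + 2 ^ k)).c = (word (q, φ, u)).getD (k - 1) .nil) ∧
      2 ^ (q.length + 1 + u.length + 1) ∣ P ∧ P + 2 ^ (q.length + 1 + u.length) ≤ w.length := by
  obtain ⟨cs, hv, hc, hl⟩ := h
  have h1 := hc m hm hd
  rw [h1] at hn
  have h2 := B4_getD_ne hn
  rcases hv with rfl | ⟨t, ⟨q, φ, u⟩, hr, rfl⟩
  · simp at h2
  · refine ⟨t, q, φ, u, hr, hc, ?_⟩
    rcases hl with hl | hl
    · rw [hl] at h2; simp at h2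
    · rw [B4_word_length] at hl; exact hl

theorem B4_push {M : Mach Fr Sym} {w w' : List (Ltr Fr Sym)} {P m m' : ℕ} (hm : 1 ≤ m) (hmm : m < m')
    {φ φ' : Fr} {b : Sym} (hp : M.push φ = some (b, φ')) (hl : w.length = w'.length)
    (hd : 2 ^ (m' + 1) ∣ P) (hb : P + 2 ^ m' ≤ w.length)
    (h1 : (gp w (P + 2 ^ m)).c = .fr φ) (h1' : (gp w' (P + 2 ^ m)).c = .fr φ')
    (h2 : (gp w (P + 2 ^ m')).c = .nil) (h2' : (gp w' (P + 2 ^ m')).c = .unc b)
    (h3 : (gp w (P + 2 ^ (m' - 1))).c ≠ .nil)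
    (hend : ¬ 2 ^ (m' + 2) ∣ P ∨ (2 ^ (m' + 2) ∣ P ∧ (gp w' (P + 2 ^ (m' + 1))).c = .nil))
    (hoth : ∀ p, 1 ≤ p → p ≠ P + 2 ^ m → p ≠ P + 2 ^ m' → (gp w p).c = (gp w' p).c) :
    LegC M w ↔ LegC M w' := by
  have hdm : 2 ^ (m + 1) ∣ P := B4_dvd_le (by omega) hd
  constructor
  · refine B4_change (P := P) (fun k => k = m ∨ k = m') hl ?_ ?_ ?_
    · rintro k (rfl | rfl)
      · exact hdm
      · exact hd
    · intro p h4 h5
      exact hoth p h4 (h5 m (Or.inl rfl)) (h5 m' (Or.inr rfl))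
    · intro hS
      obtain ⟨t, q, φ0, u, hr, hc, hdl, hbl⟩ := B4_get hS hm hdm (by rw [h1]; intro h; cases h)
      have e1 := hc m hm hdm
      rw [h1] at e1
      obtain ⟨g1, rfl⟩ := B4_wd_fr e1.symm
      have e2 := hc m' (by omega) hd
      rw [h2] at e2
      have e2 := B4_wd_nil e2.symm
      have e3 := hc (m' - 1) (by omega) (B4_dvd_le (by omega) hd)
      rw [e3] at h3
      have e3 := B4_getD_ne h3
      rw [B4_word_length] at e3
      have hL : q.length + 1 + u.length = m' - 1 := by omega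
      refine ⟨word (q, φ', u ++ [b]), Or.inr ⟨t + 1, _, B4_run_push M t q φ0 φ' u b hr hp, rfl⟩, ?_, Or.inr ?_⟩
      · intro k hk hkd
        rw [B4_wd_push q φ0 φ' u b (k - 1)]
        by_cases hk1 : k - 1 = q.length
        · rw [if_pos hk1]
          have : k = m := by omega
          rw [this]; exact h1'
        · rw [if_neg hk1]
          by_cases hk2 : k - 1 = q.length + 1 + u.length
          · rw [if_pos hk2]
            have : k = m' := by omega
            rw [this]; exact h2'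
          · rw [if_neg hk2, ← hc k hk hkd]
            symm
            exact hoth _ (by have : 0 < 2 ^ k := by positivity
                             omega) (B4_pow_ne (by omega)) (B4_pow_ne (by omega))
      · rw [B4_word_length]
        have : q.length + 1 + (u ++ [b]).length = m' := by simp; omega
        rw [this, ← hl]
        exact ⟨hd, hb⟩
  · refine B4_change (P := P) (fun k => k = m ∨ k = m') hl.symm ?_ ?_ ?_
    · rintro k (rfl | rfl)
      · exact hdm
      · exact hd
    · intro p h4 h5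
      exact (hoth p h4 (h5 m (Or.inl rfl)) (h5 m' (Or.inr rfl))).symm
    · intro hS
      obtain ⟨t, q, φ0, u, hr, hc, hdl, hbl⟩ := B4_get hS hm hdm (by rw [h1']; intro h; cases h)
      have e1 := hc m hm hdm
      rw [h1'] at e1
      obtain ⟨g1, rfl⟩ := B4_wd_fr e1.symm
      have e2 := hc m' (by omega) hd
      rw [h2'] at e2
      obtain ⟨g2, e3, _⟩ := B4_wd_unc e2.symm
      have hL : q.length + 1 + u.length ≤ m' := by
        rcases hend with he | ⟨he, he'⟩
        · by_contra hc'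
          exact he (B4_dvd_le (by omega) hdl)
        · have e4 := hc (m' + 1) (by omega) he
          rw [he'] at e4
          have := B4_wd_nil e4.symm
          omega
      obtain ⟨t', u0, hr', rfl⟩ := B4_pushed M t q φ0 φ u b hr hp
      have hL' : q.length + 1 + u0.length = m' - 1 := by
        simp only [List.length_append, List.length_cons, List.length_nil] at hL e3
        omega
      refine ⟨word (q, φ, u0), Or.inr ⟨t', _, hr', rfl⟩, ?_, Or.inr ?_⟩
      · intro k hk hkd
        by_cases hk1 : k = m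
        · subst hk1
          rw [h1, B4_wd, dif_neg (by omega), if_pos g1]
        · by_cases hk2 : k = m'
          · subst hk2
            rw [h2, List.getD_eq_default]
            rw [B4_word_length]; omega
          · rw [hoth _ (by have : 0 < 2 ^ k := by positivity
                           omega) (B4_pow_ne hk1) (B4_pow_ne hk2), hc k hk hkd,
              B4_wd_push q φ φ0 u0 b (k - 1), if_neg (by omega), if_neg (by omega)]
      · rw [B4_word_length, hL']
        refine ⟨B4_dvd_le (by omega) hd, le_trans ?_ hb⟩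
        have : 2 ^ (m' - 1) ≤ 2 ^ m' := Nat.pow_le_pow_right (by norm_num) (by omega)
        omega

theorem B4_move {M : Mach Fr Sym} {w w' : List (Ltr Fr Sym)} {P m : ℕ} (hm : 1 ≤ m)
    {φ : Fr} {b : Sym} (hp : M.push φ = none) (hl : w.length = w'.length)
    (hd : 2 ^ (m + 2) ∣ P)
    (h1 : (gp w (P + 2 ^ m)).c = .fr φ) (h1' : (gp w' (P + 2 ^ m)).c = .cons φ)
    (h2 : (gp w (P + 2 ^ (m + 1))).c = .unc b) (h2' : (gp w' (P + 2 ^ (m + 1))).c = .fr (M.enter φ b))
    (hoth : ∀ p, 1 ≤ p → p ≠ P + 2 ^ m → p ≠ P + 2 ^ (m + 1) → (gp w p).c = (gp w' p).c) :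
    LegC M w ↔ LegC M w' := by
  have hdm : 2 ^ (m + 1) ∣ P := B4_dvd_le (by omega) hd
  constructor
  · refine B4_change (P := P) (fun k => k = m ∨ k = m + 1) hl ?_ ?_ ?_
    · rintro k (rfl | rfl)
      · exact hdm
      · exact hd
    · intro p h4 h5
      exact hoth p h4 (h5 m (Or.inl rfl)) (h5 (m + 1) (Or.inr rfl))
    · intro hS
      obtain ⟨t, q, φ0, u, hr, hc, hdl, hbl⟩ := B4_get hS hm hdm (by rw [h1]; intro h; cases h)
      have e1 := hc m hm hdm
      rw [h1] at e1
      obtain ⟨g1, rfl⟩ := B4_wd_fr e1.symm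
      have e2 := hc (m + 1) (by omega) hd
      rw [h2] at e2
      obtain ⟨e2, e3, e4⟩ := B4_wd_unc e2.symm
      cases u with
      | nil => simp at e3
      | cons b0 u' =>
        have e5 : m + 1 - 1 - q.length - 1 = 0 := by omega
        simp only [e5, List.getElem_cons_zero] at e4
        subst e4
        refine ⟨word (q ++ [φ0], M.enter φ0 b0, u'), Or.inr ⟨t + 1, _, B4_run_move M t q φ0 u' b0 hr hp, rfl⟩,
          ?_, Or.inr ?_⟩
        · intro k hk hkd
          rw [B4_wd_move q φ0 (M.enter φ0 b0) u' b0 (k - 1)]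
          by_cases hk1 : k - 1 = q.length
          · rw [if_pos hk1]
            have : k = m := by omega
            rw [this]; exact h1'
          · rw [if_neg hk1]
            by_cases hk2 : k - 1 = q.length + 1
            · rw [if_pos hk2]
              have : k = m + 1 := by omega
              rw [this]; exact h2'
            · rw [if_neg hk2, ← hc k hk hkd]
              symm
              exact hoth _ (by have : 0 < 2 ^ k := by positivity
                               omega) (B4_pow_ne (by omega)) (B4_pow_ne (by omega))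
        · rw [B4_word_length]
          have : (q ++ [φ0]).length + 1 + u'.length = q.length + 1 + (b0 :: u').length := by simp; omega
          rw [this, ← hl]
          exact ⟨hdl, hbl⟩
  · refine B4_change (P := P) (fun k => k = m ∨ k = m + 1) hl.symm ?_ ?_ ?_
    · rintro k (rfl | rfl)
      · exact hdm
      · exact hd
    · intro p h4 h5
      exact (hoth p h4 (h5 m (Or.inl rfl)) (h5 (m + 1) (Or.inr rfl))).symm
    · intro hS
      obtain ⟨t, q', φ0, u, hr, hc, hdl, hbl⟩ := B4_get hS hm hdm (by rw [h1']; intro h; cases h)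
      have e1 := hc m hm hdm
      rw [h1'] at e1
      obtain ⟨g1, e1'⟩ := B4_wd_cons e1.symm
      have e2 := hc (m + 1) (by omega) hd
      rw [h2'] at e2
      obtain ⟨g2, rfl⟩ := B4_wd_fr e2.symm
      obtain ⟨q, ψ, rfl⟩ : ∃ q ψ, q' = q ++ [ψ] := by
        rcases List.eq_nil_or_concat q' with rfl | ⟨q, ψ, rfl⟩
        · simp at g1
        · exact ⟨q, ψ, by simp⟩
      have e3 : q.length = m - 1 := by simp at g2; omega
      have e4 : ψ = φ := by
        rw [← e1']
        simp [← e3]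
      subst e4
      obtain ⟨t', hr', _⟩ := B4_entered M t q ψ u b hr
      refine ⟨word (q, ψ, b :: u), Or.inr ⟨t', _, hr', rfl⟩, ?_, Or.inr ?_⟩
      · intro k hk hkd
        by_cases hk1 : k = m
        · subst hk1
          rw [h1, B4_wd, dif_neg (by omega), if_pos e3.symm]
        · by_cases hk2 : k = m + 1
          · subst hk2
            rw [h2, B4_wd, dif_neg (by omega), if_neg (by omega), dif_pos (by simp; omega)]
            have e5 : m + 1 - 1 - q.length - 1 = 0 := by omega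
            simp only [e5, List.getElem_cons_zero]
          · rw [hoth _ (by have : 0 < 2 ^ k := by positivity
                           omega) (B4_pow_ne hk1) (B4_pow_ne hk2), hc k hk hkd,
              B4_wd_move q ψ (M.enter ψ b) u b (k - 1), if_neg (by omega), if_neg (by omega)]
      · rw [B4_word_length]
        have : q.length + 1 + (b :: u).length = (q ++ [ψ]).length + 1 + u.length := by simp; omega
        rw [this, hl]
        exact ⟨hdl, hbl⟩

theorem B4_create {M : Mach Fr Sym} {w w' : List (Ltr Fr Sym)} {P : ℕ} (hl : w.length = w'.length)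
    (hd : 4 ∣ P) (hb : P + 2 ^ 1 ≤ w.length)
    (h1 : (gp w (P + 2 ^ 1)).c = .nil) (h1' : (gp w' (P + 2 ^ 1)).c = .fr M.ini)
    (hoth : ∀ p, 1 ≤ p → p ≠ P + 2 ^ 1 → (gp w p).c = (gp w' p).c) :
    LegC M w ↔ LegC M w' := by
  constructor
  · refine B4_change (P := P) (fun k => k = 1) hl ?_ ?_ ?_
    · rintro k rfl
      exact hd
    · intro p h4 h5
      exact hoth p h4 (h5 1 rfl)
    · rintro ⟨cs, hv, hc, hle⟩
      have e1 := hc 1 (le_refl _) hd
      rw [h1] at e1
      have e2 : cs = [] := by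
        rcases hv with rfl | ⟨t, ⟨q, φ, u⟩, hr, rfl⟩
        · rfl
        · have := B4_wd_nil e1.symm
          omega
      subst e2
      refine ⟨word ([], M.ini, []), Or.inr ⟨0, _, rfl, rfl⟩, ?_, Or.inr ?_⟩
      · intro k hk hkd
        by_cases hk1 : k = 1
        · subst hk1
          rw [h1']
          rfl
        · rw [← hoth _ (by have : 0 < 2 ^ k := by positivity
                           omega) (B4_pow_ne hk1), hc k hk hkd, List.getD_eq_default _ _ (by simp),
            List.getD_eq_default _ _ (by rw [B4_word_length]; simp only [List.length_nil]; omega)]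
      · rw [B4_word_length, ← hl]
        exact ⟨hd, hb⟩
  · refine B4_change (P := P) (fun k => k = 1) hl.symm ?_ ?_ ?_
    · rintro k rfl
      exact hd
    · intro p h4 h5
      exact (hoth p h4 (h5 1 rfl)).symm
    · intro hS
      obtain ⟨t, q, φ0, u, hr, hc, hdl, hbl⟩ := B4_get hS (le_refl 1) hd (by rw [h1']; intro h; cases h)
      have e1 := hc 1 (le_refl _) hd
      rw [h1'] at e1
      obtain ⟨g1, rfl⟩ := B4_wd_fr e1.symm
      have e2 : q = [] := List.length_eq_zero_iff.1 g1.symm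
      subst e2
      have e3 : u = [] := by
        rcases B4_run_inv M t _ _ u hr with ⟨_, _, h3⟩ | ⟨t', ψ', b', u0, _, h2, _⟩ | ⟨t', c0, ψ', b', _, _, _, h4⟩
        · exact h3
        · exact absurd h2 (M.ini_push _ _)
        · exact absurd h4.symm (M.ini_enter _ _)
      subst e3
      refine ⟨[], Or.inl rfl, ?_, Or.inl rfl⟩
      intro k hk hkd
      by_cases hk1 : k = 1
      · subst hk1
        rw [h1]; simp
      · rw [hoth _ (by have : 0 < 2 ^ k := by positivity
                       omega) (B4_pow_ne hk1), hc k hk hkd,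
            List.getD_eq_default _ _ (by rw [B4_word_length]; simp only [List.length_nil]; omega)]
        simp

/-! ### positions in legitimate words -/
theorem B4_sk {w A B : List (Ltr Fr Sym)} {x : Ltr Fr Sym} (hA : LegA w) (hw : w = A ++ x :: B) :
    x.sk = skp (A.length + 1) := by
  have := hA.sk (A.length + 1) (by omega) (by rw [hw]; simp)
  rw [hw, B4_gp_mid] at this
  exact this

theorem B4_cont {w A B : List (Ltr Fr Sym)} {x : Ltr Fr Sym} (hw : w = A ++ x :: B) {p : ℕ}
    (hp : A.length + 1 = p) : (gp w p).c = x.c := by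
  rw [← hp, hw, B4_gp_mid]

/-- position of a separator letter -/
theorem B4_sepx {w A B : List (Ltr Fr Sym)} {x : Ltr Fr Sym} (hA : LegA w) (hw : w = A ++ x :: B) (hx : Sep x) :
    ∃ P m, 1 ≤ m ∧ A.length + 1 = P + 2 ^ m ∧ 2 ^ (m + 1) ∣ P ∧ (X1 x → ¬ 2 ^ (m + 2) ∣ P) := by
  have hs := B4_sk hA hw
  obtain ⟨P, m, h1, h2, h3, h4, _⟩ := B4_sep_pos (A.length + 1) (by omega) (by
    rcases hx with hx | hx
    · left; rw [← hs]; exact hx
    · right; rw [← hs]; exact hx)
  exact ⟨P, m, h1, h2, h3, fun h => h4 (by rw [← hs]; exact h)⟩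

theorem B4_X0_sep {x : Ltr Fr Sym} (h : X0 x) : Sep x := Or.inl h.1
theorem B4_X1_sep {x : Ltr Fr Sym} (h : X1 x) : Sep x := Or.inr h

theorem B4_cellpos {w A B : List (Ltr Fr Sym)} {y : Ltr Fr Sym} (hA : LegA w) (hw : w = A ++ y :: B) (hy : O0 y) :
    4 ∣ A.length := by
  have hs := B4_sk hA hw
  have := B4_skp_o0 (A.length + 1) (by rw [← hs]; exact hy)
  omega

theorem B4_spn_true {p : Ltr Fr Sym → Prop} {l : List (Ltr Fr Sym × List (Ltr Fr Sym))} (h : Spn p l) :
    Spn (fun _ => True) l := fun q hq => ⟨(h q hq).1, trivial, (h q hq).2.2⟩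

theorem B4_flat_cons (x : Ltr Fr Sym) (z : List (Ltr Fr Sym)) (l : List (Ltr Fr Sym × List (Ltr Fr Sym))) :
    flat ((x, z) :: l) = x :: (z ++ flat l) := by
  simp [flat]

theorem B4_flat_append (l l' : List (Ltr Fr Sym × List (Ltr Fr Sym))) : flat (l ++ l') = flat l ++ flat l' := by
  simp [flat]

/-- position of a spine starting with x -/
theorem B4_spine (h : StB1) {w A D : List (Ltr Fr Sym)} {x : Ltr Fr Sym} {z : List (Ltr Fr Sym)} (hA : LegA w)
    (hx : X0 x) (hz : IsZ z) {P m : ℕ} (hm : 1 ≤ m) (hp : A.length + 1 = P + 2 ^ m)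
    (hd : 2 ^ (m + 1) ∣ P) (l : List (Ltr Fr Sym × List (Ltr Fr Sym))) (hl : Spn (fun _ => True) l)
    (hw : w = A ++ x :: (z ++ (flat l ++ D))) :
    2 ^ (m + l.length + 2) ∣ P ∧ (A ++ x :: (z ++ flat l)).length + 1 = P + 2 ^ (m + l.length + 1) := by
  obtain ⟨_, hs, _, _⟩ := h Fr Sym w hA
  have h1 := hs A ((x, z) :: l) D m P (by rw [hw, B4_flat_cons]; simp) (by
    intro q hq
    rcases List.mem_cons.1 hq with rfl | hq
    · exact ⟨hx, trivial, hz⟩
    · exact hl q hq) hp hm hd
  obtain ⟨h2, h3⟩ := h1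
  rw [List.length_cons] at h2 h3
  rw [B4_flat_cons] at h3
  constructor
  · have : m + l.length + 2 = m + 1 + (l.length + 1) := by omega
    rw [this]; exact h2
  · rw [List.length_append]
    have : m + l.length + 1 = m + (l.length + 1) := by omega
    rw [this]
    omega

/-- the last separator before the end of a spine segment has non-nil content -/
theorem B4_prev (h : StB1) {w A D : List (Ltr Fr Sym)} {x : Ltr Fr Sym} {z : List (Ltr Fr Sym)} (hA : LegA w)
    (hx : X0 x) (hz : IsZ z) {P m : ℕ} (hm : 1 ≤ m) (hp : A.length + 1 = P + 2 ^ m)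
    (hd : 2 ^ (m + 1) ∣ P) (l : List (Ltr Fr Sym × List (Ltr Fr Sym))) (hl : Spn (fun x => x.c.IsUnc) l)
    (hw : w = A ++ x :: (z ++ (flat l ++ D))) (hxc : x.c ≠ .nil) :
    (gp w (P + 2 ^ (m + l.length))).c ≠ .nil := by
  rcases List.eq_nil_or_concat l with rfl | ⟨l', ⟨y, zz⟩, rfl⟩
  · simp only [List.length_nil, Nat.add_zero]
    rw [B4_cont hw hp]; exact hxc
  · have hl' : Spn (fun _ => True) l' := fun q hq => by
      have := hl q (by simp [hq])
      exact ⟨this.1, trivial, this.2.2⟩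
    have hy := hl (y, zz) (by simp)
    have hw2 : w = A ++ x :: (z ++ (flat l' ++ (y :: (zz ++ D)))) := by
      rw [hw, List.concat_eq_append, B4_flat_append, B4_flat_cons]
      simp [flat]
    have h1 := B4_spine h hA hx hz hm hp hd l' hl' hw2
    have hw3 : w = (A ++ x :: (z ++ flat l')) ++ y :: (zz ++ D) := by
      rw [hw2]; simp
    have h2 : m + (l'.concat (y, zz)).length = m + l'.length + 1 := by simp; omega
    rw [h2, B4_cont hw3 h1.2]
    obtain ⟨b, hb⟩ := hy.2.1
    rw [hb]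
    intro hc; cases hc

/-- contents of two words which differ at two letters -/
theorem B4_two {A B C : List (Ltr Fr Sym)} {x y x' y' : Ltr Fr Sym} {p q : ℕ} (hp : A.length + 1 = p)
    (hq : (A ++ x :: B).length + 1 = q) :
    (gp (A ++ y :: (B ++ y' :: C)) p).c = y.c ∧ (gp (A ++ y :: (B ++ y' :: C)) q).c = y'.c ∧
    ∀ r, 1 ≤ r → r ≠ p → r ≠ q → (gp (A ++ x :: (B ++ x' :: C)) r).c = (gp (A ++ y :: (B ++ y' :: C)) r).c := by
  refine ⟨B4_cont rfl hp, ?_, ?_⟩
  · apply B4_cont (A := A ++ y :: B) (B := C)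
    · simp
    · rw [← hq]; simp
  · intro r h1 h2 h3
    rw [B4_gp_other A (B ++ x' :: C) x y r h1 (by rw [hp]; exact h2)]
    have e1 : A ++ y :: (B ++ x' :: C) = (A ++ y :: B) ++ x' :: C := by simp
    have e2 : A ++ y :: (B ++ y' :: C) = (A ++ y :: B) ++ y' :: C := by simp
    rw [e1, e2, B4_gp_other (A ++ y :: B) C x' y' r h1 (by
      rw [← hq] at h3
      simpa using h3)]

theorem B4_rule (h : StB1) {M : Mach Fr Sym} {a u v b : List (Ltr Fr Sym)} (hr : RuleC M u v)
    (hA : LegA (a ++ u ++ b)) : LegC M (a ++ u ++ b) ↔ LegC M (a ++ v ++ b) := by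
  cases hr with
  | c0 y x hy hx hc =>
    have e1 : a ++ [y, x] ++ b = (a ++ [y]) ++ x :: b := by simp
    have e2 : a ++ [y, x.setC (.fr M.ini)] ++ b = (a ++ [y]) ++ (x.setC (.fr M.ini)) :: b := by simp
    have h4 : 4 ∣ a.length := B4_cellpos hA (B := [x] ++ b) (y := y) (by simp) hy
    have hpos : (a ++ [y]).length + 1 = a.length + 2 ^ 1 := by simp
    rw [e1, e2]
    refine B4_create (P := a.length) (by simp) h4 (by simp) ?_ ?_ ?_
    · rw [B4_cont rfl hpos]; exact hc
    · rw [B4_cont rfl hpos]; rfl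
    · intro p h1 h2
      rw [B4_gp_other (a ++ [y]) b x (x.setC (.fr M.ini)) p h1 (by rw [hpos]; exact h2)]
  | push1 φ φ' c x z l x' hp hx hxc hz hl hx' hx'c =>
    have e1 : a ++ (x :: (z ++ (flat l ++ [x']))) ++ b = a ++ x :: ((z ++ flat l) ++ x' :: b) := by simp
    have e2 : a ++ (x.setC (.fr φ') :: (z ++ (flat l ++ [x'.setC (.unc c)]))) ++ b =
      a ++ (x.setC (.fr φ')) :: ((z ++ flat l) ++ (x'.setC (.unc c)) :: b) := by simp
    rw [e1] at hA
    rw [e1, e2]
    obtain ⟨P, m, hm, hpos, hd, _⟩ := B4_sepx hA rfl (B4_X0_sep hx)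
    have hsp := B4_spine (D := x' :: b) h hA hx hz hm hpos hd l (B4_spn_true hl) (by simp)
    have hend : ¬ 2 ^ (m + l.length + 1 + 2) ∣ P := by
      obtain ⟨P', m', hm', hpos', hd', h5⟩ := B4_sepx (A := a ++ x :: (z ++ flat l)) (B := b) hA (by simp) (B4_X1_sep hx')
      have h6 := B4_pos_inj (hsp.2.symm.trans hpos') hsp.1 hd'
      obtain ⟨h6, h7⟩ := h6
      rw [h6, h7]
      exact h5 hx'
    obtain ⟨g1, g2, g3⟩ := B4_two (B := z ++ flat l) (C := b) (x := x) (x' := x') (y := x.setC (.fr φ'))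
      (y' := x'.setC (.unc c)) hpos hsp.2
    refine B4_push (P := P) (m := m) (m' := m + l.length + 1) hm (by omega) hp (by simp) hsp.1 ?_ ?_ g1 ?_ g2 ?_
      (Or.inl hend) g3
    · rw [← hsp.2]; simp
    · rw [B4_cont rfl hpos]; exact hxc
    · rw [B4_cont (A := a ++ x :: (z ++ flat l)) (B := b) (x := x') (by simp) hsp.2]; exact hx'c
    · exact B4_prev h hA hx hz hm hpos hd l hl (D := x' :: b) (by simp) (by rw [hxc]; intro h; cases h)
  | push2 φ φ' c x z l x' z' s hp hx hxc hz hl hx' hx'c hz' hs hsc =>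
    have e1 : a ++ (x :: (z ++ (flat l ++ x' :: (z' ++ [s])))) ++ b =
      a ++ x :: ((z ++ flat l) ++ x' :: (z' ++ s :: b)) := by simp
    have e2 : a ++ (x.setC (.fr φ') :: (z ++ (flat l ++ x'.setC (.unc c) :: (z' ++ [s])))) ++ b =
      a ++ (x.setC (.fr φ')) :: ((z ++ flat l) ++ (x'.setC (.unc c)) :: (z' ++ s :: b)) := by simp
    rw [e1] at hA
    rw [e1, e2]
    obtain ⟨P, m, hm, hpos, hd, _⟩ := B4_sepx hA rfl (B4_X0_sep hx)
    have hsp := B4_spine (D := x' :: (z' ++ s :: b)) h hA hx hz hm hpos hd l (B4_spn_true hl) (by simp)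
    have hsp2 := B4_spine (D := s :: b) h hA hx hz hm hpos hd (l ++ [(x', z')]) (by
      intro q hq
      rcases List.mem_append.1 hq with hq | hq
      · exact B4_spn_true hl q hq
      · rw [List.mem_singleton] at hq
        subst hq
        exact ⟨hx', trivial, hz'⟩) (by rw [B4_flat_append, B4_flat_cons]; simp [flat])
    have e3 : m + (l ++ [(x', z')]).length = m + l.length + 1 := by simp; omega
    rw [e3] at hsp2
    obtain ⟨g1, g2, g3⟩ := B4_two (B := z ++ flat l) (C := z' ++ s :: b) (x := x) (x' := x') (y := x.setC (.fr φ'))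
      (y' := x'.setC (.unc c)) hpos hsp.2
    have hs1 : (gp (a ++ x :: ((z ++ flat l) ++ x' :: (z' ++ s :: b))) (P + 2 ^ (m + l.length + 1 + 1))).c = .nil := by
      rw [B4_cont (A := a ++ x :: (z ++ flat (l ++ [(x', z')]))) (B := b) (x := s) (by
        rw [B4_flat_append, B4_flat_cons]; simp [flat]) hsp2.2]
      exact hsc
    refine B4_push (P := P) (m := m) (m' := m + l.length + 1) hm (by omega) hp (by simp) hsp.1 ?_ ?_ g1 ?_ g2 ?_
      (Or.inr ⟨hsp2.1, ?_⟩) g3
    · rw [← hsp.2]; simp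
    · rw [B4_cont rfl hpos]; exact hxc
    · rw [B4_cont (A := a ++ x :: (z ++ flat l)) (B := z' ++ s :: b) (x := x') (by simp) hsp.2]; exact hx'c
    · exact B4_prev h hA hx hz hm hpos hd l hl (D := x' :: (z' ++ s :: b)) (by simp) (by rw [hxc]; intro h; cases h)
    · rw [← g3 _ (by have : 0 < 2 ^ (m + l.length + 1 + 1) := by positivity
                     omega) (B4_pow_ne (by omega)) (B4_pow_ne (by omega))]
      exact hs1
  | move φ c x z x' hp hx hxc hz hx' hx'c =>
    have e1 : a ++ (x :: (z ++ [x'])) ++ b = a ++ x :: (z ++ x' :: b) := by simp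
    have e2 : a ++ (x.setC (.cons φ) :: (z ++ [x'.setC (.fr (M.enter φ c))])) ++ b =
      a ++ (x.setC (.cons φ)) :: (z ++ (x'.setC (.fr (M.enter φ c))) :: b) := by simp
    rw [e1] at hA
    rw [e1, e2]
    obtain ⟨P, m, hm, hpos, hd, _⟩ := B4_sepx hA rfl (B4_X0_sep hx)
    have hsp := B4_spine (D := x' :: b) h hA hx hz hm hpos hd [] (by intro q hq; simp at hq) (by simp [flat])
    have e3 : flat ([] : List (Ltr Fr Sym × List (Ltr Fr Sym))) = [] := rfl
    simp only [List.length_nil, Nat.add_zero, e3, List.append_nil] at hsp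
    obtain ⟨g1, g2, g3⟩ := B4_two (B := z) (C := b) (x := x) (x' := x') (y := x.setC (.cons φ))
      (y' := x'.setC (.fr (M.enter φ c))) hpos hsp.2
    refine B4_move (P := P) (m := m) hm hp (by simp) hsp.1 ?_ g1 ?_ g2 g3
    · rw [B4_cont rfl hpos]; exact hxc
    · rw [B4_cont (A := a ++ x :: z) (B := b) (x := x') (by simp) hsp.2]; exact hx'c

theorem B4_empty_flat : flat ([] : List (Ltr Fr Sym × List (Ltr Fr Sym))) = [] := rfl

theorem B4_last {u0 : List Sym} {b b' : Sym} {i : ℕ} (h : i < (u0 ++ [b]).length) (hi : i = u0.length)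
    (he : (u0 ++ [b])[i] = b') : b' = b := by
  subst hi
  simp at he
  exact he.symm

theorem B4_kill (h : StB1) {M : Mach Fr Sym} {J : ℕ}
    (hJ : ∀ t c φ u, M.run t = some (c, φ, u) → c.length + u.length + 1 ≤ J → ¬ M.halt φ)
    {a u b : List (Ltr Fr Sym)} (hk : KillC M u) (hlen : (a ++ u ++ b).length < 2 ^ (J + 1))
    (hA : LegA (a ++ u ++ b)) : ¬ LegC M (a ++ u ++ b) := by
  intro hC
  rw [B4_legC_iff] at hC
  have d4 : ∀ {P m : ℕ}, 1 ≤ m → 2 ^ (m + 1) ∣ P → 4 ∣ P := by
    intro P m h1 h2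
    have : 2 ^ 2 ∣ P := B4_dvd_le (by omega) h2
    simpa using this
  cases hk with
  | c1 y x hy hx hc =>
    have e1 : a ++ [y, x] ++ b = (a ++ [y]) ++ x :: b := by simp
    have h4 : 4 ∣ a.length := B4_cellpos hA (B := [x] ++ b) (y := y) (by simp) hy
    have hpos : (a ++ [y]).length + 1 = a.length + 2 ^ 1 := by simp
    obtain ⟨c, hc⟩ := hc
    have hx1 : (gp (a ++ [y, x] ++ b) (a.length + 2 ^ 1)).c = .unc c := by rw [B4_cont e1 hpos, hc]
    obtain ⟨t, q, φ0, w, hr, hcc, hdl, hbl⟩ := B4_get (hC a.length h4) (le_refl 1) h4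
      (by rw [hx1]; intro h; cases h)
    have e2 := hcc 1 (le_refl 1) h4
    rw [hx1] at e2
    have := (B4_wd_unc e2.symm).1
    omega
  | c2 x z x' hx hz hx' hbad =>
    have e1 : a ++ (x :: (z ++ [x'])) ++ b = a ++ x :: (z ++ x' :: b) := by simp
    rw [e1] at hA hC
    obtain ⟨P, m, hm, hpos, hd, _⟩ := B4_sepx hA rfl (B4_X0_sep hx)
    have hsp := B4_spine (D := x' :: b) h hA hx hz hm hpos hd [] (by intro q hq; simp at hq) (by simp [flat])
    simp only [List.length_nil, Nat.add_zero, B4_empty_flat, List.append_nil] at hsp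
    have c1 : (gp (a ++ x :: (z ++ x' :: b)) (P + 2 ^ m)).c = x.c := B4_cont rfl hpos
    have c2 : (gp (a ++ x :: (z ++ x' :: b)) (P + 2 ^ (m + 1))).c = x'.c := by
      apply B4_cont (A := a ++ x :: z) (B := b) (by simp) hsp.2
    have hS := hC P (d4 hm hd)
    generalize x.c = cx at hbad c1
    generalize x'.c = cx' at hbad c2
    cases hbad with
    | p1 _ hne =>
      obtain ⟨t, q, φ0, w, hr, hcc, hdl, hbl⟩ := B4_get hS (by omega) hsp.1 (by rw [c2]; exact hne)
      have e2 := hcc m hm hd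
      rw [c1] at e2
      have e2 := B4_wd_nil e2.symm
      have e3 := hcc (m + 1) (by omega) hsp.1
      rw [c2] at e3
      rw [e3] at hne
      have := B4_getD_ne hne
      rw [B4_word_length] at this
      omega
    | p2 _ _ h1 h2 =>
      have hne : cx ≠ .nil := by
        rcases h1 with ⟨_, h1⟩ | ⟨_, h1⟩ <;> rw [h1] <;> intro h <;> cases h
      obtain ⟨t, q, φ0, w, hr, hcc, hdl, hbl⟩ := B4_get hS hm hd (by rw [c1]; exact hne)
      have e2 := hcc m hm hd
      rw [c1] at e2
      have e3 := hcc (m + 1) (by omega) hsp.1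
      rw [c2] at e3
      have l1 : q.length ≤ m - 1 := by
        rcases h1 with ⟨_, h1⟩ | ⟨_, h1⟩
        · rw [h1] at e2
          have := (B4_wd_unc e2.symm).1
          omega
        · rw [h1] at e2
          have := (B4_wd_fr e2.symm).1
          omega
      rcases h2 with ⟨_, h2⟩ | ⟨_, h2⟩
      · rw [h2] at e3
        obtain ⟨h5, _⟩ := B4_wd_cons e3.symm
        omega
      · rw [h2] at e3
        have := (B4_wd_fr e3.symm).1
        omega
    | p3 _ _ h1 h2 =>
      obtain ⟨ψ, h1⟩ := h1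
      have hne : cx ≠ .nil := by
        rw [h1]; intro h; cases h
      obtain ⟨t, q, φ0, w, hr, hcc, hdl, hbl⟩ := B4_get hS hm hd (by rw [c1]; exact hne)
      have e2 := hcc m hm hd
      rw [c1, h1] at e2
      obtain ⟨e2, _⟩ := B4_wd_cons e2.symm
      have e3 := hcc (m + 1) (by omega) hsp.1
      rw [c2] at e3
      rcases h2 with ⟨_, h2⟩ | h2
      · rw [h2] at e3
        have := (B4_wd_unc e3.symm).1
        omega
      · rw [h2] at e3
        have := B4_wd_nil e3.symm
        omega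
    | p4 ψ φ h1 h2 =>
      obtain ⟨t, q', φ0, w, hr, hcc, hdl, hbl⟩ := B4_get hS hm hd (by rw [c1]; intro h; cases h)
      have e2 := hcc m hm hd
      rw [c1] at e2
      obtain ⟨g2, e2'⟩ := B4_wd_cons e2.symm
      have e3 := hcc (m + 1) (by omega) hsp.1
      rw [c2] at e3
      obtain ⟨g3, rfl⟩ := B4_wd_fr e3.symm
      rcases B4_run_inv M t _ _ w hr with ⟨h3, _, _⟩ | ⟨t', ψ', b', u0, _, h3, _⟩ | ⟨t', c0, ψ', b', _, h4, h5, h6⟩
      · subst h3; simp at g2
      · exact h1 ⟨ψ', b', h3⟩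
      · apply h2
        have e4 : ψ' = ψ := by
          rw [← e2']
          subst h5
          have : m - 1 = c0.length := by simp at g3; omega
          simp [this]
        subst e4
        exact ⟨h4, b', h6⟩
    | p5 c =>
      obtain ⟨t, q, φ0, w, hr, hcc, hdl, hbl⟩ := B4_get hS hm hd (by rw [c1]; intro h; cases h)
      have e2 := hcc m hm hd
      rw [c1] at e2
      obtain ⟨g2, rfl⟩ := B4_wd_fr e2.symm
      have e3 := hcc (m + 1) (by omega) hsp.1
      rw [c2] at e3
      obtain ⟨g3, g4, _⟩ := B4_wd_unc e3.symm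
      rcases B4_run_inv M t _ _ w hr with ⟨_, _, h3⟩ | ⟨t', ψ', b', u0, _, h3, _⟩ | ⟨t', c0, ψ', b', _, h4, h5, h6⟩
      · subst h3; simp at g4
      · exact M.ini_push _ _ h3
      · exact M.ini_enter _ _ h6.symm
  | c3 x hx hc =>
    have e1 : a ++ [x] ++ b = a ++ x :: b := by simp
    rw [e1] at hA hC
    obtain ⟨P, m, hm, hpos, hd, hnd⟩ := B4_sepx hA rfl (B4_X1_sep hx)
    obtain ⟨ψ, hc⟩ := hc
    have c1 : (gp (a ++ x :: b) (P + 2 ^ m)).c = .cons ψ := by rw [B4_cont rfl hpos, hc]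
    obtain ⟨t, q, φ0, w, hr, hcc, hdl, hbl⟩ := B4_get (hC P (d4 hm hd)) hm hd (by rw [c1]; intro h; cases h)
    have e2 := hcc m hm hd
    rw [c1] at e2
    obtain ⟨e2, _⟩ := B4_wd_cons e2.symm
    exact hnd hx (B4_dvd_le (by omega) hdl)
  | c4 y x φ hy hx hc hp hi =>
    have e1 : a ++ [y, x] ++ b = (a ++ [y]) ++ x :: b := by simp
    have h4 : 4 ∣ a.length := B4_cellpos hA (B := [x] ++ b) (y := y) (by simp) hy
    have hpos : (a ++ [y]).length + 1 = a.length + 2 ^ 1 := by simp
    have hx1 : (gp (a ++ [y, x] ++ b) (a.length + 2 ^ 1)).c = .fr φ := by rw [B4_cont e1 hpos, hc]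
    obtain ⟨t, q, φ0, w, hr, hcc, hdl, hbl⟩ := B4_get (hC a.length h4) (le_refl 1) h4
      (by rw [hx1]; intro h; cases h)
    have e2 := hcc 1 (le_refl 1) h4
    rw [hx1] at e2
    obtain ⟨g2, rfl⟩ := B4_wd_fr e2.symm
    rcases B4_run_inv M t _ _ w hr with ⟨_, h3, _⟩ | ⟨t', ψ', b', u0, _, h3, _⟩ | ⟨t', c0, ψ', b', _, h4, h5, h6⟩
    · exact hi h3
    · exact hp ⟨ψ', b', h3⟩
    · subst h5; simp at g2
  | c5 φ ψ c c' x z l x' hp hcc' hx hxc hz hl hx' hx'c =>
    have e1 : a ++ (x :: (z ++ (flat l ++ [x']))) ++ b = a ++ x :: ((z ++ flat l) ++ x' :: b) := by simp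
    rw [e1] at hA hC
    obtain ⟨P, m, hm, hpos, hd, _⟩ := B4_sepx hA rfl (B4_X0_sep hx)
    have hsp := B4_spine (D := x' :: b) h hA hx hz hm hpos hd l (B4_spn_true hl) (by simp)
    have hend : ¬ 2 ^ (m + l.length + 1 + 2) ∣ P := by
      obtain ⟨P', m', hm', hpos', hd', h5⟩ := B4_sepx (A := a ++ x :: (z ++ flat l)) (B := b) hA (by simp) (B4_X1_sep hx')
      have h6 := B4_pos_inj (hsp.2.symm.trans hpos') hsp.1 hd'
      obtain ⟨h6, h7⟩ := h6
      rw [h6, h7]
      exact h5 hx'
    have c1 : (gp (a ++ x :: ((z ++ flat l) ++ x' :: b)) (P + 2 ^ m)).c = .fr φ := by rw [B4_cont rfl hpos, hxc]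
    have c2 : (gp (a ++ x :: ((z ++ flat l) ++ x' :: b)) (P + 2 ^ (m + l.length + 1))).c = .unc c' := by
      rw [B4_cont (A := a ++ x :: (z ++ flat l)) (B := b) (x := x') (by simp) hsp.2]; exact hx'c
    obtain ⟨t, q, φ0, w, hr, hcc, hdl, hbl⟩ := B4_get (hC P (d4 hm hd)) hm hd (by rw [c1]; intro h; cases h)
    have e2 := hcc m hm hd
    rw [c1] at e2
    obtain ⟨g2, rfl⟩ := B4_wd_fr e2.symm
    have e3 := hcc (m + l.length + 1) (by omega) hsp.1
    rw [c2] at e3
    obtain ⟨g3, g4, g5⟩ := B4_wd_unc e3.symm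
    have hL : q.length + 1 + w.length ≤ m + l.length + 1 := by
      by_contra hc'
      exact hend (B4_dvd_le (by omega) hdl)
    obtain ⟨t', u0, _, rfl⟩ := B4_pushed M t q φ0 ψ w c hr hp
    exact hcc' (B4_last g4 (by simp at hL g4; omega) g5)
  | c6 φ ψ c c' x z l x' z' s hp hcc' hx hxc hz hl hx' hx'c hz' hs hsc =>
    have e1 : a ++ (x :: (z ++ (flat l ++ x' :: (z' ++ [s])))) ++ b =
      a ++ x :: ((z ++ flat l) ++ x' :: (z' ++ s :: b)) := by simp
    rw [e1] at hA hC
    obtain ⟨P, m, hm, hpos, hd, _⟩ := B4_sepx hA rfl (B4_X0_sep hx)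
    have hsp := B4_spine (D := x' :: (z' ++ s :: b)) h hA hx hz hm hpos hd l (B4_spn_true hl) (by simp)
    have hsp2 := B4_spine (D := s :: b) h hA hx hz hm hpos hd (l ++ [(x', z')]) (by
      intro q hq
      rcases List.mem_append.1 hq with hq | hq
      · exact B4_spn_true hl q hq
      · rw [List.mem_singleton] at hq
        subst hq
        exact ⟨hx', trivial, hz'⟩) (by rw [B4_flat_append, B4_flat_cons]; simp [flat])
    have e3 : m + (l ++ [(x', z')]).length = m + l.length + 1 := by simp; omega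
    rw [e3] at hsp2
    have c1 : (gp (a ++ x :: ((z ++ flat l) ++ x' :: (z' ++ s :: b))) (P + 2 ^ m)).c = .fr φ := by
      rw [B4_cont rfl hpos, hxc]
    have c2 : (gp (a ++ x :: ((z ++ flat l) ++ x' :: (z' ++ s :: b))) (P + 2 ^ (m + l.length + 1))).c = .unc c' := by
      rw [B4_cont (A := a ++ x :: (z ++ flat l)) (B := z' ++ s :: b) (x := x') (by simp) hsp.2]; exact hx'c
    have c3 : (gp (a ++ x :: ((z ++ flat l) ++ x' :: (z' ++ s :: b))) (P + 2 ^ (m + l.length + 1 + 1))).c = .nil := by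
      rw [B4_cont (A := a ++ x :: (z ++ flat (l ++ [(x', z')]))) (B := b) (x := s) (by
        rw [B4_flat_append, B4_flat_cons]; simp [flat]) hsp2.2]
      exact hsc
    obtain ⟨t, q, φ0, w, hr, hcc, hdl, hbl⟩ := B4_get (hC P (d4 hm hd)) hm hd (by rw [c1]; intro h; cases h)
    have e2 := hcc m hm hd
    rw [c1] at e2
    obtain ⟨g2, rfl⟩ := B4_wd_fr e2.symm
    have e3 := hcc (m + l.length + 1) (by omega) hsp.1
    rw [c2] at e3
    obtain ⟨g3, g4, g5⟩ := B4_wd_unc e3.symm
    have e4 := hcc (m + l.length + 1 + 1) (by omega) hsp2.1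
    rw [c3] at e4
    have hL := B4_wd_nil e4.symm
    obtain ⟨t', u0, _, rfl⟩ := B4_pushed M t q φ0 ψ w c hr hp
    exact hcc' (B4_last g4 (by simp at hL g4; omega) g5)
  | c7 φ x hx hc hp =>
    have e1 : a ++ [x] ++ b = a ++ x :: b := by simp
    rw [e1] at hA hC
    obtain ⟨P, m, hm, hpos, hd, hnd⟩ := B4_sepx hA rfl (B4_X1_sep hx)
    have c1 : (gp (a ++ x :: b) (P + 2 ^ m)).c = .fr φ := by rw [B4_cont rfl hpos, hc]
    obtain ⟨t, q, φ0, w, hr, hcc, hdl, hbl⟩ := B4_get (hC P (d4 hm hd)) hm hd (by rw [c1]; intro h; cases h)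
    have e2 := hcc m hm hd
    rw [c1] at e2
    obtain ⟨g2, rfl⟩ := B4_wd_fr e2.symm
    obtain ⟨ψ, c, hp⟩ := hp
    obtain ⟨t', u0, _, rfl⟩ := B4_pushed M t q φ0 ψ w c hr hp
    simp only [List.length_append, List.length_cons, List.length_nil] at hdl
    exact hnd hx (B4_dvd_le (by omega) hdl)
  | c8 φ x z s hx hc hp hz hs hsc =>
    have e1 : a ++ (x :: (z ++ [s])) ++ b = a ++ x :: (z ++ s :: b) := by simp
    rw [e1] at hA hC
    obtain ⟨P, m, hm, hpos, hd, _⟩ := B4_sepx hA rfl (B4_X0_sep hx)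
    have hsp := B4_spine (D := s :: b) h hA hx hz hm hpos hd [] (by intro q hq; simp at hq) (by simp [flat])
    simp only [List.length_nil, Nat.add_zero, B4_empty_flat, List.append_nil] at hsp
    have c1 : (gp (a ++ x :: (z ++ s :: b)) (P + 2 ^ m)).c = .fr φ := by rw [B4_cont rfl hpos, hc]
    have c2 : (gp (a ++ x :: (z ++ s :: b)) (P + 2 ^ (m + 1))).c = .nil := by
      rw [B4_cont (A := a ++ x :: z) (B := b) (x := s) (by simp) hsp.2, hsc]
    obtain ⟨t, q, φ0, w, hr, hcc, hdl, hbl⟩ := B4_get (hC P (d4 hm hd)) hm hd (by rw [c1]; intro h; cases h)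
    have e2 := hcc m hm hd
    rw [c1] at e2
    obtain ⟨g2, rfl⟩ := B4_wd_fr e2.symm
    have e3 := hcc (m + 1) (by omega) hsp.1
    rw [c2] at e3
    have hL := B4_wd_nil e3.symm
    obtain ⟨ψ, c, hp⟩ := hp
    obtain ⟨t', u0, _, rfl⟩ := B4_pushed M t q φ0 ψ w c hr hp
    simp at hL
    omega
  | c9 φ x hx hc hh =>
    have e1 : a ++ [x] ++ b = a ++ x :: b := by simp
    rw [e1] at hA hC hlen
    obtain ⟨P, m, hm, hpos, hd, hnd⟩ := B4_sepx hA rfl hx
    have c1 : (gp (a ++ x :: b) (P + 2 ^ m)).c = .fr φ := by rw [B4_cont rfl hpos, hc]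
    obtain ⟨t, q, φ0, w, hr, hcc, hdl, hbl⟩ := B4_get (hC P (d4 hm hd)) hm hd (by rw [c1]; intro h; cases h)
    have e2 := hcc m hm hd
    rw [c1] at e2
    obtain ⟨g2, rfl⟩ := B4_wd_fr e2.symm
    refine hJ t q φ0 w hr ?_ hh
    have h1 : 2 ^ (q.length + 1 + w.length) < 2 ^ (J + 1) := by omega
    have := (Nat.pow_lt_pow_iff_right (by norm_num : 1 < 2)).1 h1
    omega

theorem tB4 (h : StB1) : StB4 := by
  intro Fr Sym M J hJ a u v b
  constructor
  · intro hr
    have hf : (a ++ u ++ b).map B4_f = (a ++ v ++ b).map B4_f := by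
      simp only [List.map_append, B4_ruleC_f hr]
    constructor
    · rintro ⟨h1, h2, h3⟩
      exact ⟨B4_legA hf h1, B4_legK hf h2, (B4_rule h hr h1).1 h3⟩
    · rintro ⟨h1, h2, h3⟩
      have h1' := B4_legA hf.symm h1
      exact ⟨h1', B4_legK hf.symm h2, (B4_rule h hr h1').2 h3⟩
  · rintro hk hlen ⟨h1, _, h3⟩
    exact B4_kill h hJ hk hlen h1 h3

end Pool.Agent.LibPeps
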