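import Pool.Agent.LibPeps.DefsB

set_option autoImplicit false

/-! Task B5: assembly of part B. -/

namespace Pool.Agent.LibPeps
open Ltr

variable {Fr Sym : Type}

theorem InL_length {u v : List (Ltr Fr Sym)} (h : InL u v) : u.length = v.length := by
  cases h with
  | cell o => rfl
  | chain e es o => simp [cflat]

theorem RuleA_length {u v : List (Ltr Fr Sym)} (h : RuleA u v) : u.length = v.length := by
  cases h with
  | a0 x => rfl
  | a1 y l m => simp

theorem RuleK_length {u v : List (Ltr Fr Sym)} (h : RuleK u v) : u.length = v.length := by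
  cases h with
  | k0 o s y x => rfl
  | k1 e u u' s y l x z x' h1 h2 =>
    have := InL_length h2
    simp [cflat, this]

theorem RuleC_length {M : Mach Fr Sym} {u v : List (Ltr Fr Sym)} (h : RuleC M u v) :
    u.length = v.length := by
  cases h <;> simp

theorem Rul_length {M : Mach Fr Sym} {u v : List (Ltr Fr Sym)} (h : Rul M u v) :
    u.length = v.length := by
  rcases h with h | h | h
  · exact RuleA_length h
  · exact RuleK_length h
  · exact RuleC_length h

/-- The clean word of length n. -/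
def cleanW (Fr Sym : Type) (n : ℕ) : List (Ltr Fr Sym) :=
  (List.range n).map fun i => ⟨skp (i + 1), false, false, .nil⟩

theorem cleanW_length (n : ℕ) : (cleanW Fr Sym n).length = n := by simp [cleanW]

theorem gp_cleanW (n p : ℕ) : gp (cleanW Fr Sym n) p =
    if p - 1 < n then ⟨skp (p - 1 + 1), false, false, .nil⟩ else ⟨.x0, false, false, .nil⟩ := by
  unfold gp cleanW
  rw [List.getD_eq_getElem?_getD, List.getElem?_map]
  by_cases h : p - 1 < n
  · rw [List.getElem?_range h, if_pos h]; rfl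
  · rw [if_neg h, List.getElem?_eq_none (by simpa using h)]; rfl

theorem gp_cleanW_a (n p : ℕ) : (gp (cleanW Fr Sym n) p).a = false := by
  rw [gp_cleanW]; split_ifs <;> rfl

theorem gp_cleanW_k (n p : ℕ) : (gp (cleanW Fr Sym n) p).k = false := by
  rw [gp_cleanW]; split_ifs <;> rfl

theorem gp_cleanW_c (n p : ℕ) : (gp (cleanW Fr Sym n) p).c = .nil := by
  rw [gp_cleanW]; split_ifs <;> rfl

theorem cleanW_leg (M : Mach Fr Sym) (n : ℕ) : Leg M (cleanW Fr Sym n) := by
  refine ⟨⟨?_, ?_, ?_⟩, ?_, ?_⟩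
  · intro p h1 h2
    rw [cleanW_length] at h2
    rw [gp_cleanW, if_pos (by omega)]
    show skp (p - 1 + 1) = skp p
    rw [Nat.sub_add_cancel h1]
  · intro p _ _
    exact gp_cleanW_a n p
  · intro i r _
    rw [gp_cleanW_a, gp_cleanW_a]
  · intro s i _ _
    rw [gp_cleanW_k, gp_cleanW_k]
  · intro P _
    refine ⟨[], Or.inl rfl, ?_, Or.inl rfl⟩
    intro k _ _
    rw [gp_cleanW_c]
    simp

/-- Task B5. -/
theorem tB5 (h2 : StB2) (h3 : StB3) (h4 : StB4) : StB5 := by
  intro Fr Sym M J hJ n hn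
  refine ⟨fun w => Leg M w ∧ w.length = n, ⟨?_, ?_⟩, cleanW Fr Sym n, cleanW_length n,
    cleanW_leg M n, cleanW_length n⟩
  · intro a u v b huv
    have hl := Rul_length huv
    have hL : Leg M (a ++ u ++ b) ↔ Leg M (a ++ v ++ b) := by
      rcases huv with h | h | h
      · exact (h2 Fr Sym M a u v b).1 h
      · exact (h3 Fr Sym M a u v b).1 h
      · exact (h4 Fr Sym M J hJ a u v b).1 h
    show (Leg M (a ++ u ++ b) ∧ (a ++ u ++ b).length = n) ↔
      (Leg M (a ++ v ++ b) ∧ (a ++ v ++ b).length = n)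
    rw [hL]
    simp only [List.length_append, hl]
  · intro a u b hu hΦ
    obtain ⟨hΦ1, hΦ2⟩ : Leg M (a ++ u ++ b) ∧ (a ++ u ++ b).length = n := hΦ
    rcases hu with h | h | h
    · exact (h2 Fr Sym M a u u b).2 h hΦ1
    · exact (h3 Fr Sym M a u u b).2 h hΦ1
    · exact (h4 Fr Sym M J hJ a u u b).2 h (by rw [hΦ2]; exact hn) hΦ1

end Pool.Agent.LibPeps
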