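import Pool.Agent.LibPeps.DefsQ

set_option autoImplicit false

/-! TASK D: a universal queue automaton has inputs of small size and huge halting times. -/

namespace Pool.Agent.LibPeps
open Pool.Agent.LibQA Turing

theorem d_taskA : ∃ (Γ Λ : Type) (_ : Inhabited Γ) (_ : Fintype Γ) (_ : Inhabited Λ)
    (M : TM0.Machine Γ Λ) (S : Finset Λ) (inp : ℕ → List Γ),
    TM0.Supports M (S : Set Λ) ∧ (∀ n, inp n ≠ []) ∧
    (∀ e : Γ → ℕ, Primrec fun n => (inp n).map e) ∧
    ∀ n, (haltF n).Dom ↔ (TM0.eval M (inp n)).Dom := by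
  obtain ⟨c, hc⟩ := ToPartrec.Code.exists_code (Nat.Partrec'.part_iff₁.2 haltF_partrec)
  let iL : Inhabited PartrecToTM2.Λ' :=
    ⟨PartrecToTM2.trNormal c PartrecToTM2.Cont'.halt⟩
  let M1 := TM2to1.tr PartrecToTM2.tr
  refine ⟨GA, TM1to0.Λ' M1, inferInstance, inferInstance, inferInstance, TM1to0.tr M1,
    TM1to0.trStmts M1 (TM2to1.trSupp PartrecToTM2.tr
      (PartrecToTM2.codeSupp c PartrecToTM2.Cont'.halt)), inp, ?_, ?_, ?_, ?_⟩
  · apply TM1to0.tr_supports
    apply TM2to1.tr_supports
    exact PartrecToTM2.tr_supports c PartrecToTM2.Cont'.halt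
  · intro n
    rw [inp_eq]
    exact List.cons_ne_nil _ _
  · intro e
    simp only [inp_eq, List.map_cons, List.map_map]
    refine Primrec.list_cons.comp (Primrec.const _) ?_
    refine Primrec.list_map (Primrec.list_reverse.comp primrec_bits) ?_
    exact (Primrec.dom_finite (fun b : Bool => e (mainSym false (bsym b)))).comp Primrec.snd
  · intro n
    rw [TM1to0.tr_eval]
    have h3 := TM2to1.tr_eval_dom (M := PartrecToTM2.tr) PartrecToTM2.K'.main
      (PartrecToTM2.trList [n])
    rw [show inp n = TM2to1.trInit PartrecToTM2.K'.main (PartrecToTM2.trList [n]) from rfl]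
    rw [h3]
    have h4 := PartrecToTM2.tr_eval c [n]
    have h5 : (TM2.init PartrecToTM2.K'.main (PartrecToTM2.trList [n]) :
        TM2.Cfg (fun _ => PartrecToTM2.Γ') PartrecToTM2.Λ' (Option PartrecToTM2.Γ')) =
        PartrecToTM2.init c [n] := by
      have h6 : Function.update (fun _ => []) PartrecToTM2.K'.main (PartrecToTM2.trList [n]) =
          PartrecToTM2.K'.elim (PartrecToTM2.trList [n]) [] [] [] := by
        funext k
        cases k <;> rfl
      show (⟨_, _, _⟩ : TM2.Cfg (fun _ => PartrecToTM2.Γ') PartrecToTM2.Λ'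
        (Option PartrecToTM2.Γ')) = ⟨_, _, _⟩
      rw [h6]
      rfl
    change _ ↔ (StateTransition.eval (TM2.step PartrecToTM2.tr)
      (TM2.init PartrecToTM2.K'.main (PartrecToTM2.trList [n]))).Dom
    rw [h5, h4, hc ⟨[n], rfl⟩]
    rfl

theorem d_base0 : ∃ (s k : ℕ) (δ : ℕ → ℕ → Option (ℕ × List ℕ)) (q₀ : ℕ) (ini : ℕ → List ℕ),
    QFinite s k δ ∧ q₀ < s ∧ (∀ n, ini n ≠ [] ∧ ∀ c ∈ ini n, c < k) ∧ Primrec ini ∧
    ∀ n, QHalts δ (q₀, ini n) ↔ (haltF n).Dom := by
  obtain ⟨Γ, Λ, _, _, _, M, S, inp, hS, hne, hP, hU⟩ := d_taskA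
  obtain ⟨s, k, δ, q₀, f, g, h1, h2, h3, h4⟩ := taskB M S hS
  refine ⟨s, k, δ, q₀, fun n => f (inp n).headI :: (inp n).tail.map g, h1, h2, fun n => ⟨by simp,
    ?_⟩, ?_, ?_⟩
  · intro c hc
    rw [List.mem_cons, List.mem_map] at hc
    rcases hc with rfl | ⟨b, _, rfl⟩
    · exact (h3 _).1
    · exact (h3 _).2
  · have e1 : (fun n => f (inp n).headI :: (inp n).tail.map g) =
        fun n => ((inp n).map f).headI :: ((inp n).map g).tail := by
      funext n
      cases h : inp n with
      | nil => exact absurd h (hne n)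
      | cons a l => rfl
    rw [e1]
    exact Primrec.list_cons.comp (Primrec.list_headI.comp (hP f)) (Primrec.list_tail.comp (hP g))
  · intro n
    rw [hU n]
    exact (h4 (inp n) (hne n)).symm

/-- the restriction of a transition function to its finite domain -/
def d_res (s k : ℕ) (δ : ℕ → ℕ → Option (ℕ × List ℕ)) (q a : ℕ) : Option (ℕ × List ℕ) :=
  if q < s ∧ a < k then δ q a else none

theorem d_res_run (s k : ℕ) (δ : ℕ → ℕ → Option (ℕ × List ℕ)) (hf : QFinite s k δ)
    (q₀ : ℕ) (hq : q₀ < s) (w : List ℕ) (hw : ∀ c ∈ w, c < k) (t : ℕ) :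
    QRun (d_res s k δ) (q₀, w) t = QRun δ (q₀, w) t ∧
      ∀ d, QRun δ (q₀, w) t = some d → d.1 < s ∧ ∀ c ∈ d.2, c < k := by
  induction t with
  | zero =>
    refine ⟨rfl, ?_⟩
    intro d hd
    rw [QRun, Option.some.injEq] at hd
    subst hd
    exact ⟨hq, hw⟩
  | succ t ih =>
    obtain ⟨h1, h2⟩ := ih
    rw [QRun, QRun, h1]
    cases h : QRun δ (q₀, w) t with
    | none => exact ⟨rfl, fun d hd => by simp at hd⟩
    | some d =>
      obtain ⟨hd1, hd2⟩ := h2 d h
      obtain ⟨q, l⟩ := d
      cases l with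
      | nil => exact ⟨rfl, fun d hd => by simp [QStep] at hd⟩
      | cons a l =>
        have ha : a < k := hd2 a (by simp)
        have e : d_res s k δ q a = δ q a := if_pos ⟨hd1, ha⟩
        refine ⟨?_, ?_⟩
        · simp only [Option.bind_some, QStep]
          rw [e]
        · intro d hd
          simp only [Option.bind_some, QStep, Option.map_eq_some_iff] at hd
          obtain ⟨r, hr, hd⟩ := hd
          obtain ⟨h3, h4, h5⟩ := hf q a r hd1 ha hr
          subst hd
          refine ⟨h3, ?_⟩
          intro c hc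
          rcases List.mem_append.1 hc with hc | hc
          · exact hd2 c (by simp [hc])
          · exact h5 c hc

theorem d_res_primrec (s k : ℕ) (δ : ℕ → ℕ → Option (ℕ × List ℕ)) :
    Primrec₂ (d_res s k δ) := by
  have h : d_res s k δ = fun q a => if q < s ∧ a < k then
      (((List.range (s * k)).map fun i => δ (i / k) (i % k))[q * k + a]?).getD none else none := by
    funext q a
    unfold d_res
    by_cases hc : q < s ∧ a < k
    · rw [if_pos hc, if_pos hc]
      have hlt : q * k + a < s * k := by
        calc q * k + a < q * k + k := by omega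
          _ = (q + 1) * k := by ring
          _ ≤ s * k := Nat.mul_le_mul_right _ hc.1
      have hk : 0 < k := by omega
      have e1 : (q * k + a) / k = q := by
        rw [Nat.mul_comm, Nat.mul_add_div hk, Nat.div_eq_of_lt hc.2, Nat.add_zero]
      have e2 : (q * k + a) % k = a := by
        rw [Nat.mul_comm, Nat.mul_add_mod, Nat.mod_eq_of_lt hc.2]
      rw [List.getElem?_map, List.getElem?_range hlt]
      simp [e1, e2]
    · rw [if_neg hc, if_neg hc]
  rw [h]
  refine Primrec.ite (PrimrecPred.and ?_ ?_) ?_ (Primrec.const none)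
  · exact Primrec.nat_lt.comp Primrec.fst (Primrec.const s)
  · exact Primrec.nat_lt.comp Primrec.snd (Primrec.const k)
  · refine Primrec.option_getD.comp ?_ (Primrec.const none)
    refine (Primrec.list_getElem? (α := Option (ℕ × List ℕ))).comp (Primrec.const _) ?_
    exact Primrec.nat_add.comp (Primrec.nat_mul.comp Primrec.fst (Primrec.const k)) Primrec.snd

theorem d_step_primrec (δ : ℕ → ℕ → Option (ℕ × List ℕ)) (hδ : Primrec₂ δ) :
    Primrec (QStep δ) := by
  have h : QStep δ = fun c : ℕ × List ℕ =>
      List.casesOn (motive := fun _ => Option (ℕ × List ℕ)) c.2 none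
        fun a w => (δ c.1 a).map fun r => (r.1, w ++ r.2) := by
    funext c
    obtain ⟨q, l⟩ := c
    cases l <;> rfl
  rw [h]
  refine Primrec.list_casesOn (α := ℕ × List ℕ) (β := ℕ) (σ := Option (ℕ × List ℕ))
    (h := fun (c : ℕ × List ℕ) (p : ℕ × List ℕ) => (δ c.1 p.1).map fun r => (r.1, p.2 ++ r.2))
    Primrec.snd (Primrec.const none) ?_
  refine Primrec.option_map ?_ ?_
  · exact hδ.comp (Primrec.fst.comp Primrec.fst) (Primrec.fst.comp Primrec.snd)
  · refine Primrec.pair (Primrec.fst.comp Primrec.snd) ?_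
    exact Primrec.list_append.comp
      (Primrec.snd.comp (Primrec.snd.comp Primrec.fst)) (Primrec.snd.comp Primrec.snd)

theorem d_run_primrec (δ : ℕ → ℕ → Option (ℕ × List ℕ)) (hδ : Primrec₂ δ) :
    Primrec₂ (QRun δ) := by
  have h : QRun δ = fun (c : ℕ × List ℕ) (t : ℕ) =>
      Nat.rec (motive := fun _ => Option (ℕ × List ℕ)) (some c) (fun _ x => x.bind (QStep δ)) t := by
    funext c t
    induction t with
    | zero => rfl
    | succ t ih => rw [QRun, ih]
  rw [h]
  refine Primrec.nat_rec (f := fun c : ℕ × List ℕ => some c)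
    (g := fun (_ : ℕ × List ℕ) (p : ℕ × Option (ℕ × List ℕ)) => p.2.bind (QStep δ)) ?_ ?_
  · exact Primrec.option_some
  · exact Primrec.option_bind (Primrec.snd.comp Primrec.snd)
      ((d_step_primrec δ hδ).comp Primrec.snd)

theorem d_run_mono (δ : ℕ → ℕ → Option (ℕ × List ℕ)) (c : ℕ × List ℕ) (t u : ℕ) (h : t ≤ u)
    (hu : QRun δ c u ≠ none) : QRun δ c t ≠ none := by
  induction u, h using Nat.le_induction with
  | base => exact hu
  | succ u _ ih =>
    apply ih
    intro h
    apply hu
    rw [QRun, h]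
    rfl

theorem tD : StD := by
  obtain ⟨s, k, δ, q₀, ini, h1, h2, h3, h4, h5⟩ := d_base0
  have hr := fun n => d_res_run s k δ h1 q₀ h2 (ini n) (h3 n).2
  refine ⟨s, k, d_res s k δ, q₀, ?_, h2, ?_⟩
  · intro q a r hq ha hr
    unfold d_res at hr
    rw [if_pos ⟨hq, ha⟩] at hr
    exact h1 q a r hq ha hr
  intro a b g hg
  have hδ : Primrec₂ (d_res s k δ) := d_res_primrec s k δ
  -- the codes
  let e : Nat.Partrec.Code → ℕ → ℕ := fun c n => Encodable.encode (Nat.Partrec.Code.curry c n)
  have he : Computable₂ e :=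
    (Primrec.encode.comp₂ Nat.Partrec.Code.primrec₂_curry).to_comp
  let tm : Nat.Partrec.Code → ℕ → ℕ := fun c n => a + b * (ini (e c n)).length + 1
  have htm : Computable₂ tm := by
    have h6 : Computable fun m : ℕ => a + b * (ini m).length + 1 := by
      refine Primrec.to_comp ?_
      refine Primrec.nat_add.comp (Primrec.nat_add.comp (Primrec.const a) ?_) (Primrec.const 1)
      exact Primrec.nat_mul.comp (Primrec.const b) (Primrec.list_length.comp h4)
    exact h6.comp₂ he
  let S : Nat.Partrec.Code → ℕ → ℕ := fun c n =>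
    Nat.rec (motive := fun _ => ℕ) (tm c 0) (fun i x => x + tm c (i + 1)) n
  have hS : Computable₂ S := by
    refine Computable.nat_rec (f := fun p : Nat.Partrec.Code × ℕ => p.2)
      (g := fun p => tm p.1 0) (h := fun p q => q.2 + tm p.1 (q.1 + 1)) Computable.snd ?_ ?_
    · exact htm.comp Computable.fst (Computable.const 0)
    · refine Primrec.nat_add.to_comp.comp (Computable.snd.comp Computable.snd) ?_
      exact htm.comp (Computable.fst.comp Computable.fst)
        (Computable.succ.comp (Computable.fst.comp Computable.snd))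
  let Gs : ℕ → ℕ := fun m => Nat.rec (motive := fun _ => ℕ) 0 (fun D x => x + g D) m
  have hGs : Computable Gs := by
    refine Computable.nat_rec (f := fun p : ℕ => p)
      (g := fun _ => 0) (h := fun _ q => q.2 + g q.1) Computable.id (Computable.const 0) ?_
    exact Primrec.nat_add.to_comp.comp (Computable.snd.comp Computable.snd)
      (hg.comp (Computable.fst.comp Computable.snd))
  have hGs1 : ∀ m D, D < m → g D ≤ Gs m := by
    intro m
    induction m with
    | zero => intro D h; omega
    | succ m ih =>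
      intro D h
      have e1 : Gs (m + 1) = Gs m + g m := rfl
      rw [e1]
      rcases Nat.lt_succ_iff_lt_or_eq.1 h with h | h
      · have := ih D h
        omega
      · rw [h]; omega
  let G : Nat.Partrec.Code → ℕ → ℕ := fun c n => Gs (S c (n + 1) + 1)
  have hG : Computable₂ G := by
    have h6 : Computable fun p : Nat.Partrec.Code × ℕ => S p.1 (p.2 + 1) :=
      hS.comp Computable.fst (Computable.succ.comp Computable.snd)
    exact hGs.comp (Computable.succ.comp h6)
  let B : Nat.Partrec.Code → ℕ → Bool := fun c x =>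
    (QRun (d_res s k δ) (q₀, ini (e c x.unpair.1)) (G c x.unpair.1)).isSome
  have hB : Computable₂ B := by
    have hx : Computable fun p : Nat.Partrec.Code × ℕ => p.2.unpair.1 :=
      Computable.fst.comp (Computable.unpair.comp Computable.snd)
    refine (Primrec.option_isSome (α := ℕ × List ℕ)).to_comp.comp ?_
    refine (d_run_primrec _ hδ).to_comp.comp ?_ ?_
    · refine Computable.pair (Computable.const q₀) ?_
      exact h4.to_comp.comp (he.comp Computable.fst hx)
    · exact hG.comp Computable.fst hx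
  let f : Nat.Partrec.Code → ℕ →. ℕ := fun c x => cond (B c x) (Part.some 0) Part.none
  have hf : Partrec₂ f := Partrec.cond hB (Computable.const 0) Partrec.none
  obtain ⟨c, hc⟩ := Nat.Partrec.Code.fixed_point₂ hf
  have hev : ∀ n, haltF (e c n) = cond (B c (Nat.pair n 0)) (Part.some 0) Part.none := by
    intro n
    show Nat.Partrec.Code.eval (Denumerable.ofNat Nat.Partrec.Code
      (Encodable.encode (Nat.Partrec.Code.curry c n))) 0 = _
    rw [Denumerable.ofNat_encode, Nat.Partrec.Code.eval_curry, hc]
  have hBt : ∀ n, B c (Nat.pair n 0) = true := by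
    intro n
    by_contra hb
    rw [Bool.not_eq_true] at hb
    have h6 : ¬ (haltF (e c n)).Dom := by
      rw [hev, hb]
      exact fun h => h
    apply h6
    rw [← h5]
    refine ⟨G c n, ?_⟩
    have h7 : (QRun (d_res s k δ) (q₀, ini (e c n)) (G c n)).isSome = false := by
      have h8 : B c (Nat.pair n 0) =
        (QRun (d_res s k δ) (q₀, ini (e c n)) (G c n)).isSome := by
        show (QRun (d_res s k δ) (q₀, ini (e c (Nat.pair n 0).unpair.1))
          (G c (Nat.pair n 0).unpair.1)).isSome = _
        rw [Nat.unpair_pair]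
      rw [← h8, hb]
    rw [(hr (e c n) (G c n)).1] at h7
    simpa using h7
  have hS1 : ∀ n, S c (n + 1) = S c n + tm c (n + 1) := fun n => rfl
  have htm1 : ∀ n, 1 ≤ tm c n := fun n => Nat.le_add_left _ _
  have hS2 : ∀ n, n ≤ S c n := by
    intro n
    induction n with
    | zero => exact Nat.zero_le _
    | succ n ih =>
      have := hS1 n
      have := htm1 (n + 1)
      omega
  have hS3 : ∀ n, tm c n ≤ S c n := by
    intro n
    cases n with
    | zero => exact le_rfl
    | succ n =>
      have := hS1 n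
      omega
  refine ⟨S c 0, fun D hD => ?_⟩
  -- the largest n with S c n ≤ D
  have hex : ∃ n, D < S c (n + 1) := ⟨D, by
    have := hS2 (D + 1)
    omega⟩
  classical
  let n := Nat.find hex
  have hn1 : D < S c (n + 1) := Nat.find_spec hex
  have hn2 : S c n ≤ D := by
    cases hn : n with
    | zero => exact hD
    | succ m =>
      have := Nat.find_min hex (m := m) (by
        show m < n
        omega)
      omega
  have hdom : (haltF (e c n)).Dom := by
    rw [hev, hBt]
    trivial
  refine ⟨ini (e c n), (h3 _).1, (h3 _).2, ?_, ?_, ?_⟩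
  · have := hS3 n
    have h8 : tm c n = a + b * (ini (e c n)).length + 1 := rfl
    omega
  · apply d_run_mono _ _ _ (G c n)
    · exact hGs1 (S c (n + 1) + 1) D (by omega)
    · intro h9
      have h8 : B c (Nat.pair n 0) =
        (QRun (d_res s k δ) (q₀, ini (e c n)) (G c n)).isSome := by
        show (QRun (d_res s k δ) (q₀, ini (e c (Nat.pair n 0).unpair.1))
          (G c (Nat.pair n 0).unpair.1)).isSome = _
        rw [Nat.unpair_pair]
      rw [h9, hBt n] at h8
      simp at h8
  · obtain ⟨t, ht⟩ := (h5 _).2 hdom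
    exact ⟨t, by rw [(hr (e c n) t).1, ht]⟩

end Pool.Agent.LibPeps
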