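import Mathlib

set_option autoImplicit false

/-!
Projected entangled pair states on the square lattice and the injectivity index.
-/

namespace Pool.Agent.LibPeps

/-- A PEPS tensor with physical dimension d and bond dimension D; the entry A s l r u w carries
the physical index s and the left, right, up and down virtual indices l, r, u, w. -/
abbrev Tensor (d D : ℕ) := Fin d → Fin D → Fin D → Fin D → Fin D → ℂ

/-- Basis states of the 4n open virtual indices of an n x n square: left, right, up, down. -/
abbrev Bdry (n D : ℕ) :=
  (Fin n → Fin D) × (Fin n → Fin D) × (Fin n → Fin D) × (Fin n → Fin D)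

/-- The region map of the n x n square: all virtual indices on the inner edges are contracted.
Row i carries the horizontal edges h i 0, ..., h i n, column j the vertical edges v 0 j, ..., v n j. -/
noncomputable def regionMap {d D : ℕ} (A : Tensor d D) (n : ℕ) :
    (Bdry n D → ℂ) →ₗ[ℂ] ((Fin n → Fin n → Fin d) → ℂ) where
  toFun b := fun s => ∑ h : Fin n → Fin (n + 1) → Fin D, ∑ v : Fin (n + 1) → Fin n → Fin D,
    b (fun i => h i 0, fun i => h i (Fin.last n), fun j => v 0 j, fun j => v (Fin.last n) j) *
      ∏ i, ∏ j, A (s i j) (h i j.castSucc) (h i j.succ) (v i.castSucc j) (v i.succ j)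
  map_add' b c := by
    funext s
    simp only [Pi.add_apply, add_mul, Finset.sum_add_distrib]
  map_smul' t b := by
    funext s
    simp only [Pi.smul_apply, smul_eq_mul, RingHom.id_apply, Finset.mul_sum, mul_assoc]

/-- A is normal: some n x n square (n at least 1) is injective. -/
def IsNormal {d D : ℕ} (A : Tensor d D) : Prop :=
  ∃ n : ℕ, 1 ≤ n ∧ Function.Injective (regionMap A n)

/-- The injectivity index: the least n at least 1 such that the n x n square is injective. -/
noncomputable def injIndex {d D : ℕ} (A : Tensor d D) : ℕ :=
  sInf {n : ℕ | 1 ≤ n ∧ Function.Injective (regionMap A n)}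

end Pool.Agent.LibPeps
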