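import Mathlib
import Pool.Agent.LibPeps.Tensor

set_option autoImplicit false

/-!
Definitions for the injectivity index of normal PEPS (MP_a2a8ea_mp).
-/

namespace Pool.Agent.LibPeps

/-! ### Rational expressions without the empty word -/

/-- `sc r s` is r* s, `big n f` the union of the f i. -/
inductive Rex (α : Type) : Type
  | atom (P : α → Prop) : Rex α
  | alt (r s : Rex α) : Rex α
  | cat (r s : Rex α) : Rex α
  | sc (r s : Rex α) : Rex α
  | big (n : ℕ) (f : Fin n → Rex α) : Rex α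

/-- The language. -/
def Rex.lang {α : Type} : Rex α → List α → Prop
  | .atom P, w => ∃ x, P x ∧ w = [x]
  | .alt r s, w => r.lang w ∨ s.lang w
  | .cat r s, w => ∃ u v, r.lang u ∧ s.lang v ∧ w = u ++ v
  | .sc r s, w => ∃ (us : List (List α)) (v : List α), (∀ u ∈ us, r.lang u) ∧ s.lang v ∧
      w = us.flatten ++ v
  | .big _ f, w => ∃ i, (f i).lang w

/-- The size (number of states of an automaton). -/
def Rex.sz {α : Type} : Rex α → ℕ
  | .atom _ => 2
  | .alt r s => r.sz + s.sz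
  | .cat r s => r.sz + s.sz
  | .sc r s => r.sz + s.sz
  | .big _ f => ∑ i, (f i).sz

/-- Paths of an automaton with transition relation T. -/
def Path {α Q : Type} (T : Q → α → Q → Prop) : Q → List α → Q → Prop
  | p, [], q => p = q
  | p, x :: w, q => ∃ p', T p x p' ∧ Path T p' w q

section system
variable {L : Type}

/-- u and v are identified. -/
def Step (r : Rex (L × Option L)) (u v : List L) : Prop :=
  ∃ pl, r.lang pl ∧ pl.map Prod.fst = u ∧ pl.map Prod.snd = v.map some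

/-- u is killed. -/
def Kill (r : Rex (L × Option L)) (u : List L) : Prop :=
  ∃ pl, r.lang pl ∧ pl.map Prod.fst = u ∧ none ∈ pl.map Prod.snd

/-- Words which become zero. -/
inductive Dead (St : List L → List L → Prop) (Kl : List L → Prop) : List L → Prop
  | kill (a u b : List L) : Kl u → Dead St Kl (a ++ u ++ b)
  | step (a u v b : List L) : St u v → Dead St Kl (a ++ v ++ b) → Dead St Kl (a ++ u ++ b)
  | step' (a u v b : List L) : St u v → Dead St Kl (a ++ u ++ b) → Dead St Kl (a ++ v ++ b)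

/-- A set of words closed under the identifications and without killed factors. -/
def Inv (St : List L → List L → Prop) (Kl : List L → Prop) (Φ : List L → Prop) : Prop :=
  (∀ a u v b, St u v → (Φ (a ++ u ++ b) ↔ Φ (a ++ v ++ b))) ∧
    ∀ a u b, Kl u → ¬ Φ (a ++ u ++ b)

end system

/-! ### The machines -/

/-- A writing machine.  A configuration is (c, φ, u): the consumed cells c, the front cell φ,
the cells u in front of it.  `push φ = some (b, φ')`: append b at the end, φ becomes φ'.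
`push φ = none`: the front moves to the next cell, with letter b, and becomes `enter φ b`. -/
structure Mach (Fr Sym : Type) where
  push : Fr → Option (Sym × Fr)
  enter : Fr → Sym → Fr
  ini : Fr
  halt : Fr → Prop
  push_inj : ∀ φ ψ χ b b', push φ = some (b, χ) → push ψ = some (b', χ) → φ = ψ
  enter_push : ∀ φ ψ b b', push φ ≠ some (b, enter ψ b')
  enter_inj : ∀ φ b b', enter φ b = enter φ b' → b = b'
  ini_push : ∀ φ b, push φ ≠ some (b, ini)
  ini_enter : ∀ φ b, enter φ b ≠ ini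

variable {Fr Sym : Type}

/-- φ is the result of a push -/
def Mach.Pushed (M : Mach Fr Sym) (φ : Fr) : Prop := ∃ ψ b, M.push ψ = some (b, φ)

/-- One step. -/
def Mach.nxt (M : Mach Fr Sym) : List Fr × Fr × List Sym → Option (List Fr × Fr × List Sym)
  | (c, φ, u) =>
    match M.push φ with
    | some (b, φ') => some (c, φ', u ++ [b])
    | none =>
      match u with
      | [] => none
      | b :: u' => some (c ++ [φ], M.enter φ b, u')

/-- The run. -/
def Mach.run (M : Mach Fr Sym) : ℕ → Option (List Fr × Fr × List Sym)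
  | 0 => some ([], M.ini, [])
  | t + 1 => (M.run t).bind M.nxt

/-! ### The letters -/

/-- Skeleton letters: cells o0, o1 and separators x0, x1. -/
inductive Sk
  | o0 | o1 | x0 | x1
  deriving DecidableEq, Fintype

/-- Content of a cell of the machine tape. -/
inductive Con (Fr Sym : Type)
  | nil : Con Fr Sym
  | unc (b : Sym) : Con Fr Sym
  | cons (φ : Fr) : Con Fr Sym
  | fr (φ : Fr) : Con Fr Sym

namespace Con
def IsUnc (c : Con Fr Sym) : Prop := ∃ b, c = .unc b
def IsCons (c : Con Fr Sym) : Prop := ∃ φ, c = .cons φ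
def IsFr (c : Con Fr Sym) : Prop := ∃ φ, c = .fr φ
end Con

/-- A letter: skeleton, two mark bits, content. -/
structure Ltr (Fr Sym : Type) where
  sk : Sk
  a : Bool
  k : Bool
  c : Con Fr Sym

namespace Ltr
/-- set the a-mark -/
def setA (x : Ltr Fr Sym) (b : Bool) : Ltr Fr Sym := { x with a := b }
/-- set the k-mark -/
def setK (x : Ltr Fr Sym) (b : Bool) : Ltr Fr Sym := { x with k := b }
/-- set the content -/
def setC (x : Ltr Fr Sym) (c : Con Fr Sym) : Ltr Fr Sym := { x with c := c }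
/-- cell o0 -/
def O0 (x : Ltr Fr Sym) : Prop := x.sk = .o0
/-- cell o1 -/
def O1 (x : Ltr Fr Sym) : Prop := x.sk = .o1
/-- separator x0, not marked -/
def X0 (x : Ltr Fr Sym) : Prop := x.sk = .x0 ∧ x.a = false
/-- separator x1, any mark -/
def X1 (x : Ltr Fr Sym) : Prop := x.sk = .x1
/-- separator -/
def Sep (x : Ltr Fr Sym) : Prop := x.sk = .x0 ∨ x.sk = .x1
/-- cell -/
def Cell (x : Ltr Fr Sym) : Prop := x.sk = .o0 ∨ x.sk = .o1
/-- not marked -/
def Pl (x : Ltr Fr Sym) : Prop := x.a = false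
/-- the mark L -/
def mL (x : Ltr Fr Sym) : Prop := x.sk = .o0 ∧ x.a = true
/-- the mark M -/
def mM (x : Ltr Fr Sym) : Prop := x.sk = .x1 ∧ x.a = true
/-- the mark I -/
def mI (x : Ltr Fr Sym) : Prop := x.sk = .o1 ∧ x.a = true
end Ltr

open Ltr

/-- The tokens Z = (L C M)* I. -/
inductive IsZ : List (Ltr Fr Sym) → Prop
  | one (x : Ltr Fr Sym) : mI x → IsZ [x]
  | ext (y : Ltr Fr Sym) (C : List (Ltr Fr Sym)) (m : Ltr Fr Sym) (z : List (Ltr Fr Sym)) :
      mL y → (∀ x ∈ C, Pl x) → mM m → IsZ z → IsZ (y :: (C ++ m :: z))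

/-- A list of pairs (separator, word) as a word. -/
def flat (l : List (Ltr Fr Sym × List (Ltr Fr Sym))) : List (Ltr Fr Sym) :=
  (l.map fun p => p.1 :: p.2).flatten

/-- (x0 Z)* with a condition on the x0. -/
def Spn (P : Ltr Fr Sym → Prop) (l : List (Ltr Fr Sym × List (Ltr Fr Sym))) : Prop :=
  ∀ p ∈ l, X0 p.1 ∧ P p.1 ∧ IsZ p.2

/-- A list of chain elements y C m as a word. -/
def cflat (l : List (Ltr Fr Sym × List (Ltr Fr Sym) × Ltr Fr Sym)) : List (Ltr Fr Sym) :=
  (l.map fun e => e.1 :: (e.2.1 ++ [e.2.2])).flatten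

/-- The chain element L C M whose k-bit is b. -/
def CE (b : Bool) (e : Ltr Fr Sym × List (Ltr Fr Sym) × Ltr Fr Sym) : Prop :=
  mL e.1 ∧ e.1.k = b ∧ (∀ x ∈ e.2.1, Pl x) ∧ mM e.2.2

/-- The left side up to the innermost particle (occupied; emptied). -/
inductive InL : List (Ltr Fr Sym) → List (Ltr Fr Sym) → Prop
  | cell (o : Ltr Fr Sym) : O1 o → o.k = true → InL [o] [o.setK false]
  | chain (e : Ltr Fr Sym × List (Ltr Fr Sym) × Ltr Fr Sym)
      (es : List (Ltr Fr Sym × List (Ltr Fr Sym) × Ltr Fr Sym)) (o : Ltr Fr Sym) :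
      CE true e → (∀ e' ∈ es, CE false e') → O1 o → o.k = false →
      InL (cflat (e :: es) ++ [o]) (cflat ((e.1.setK false, e.2) :: es) ++ [o])

/-! #### layer A -/

inductive RuleA : List (Ltr Fr Sym) → List (Ltr Fr Sym) → Prop
  | a0 (x : Ltr Fr Sym) : O1 x → Pl x → RuleA [x] [x.setA true]
  | a1 (y : Ltr Fr Sym) (l : List (Ltr Fr Sym × List (Ltr Fr Sym))) (m : Ltr Fr Sym) :
      O0 y → Pl y → Spn (fun _ => True) l → X1 m → Pl m →
      RuleA (y :: (flat l ++ [m])) (y.setA true :: (flat l ++ [m.setA true]))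

inductive KillA : List (Ltr Fr Sym) → Prop
  | a1 (y : Ltr Fr Sym) (l : List (Ltr Fr Sym × List (Ltr Fr Sym))) (m : Ltr Fr Sym) :
      mL y → Spn (fun _ => True) l → X1 m → Pl m → KillA (y :: (flat l ++ [m]))
  | a2 (y : Ltr Fr Sym) (l : List (Ltr Fr Sym × List (Ltr Fr Sym))) (m : Ltr Fr Sym) :
      O0 y → Pl y → Spn (fun _ => True) l → mM m → KillA (y :: (flat l ++ [m]))
  | a3 (x : Ltr Fr Sym) : x.sk = .x0 → x.a = true → KillA [x]
  | s1 (x y : Ltr Fr Sym) : Cell x → Cell y → KillA [x, y]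
  | s2 (x y : Ltr Fr Sym) : Sep x → Sep y → KillA [x, y]
  | s3 (x s y : Ltr Fr Sym) : O0 x → Sep s → O0 y → KillA [x, s, y]
  | s4 (x s y : Ltr Fr Sym) : O1 x → Sep s → O1 y → KillA [x, s, y]

/-! #### layer K -/

inductive RuleK : List (Ltr Fr Sym) → List (Ltr Fr Sym) → Prop
  | k0 (o s y x : Ltr Fr Sym) : O1 o → o.k = false → Sep s → O0 y → Sep x → x.k = false →
      RuleK [o, s, y, x] [o.setK true, s, y, x.setK true]
  | k1 (e : Ltr Fr Sym × List (Ltr Fr Sym) × Ltr Fr Sym) (u u' : List (Ltr Fr Sym))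
      (s y : Ltr Fr Sym) (l : List (Ltr Fr Sym × List (Ltr Fr Sym))) (x : Ltr Fr Sym)
      (z : List (Ltr Fr Sym)) (x' : Ltr Fr Sym) :
      CE false e → InL u u' → Sep s → O0 y → Spn (fun x => x.k = false) l →
      X0 x → x.k = true → IsZ z → Sep x' → x'.k = false →
      RuleK (cflat [e] ++ (u ++ s :: y :: (flat l ++ x :: (z ++ [x']))))
        (cflat [(e.1.setK true, e.2)] ++
          (u' ++ s :: y :: (flat l ++ x.setK false :: (z ++ [x'.setK true]))))

inductive KillK : List (Ltr Fr Sym) → Prop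
  | k0 (o s y x : Ltr Fr Sym) : O1 o → Sep s → O0 y → Sep x → o.k ≠ x.k → KillK [o, s, y, x]
  | kb (b : Bool) (e : Ltr Fr Sym × List (Ltr Fr Sym) × Ltr Fr Sym) (u u' : List (Ltr Fr Sym))
      (s y : Ltr Fr Sym) (l : List (Ltr Fr Sym × List (Ltr Fr Sym))) (x : Ltr Fr Sym)
      (z : List (Ltr Fr Sym)) (x' : Ltr Fr Sym) :
      CE b e → InL u u' → Sep s → O0 y → Spn (fun x => x.k = false) l →
      X0 x → x.k = true → IsZ z → Sep x' → x'.k ≠ b →
      KillK (cflat [e] ++ (u ++ s :: y :: (flat l ++ x :: (z ++ [x']))))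
  | k2 (w : Ltr Fr Sym) (u u' : List (Ltr Fr Sym)) (s y : Ltr Fr Sym)
      (l : List (Ltr Fr Sym × List (Ltr Fr Sym))) (x : Ltr Fr Sym) :
      X0 w → InL u u' → Sep s → O0 y → Spn (fun x => x.k = false) l → X0 x → x.k = true →
      KillK (w :: (u ++ s :: y :: (flat l ++ [x])))
  | k3 (w : Ltr Fr Sym) (u u' : List (Ltr Fr Sym)) (s y : Ltr Fr Sym)
      (l : List (Ltr Fr Sym × List (Ltr Fr Sym))) (x : Ltr Fr Sym) :
      X1 w → InL u u' → Sep s → O0 y → Spn (fun x => x.k = false) l → X1 x → x.k = true →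
      KillK (w :: (u ++ s :: y :: (flat l ++ [x])))

/-! #### layer C -/

inductive RuleC (M : Mach Fr Sym) : List (Ltr Fr Sym) → List (Ltr Fr Sym) → Prop
  | c0 (y x : Ltr Fr Sym) : O0 y → Sep x → x.c = .nil → RuleC M [y, x] [y, x.setC (.fr M.ini)]
  | push1 (φ φ' : Fr) (b : Sym) (x : Ltr Fr Sym) (z : List (Ltr Fr Sym))
      (l : List (Ltr Fr Sym × List (Ltr Fr Sym))) (x' : Ltr Fr Sym) :
      M.push φ = some (b, φ') → X0 x → x.c = .fr φ → IsZ z → Spn (fun x => x.c.IsUnc) l →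
      X1 x' → x'.c = .nil →
      RuleC M (x :: (z ++ (flat l ++ [x'])))
        (x.setC (.fr φ') :: (z ++ (flat l ++ [x'.setC (.unc b)])))
  | push2 (φ φ' : Fr) (b : Sym) (x : Ltr Fr Sym) (z : List (Ltr Fr Sym))
      (l : List (Ltr Fr Sym × List (Ltr Fr Sym))) (x' : Ltr Fr Sym) (z' : List (Ltr Fr Sym))
      (s : Ltr Fr Sym) :
      M.push φ = some (b, φ') → X0 x → x.c = .fr φ → IsZ z → Spn (fun x => x.c.IsUnc) l →
      X0 x' → x'.c = .nil → IsZ z' → Sep s → s.c = .nil →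
      RuleC M (x :: (z ++ (flat l ++ x' :: (z' ++ [s]))))
        (x.setC (.fr φ') :: (z ++ (flat l ++ x'.setC (.unc b) :: (z' ++ [s]))))
  | move (φ : Fr) (b : Sym) (x : Ltr Fr Sym) (z : List (Ltr Fr Sym)) (x' : Ltr Fr Sym) :
      M.push φ = none → X0 x → x.c = .fr φ → IsZ z → Sep x' → x'.c = .unc b →
      RuleC M (x :: (z ++ [x'])) (x.setC (.cons φ) :: (z ++ [x'.setC (.fr (M.enter φ b))]))

/-- Forbidden neighbours on a spine. -/
inductive BadPair (M : Mach Fr Sym) : Con Fr Sym → Con Fr Sym → Prop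
  | p1 (c : Con Fr Sym) : c ≠ .nil → BadPair M .nil c
  | p2 (c c' : Con Fr Sym) : c.IsUnc ∨ c.IsFr → c'.IsCons ∨ c'.IsFr → BadPair M c c'
  | p3 (c c' : Con Fr Sym) : c.IsCons → c'.IsUnc ∨ c' = .nil → BadPair M c c'
  | p4 (ψ φ : Fr) : ¬ M.Pushed φ → ¬ (M.push ψ = none ∧ ∃ b, φ = M.enter ψ b) →
      BadPair M (.cons ψ) (.fr φ)
  | p5 (b : Sym) : BadPair M (.fr M.ini) (.unc b)

inductive KillC (M : Mach Fr Sym) : List (Ltr Fr Sym) → Prop
  | c1 (y x : Ltr Fr Sym) : O0 y → Sep x → x.c.IsUnc → KillC M [y, x]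
  | c2 (x : Ltr Fr Sym) (z : List (Ltr Fr Sym)) (x' : Ltr Fr Sym) :
      X0 x → IsZ z → Sep x' → BadPair M x.c x'.c → KillC M (x :: (z ++ [x']))
  | c3 (x : Ltr Fr Sym) : X1 x → x.c.IsCons → KillC M [x]
  | c4 (y x : Ltr Fr Sym) (φ : Fr) : O0 y → Sep x → x.c = .fr φ → ¬ M.Pushed φ → φ ≠ M.ini →
      KillC M [y, x]
  | c5 (φ ψ : Fr) (b b' : Sym) (x : Ltr Fr Sym) (z : List (Ltr Fr Sym))
      (l : List (Ltr Fr Sym × List (Ltr Fr Sym))) (x' : Ltr Fr Sym) :
      M.push ψ = some (b, φ) → b' ≠ b → X0 x → x.c = .fr φ → IsZ z →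
      Spn (fun x => x.c.IsUnc) l → X1 x' → x'.c = .unc b' →
      KillC M (x :: (z ++ (flat l ++ [x'])))
  | c6 (φ ψ : Fr) (b b' : Sym) (x : Ltr Fr Sym) (z : List (Ltr Fr Sym))
      (l : List (Ltr Fr Sym × List (Ltr Fr Sym))) (x' : Ltr Fr Sym) (z' : List (Ltr Fr Sym))
      (s : Ltr Fr Sym) :
      M.push ψ = some (b, φ) → b' ≠ b → X0 x → x.c = .fr φ → IsZ z →
      Spn (fun x => x.c.IsUnc) l → X0 x' → x'.c = .unc b' → IsZ z' → Sep s → s.c = .nil →
      KillC M (x :: (z ++ (flat l ++ x' :: (z' ++ [s]))))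
  | c7 (φ : Fr) (x : Ltr Fr Sym) : X1 x → x.c = .fr φ → M.Pushed φ → KillC M [x]
  | c8 (φ : Fr) (x : Ltr Fr Sym) (z : List (Ltr Fr Sym)) (s : Ltr Fr Sym) :
      X0 x → x.c = .fr φ → M.Pushed φ → IsZ z → Sep s → s.c = .nil → KillC M (x :: (z ++ [s]))
  | c9 (φ : Fr) (x : Ltr Fr Sym) : Sep x → x.c = .fr φ → M.halt φ → KillC M [x]

/-- The identifications. -/
def Rul (M : Mach Fr Sym) (u v : List (Ltr Fr Sym)) : Prop := RuleA u v ∨ RuleK u v ∨ RuleC M u v

/-- The kills. -/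
def Kls (M : Mach Fr Sym) (u : List (Ltr Fr Sym)) : Prop := KillA u ∨ KillK u ∨ KillC M u

end Pool.Agent.LibPeps
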