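import Pool.Agent.LibPeps.Defs

set_option autoImplicit false

/-! Part A: contextual equivalence and clean blocks. -/

namespace Pool.Agent.LibPeps
open Ltr
section generic
variable {L : Type} {St : List L → List L → Prop} {Kl : List L → Prop}

/-- Contextual equivalence. -/
def Eqv (St : List L → List L → Prop) (Kl : List L → Prop) (u v : List L) : Prop :=
  ∀ a b, Dead St Kl (a ++ u ++ b) ↔ Dead St Kl (a ++ v ++ b)

/-- Dead in all contexts. -/
def DeadC (St : List L → List L → Prop) (Kl : List L → Prop) (u : List L) : Prop :=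
  ∀ a b, Dead St Kl (a ++ u ++ b)

theorem Dead.ctx {w : List L} (h : Dead St Kl w) (a b : List L) : Dead St Kl (a ++ w ++ b) := by
  induction h with
  | kill a' u b' hk =>
    have e : a ++ (a' ++ u ++ b') ++ b = (a ++ a') ++ u ++ (b' ++ b) := by simp [List.append_assoc]
    rw [e]; exact Dead.kill _ _ _ hk
  | step a' u v b' hs _ ih =>
    have e : a ++ (a' ++ u ++ b') ++ b = (a ++ a') ++ u ++ (b' ++ b) := by simp [List.append_assoc]
    have e2 : a ++ (a' ++ v ++ b') ++ b = (a ++ a') ++ v ++ (b' ++ b) := by simp [List.append_assoc]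
    rw [e]; rw [e2] at ih; exact Dead.step _ _ _ _ hs ih
  | step' a' u v b' hs _ ih =>
    have e : a ++ (a' ++ v ++ b') ++ b = (a ++ a') ++ v ++ (b' ++ b) := by simp [List.append_assoc]
    have e2 : a ++ (a' ++ u ++ b') ++ b = (a ++ a') ++ u ++ (b' ++ b) := by simp [List.append_assoc]
    rw [e]; rw [e2] at ih; exact Dead.step' _ _ _ _ hs ih

theorem DeadC_iff {w : List L} : DeadC St Kl w ↔ Dead St Kl w :=
  ⟨fun h => by simpa using h [] [], fun h a b => h.ctx a b⟩

theorem Eqv.refl (u : List L) : Eqv St Kl u u := fun _ _ => Iff.rfl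
theorem Eqv.symm {u v : List L} (h : Eqv St Kl u v) : Eqv St Kl v u := fun a b => (h a b).symm
theorem Eqv.trans {u v w : List L} (h : Eqv St Kl u v) (h' : Eqv St Kl v w) : Eqv St Kl u w :=
  fun a b => (h a b).trans (h' a b)

theorem Eqv.ctx {u v : List L} (h : Eqv St Kl u v) (p q : List L) :
    Eqv St Kl (p ++ u ++ q) (p ++ v ++ q) := fun a b => by
  have e : ∀ w : List L, a ++ (p ++ w ++ q) ++ b = (a ++ p) ++ w ++ (q ++ b) := by
    intro w; simp [List.append_assoc]
  rw [e, e]; exact h _ _

theorem Eqv.append {u v u' v' : List L} (h : Eqv St Kl u v) (h' : Eqv St Kl u' v') :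
    Eqv St Kl (u ++ u') (v ++ v') := by
  have h1 := h.ctx [] u'
  have h2 := h'.ctx v []
  simp only [List.nil_append, List.append_nil] at h1 h2
  exact h1.trans h2

theorem Eqv.left {u v : List L} (h : Eqv St Kl u v) (p : List L) :
    Eqv St Kl (p ++ u) (p ++ v) := (Eqv.refl p).append h

theorem Eqv.right {u v : List L} (h : Eqv St Kl u v) (q : List L) :
    Eqv St Kl (u ++ q) (v ++ q) := h.append (Eqv.refl q)

theorem Eqv.cons {u v : List L} (h : Eqv St Kl u v) (x : L) :
    Eqv St Kl (x :: u) (x :: v) := h.left [x]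

theorem Eqv.of_rule {u v : List L} (h : St u v) : Eqv St Kl u v := fun a b =>
  ⟨fun hd => Dead.step' a u v b h hd, fun hd => Dead.step a u v b h hd⟩

theorem Eqv.dead {u v : List L} (h : Eqv St Kl u v) : Dead St Kl u ↔ Dead St Kl v := by
  simpa using h [] []

theorem Dead.of_kill {u : List L} (h : Kl u) : Dead St Kl u := by
  simpa using Dead.kill (St := St) [] u [] h

theorem Dead.left {u : List L} (h : Dead St Kl u) (p : List L) : Dead St Kl (p ++ u) := by
  simpa using h.ctx p []

theorem Dead.right {u : List L} (h : Dead St Kl u) (q : List L) : Dead St Kl (u ++ q) := by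
  simpa using h.ctx [] q

theorem Dead.cons {u : List L} (h : Dead St Kl u) (x : L) : Dead St Kl (x :: u) := h.left [x]

end generic

variable {Fr Sym : Type}

/-- `Blk j t α w`: w has the skeleton T_j^t (t = false: type 0, t = true: type 1), its a-marks are
clean, except possibly the first letter for type 0, whose mark is α (for type 1, α = false).
Bits k and contents are arbitrary. -/
inductive Blk : ℕ → Bool → Bool → List (Ltr Fr Sym) → Prop
  | z0 (x : Ltr Fr Sym) : O0 x → Blk 0 false x.a [x]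
  | z1 (x : Ltr Fr Sym) : O1 x → Pl x → Blk 0 true false [x]
  | s0 (j : ℕ) (α : Bool) (u : List (Ltr Fr Sym)) (s : Ltr Fr Sym) (v : List (Ltr Fr Sym)) :
      Blk j false α u → X0 s → Blk j true false v → Blk (j + 1) false α (u ++ s :: v)
  | s1 (j : ℕ) (u : List (Ltr Fr Sym)) (s : Ltr Fr Sym) (v : List (Ltr Fr Sym)) :
      Blk j false false u → X1 s → Pl s → Blk j true false v → Blk (j + 1) true false (u ++ s :: v)

/-- Equivalence for the system of a machine. -/
abbrev EqM (M : Mach Fr Sym) : List (Ltr Fr Sym) → List (Ltr Fr Sym) → Prop :=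
  Eqv (Rul M) (Kls M)

/-- Deadness for the system of a machine. -/
abbrev DeadM (M : Mach Fr Sym) : List (Ltr Fr Sym) → Prop := Dead (Rul M) (Kls M)

/-! ### statements of part A -/

/-- TASK A1.  Tokens. -/
def StA1 : Prop := ∀ (Fr Sym : Type) (M : Mach Fr Sym),
  -- a clean type 1 block is equivalent to a token
  (∀ j (w : List (Ltr Fr Sym)), Blk j true false w → ∃ z, IsZ z ∧ EqM M w z) ∧
  -- the spine of a type 0 block
  (∀ j α (w : List (Ltr Fr Sym)), Blk j false α w → ∃ y l, O0 y ∧ y.a = α ∧ w = y :: flat l ∧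
    l.length = j ∧ ∀ (i : ℕ) (h : i < l.length), X0 l[i].1 ∧ Blk i true false l[i].2) ∧
  -- a chain element may be marked
  (∀ j y (C : List (Ltr Fr Sym)) m, Blk j false false (y :: C) → X1 m → Pl m →
    (∀ x ∈ C, Pl x) ∧ EqM M (y :: (C ++ [m])) (y.setA true :: (C ++ [m.setA true]))) ∧
  -- two blocks of level j and types 0, 1 give a block of level j + 1
  (∀ j α (u : List (Ltr Fr Sym)) s v, Blk j false α u → Sep s → Blk j true false v →
    DeadM M (u ++ s :: v) ∨ ∃ t β w', EqM M (u ++ s :: v) w' ∧ Blk (j + 1) t β w')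

/-- TASK A2.  Neighbouring blocks have different types. -/
def StA2 : Prop := ∀ (Fr Sym : Type) (M : Mach Fr Sym) (j : ℕ) (t α β : Bool)
  (u : List (Ltr Fr Sym)) (s : Ltr Fr Sym) (v : List (Ltr Fr Sym)),
  Blk j t α u → Sep s → Blk j t β v → DeadM M (u ++ s :: v)

/-- TASK A3.  The machine. -/
def StA3 : Prop := ∀ (Fr Sym : Type) (M : Mach Fr Sym) (J : ℕ),
  (∃ t c φ u, M.run t = some (c, φ, u) ∧ M.halt φ ∧ c.length + u.length + 1 ≤ J) →
  ∀ w : List (Ltr Fr Sym), Blk J true false w → DeadM M w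

/-- TASK A4.  All long words. -/
def StA4 : Prop := ∀ (Fr Sym : Type) (M : Mach Fr Sym) (J : ℕ),
  (∃ t c φ u, M.run t = some (c, φ, u) ∧ M.halt φ ∧ c.length + u.length + 1 ≤ J) →
  ∀ w : List (Ltr Fr Sym), 2 ^ (J + 4) ≤ w.length → DeadM M w

end Pool.Agent.LibPeps
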