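import Pool.Agent.LibPeps.Defs

set_option autoImplicit false

/-! Part B: the legitimate words. -/

namespace Pool.Agent.LibPeps
open Ltr

/-- The skeleton letter at position p >= 1. -/
def skp (p : ℕ) : Sk :=
  if p % 4 = 1 then .o0 else if p % 4 = 3 then .o1
  else if (p / 2 ^ (padicValNat 2 p + 1)) % 2 = 0 then .x0 else .x1

variable {Fr Sym : Type}

/-- The letter at position p >= 1 (a default letter out of range). -/
def gp (w : List (Ltr Fr Sym)) (p : ℕ) : Ltr Fr Sym := w.getD (p - 1) ⟨.x0, false, false, .nil⟩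

/-- skeleton and layer A -/
structure LegA (w : List (Ltr Fr Sym)) : Prop where
  sk : ∀ p, 1 ≤ p → p ≤ w.length → (gp w p).sk = skp p
  x0 : ∀ p, 1 ≤ p → (gp w p).sk = .x0 → (gp w p).a = false
  pair : ∀ i r, 1 ≤ i → (gp w (2 ^ (i + 1) * (2 * r + 1) + 1)).a =
    (gp w (2 ^ (i + 1) * (2 * r + 1) + 2 ^ i)).a

/-- layer K: s is the separator, i the position -/
def LegK (w : List (Ltr Fr Sym)) : Prop :=
  ∀ s i, 0 < s → 2 ^ (i + 2) ∣ s → (gp w (s + 1 - 2 ^ (i + 1))).k = (gp w (s + 2 ^ (i + 1))).k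

/-- The content of a spine given by a configuration. -/
def word (x : List Fr × Fr × List Sym) : List (Con Fr Sym) :=
  x.1.map .cons ++ .fr x.2.1 :: x.2.2.map .unc

/-- cs is empty or a configuration of the run -/
def ValidC (M : Mach Fr Sym) (cs : List (Con Fr Sym)) : Prop :=
  cs = [] ∨ ∃ t x, M.run t = some x ∧ cs = word x

/-- layer C: P + 1 is the start cell -/
def LegC (M : Mach Fr Sym) (w : List (Ltr Fr Sym)) : Prop :=
  ∀ P, 4 ∣ P → ∃ cs, ValidC M cs ∧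
    (∀ k, 1 ≤ k → 2 ^ (k + 1) ∣ P → (gp w (P + 2 ^ k)).c = cs.getD (k - 1) .nil) ∧
    (cs = [] ∨ (2 ^ (cs.length + 1) ∣ P ∧ P + 2 ^ cs.length ≤ w.length))

/-- Legitimate words. -/
def Leg (M : Mach Fr Sym) (w : List (Ltr Fr Sym)) : Prop := LegA w ∧ LegK w ∧ LegC M w

/-! ### statements of part B -/

/-- TASK B1.  Alignment. -/
def StB1 : Prop := ∀ (Fr Sym : Type) (w : List (Ltr Fr Sym)), LegA w →
  -- a token starting right after position |a| = 2^m (2r+1), m >= 1, has length 2^m - 1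
  (∀ (a z b : List (Ltr Fr Sym)) m r, w = a ++ z ++ b → IsZ z → a.length = 2 ^ m * (2 * r + 1) → 1 ≤ m →
    z.length + 1 = 2 ^ m) ∧
  -- (x0 Z)^n where the first x0 is at position P + 2^m, m >= 1, 2^(m+1) | P
  (∀ (a : List (Ltr Fr Sym)) l b m P, w = a ++ flat l ++ b → Spn (fun _ => True) l → a.length + 1 = P + 2 ^ m →
    1 ≤ m → 2 ^ (m + 1) ∣ P →
    2 ^ (m + 1 + l.length) ∣ P ∧ (flat l).length + 2 ^ m = 2 ^ (m + l.length)) ∧
  -- x0 at position p: 2^m | p exactly with m >= 1 and p = P + 2^m with 2^(m+2) | P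
  (∀ (a : List (Ltr Fr Sym)) x b, w = a ++ x :: b → X0 x → ∃ P m, 1 ≤ m ∧ a.length + 1 = P + 2 ^ m ∧
    2 ^ (m + 2) ∣ P) ∧
  -- the chain (L C M)^k o1 s: the position of s is divisible by 2^(k+2)
  (∀ (a : List (Ltr Fr Sym)) ch o s b, w = a ++ cflat ch ++ o :: s :: b → (∀ e ∈ ch, mL e.1 ∧ (∀ x ∈ e.2.1, Pl x) ∧
    mM e.2.2) → O1 o → Sep s →
    2 ^ (ch.length + 2) ∣ a.length + (cflat ch).length + 2 ∧
    (cflat ch).length + 2 = 2 ^ (ch.length + 1))

/-- TASK B2.  Layer A. -/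
def StB2 : Prop := ∀ (Fr Sym : Type) (M : Mach Fr Sym) (a u v b : List (Ltr Fr Sym)),
  (RuleA u v → (Leg M (a ++ u ++ b) ↔ Leg M (a ++ v ++ b))) ∧ (KillA u → ¬ Leg M (a ++ u ++ b))

/-- TASK B3.  Layer K. -/
def StB3 : Prop := ∀ (Fr Sym : Type) (M : Mach Fr Sym) (a u v b : List (Ltr Fr Sym)),
  (RuleK u v → (Leg M (a ++ u ++ b) ↔ Leg M (a ++ v ++ b))) ∧ (KillK u → ¬ Leg M (a ++ u ++ b))

/-- TASK B4.  Layer C.  The length of the words is less than 2^(J+1), and no configuration of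
length at most J halts. -/
def StB4 : Prop := ∀ (Fr Sym : Type) (M : Mach Fr Sym) (J : ℕ),
  (∀ t c φ u, M.run t = some (c, φ, u) → c.length + u.length + 1 ≤ J → ¬ M.halt φ) →
  ∀ a u v b : List (Ltr Fr Sym),
  (RuleC M u v → (Leg M (a ++ u ++ b) ↔ Leg M (a ++ v ++ b))) ∧
  (KillC M u → (a ++ u ++ b).length < 2 ^ (J + 1) → ¬ Leg M (a ++ u ++ b))

/-- TASK B5.  Assembly of part B (with the clean word). -/
def StB5 : Prop := ∀ (Fr Sym : Type) (M : Mach Fr Sym) (J : ℕ),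
  (∀ t c φ u, M.run t = some (c, φ, u) → c.length + u.length + 1 ≤ J → ¬ M.halt φ) →
  ∀ n, n < 2 ^ (J + 1) → ∃ Φ : List (Ltr Fr Sym) → Prop, Inv (Rul M) (Kls M) Φ ∧
    ∃ w, w.length = n ∧ Φ w

end Pool.Agent.LibPeps
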