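import Pool.Agent.LibPeps.Defs

set_option autoImplicit false

/-! Part P: from rewriting to PEPS. -/

namespace Pool.Agent.LibPeps

/-- TASK AU.  Automata of rational expressions. -/
def StAU : Prop := ∀ (α : Type) (r : Rex α), ¬ r.lang [] ∧
  ∃ (Q : Type) (_ : Fintype Q) (I F : Q → Prop) (T : Q → α → Q → Prop),
    Fintype.card Q ≤ r.sz ∧ ∀ w, r.lang w ↔ ∃ i f, I i ∧ F f ∧ Path T i w f

section amp
variable {G V E : Type} [Fintype E] [DecidableEq E]

/-- The entry (word w, from e to e') of the product of the generators gs; g s e x e1 is the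
coefficient of the letter x and of the matrix unit (e, e1) in the generator s. -/
def amp (g : G → E → V → E → ℂ) : List G → List V → E → E → ℂ
  | [], [], e, e' => if e = e' then 1 else 0
  | s :: gs, x :: w, e, e' => ∑ e1, g s e x e1 * amp g gs w e1 e'
  | _, _, _, _ => 0

/-- The products of n generators span everything. -/
def Full [Fintype V] (g : G → E → V → E → ℂ) (n : ℕ) : Prop :=
  ∀ β : (Fin n → V) → E → E → ℂ,
    (∀ gs : Fin n → G, ∑ w, ∑ e, ∑ e', β w e e' * amp g (List.ofFn gs) (List.ofFn w) e e' = 0) →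
    ∀ w e e', β w e e' = 0

end amp

/-- g contains z E_{ee'} for some letter z and all e, e' -/
def HasZ {G : Type} {D : ℕ} (g : G → Fin D → Fin D → Fin D → ℂ) : Prop :=
  ∃ z : Fin D, ∀ e e', ∃ s, ∀ e1 x e2, g s e1 x e2 = if e1 = e ∧ x = z ∧ e2 = e' then 1 else 0

/-- TASK G.  The generators of a rational system. -/
def StG : Prop := ∀ (L : Type) [Fintype L] (r : Rex (L × Option L)) (z : L) (D : ℕ),
  r.lang [(z, none)] → Fintype.card L ≤ D → 2 * r.sz + 2 ≤ D →
  ∃ (G : Type) (_ : Fintype G) (g : G → Fin D → Fin D → Fin D → ℂ), HasZ g ∧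
    (∀ n, 1 ≤ n → (∀ w : List L, w.length = n → Dead (Step r) (Kill r) w) → Full g (n + 2)) ∧
    (∀ n, 1 ≤ n → (∃ Φ : List L → Prop, Inv (Step r) (Kill r) Φ ∧ ∃ w, w.length = n ∧ Φ w) →
      ¬ Full g n)

/-- TASK W.  The PEPS of a set of generators. -/
def StW : Prop := ∀ (D : ℕ) (G : Type) [Fintype G] (g : G → Fin D → Fin D → Fin D → ℂ), HasZ g →
  ∃ (d : ℕ) (A : Tensor d D), ∀ n, 1 ≤ n → (Function.Injective (regionMap A n) ↔ Full g n)

end Pool.Agent.LibPeps
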