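import Pool.Agent.LibPeps.Defs
import Pool.Agent.LibQA.Base

set_option autoImplicit false

/-! Part Q: queue automata. -/

namespace Pool.Agent.LibPeps
open Pool.Agent.LibQA

/-- TASK Q.  The writing machine of a queue automaton. -/
def StQ : Prop := ∀ (s k : ℕ) (δ : ℕ → ℕ → Option (ℕ × List ℕ)) (q₀ : ℕ),
  QFinite s k δ → q₀ < s → ∃ m : ℕ, ∀ ini : List ℕ, ini ≠ [] → (∀ c ∈ ini, c < k) →
  ∃ (Fr Sym : Type) (_ : Fintype Fr) (_ : Fintype Sym) (M : Mach Fr Sym),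
    Fintype.card Fr ≤ ini.length + m ∧ Fintype.card Sym ≤ m ∧
    (∀ T, QRun δ (q₀, ini) T ≠ none → ∀ t c φ u, M.run t = some (c, φ, u) →
      c.length + u.length + 1 ≤ T → ¬ M.halt φ) ∧
    (QHalts δ (q₀, ini) → ∃ t c φ u, M.run t = some (c, φ, u) ∧ M.halt φ)

/-- TASK D.  A universal queue automaton has inputs of small size and huge halting times. -/
def StD : Prop := ∃ (s k : ℕ) (δ : ℕ → ℕ → Option (ℕ × List ℕ)) (q₀ : ℕ),
  QFinite s k δ ∧ q₀ < s ∧ ∀ (a b : ℕ) (g : ℕ → ℕ), Computable g →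
    ∃ D₀, ∀ D, D₀ ≤ D → ∃ ini : List ℕ, ini ≠ [] ∧ (∀ c ∈ ini, c < k) ∧
      a + b * ini.length ≤ D ∧ QRun δ (q₀, ini) (g D) ≠ none ∧ QHalts δ (q₀, ini)

end Pool.Agent.LibPeps
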