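import Pool.Agent.LibPeps.Defs

set_option autoImplicit false

/-! Part R: the system as a rational expression. -/

namespace Pool.Agent.LibPeps
open Ltr

section
variable {L : Type}
/-- One letter, unchanged. -/
def same (P : L → Prop) : Rex (L × Option L) := .atom fun p => P p.1 ∧ p.2 = some p.1
/-- One letter, changed. -/
def chg (R : L → L → Prop) : Rex (L × Option L) := .atom fun p => ∃ y, p.2 = some y ∧ R p.1 y
/-- One letter, killed. -/
def kl (P : L → Prop) : Rex (L × Option L) := .atom fun p => P p.1 ∧ p.2 = none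
/-- Finite unions. -/
def alts {α : Type} : List (Rex α) → Rex α
  | [] => .atom fun _ => False
  | r :: rs => .alt r (alts rs)
/-- the union over a finite type -/
noncomputable def bigT {α : Type} (ι : Type) [Fintype ι] (f : ι → Rex α) : Rex α :=
  .big (Fintype.card ι) fun i => f ((Fintype.equivFin ι).symm i)
end

variable {Fr Sym : Type}

abbrev LR (Fr Sym : Type) := Rex (Ltr Fr Sym × Option (Ltr Fr Sym))

/-- L C M -/
def rE : LR Fr Sym := .cat (same mL) (.sc (same Pl) (same mM))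
/-- the tokens Z = (L C M)* I -/
def rZ : LR Fr Sym := .sc rE (same mI)
/-- x0 Z with a condition on x0 -/
def rX (P : Ltr Fr Sym → Prop) : LR Fr Sym := .cat (same fun x => X0 x ∧ P x) rZ

/-! #### layer A -/

def rA0 : LR Fr Sym := chg fun x y => O1 x ∧ Pl x ∧ y = x.setA true
def rA1 : LR Fr Sym := .cat (chg fun x y => O0 x ∧ Pl x ∧ y = x.setA true)
  (.sc (rX fun _ => True) (chg fun x y => X1 x ∧ Pl x ∧ y = x.setA true))
def kA1 : LR Fr Sym := .cat (same mL) (.sc (rX fun _ => True) (kl fun x => X1 x ∧ Pl x))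
def kA2 : LR Fr Sym := .cat (same fun x => O0 x ∧ Pl x) (.sc (rX fun _ => True) (kl mM))
def kA3 : LR Fr Sym := kl fun x => x.sk = .x0 ∧ x.a = true
def kS1 : LR Fr Sym := .cat (same Cell) (kl Cell)
def kS2 : LR Fr Sym := .cat (same Sep) (kl Sep)
def kS3 : LR Fr Sym := .cat (same O0) (.cat (same Sep) (kl O0))
def kS4 : LR Fr Sym := .cat (same O1) (.cat (same Sep) (kl O1))

/-- layer A -/
def sysA : LR Fr Sym := alts [rA0, rA1, kA1, kA2, kA3, kS1, kS2, kS3, kS4]

/-! #### layer K -/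

/-- change the k bit from b to b' on a letter with P -/
def sK (P : Ltr Fr Sym → Prop) (b b' : Bool) : LR Fr Sym :=
  chg fun x y => P x ∧ x.k = b ∧ y = x.setK b'
/-- L C M with a change of the k bit of L -/
def rEk (b b' : Bool) : LR Fr Sym := .cat (sK mL b b') (.sc (same Pl) (same mM))
/-- the innermost particle of the left side, changed from true to b' (all inner ones are empty) -/
def rIn (b' : Bool) : LR Fr Sym :=
  .alt (sK O1 true b') (.cat (rEk true b') (.sc (rEk false false) (same fun x => O1 x ∧ x.k = false)))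
/-- s o0 (x0 Z)* with empty k bits on the x0, then r -/
def rRt (r : LR Fr Sym) : LR Fr Sym :=
  .cat (same Sep) (.cat (same O0) (.sc (rX fun x => x.k = false) r))

def rK0 : LR Fr Sym :=
  .cat (sK O1 false true) (.cat (same Sep) (.cat (same O0) (sK Sep false true)))
def rK1 : LR Fr Sym :=
  .cat (rEk false true) (.cat (rIn false) (rRt (.cat (sK X0 true false)
    (.cat rZ (sK Sep false true)))))
def kK0 (b : Bool) : LR Fr Sym :=
  .cat (same fun x => O1 x ∧ x.k = b) (.cat (same Sep) (.cat (same O0)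
    (kl fun x => Sep x ∧ x.k ≠ b)))
def kKb (b : Bool) : LR Fr Sym :=
  .cat (rEk b b) (.cat (rIn true) (rRt (.cat (same fun x => X0 x ∧ x.k = true)
    (.cat rZ (kl fun x => Sep x ∧ x.k ≠ b)))))
def kK2 : LR Fr Sym :=
  .cat (same X0) (.cat (rIn true) (rRt (kl fun x => X0 x ∧ x.k = true)))
def kK3 : LR Fr Sym :=
  .cat (same X1) (.cat (rIn true) (rRt (kl fun x => X1 x ∧ x.k = true)))

/-- layer K -/
def sysK : LR Fr Sym := alts [rK0, rK1, kK0 true, kK0 false, kKb true, kKb false, kK2, kK3]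

/-! #### layer C -/

/-- change the content from c to c' on a letter with P -/
def sC (P : Ltr Fr Sym → Prop) (c c' : Con Fr Sym) : LR Fr Sym :=
  chg fun x y => P x ∧ x.c = c ∧ y = x.setC c'
/-- the last cell: either x1, or x0 followed by Z and an empty cell; its content changes -/
def rEnd (c c' : Con Fr Sym) : LR Fr Sym :=
  .alt (sC X1 c c') (.cat (sC X0 c c') (.cat rZ (same fun x => Sep x ∧ x.c = .nil)))
/-- the last cell is killed if P -/
def kEnd (P : Con Fr Sym → Prop) : LR Fr Sym :=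
  .alt (kl fun x => X1 x ∧ P x.c) (.cat (same fun x => X0 x ∧ P x.c)
    (.cat rZ (kl fun x => Sep x ∧ x.c = .nil)))

def rC0 (M : Mach Fr Sym) : LR Fr Sym := .cat (same O0) (sC Sep .nil (.fr M.ini))
/-- push or move -/
def rC1 (M : Mach Fr Sym) (φ : Fr) : LR Fr Sym :=
  match M.push φ with
  | some (b, φ') => .cat (sC X0 (.fr φ) (.fr φ')) (.cat rZ (.sc (rX fun x => x.c.IsUnc)
      (rEnd .nil (.unc b))))
  | none => .cat (sC X0 (.fr φ) (.cons φ)) (.cat rZ
      (chg fun x y => Sep x ∧ ∃ b, x.c = .unc b ∧ y = x.setC (.fr (M.enter φ b))))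

def kC1 : LR Fr Sym := .cat (same O0) (kl fun x => Sep x ∧ x.c.IsUnc)
def kC2 : LR Fr Sym := .cat (same fun x => X0 x ∧ x.c = .nil) (.cat rZ
  (kl fun x => Sep x ∧ x.c ≠ .nil))
def kC3 : LR Fr Sym := .cat (same fun x => X0 x ∧ (x.c.IsUnc ∨ x.c.IsFr)) (.cat rZ
  (kl fun x => Sep x ∧ (x.c.IsCons ∨ x.c.IsFr)))
def kC4 : LR Fr Sym := .cat (same fun x => X0 x ∧ x.c.IsCons) (.cat rZ
  (kl fun x => Sep x ∧ (x.c.IsUnc ∨ x.c = .nil)))
def kC5 (M : Mach Fr Sym) (ψ : Fr) : LR Fr Sym :=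
  .cat (same fun x => X0 x ∧ x.c = .cons ψ) (.cat rZ (kl fun x => Sep x ∧ ∃ φ, x.c = .fr φ ∧
    ¬ M.Pushed φ ∧ ¬ (M.push ψ = none ∧ ∃ b, φ = M.enter ψ b)))
def kC6 : LR Fr Sym := kl fun x => X1 x ∧ x.c.IsCons
def kC7 (M : Mach Fr Sym) : LR Fr Sym := .cat (same O0) (kl fun x => Sep x ∧ ∃ φ, x.c = .fr φ ∧
  ¬ M.Pushed φ ∧ φ ≠ M.ini)
def kC8 (M : Mach Fr Sym) : LR Fr Sym := .cat (same fun x => X0 x ∧ x.c = .fr M.ini) (.cat rZ
  (kl fun x => Sep x ∧ x.c.IsUnc))
def kC9 (M : Mach Fr Sym) (b : Sym) : LR Fr Sym :=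
  .cat (same fun x => X0 x ∧ ∃ φ ψ, x.c = .fr φ ∧ M.push ψ = some (b, φ)) (.cat rZ
    (.sc (rX fun x => x.c.IsUnc) (kEnd fun c => ∃ b', c = .unc b' ∧ b' ≠ b)))
def kC10 (M : Mach Fr Sym) : LR Fr Sym := kEnd fun c => ∃ φ, c = .fr φ ∧ M.Pushed φ
def kC11 (M : Mach Fr Sym) : LR Fr Sym := kl fun x => Sep x ∧ ∃ φ, x.c = .fr φ ∧ M.halt φ

variable [Fintype Fr] [Fintype Sym]

/-- layer C -/
noncomputable def sysC (M : Mach Fr Sym) : LR Fr Sym :=
  .alt (bigT Fr (rC1 M)) (.alt (bigT Fr (kC5 M)) (.alt (bigT Sym (kC9 M))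
    (alts [rC0 M, kC1, kC2, kC3, kC4, kC6, kC7 M, kC8 M, kC10 M, kC11 M])))

/-- the whole system -/
noncomputable def sys (M : Mach Fr Sym) : LR Fr Sym := .alt sysA (.alt sysK (sysC M))

/-- TASK R1.  Layers A and K. -/
def StR1 : Prop := ∀ (Fr Sym : Type) (u v : List (Ltr Fr Sym)),
  (Step sysA u v ↔ RuleA u v) ∧ (Kill sysA u ↔ KillA u) ∧
  (Step sysK u v ↔ RuleK u v) ∧ (Kill sysK u ↔ KillK u)

/-- TASK R2.  Layer C and the size. -/
def StR2 : Prop := ∀ (Fr Sym : Type) [Fintype Fr] [Fintype Sym] (M : Mach Fr Sym)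
  (u v : List (Ltr Fr Sym)),
  (Step (sysC M) u v ↔ RuleC M u v) ∧ (Kill (sysC M) u ↔ KillC M u) ∧
  (sys M).sz ≤ 1000 + 100 * Fintype.card Fr + 100 * Fintype.card Sym

end Pool.Agent.LibPeps
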