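import Pool.Agent.LibPeps.DefsA
import Pool.Agent.LibPeps.DefsB
import Pool.Agent.LibPeps.DefsP
import Pool.Agent.LibPeps.SysRex
import Pool.Agent.LibPeps.DefsQ

set_option autoImplicit false

/-! Assembly. -/

namespace Pool.Agent.LibPeps
open Ltr Pool.Agent.LibQA

variable {Fr Sym : Type}

/-- Contents as a sum. -/
def conEquiv : Con Fr Sym ≃ Unit ⊕ Sym ⊕ Fr ⊕ Fr where
  toFun
    | .nil => .inl ()
    | .unc b => .inr (.inl b)
    | .cons φ => .inr (.inr (.inl φ))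
    | .fr φ => .inr (.inr (.inr φ))
  invFun
    | .inl _ => .nil
    | .inr (.inl b) => .unc b
    | .inr (.inr (.inl φ)) => .cons φ
    | .inr (.inr (.inr φ)) => .fr φ
  left_inv := by intro c; cases c <;> rfl
  right_inv := by rintro (_ | _ | _ | _) <;> rfl

/-- Letters as a product. -/
def ltrEquiv : Ltr Fr Sym ≃ Sk × Bool × Bool × (Unit ⊕ Sym ⊕ Fr ⊕ Fr) where
  toFun x := (x.sk, x.a, x.k, conEquiv x.c)
  invFun p := ⟨p.1, p.2.1, p.2.2.1, conEquiv.symm p.2.2.2⟩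
  left_inv := by intro x; simp
  right_inv := by rintro ⟨a, b, c, d⟩; simp

theorem card_sk : Fintype.card Sk = 4 := rfl

theorem inv_of_iff {L : Type} {St St' : List L → List L → Prop} {Kl Kl' : List L → Prop}
    (h : ∀ u v, St u v ↔ St' u v) (h' : ∀ u, Kl u ↔ Kl' u) {Φ : List L → Prop}
    (hI : Inv St' Kl' Φ) : Inv St Kl Φ :=
  ⟨fun a u v b hs => hI.1 a u v b ((h u v).1 hs), fun a u b hk => hI.2 a u b ((h' u).1 hk)⟩

theorem dead_of_iff {L : Type} {St St' : List L → List L → Prop} {Kl Kl' : List L → Prop}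
    (h : ∀ u v, St u v ↔ St' u v) (h' : ∀ u, Kl u ↔ Kl' u) {w : List L}
    (hw : Dead St' Kl' w) : Dead St Kl w := by
  induction hw with
  | kill a u b hk => exact .kill a u b ((h' u).2 hk)
  | step a u v b hs _ ih => exact .step a u v b ((h u v).2 hs) ih
  | step' a u v b hs _ ih => exact .step' a u v b ((h u v).2 hs) ih

theorem step_alt {L : Type} (r s : Rex (L × Option L)) (u v : List L) :
    Step (.alt r s) u v ↔ Step r u v ∨ Step s u v := by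
  constructor
  · rintro ⟨pl, h | h, h1, h2⟩
    · exact .inl ⟨pl, h, h1, h2⟩
    · exact .inr ⟨pl, h, h1, h2⟩
  · rintro (⟨pl, h, h1, h2⟩ | ⟨pl, h, h1, h2⟩)
    · exact ⟨pl, .inl h, h1, h2⟩
    · exact ⟨pl, .inr h, h1, h2⟩

theorem kill_alt {L : Type} (r s : Rex (L × Option L)) (u : List L) :
    Kill (.alt r s) u ↔ Kill r u ∨ Kill s u := by
  constructor
  · rintro ⟨pl, h | h, h1, h2⟩
    · exact .inl ⟨pl, h, h1, h2⟩
    · exact .inr ⟨pl, h, h1, h2⟩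
  · rintro (⟨pl, h, h1, h2⟩ | ⟨pl, h, h1, h2⟩)
    · exact ⟨pl, .inl h, h1, h2⟩
    · exact ⟨pl, .inr h, h1, h2⟩

theorem final (hG : StG) (hW : StW) (hR1 : StR1) (hR2 : StR2) (hA : StA4) (hB : StB5) (hQ : StQ)
    (hD : StD) (g : ℕ → ℕ) (hg : Computable g) :
    ∃ D₀, ∀ D, D₀ ≤ D → ∃ (d : ℕ) (A : Tensor d D), IsNormal A ∧ g D < injIndex A := by
  obtain ⟨s, k, δ, q₀, hδ, hq, hDD⟩ := hD
  obtain ⟨m, hm⟩ := hQ s k δ q₀ hδ hq
  obtain ⟨D₀, hD₀⟩ := hDD (2002 + 400 * m) 200 g hg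
  refine ⟨D₀, fun D hDD₀ => ?_⟩
  obtain ⟨ini, hi1, hi2, hsz, hT, hH⟩ := hD₀ D hDD₀
  obtain ⟨Fr, Sym, iFr, iSym, M, hc1, hc2, hnh, hh⟩ := hm ini hi1 hi2
  have hnh' := hnh (g D) hT
  obtain ⟨t, c, φ, u, hrun, hhalt⟩ := hh hH
  let iL : Fintype (Ltr Fr Sym) := Fintype.ofEquiv _ ltrEquiv.symm
  have hcard : Fintype.card (Ltr Fr Sym) =
      16 * (1 + Fintype.card Sym + 2 * Fintype.card Fr) := by
    rw [Fintype.card_congr (ltrEquiv (Fr := Fr) (Sym := Sym))]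
    simp only [Fintype.card_prod, Fintype.card_sum, card_sk, Fintype.card_bool, Fintype.card_unit]
    ring
  have hszM := (hR2 Fr Sym M [] []).2.2
  have hst : ∀ u v, Step (sys M) u v ↔ Rul M u v := fun u v => by
    unfold sys Rul
    rw [step_alt, step_alt, (hR1 Fr Sym u v).1, (hR1 Fr Sym u v).2.2.1, (hR2 Fr Sym M u v).1]
  have hkl : ∀ u, Kill (sys M) u ↔ Kls M u := fun u => by
    unfold sys Kls
    rw [kill_alt, kill_alt, (hR1 Fr Sym u u).2.1, (hR1 Fr Sym u u).2.2.2, (hR2 Fr Sym M u u).2.1]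
  let z : Ltr Fr Sym := ⟨.x0, true, false, .nil⟩
  have hz : (sys M).lang [(z, none)] := by
    left
    right; right; right; right; left
    exact ⟨(z, none), ⟨⟨rfl, rfl⟩, rfl⟩, rfl⟩
  obtain ⟨G, iG, gen, hZ, hfull, hnfull⟩ := hG (Ltr Fr Sym) (sys M) z D hz (by omega) (by omega)
  obtain ⟨d, A, hA'⟩ := hW D G gen hZ
  refine ⟨d, A, ?_⟩
  have hnorm : ∃ n, 1 ≤ n ∧ Function.Injective (regionMap A n) := by
    have hp : 1 ≤ 2 ^ (c.length + u.length + 1 + 4) + 2 := Nat.succ_le_of_lt (Nat.succ_pos _)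
    refine ⟨2 ^ (c.length + u.length + 1 + 4) + 2, hp, ?_⟩
    rw [hA' _ hp]
    refine hfull _ (Nat.one_le_two_pow) fun w hw => ?_
    exact dead_of_iff hst hkl (hA Fr Sym M (c.length + u.length + 1)
      ⟨t, c, φ, u, hrun, hhalt, le_refl _⟩ w hw.ge)
  refine ⟨hnorm, ?_⟩
  have hmem := Nat.sInf_mem (s := {n : ℕ | 1 ≤ n ∧ Function.Injective (regionMap A n)}) hnorm
  obtain ⟨h1, h2⟩ := hmem
  change 1 ≤ injIndex A at h1
  change Function.Injective (regionMap A (injIndex A)) at h2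
  by_contra hlt
  rw [not_lt] at hlt
  rw [hA' _ h1] at h2
  refine hnfull _ h1 ?_ h2
  have h3 : injIndex A < 2 ^ (g D + 1) := by
    calc injIndex A ≤ g D := hlt
      _ < 2 ^ (g D) := Nat.lt_two_pow_self
      _ ≤ 2 ^ (g D + 1) := Nat.pow_le_pow_right (by norm_num) (by omega)
  obtain ⟨Φ, hΦ, w, hw1, hw2⟩ := hB Fr Sym M (g D) hnh' _ h3
  exact ⟨Φ, inv_of_iff hst hkl hΦ, w, hw1, hw2⟩

end Pool.Agent.LibPeps
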