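import Pool.Agent.LibPeps.DefsP

set_option autoImplicit false

/-!
TASK G: the generators of a rational system (helper31).
-/

namespace Pool.Agent.LibPeps

section units
variable {D : ℕ} {G : Type}

/-- The letter y with the matrix unit (e, e'). -/
def UU (y e e' : Fin D) : Fin D → Fin D → Fin D → ℂ :=
  fun e1 x e2 => if e1 = e ∧ x = y ∧ e2 = e' then 1 else 0

lemma sum_UU (y e e' e1 x : Fin D) (a : Fin D → ℂ) :
    ∑ e2, UU y e e' e1 x e2 * a e2 = if e1 = e ∧ x = y then a e' else 0 := by
  unfold UU
  by_cases h : e1 = e ∧ x = y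
  · rw [if_pos h]
    simp [h.1, h.2]
  · rw [if_neg h]
    apply Finset.sum_eq_zero
    intro e2 _
    rw [if_neg (by tauto), zero_mul]

/-- apply a generator to a family of values. -/
noncomputable def ap (h : Fin D → Fin D → Fin D → ℂ) (a : Fin D → Fin D → ℂ) (e : Fin D) : ℂ :=
  ∑ x, ∑ e1, h e x e1 * a x e1

lemma ap_UU (y e e' e1 : Fin D) (a : Fin D → Fin D → ℂ) :
    ap (UU y e e') a e1 = if e1 = e then a y e' else 0 := by
  unfold ap
  simp only [sum_UU]
  by_cases h : e1 = e
  · simp [h]
  · simp [h]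

lemma ap_add (h h' : Fin D → Fin D → Fin D → ℂ) (a : Fin D → Fin D → ℂ) (e : Fin D) :
    ap (h + h') a e = ap h a e + ap h' a e := by
  simp only [ap, Pi.add_apply, add_mul, Finset.sum_add_distrib]

lemma ap_sub (h h' : Fin D → Fin D → Fin D → ℂ) (a : Fin D → Fin D → ℂ) (e : Fin D) :
    ap (h - h') a e = ap h a e - ap h' a e := by
  simp only [ap, Pi.sub_apply, sub_mul, Finset.sum_sub_distrib]

lemma ap_zero (a : Fin D → Fin D → ℂ) (e : Fin D) : ap 0 a e = 0 := by
  simp [ap]

/-- The value of a functional of words on the row e, column f of a product of generators. -/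
noncomputable def vl (g : G → Fin D → Fin D → Fin D → ℂ) (f : Fin D) :
    List G → Fin D → (List (Fin D) → ℂ) → ℂ
  | [], e, Ψ => if e = f then Ψ [] else 0
  | s :: gs, e, Ψ => ap (g s) (fun x e1 => vl g f gs e1 (fun w => Ψ (x :: w))) e

lemma vl_zero (g : G → Fin D → Fin D → Fin D → ℂ) (f : Fin D) (gs : List G) :
    ∀ e, vl g f gs e (fun _ => 0) = 0 := by
  induction gs with
  | nil => intro e; simp [vl]
  | cons s gs ih => intro e; simp [vl, ap, ih]

lemma vl_eq (g : G → Fin D → Fin D → Fin D → ℂ) (f : Fin D) :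
    ∀ (n : ℕ) (gs : List G), gs.length = n → ∀ (e : Fin D) (Ψ : List (Fin D) → ℂ),
    vl g f gs e Ψ = ∑ w : Fin n → Fin D, Ψ (List.ofFn w) * amp g gs (List.ofFn w) e f := by
  intro n
  induction n with
  | zero =>
    intro gs hgs e Ψ
    obtain rfl : gs = [] := List.length_eq_zero_iff.1 hgs
    simp [vl, amp]
  | succ n ih =>
    intro gs hgs e Ψ
    cases gs with
    | nil => simp at hgs
    | cons s gs =>
      have hl : gs.length = n := by simpa using hgs
      rw [← (Fin.consEquiv (fun _ : Fin (n + 1) => Fin D)).sum_comp, Fintype.sum_prod_type]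
      simp only [vl, ap]
      refine Finset.sum_congr rfl fun x _ => ?_
      simp only [ih gs hl]
      simp only [Fin.consEquiv_apply, List.ofFn_succ, Fin.cons_zero, Fin.cons_succ, amp,
        Finset.mul_sum]
      rw [Finset.sum_comm]
      refine Finset.sum_congr rfl fun w _ => ?_
      refine Finset.sum_congr rfl fun e1 _ => ?_
      ring

end units

/-- Letters and automaton states inside Fin D. -/
structure Emb (L Q : Type) (D : ℕ) where
  lam : L → Fin D
  o : Fin D
  f : Fin D
  su : Q → Fin D
  sv : Q → Fin D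
  lam_inj : Function.Injective lam
  su_inj : Function.Injective su
  sv_inj : Function.Injective sv
  hof : o ≠ f
  hou : ∀ q, o ≠ su q
  hov : ∀ q, o ≠ sv q
  hfu : ∀ q, f ≠ su q
  hfv : ∀ q, f ≠ sv q
  huv : ∀ p q, su p ≠ sv q

section gens
variable {L Q : Type} {D : ℕ}

/-- The letter y, none meaning 0, with a matrix unit. -/
def UO (m : Emb L Q D) (y : Option L) (e e' : Fin D) : Fin D → Fin D → Fin D → ℂ :=
  match y with
  | none => 0
  | some y => UU (m.lam y) e e'

/-- The generators. -/
inductive IsGen (m : Emb L Q D) (Bd : L → Prop) (I F : Q → Prop)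
    (T : Q → L × Option L → Q → Prop) : (Fin D → Fin D → Fin D → ℂ) → Prop
  | pre (y e : Fin D) : IsGen m Bd I F T (UU y e m.o)
  | suf (y e : Fin D) : IsGen m Bd I F T (UU y m.f e)
  | pad (z e e' : Fin D) : (∀ x, m.lam x ≠ z) → IsGen m Bd I F T (UU z e e')
  | bad (z : L) (e e' : Fin D) : Bd z → IsGen m Bd I F T (UU (m.lam z) e e')
  | t0 (p : Q) (x : L) (y : Option L) (q : Q) : T p (x, y) q → I p →
      IsGen m Bd I F T (UU (m.lam x) m.o (m.su q) - UO m y m.o (m.sv q))
  | t1 (p : Q) (x : L) (y : Option L) (q : Q) : T p (x, y) q →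
      IsGen m Bd I F T (UU (m.lam x) (m.su p) (m.su q) + UO m y (m.sv p) (m.sv q))
  | t2 (p : Q) (x : L) (y : Option L) (q : Q) : T p (x, y) q → I p → F q →
      IsGen m Bd I F T (UU (m.lam x) m.o m.f - UO m y m.o m.f)
  | t3 (p : Q) (x : L) (y : Option L) (q : Q) : T p (x, y) q → F q →
      IsGen m Bd I F T (UU (m.lam x) (m.su p) m.f + UO m y (m.sv p) m.f)

lemma isGen_finite [Finite L] [Finite Q] (m : Emb L Q D) (Bd : L → Prop) (I F : Q → Prop)
    (T : Q → L × Option L → Q → Prop) : {h | IsGen m Bd I F T h}.Finite := by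
  refine Set.Finite.subset
    ((((Set.finite_range (fun t : Fin D × Fin D × Fin D => UU t.1 t.2.1 t.2.2)).union
      (Set.finite_range (fun t : Q × L × Option L × Q =>
        UU (m.lam t.2.1) m.o (m.su t.2.2.2) - UO m t.2.2.1 m.o (m.sv t.2.2.2)))).union
      (Set.finite_range (fun t : Q × L × Option L × Q =>
        UU (m.lam t.2.1) (m.su t.1) (m.su t.2.2.2) + UO m t.2.2.1 (m.sv t.1) (m.sv t.2.2.2)))).union
      ((Set.finite_range (fun t : Q × L × Option L × Q =>
        UU (m.lam t.2.1) m.o m.f - UO m t.2.2.1 m.o m.f)).union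
      (Set.finite_range (fun t : Q × L × Option L × Q =>
        UU (m.lam t.2.1) (m.su t.1) m.f + UO m t.2.2.1 (m.sv t.1) m.f)))) ?_
  intro h hh
  simp only [Set.mem_ofPred_eq] at hh
  cases hh with
  | pre y e => exact Or.inl (Or.inl (Or.inl ⟨(y, e, m.o), rfl⟩))
  | suf y e => exact Or.inl (Or.inl (Or.inl ⟨(y, m.f, e), rfl⟩))
  | pad z e e' _ => exact Or.inl (Or.inl (Or.inl ⟨(z, e, e'), rfl⟩))
  | bad z e e' _ => exact Or.inl (Or.inl (Or.inl ⟨(m.lam z, e, e'), rfl⟩))
  | t0 p x y q _ _ => exact Or.inl (Or.inl (Or.inr ⟨(p, x, y, q), rfl⟩))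
  | t1 p x y q _ => exact Or.inl (Or.inr ⟨(p, x, y, q), rfl⟩)
  | t2 p x y q _ _ _ => exact Or.inr (Or.inl ⟨(p, x, y, q), rfl⟩)
  | t3 p x y q _ _ => exact Or.inr (Or.inr ⟨(p, x, y, q), rfl⟩)

end gens

/-! ### The invariant functional -/

section inv
variable {L Q : Type} {D : ℕ}

/-- shift by a word with letters in L or none -/
def sh (m : Emb L Q D) : (List (Fin D) → ℂ) → List (Option L) → (List (Fin D) → ℂ)
  | Ψ, [] => Ψ
  | _, none :: _ => fun _ => 0
  | Ψ, some y :: l => sh m (fun w => Ψ (m.lam y :: w)) l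

/-- one letter -/
def cO (m : Emb L Q D) (Ψ : List (Fin D) → ℂ) : Option L → (List (Fin D) → ℂ)
  | none => fun _ => 0
  | some y => fun w => Ψ (m.lam y :: w)

lemma sh_zero (m : Emb L Q D) (l : List (Option L)) : sh m (fun _ => 0) l = fun _ => 0 := by
  induction l with
  | nil => rfl
  | cons y l ih => cases y with
    | none => rfl
    | some y => simpa [sh] using ih

lemma sh_cons (m : Emb L Q D) (Ψ : List (Fin D) → ℂ) (y : Option L) (l : List (Option L)) :
    sh m Ψ (y :: l) = sh m (cO m Ψ y) l := by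
  cases y with
  | none => simp [sh, cO, sh_zero]
  | some y => simp [sh, cO]

lemma sh_none (m : Emb L Q D) (l : List (Option L)) (h : none ∈ l) :
    ∀ Ψ : List (Fin D) → ℂ, sh m Ψ l = fun _ => 0 := by
  induction l with
  | nil => simp at h
  | cons y l ih =>
    intro Ψ
    cases y with
    | none => rfl
    | some y =>
      have h' : none ∈ l := by simpa using h
      simpa [sh] using ih h' _

lemma sh_some (m : Emb L Q D) (v : List L) :
    ∀ Ψ : List (Fin D) → ℂ, sh m Ψ (v.map some) = fun b => Ψ (v.map m.lam ++ b) := by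
  induction v with
  | nil => intro Ψ; simp [sh]
  | cons y v ih => intro Ψ; simp [sh, ih]

/-- The functionals which respect the system. -/
def InvF (m : Emb L Q D) (r : List (L × Option L) → Prop) (Ψ : List (Fin D) → ℂ) : Prop :=
  (∀ w, (∃ z ∈ w, ∀ x, m.lam x ≠ z) → Ψ w = 0) ∧
  ∀ (a : List (Fin D)) (pl : List (L × Option L)), r pl →
    (fun b => Ψ (a ++ (pl.map Prod.fst).map m.lam ++ b)) =
      sh m (fun b => Ψ (a ++ b)) (pl.map Prod.snd)

lemma invF_zero (m : Emb L Q D) (r : List (L × Option L) → Prop) : InvF m r (fun _ => 0) :=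
  ⟨fun _ _ => rfl, fun a pl _ => by rw [sh_zero]⟩

lemma InvF.cons {m : Emb L Q D} {r : List (L × Option L) → Prop} {Ψ : List (Fin D) → ℂ}
    (h : InvF m r Ψ) (x : Fin D) : InvF m r (fun w => Ψ (x :: w)) := by
  refine ⟨?_, ?_⟩
  · rintro w ⟨z, hz, hz'⟩
    exact h.1 _ ⟨z, List.mem_cons_of_mem _ hz, hz'⟩
  · intro a pl hpl
    exact h.2 (x :: a) pl hpl

lemma InvF.cO {m : Emb L Q D} {r : List (L × Option L) → Prop} {Ψ : List (Fin D) → ℂ}
    (h : InvF m r Ψ) (y : Option L) : InvF m r (cO m Ψ y) := by
  cases y with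
  | none => exact invF_zero m r
  | some y => exact h.cons _

/-- The two functionals agree after every completion of a run from q. -/
def Cpt (m : Emb L Q D) (F : Q → Prop) (T : Q → L × Option L → Q → Prop) (q : Q)
    (Ψ1 Ψ2 : List (Fin D) → ℂ) : Prop :=
  ∀ (pl : List (L × Option L)) (t : Q), F t → Path T q pl t →
    (fun b => Ψ1 ((pl.map Prod.fst).map m.lam ++ b)) = sh m Ψ2 (pl.map Prod.snd)

lemma Cpt.next {m : Emb L Q D} {F : Q → Prop} {T : Q → L × Option L → Q → Prop} {p q : Q}
    {Ψ1 Ψ2 : List (Fin D) → ℂ} {x : L} {y : Option L} (h : Cpt m F T p Ψ1 Ψ2)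
    (ht : T p (x, y) q) : Cpt m F T q (fun w => Ψ1 (m.lam x :: w)) (cO m Ψ2 y) := by
  intro pl t hF hp
  have := h ((x, y) :: pl) t hF ⟨q, ht, hp⟩
  rw [List.map_cons, List.map_cons, List.map_cons, sh_cons] at this
  exact this

lemma Cpt.start {m : Emb L Q D} {I F : Q → Prop} {T : Q → L × Option L → Q → Prop} {p q : Q}
    {r : List (L × Option L) → Prop} {Ψ : List (Fin D) → ℂ} {x : L} {y : Option L}
    (hr : ∀ w, r w ↔ ∃ i f, I i ∧ F f ∧ Path T i w f)
    (h : InvF m r Ψ) (hI : I p) (ht : T p (x, y) q) :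
    Cpt m F T q (fun w => Ψ (m.lam x :: w)) (cO m Ψ y) := by
  intro pl t hF hp
  have := h.2 [] ((x, y) :: pl) ((hr _).2 ⟨p, t, hI, hF, ⟨q, ht, hp⟩⟩)
  rw [List.map_cons, List.map_cons, List.map_cons, sh_cons] at this
  exact this

lemma Cpt.fin {m : Emb L Q D} {F : Q → Prop} {T : Q → L × Option L → Q → Prop} {q : Q}
    {Ψ1 Ψ2 : List (Fin D) → ℂ} (h : Cpt m F T q Ψ1 Ψ2) (hF : F q) : Ψ1 = Ψ2 :=
  h [] q hF rfl

lemma ap_UO {G : Type} (m : Emb L Q D) (g : G → Fin D → Fin D → Fin D → ℂ) (gs : List G)
    (Ψ : List (Fin D) → ℂ) (y : Option L) (e e' e1 : Fin D) :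
    ap (UO m y e e') (fun x e1 => vl g m.f gs e1 (fun w => Ψ (x :: w))) e1 =
      if e1 = e then vl g m.f gs e' (cO m Ψ y) else 0 := by
  cases y with
  | none => simp [UO, cO, ap_zero, vl_zero]
  | some y => simp [UO, cO, ap_UU]

theorem vl_inv {G : Type} (m : Emb L Q D) (Bd : L → Prop) (I F : Q → Prop)
    (T : Q → L × Option L → Q → Prop) (r : List (L × Option L) → Prop)
    (hr : ∀ w, r w ↔ ∃ i f, I i ∧ F f ∧ Path T i w f) (hB : ∀ z, Bd z → r [(z, none)])
    (g : G → Fin D → Fin D → Fin D → ℂ) (hg : ∀ s, IsGen m Bd I F T (g s)) :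
    ∀ gs : List G, (∀ Ψ, InvF m r Ψ → vl g m.f gs m.o Ψ = 0) ∧
      (∀ q Ψ1 Ψ2, InvF m r Ψ1 → InvF m r Ψ2 → Cpt m F T q Ψ1 Ψ2 →
        vl g m.f gs (m.su q) Ψ1 = vl g m.f gs (m.sv q) Ψ2) := by
  have hpad : ∀ Ψ, InvF m r Ψ → ∀ z, (∀ x, m.lam x ≠ z) → (fun w => Ψ (z :: w)) = fun _ => 0 := by
    intro Ψ h z hz
    funext w
    exact h.1 _ ⟨z, by simp, hz⟩
  have hbad : ∀ Ψ, InvF m r Ψ → ∀ z, Bd z → (fun w => Ψ (m.lam z :: w)) = fun _ => 0 := by
    intro Ψ h z hz
    have := h.2 [] [(z, none)] (hB z hz)
    simpa [sh] using this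
  intro gs
  induction gs with
  | nil =>
    refine ⟨?_, ?_⟩
    · intro Ψ _
      simp [vl, m.hof]
    · intro q Ψ1 Ψ2 _ _ _
      simp [vl, (m.hfu q).symm, (m.hfv q).symm]
  | cons s gs ih =>
    obtain ⟨ihA, ihB⟩ := ih
    have hs := hg s
    refine ⟨?_, ?_⟩
    · intro Ψ hΨ
      simp only [vl]
      generalize g s = h at hs
      cases hs with
      | pre y e =>
        rw [ap_UU]
        split_ifs
        · exact ihA _ (hΨ.cons y)
        · rfl
      | suf y e => rw [ap_UU, if_neg m.hof]
      | pad z e e' hz => simp [ap_UU, hpad Ψ hΨ z hz, vl_zero]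
      | bad z e e' hz => simp [ap_UU, hbad Ψ hΨ z hz, vl_zero]
      | t0 p x y q ht hI =>
        rw [ap_sub, ap_UU, ap_UO, if_pos rfl, if_pos rfl, sub_eq_zero]
        exact ihB q _ _ (hΨ.cons _) (hΨ.cO _) (Cpt.start hr hΨ hI ht)
      | t1 p x y q ht => rw [ap_add, ap_UU, ap_UO, if_neg (m.hou p), if_neg (m.hov p), add_zero]
      | t2 p x y q ht hI hF =>
        rw [ap_sub, ap_UU, ap_UO, if_pos rfl, if_pos rfl, sub_eq_zero,
          (Cpt.start hr hΨ hI ht).fin hF]
      | t3 p x y q ht hF => rw [ap_add, ap_UU, ap_UO, if_neg (m.hou p), if_neg (m.hov p), add_zero]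
    · intro q0 Ψ1 Ψ2 h1 h2 hc
      simp only [vl]
      generalize g s = h at hs
      cases hs with
      | pre y e =>
        rw [ap_UU, ap_UU]
        have e1 : ∀ c : Prop, ∀ [Decidable c], (if c then
            vl g m.f gs m.o (fun w => Ψ1 (y :: w)) else 0) = 0 := by
          intro c _
          split_ifs
          · exact ihA _ (h1.cons y)
          · rfl
        have e2 : ∀ c : Prop, ∀ [Decidable c], (if c then
            vl g m.f gs m.o (fun w => Ψ2 (y :: w)) else 0) = 0 := by
          intro c _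
          split_ifs
          · exact ihA _ (h2.cons y)
          · rfl
        rw [e1, e2]
      | suf y e => rw [ap_UU, ap_UU, if_neg (m.hfu q0).symm, if_neg (m.hfv q0).symm]
      | pad z e e' hz => simp [ap_UU, hpad Ψ1 h1 z hz, hpad Ψ2 h2 z hz, vl_zero]
      | bad z e e' hz => simp [ap_UU, hbad Ψ1 h1 z hz, hbad Ψ2 h2 z hz, vl_zero]
      | t0 p x y q ht hI =>
        rw [ap_sub, ap_UU, ap_UO, ap_sub, ap_UU, ap_UO, if_neg (m.hou q0).symm,
          if_neg (m.hou q0).symm, if_neg (m.hov q0).symm, if_neg (m.hov q0).symm]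
      | t1 p x y q ht =>
        rw [ap_add, ap_UU, ap_UO, ap_add, ap_UU, ap_UO, if_neg (m.huv q0 p),
          if_neg (m.huv p q0).symm, add_zero, zero_add]
        by_cases hp : q0 = p
        · subst hp
          rw [if_pos rfl, if_pos rfl]
          exact ihB q _ _ (h1.cons _) (h2.cO _) (hc.next ht)
        · rw [if_neg (fun h => hp (m.su_inj h)), if_neg (fun h => hp (m.sv_inj h))]
      | t2 p x y q ht hI hF =>
        rw [ap_sub, ap_UU, ap_UO, ap_sub, ap_UU, ap_UO, if_neg (m.hou q0).symm,
          if_neg (m.hou q0).symm, if_neg (m.hov q0).symm, if_neg (m.hov q0).symm]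
      | t3 p x y q ht hF =>
        rw [ap_add, ap_UU, ap_UO, ap_add, ap_UU, ap_UO, if_neg (m.huv q0 p),
          if_neg (m.huv p q0).symm, add_zero, zero_add]
        by_cases hp : q0 = p
        · subst hp
          rw [if_pos rfl, if_pos rfl, (hc.next ht).fin hF]
        · rw [if_neg (fun h => hp (m.su_inj h)), if_neg (fun h => hp (m.sv_inj h))]

open Classical in
/-- The functional of an invariant set. -/
noncomputable def psi (m : Emb L Q D) (Φ : List L → Prop) (w : List (Fin D)) : ℂ :=
  if ∃ w0 : List L, w = w0.map m.lam ∧ Φ w0 then 1 else 0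

lemma psi_lam (m : Emb L Q D) (Φ : List L → Prop) (w : List L) [Decidable (Φ w)] :
    psi m Φ (w.map m.lam) = if Φ w then 1 else 0 := by
  unfold psi
  have : (∃ w0 : List L, w.map m.lam = w0.map m.lam ∧ Φ w0) ↔ Φ w := by
    constructor
    · rintro ⟨w0, h, h'⟩
      rwa [(List.map_injective_iff.2 m.lam_inj) h]
    · exact fun h => ⟨w, rfl, h⟩
  simp only [this]

lemma psi_pad (m : Emb L Q D) (Φ : List L → Prop) (w : List (Fin D))
    (h : ∃ z ∈ w, ∀ x, m.lam x ≠ z) : psi m Φ w = 0 := by
  unfold psi
  rw [if_neg]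
  rintro ⟨w0, rfl, _⟩
  obtain ⟨z, hz, hz'⟩ := h
  obtain ⟨x, _, rfl⟩ := List.mem_map.1 hz
  exact hz' x rfl

lemma exists_map (m : Emb L Q D) (w : List (Fin D)) (h : ¬ ∃ z ∈ w, ∀ x, m.lam x ≠ z) :
    ∃ w0 : List L, w = w0.map m.lam := by
  induction w with
  | nil => exact ⟨[], rfl⟩
  | cons x w ih =>
    push Not at h
    obtain ⟨w0, hw0⟩ := ih (by
      push Not
      intro z hz
      exact h z (List.mem_cons_of_mem _ hz))
    obtain ⟨y, hy⟩ := h x (by simp)
    exact ⟨y :: w0, by simp [hw0, hy]⟩

lemma invF_psi (m : Emb L Q D) (r : Rex (L × Option L)) (Φ : List L → Prop)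
    (h : Inv (Step r) (Kill r) Φ) : InvF m r.lang (psi m Φ) := by
  classical
  refine ⟨psi_pad m Φ, ?_⟩
  intro a pl hpl
  have key : ∀ v : List L, pl.map Prod.snd = v.map some →
      (fun b => psi m Φ (a ++ (pl.map Prod.fst).map m.lam ++ b)) =
        fun b => psi m Φ (a ++ (v.map m.lam ++ b)) := by
    intro v hv
    funext b
    by_cases ha : ∃ z ∈ a, ∀ x, m.lam x ≠ z
    · obtain ⟨z, hz, hz'⟩ := ha
      rw [psi_pad m Φ _ ⟨z, by simp [hz], hz'⟩, psi_pad m Φ _ ⟨z, by simp [hz], hz'⟩]
    by_cases hb : ∃ z ∈ b, ∀ x, m.lam x ≠ z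
    · obtain ⟨z, hz, hz'⟩ := hb
      rw [psi_pad m Φ _ ⟨z, by simp [hz], hz'⟩, psi_pad m Φ _ ⟨z, by simp [hz], hz'⟩]
    obtain ⟨a0, rfl⟩ := exists_map m a ha
    obtain ⟨b0, rfl⟩ := exists_map m b hb
    rw [← List.map_append, ← List.map_append, ← List.map_append, ← List.map_append,
      psi_lam, psi_lam, ← List.append_assoc]
    have := h.1 a0 (pl.map Prod.fst) v b0 ⟨pl, hpl, rfl, hv⟩
    simp only [this]
  by_cases hn : none ∈ pl.map Prod.snd
  · rw [sh_none m _ hn]
    funext b
    by_cases ha : ∃ z ∈ a, ∀ x, m.lam x ≠ z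
    · obtain ⟨z, hz, hz'⟩ := ha
      rw [psi_pad m Φ _ ⟨z, by simp [hz], hz'⟩]
    by_cases hb : ∃ z ∈ b, ∀ x, m.lam x ≠ z
    · obtain ⟨z, hz, hz'⟩ := hb
      rw [psi_pad m Φ _ ⟨z, by simp [hz], hz'⟩]
    obtain ⟨a0, rfl⟩ := exists_map m a ha
    obtain ⟨b0, rfl⟩ := exists_map m b hb
    rw [← List.map_append, ← List.map_append, psi_lam, if_neg]
    exact h.2 a0 _ b0 ⟨pl, hpl, rfl, hn⟩
  · obtain ⟨v, hv⟩ : ∃ v : List L, pl.map Prod.snd = v.map some := by
      generalize pl.map Prod.snd = l at hn
      clear key hpl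
      induction l with
      | nil => exact ⟨[], rfl⟩
      | cons y l ih =>
        obtain ⟨v, hv⟩ := ih (fun h => hn (List.mem_cons_of_mem _ h))
        cases y with
        | none => simp at hn
        | some y => exact ⟨y :: v, by simp [hv]⟩
    rw [key v hv, hv, sh_some]

end inv

/-! ### Products of generators -/

section prod
variable {L Q : Type} {D : ℕ} {G : Type}

/-- The word of a list of letters, none if a letter is none. -/
def osq (m : Emb L Q D) : List (Option L) → Option (List (Fin D))
  | [] => some []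
  | none :: _ => none
  | some y :: l => (osq m l).map (fun w => m.lam y :: w)

lemma osq_none (m : Emb L Q D) (l : List (Option L)) (h : none ∈ l) : osq m l = none := by
  induction l with
  | nil => simp at h
  | cons y l ih =>
    cases y with
    | none => rfl
    | some y => simp [osq, ih (by simpa using h)]

lemma osq_some (m : Emb L Q D) (v : List L) : osq m (v.map some) = some (v.map m.lam) := by
  induction v with
  | nil => rfl
  | cons y l ih => simp [osq, ih]

/-- u - ov. -/
noncomputable def PD (u : List (Fin D)) (ov : Option (List (Fin D))) (w : List (Fin D)) : ℂ :=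
  (if w = u then 1 else 0) - (if ov = some w then 1 else 0)

/-- The product of gs is (u - ov) E_{e0 e1}. -/
def Rk (g : G → Fin D → Fin D → Fin D → ℂ) (gs : List G) (e0 e1 : Fin D) (u : List (Fin D))
    (ov : Option (List (Fin D))) : Prop :=
  gs.length = u.length ∧
    ∀ w e e', amp g gs w e e' = if e = e0 ∧ e' = e1 then PD u ov w else 0

lemma amp_cons_nil (g : G → Fin D → Fin D → Fin D → ℂ) (s : G) (gs : List G) (e e' : Fin D) :
    amp g (s :: gs) [] e e' = 0 := by
  simp [amp]

lemma amp_nil_cons (g : G → Fin D → Fin D → Fin D → ℂ) (x : Fin D) (w : List (Fin D))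
    (e e' : Fin D) : amp g [] (x :: w) e e' = 0 := by
  simp [amp]

lemma amp_concat (g : G → Fin D → Fin D → Fin D → ℂ) (s : G) (gs : List G) :
    ∀ (w : List (Fin D)) (x : Fin D) (e e' : Fin D),
    amp g (gs ++ [s]) (w ++ [x]) e e' = ∑ e1, amp g gs w e e1 * g s e1 x e' := by
  induction gs with
  | nil =>
    intro w x e e'
    cases w with
    | nil => simp [amp]
    | cons x0 w =>
      have : ∀ e1, amp g ([] : List G) (w ++ [x]) e1 e' = 0 := by
        intro e1
        cases w <;> simp [amp]
      simp [amp, this]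
  | cons s0 gs ih =>
    intro w x e e'
    cases w with
    | nil =>
      have : ∀ e1, amp g (gs ++ [s]) [] e1 e' = 0 := by
        intro e1
        cases gs <;> simp [amp]
      simp [amp, this]
    | cons x0 w =>
      simp only [List.cons_append, amp, ih, Finset.mul_sum, Finset.sum_mul]
      rw [Finset.sum_comm]
      refine Finset.sum_congr rfl fun e1 _ => ?_
      refine Finset.sum_congr rfl fun e2 _ => ?_
      ring

lemma amp_concat_nil (g : G → Fin D → Fin D → Fin D → ℂ) (s : G) (gs : List G) (e e' : Fin D) :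
    amp g (gs ++ [s]) [] e e' = 0 := by
  cases gs <;> simp [amp]

lemma Rk.cons {g : G → Fin D → Fin D → Fin D → ℂ} {gs : List G} {e0 e1 : Fin D}
    {u : List (Fin D)} {ov : Option (List (Fin D))} (h : Rk g gs e0 e1 u ov) (s : G)
    (y e : Fin D) (hs : g s = UU y e e0) :
    Rk g (s :: gs) e e1 (y :: u) (ov.map (fun v => y :: v)) := by
  refine ⟨by simp [h.1], ?_⟩
  intro w e2 e'
  cases w with
  | nil =>
    rw [amp_cons_nil]
    cases ov <;> simp [PD]
  | cons x w =>
    simp only [amp, hs, sum_UU, h.2]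
    by_cases h1 : e2 = e
    · by_cases h2 : e' = e1
      · by_cases h3 : x = y
        · subst h1; subst h2; subst h3
          cases ov <;> simp [PD]
        · subst h1; subst h2
          have h3' : ¬ (y = x) := fun h => h3 h.symm
          cases ov <;> simp [PD, h3, h3']
      · simp [h2]
    · simp [h1]

lemma Rk.concat {g : G → Fin D → Fin D → Fin D → ℂ} {gs : List G} {e0 e1 : Fin D}
    {u : List (Fin D)} {ov : Option (List (Fin D))} (h : Rk g gs e0 e1 u ov) (s : G)
    (y e : Fin D) (hs : g s = UU y e1 e) :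
    Rk g (gs ++ [s]) e0 e (u ++ [y]) (ov.map (fun v => v ++ [y])) := by
  refine ⟨by simp [h.1], ?_⟩
  intro w e2 e'
  rcases List.eq_nil_or_concat w with rfl | ⟨w, x, rfl⟩
  · rw [amp_concat_nil]
    cases ov <;> simp [PD]
  · rw [List.concat_eq_append, amp_concat]
    have : ∀ e3, amp g gs w e2 e3 * g s e3 x e' =
        if e3 = e1 then (if e2 = e0 ∧ x = y ∧ e' = e then PD u ov w else 0) else 0 := by
      intro e3
      rw [h.2, hs]
      unfold UU
      by_cases h1 : e3 = e1
      · subst h1
        by_cases h2 : e2 = e0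
        · by_cases h3 : x = y ∧ e' = e
          · simp [h2, h3]
          · rw [if_neg (by tauto : ¬ (e3 = e3 ∧ x = y ∧ e' = e))]
            rw [mul_zero, if_pos rfl, if_neg (by tauto)]
        · simp [h2]
      · simp [h1]
    simp only [this, Finset.sum_ite_eq', Finset.mem_univ, if_true]
    by_cases h1 : e2 = e0
    · by_cases h2 : e' = e
      · by_cases h3 : x = y
        · subst h1; subst h2; subst h3
          cases ov <;> simp [PD]
        · subst h1; subst h2
          cases ov with
          | none => simp [PD, h3]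
          | some v =>
            have : ¬ (v ++ [y] = w ++ [x]) := by
              intro h
              have := List.append_inj_right' h rfl
              simp at this
              exact h3 this.symm
            simp [PD, h3, this]
      · simp [h2]
    · simp [h1]

lemma rk_single (g : G → Fin D → Fin D → Fin D → ℂ) (s : G) (y e0 e1 : Fin D)
    (hs : g s = UU y e0 e1) : Rk g [s] e0 e1 [y] none := by
  refine ⟨rfl, ?_⟩
  intro w e e'
  cases w with
  | nil => rw [amp_cons_nil]; simp [PD]
  | cons x' w =>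
    cases w with
    | cons x'' w => simp [amp, PD]
    | nil =>
      simp only [amp, mul_ite, mul_one, mul_zero, Finset.sum_ite_eq', Finset.mem_univ, if_true, hs]
      unfold UU PD
      by_cases h1 : e' = e1 <;> by_cases h2 : e = e0 <;> by_cases h3 : x' = y <;>
        simp [h1, h2, h3]

/-- partial runs -/
lemma tail_prod (m : Emb L Q D) (Bd : L → Prop) (I F : Q → Prop)
    (T : Q → L × Option L → Q → Prop) (g : G → Fin D → Fin D → Fin D → ℂ)
    (hg : ∀ h, IsGen m Bd I F T h → ∃ s, g s = h) (t : Q) (hF : F t) :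
    ∀ (pl : List (L × Option L)), pl ≠ [] → ∀ p, Path T p pl t →
    ∃ gs : List G, gs.length = pl.length ∧ ∀ w e e', amp g gs w e e' =
      if e' = m.f then ((if e = m.su p ∧ w = (pl.map Prod.fst).map m.lam then 1 else 0) +
        (if e = m.sv p ∧ osq m (pl.map Prod.snd) = some w then 1 else 0)) else 0 := by
  intro pl
  induction pl with
  | nil => intro h; exact absurd rfl h
  | cons a pl ih =>
    obtain ⟨x, y⟩ := a
    intro _ p hp
    obtain ⟨q, hT, hp⟩ := hp
    by_cases hpl : pl = []
    · subst hpl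
      obtain rfl : q = t := hp
      obtain ⟨s, hs⟩ := hg _ (IsGen.t3 p x y q hT hF)
      refine ⟨[s], rfl, ?_⟩
      intro w e e'
      cases w with
      | nil =>
        rw [amp_cons_nil]
        cases y <;> simp [osq]
      | cons x' w =>
        cases w with
        | cons x'' w =>
          have h0 : ∀ e1, amp g ([] : List G) (x'' :: w) e1 e' = 0 := fun e1 =>
            amp_nil_cons g x'' w e1 e'
          simp only [amp, mul_zero, Finset.sum_const_zero]
          cases y <;> simp [osq]
        | nil =>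
          simp only [amp, mul_ite, mul_one, mul_zero, Finset.sum_ite_eq', Finset.mem_univ, if_true,
            hs, Pi.add_apply]
          cases y with
          | none => 
            simp only [UO, UU, osq, List.map_cons, List.map_nil, Pi.zero_apply]
            by_cases h1 : e' = m.f <;> simp [h1]
          | some y =>
            simp only [UO, UU, osq, List.map_cons, List.map_nil, Option.map_some]
            by_cases h1 : e' = m.f
            · simp [h1, eq_comm]
            · simp [h1]
    · obtain ⟨gs, hlen, hgs⟩ := ih hpl q hp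
      obtain ⟨s, hs⟩ := hg _ (IsGen.t1 p x y q hT)
      refine ⟨s :: gs, by simp [hlen], ?_⟩
      intro w e e'
      cases w with
      | nil =>
        rw [amp_cons_nil]
        cases y with
        | none => simp [osq]
        | some y =>
          simp [osq]
      | cons x' w =>
        simp only [amp, hs, Pi.add_apply, add_mul, Finset.sum_add_distrib, sum_UU]
        have hy : ∑ e1, UO m y (m.sv p) (m.sv q) e x' e1 * amp g gs w e1 e' =
            if e = m.sv p ∧ osq m (y :: pl.map Prod.snd) = some (x' :: w) ∧ e' = m.f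
              then 1 else 0 := by
          cases y with
          | none => simp [UO, osq]
          | some y =>
            simp only [UO, sum_UU, hgs]
            have h1 : ¬ (m.sv q = m.su q) := fun h => m.huv q q h.symm
            simp only [h1, false_and, if_false, zero_add, true_and]
            cases hos : osq m (List.map Prod.snd pl) with
            | none => simp [osq, hos]
            | some v =>
              simp only [osq, hos, Option.map_some, Option.some.injEq, List.cons.injEq]
              by_cases h2 : e = m.sv p <;> by_cases h3 : x' = m.lam y <;> by_cases h4 : e' = m.f <;>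
                simp [h2, h3, h4, eq_comm]
        rw [hy, hgs]
        have h1 : ¬ (m.su q = m.sv q) := m.huv q q
        simp only [h1, false_and, if_false, add_zero, true_and, List.map_cons, List.cons.injEq]
        by_cases h2 : e = m.su p <;> by_cases h3 : x' = m.lam x <;> by_cases h4 : e' = m.f <;>
          simp [h2, h3, h4]

lemma head_prod (m : Emb L Q D) (Bd : L → Prop) (I F : Q → Prop)
    (T : Q → L × Option L → Q → Prop) (g : G → Fin D → Fin D → Fin D → ℂ)
    (hg : ∀ h, IsGen m Bd I F T h → ∃ s, g s = h) (p t : Q) (hI : I p) (hF : F t)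
    (pl : List (L × Option L)) (hpl : pl ≠ []) (hp : Path T p pl t) :
    ∃ gs : List G, Rk g gs m.o m.f ((pl.map Prod.fst).map m.lam) (osq m (pl.map Prod.snd)) := by
  cases pl with
  | nil => exact absurd rfl hpl
  | cons a pl =>
    obtain ⟨x, y⟩ := a
    obtain ⟨q, hT, hp⟩ := hp
    by_cases hpl' : pl = []
    · subst hpl'
      obtain rfl : q = t := hp
      obtain ⟨s, hs⟩ := hg _ (IsGen.t2 p x y q hT hI hF)
      refine ⟨[s], rfl, ?_⟩
      intro w e e'
      cases w with
      | nil =>
        rw [amp_cons_nil]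
        cases y <;> simp [osq, PD]
      | cons x' w =>
        cases w with
        | cons x'' w =>
          simp only [amp, mul_zero, Finset.sum_const_zero]
          cases y <;> simp [osq, PD]
        | nil =>
          simp only [amp, mul_ite, mul_one, mul_zero, Finset.sum_ite_eq', Finset.mem_univ, if_true,
            hs, Pi.sub_apply]
          cases y with
          | none => 
            simp only [UO, UU, osq, List.map_cons, List.map_nil, Pi.zero_apply, PD]
            by_cases h1 : e' = m.f <;> by_cases h2 : e = m.o <;> simp [h1, h2]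
          | some y =>
            simp only [UO, UU, osq, List.map_cons, List.map_nil, Option.map_some, PD]
            by_cases h1 : e' = m.f <;> by_cases h2 : e = m.o <;> simp [h1, h2, eq_comm]
    · obtain ⟨gs, hlen, hgs⟩ := tail_prod m Bd I F T g hg t hF pl hpl' q hp
      obtain ⟨s, hs⟩ := hg _ (IsGen.t0 p x y q hT hI)
      refine ⟨s :: gs, by simp [hlen], ?_⟩
      intro w e e'
      cases w with
      | nil =>
        rw [amp_cons_nil]
        cases y with
        | none => simp [osq, PD]
        | some y => simp [osq, PD]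
      | cons x' w =>
        simp only [amp, hs, Pi.sub_apply, sub_mul, Finset.sum_sub_distrib, sum_UU]
        have hy : ∑ e1, UO m y m.o (m.sv q) e x' e1 * amp g gs w e1 e' =
            if e = m.o ∧ osq m (y :: pl.map Prod.snd) = some (x' :: w) ∧ e' = m.f
              then 1 else 0 := by
          cases y with
          | none => simp [UO, osq]
          | some y =>
            simp only [UO, sum_UU, hgs]
            have h1 : ¬ (m.sv q = m.su q) := fun h => m.huv q q h.symm
            simp only [h1, false_and, if_false, zero_add, true_and]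
            cases hos : osq m (List.map Prod.snd pl) with
            | none => simp [osq, hos]
            | some v =>
              simp only [osq, hos, Option.map_some, Option.some.injEq, List.cons.injEq]
              by_cases h2 : e = m.o <;> by_cases h3 : x' = m.lam y <;> by_cases h4 : e' = m.f <;>
                simp [h2, h3, h4, eq_comm]
        rw [hy, hgs]
        have h1 : ¬ (m.su q = m.sv q) := m.huv q q
        simp only [h1, false_and, if_false, add_zero, true_and, List.map_cons, PD,
          List.cons.injEq]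
        by_cases h2 : e = m.o <;> by_cases h3 : x' = m.lam x <;> by_cases h4 : e' = m.f <;>
          simp [h2, h3, h4]

/-- A word with padding letters or bad letters. -/
lemma suf_prod (m : Emb L Q D) (Bd : L → Prop) (I F : Q → Prop)
    (T : Q → L × Option L → Q → Prop) (g : G → Fin D → Fin D → Fin D → ℂ)
    (hg : ∀ h, IsGen m Bd I F T h → ∃ s, g s = h) (w : List (Fin D)) :
    ∀ (y e' : Fin D), ∃ gs : List G, Rk g gs m.f e' (y :: w) none := by
  induction w with
  | nil =>
    intro y e'
    obtain ⟨s, hs⟩ := hg _ (IsGen.suf y e')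
    exact ⟨[s], rk_single g s y _ _ hs⟩
  | cons x w ih =>
    intro y e'
    obtain ⟨gs, hgs⟩ := ih x e'
    obtain ⟨s, hs⟩ := hg _ (IsGen.suf y m.f)
    exact ⟨s :: gs, hgs.cons s y _ hs⟩

lemma pad_prod (m : Emb L Q D) (Bd : L → Prop) (I F : Q → Prop)
    (T : Q → L × Option L → Q → Prop) (g : G → Fin D → Fin D → Fin D → ℂ)
    (hg : ∀ h, IsGen m Bd I F T h → ∃ s, g s = h) (z : Fin D) (hz : ∀ x, m.lam x ≠ z)
    (w2 : List (Fin D)) (e' : Fin D) (w1 : List (Fin D)) :
    ∀ (e : Fin D), ∃ gs : List G, Rk g gs e e' (w1 ++ z :: w2) none := by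
  induction w1 with
  | nil =>
    intro e
    cases w2 with
    | nil =>
      obtain ⟨s, hs⟩ := hg _ (IsGen.pad z e e' hz)
      exact ⟨[s], rk_single g s z _ _ hs⟩
    | cons y w2 =>
      obtain ⟨gs, hgs⟩ := suf_prod m Bd I F T g hg w2 y e'
      obtain ⟨s, hs⟩ := hg _ (IsGen.pad z e m.f hz)
      exact ⟨s :: gs, hgs.cons s z _ hs⟩
  | cons x w1 ih =>
    intro e
    obtain ⟨gs, hgs⟩ := ih m.o
    obtain ⟨s, hs⟩ := hg _ (IsGen.pre x e)
    exact ⟨s :: gs, hgs.cons s x _ hs⟩

/-- Extension to the left and to the right. -/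
lemma ext_left (m : Emb L Q D) (Bd : L → Prop) (I F : Q → Prop)
    (T : Q → L × Option L → Q → Prop) (g : G → Fin D → Fin D → Fin D → ℂ)
    (hg : ∀ h, IsGen m Bd I F T h → ∃ s, g s = h) (e1 : Fin D) (u : List (Fin D))
    (ov : Option (List (Fin D))) (h : ∃ gs : List G, Rk g gs m.o e1 u ov) (a : List (Fin D)) :
    ∃ gs : List G, Rk g gs m.o e1 (a ++ u) (ov.map (fun v => a ++ v)) := by
  induction a with
  | nil => simpa using h
  | cons x a ih =>
    obtain ⟨gs, hgs⟩ := ih
    obtain ⟨s, hs⟩ := hg _ (IsGen.pre x m.o)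
    have := hgs.cons s x _ hs
    exact ⟨s :: gs, by simpa [Function.comp_def] using this⟩

lemma ext_right (m : Emb L Q D) (Bd : L → Prop) (I F : Q → Prop)
    (T : Q → L × Option L → Q → Prop) (g : G → Fin D → Fin D → Fin D → ℂ)
    (hg : ∀ h, IsGen m Bd I F T h → ∃ s, g s = h) (b : List (Fin D)) :
    ∀ (u : List (Fin D)) (ov : Option (List (Fin D))),
    (∃ gs : List G, Rk g gs m.o m.f u ov) →
    ∃ gs : List G, Rk g gs m.o m.f (u ++ b) (ov.map (fun v => v ++ b)) := by
  induction b with
  | nil => intro u ov h; simpa using h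
  | cons x b ih =>
    rintro u ov ⟨gs, hgs⟩
    obtain ⟨s, hs⟩ := hg _ (IsGen.suf x m.f)
    have := ih _ _ ⟨_, hgs.concat s x _ hs⟩
    simpa [Function.comp_def] using this

/-- All relations of the system, with contexts, appear as products. -/
lemma all_prod (m : Emb L Q D) (Bd : L → Prop) (I F : Q → Prop)
    (T : Q → L × Option L → Q → Prop) (g : G → Fin D → Fin D → Fin D → ℂ)
    (hg : ∀ h, IsGen m Bd I F T h → ∃ s, g s = h) (p t : Q) (hI : I p) (hF : F t)
    (pl : List (L × Option L)) (hpl : pl ≠ []) (hp : Path T p pl t) (a b : List (Fin D))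
    (y y' e e' : Fin D) :
    ∃ gs : List G, Rk g gs e e' (y :: (a ++ (pl.map Prod.fst).map m.lam ++ b ++ [y']))
      ((osq m (pl.map Prod.snd)).map (fun v => y :: (a ++ v ++ b ++ [y']))) := by
  have h1 := head_prod m Bd I F T g hg p t hI hF pl hpl hp
  obtain ⟨gs, hgs⟩ := ext_right m Bd I F T g hg b _ _ (ext_left m Bd I F T g hg _ _ _ h1 a)
  obtain ⟨s, hs⟩ := hg _ (IsGen.pre y e)
  obtain ⟨s', hs'⟩ := hg _ (IsGen.suf y' e')
  have := (hgs.concat s' y' _ hs').cons s y _ hs
  exact ⟨s :: (gs ++ [s']), by simpa [Function.comp_def] using this⟩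

end prod

/-! ### The two halves -/

section main
variable {L Q : Type} {D : ℕ} {G : Type}

open Classical in
/-- The coefficient of a list in a functional on Fin n → V. -/
noncomputable def bL {n : ℕ} (β : (Fin n → Fin D) → Fin D → Fin D → ℂ) (u : List (Fin D))
    (e e' : Fin D) : ℂ :=
  ∑ w : Fin n → Fin D, if List.ofFn w = u then β w e e' else 0

lemma bL_ofFn {n : ℕ} (β : (Fin n → Fin D) → Fin D → Fin D → ℂ) (w : Fin n → Fin D)
    (e e' : Fin D) : bL β (List.ofFn w) e e' = β w e e' := by
  unfold bL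
  have : ∀ w' : Fin n → Fin D, (List.ofFn w' = List.ofFn w) ↔ w' = w := fun w' =>
    ⟨fun h => List.ofFn_injective h, fun h => by rw [h]⟩
  simp [this]

/-- β kills the products of n generators. -/
def Kls' {n : ℕ} (g : G → Fin D → Fin D → Fin D → ℂ)
    (β : (Fin n → Fin D) → Fin D → Fin D → ℂ) : Prop :=
  ∀ gs : Fin n → G, ∑ w, ∑ e, ∑ e', β w e e' * amp g (List.ofFn gs) (List.ofFn w) e e' = 0

lemma bL_Rk {n : ℕ} {g : G → Fin D → Fin D → Fin D → ℂ}
    {β : (Fin n → Fin D) → Fin D → Fin D → ℂ} (hβ : Kls' g β) {gs : List G} {e0 e1 : Fin D}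
    {u : List (Fin D)} {ov : Option (List (Fin D))} (h : Rk g gs e0 e1 u ov) (hn : u.length = n) :
    bL β u e0 e1 = ov.elim 0 (fun v => bL β v e0 e1) := by
  classical
  obtain ⟨hlen, h⟩ := h
  have hgs : gs.length = n := hlen.trans hn
  subst hgs
  have h0 := hβ gs.get
  rw [List.ofFn_get] at h0
  have h1 : ∀ w : Fin gs.length → Fin D, ∑ e, ∑ e', β w e e' * amp g gs (List.ofFn w) e e' =
      β w e0 e1 * PD u ov (List.ofFn w) := by
    intro w
    rw [Finset.sum_eq_single e0, Finset.sum_eq_single e1]
    · rw [h, if_pos ⟨rfl, rfl⟩]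
    · intro b _ hb
      rw [h, if_neg (fun h => hb h.2), mul_zero]
    · intro h; exact absurd (Finset.mem_univ _) h
    · intro b _ hb
      apply Finset.sum_eq_zero
      intro e' _
      rw [h, if_neg (fun h => hb h.1), mul_zero]
    · intro h; exact absurd (Finset.mem_univ _) h
  simp only [h1, PD, mul_sub, Finset.sum_sub_distrib, mul_ite, mul_one, mul_zero] at h0
  have h2 : bL β u e0 e1 = ∑ w : Fin gs.length → Fin D,
      (if some (List.ofFn w) = some u then β w e0 e1 else 0) := by
    unfold bL
    refine Finset.sum_congr rfl fun w _ => ?_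
    simp
  rw [sub_eq_zero] at h0
  cases ov with
  | none =>
    simp only [reduceCtorEq, if_false, Finset.sum_const_zero] at h0
    simp only [Option.elim_none]
    rw [← h0]
    unfold bL
    rfl
  | some v =>
    simp only [Option.elim_some]
    unfold bL
    rw [h0]
    refine Finset.sum_congr rfl fun w _ => ?_
    simp [eq_comm]

theorem full_of_dead (m : Emb L Q D) (r : Rex (L × Option L)) (hr0 : ¬ r.lang [])
    (Bd : L → Prop) (I F : Q → Prop) (T : Q → L × Option L → Q → Prop)
    (hr : ∀ w, r.lang w ↔ ∃ i f, I i ∧ F f ∧ Path T i w f)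
    (g : G → Fin D → Fin D → Fin D → ℂ)
    (hg : ∀ h, IsGen m Bd I F T h → ∃ s, g s = h) (n : ℕ)
    (hD : ∀ w : List L, w.length = n → Dead (Step r) (Kill r) w) : Full g (n + 2) := by
  intro β hβ
  have hrel : ∀ (pl : List (L × Option L)), r.lang pl → ∀ (a b : List L) (y y' e e' : Fin D),
      (a ++ pl.map Prod.fst ++ b).length = n →
      bL β (y :: ((a ++ pl.map Prod.fst ++ b).map m.lam ++ [y'])) e e' =
      (osq m (pl.map Prod.snd)).elim 0
        (fun v => bL β (y :: (a.map m.lam ++ v ++ b.map m.lam ++ [y'])) e e') := by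
    intro pl hpl a b y y' e e' hlen
    obtain ⟨i, f, hI, hF, hp⟩ := (hr pl).1 hpl
    have hne : pl ≠ [] := by
      rintro rfl
      exact hr0 hpl
    obtain ⟨gs, hgs⟩ := all_prod m Bd I F T g hg i f hI hF pl hne hp (a.map m.lam) (b.map m.lam)
      y y' e e'
    have hl : (y :: (a.map m.lam ++ (pl.map Prod.fst).map m.lam ++ b.map m.lam ++ [y'])).length =
        n + 2 := by
      simp only [List.length_append, List.length_map] at hlen
      simp only [List.length_append, List.length_map, List.length_cons, List.length_nil]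
      omega
    have := bL_Rk hβ hgs hl
    rw [List.map_append, List.map_append, this]
    cases osq m (pl.map Prod.snd) <;> rfl
  have hdead : ∀ u : List L, Dead (Step r) (Kill r) u → u.length = n →
      ∀ y y' e e' : Fin D, bL β (y :: (u.map m.lam ++ [y'])) e e' = 0 := by
    intro u hu
    have hst : ∀ a u v b : List L, Step r u v → (a ++ u ++ b).length = n →
        ∀ y y' e e' : Fin D, bL β (y :: ((a ++ u ++ b).map m.lam ++ [y'])) e e' =
          bL β (y :: ((a ++ v ++ b).map m.lam ++ [y'])) e e' := by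
      rintro a u v b ⟨pl, hpl, rfl, hv⟩ hlen y y' e e'
      rw [hrel pl hpl a b y y' e e' hlen, hv, osq_some]
      simp
    have hsl : ∀ u v : List L, Step r u v → u.length = v.length := by
      rintro u v ⟨pl, _, rfl, hv⟩
      have := congrArg List.length hv
      simpa using this
    induction hu with
    | kill a u b hk =>
      intro hlen y y' e e'
      obtain ⟨pl, hpl, rfl, hnone⟩ := hk
      rw [hrel pl hpl a b y y' e e' hlen, osq_none m _ hnone]
      rfl
    | step a u v b huv _ ih =>
      intro hlen y y' e e'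
      have hl := hsl u v huv
      rw [hst a u v b huv hlen]
      exact ih (by simp only [List.length_append] at hlen ⊢; omega) y y' e e'
    | step' a u v b huv _ ih =>
      intro hlen y y' e e'
      have hl := hsl u v huv
      have hlen' : (a ++ u ++ b).length = n := by
        simp only [List.length_append] at hlen ⊢; omega
      rw [← hst a u v b huv hlen']
      exact ih hlen' y y' e e'
  intro w e e'
  rw [← bL_ofFn β w e e']
  have hlen : (List.ofFn w).length = n + 2 := List.length_ofFn
  generalize List.ofFn w = l at hlen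
  by_cases hp : ∃ z ∈ l, ∀ x, m.lam x ≠ z
  · obtain ⟨z, hz, hz'⟩ := hp
    obtain ⟨w1, w2, rfl⟩ := List.append_of_mem hz
    obtain ⟨gs, hgs⟩ := pad_prod m Bd I F T g hg z hz' w2 e' w1 e
    exact bL_Rk hβ hgs hlen
  · obtain ⟨l0, rfl⟩ := exists_map m l hp
    cases l0 with
    | nil => simp at hlen
    | cons y l0 =>
      rcases List.eq_nil_or_concat l0 with rfl | ⟨l1, y', rfl⟩
      · simp at hlen
      · rw [List.concat_eq_append, List.map_cons, List.map_append]
        apply hdead l1 _
        · simpa using hlen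
        · apply hD
          simpa using hlen

theorem not_full_of_inv (m : Emb L Q D) (r : Rex (L × Option L))
    (I F : Q → Prop) (T : Q → L × Option L → Q → Prop)
    (hr : ∀ w, r.lang w ↔ ∃ i f, I i ∧ F f ∧ Path T i w f)
    (g : G → Fin D → Fin D → Fin D → ℂ)
    (hg : ∀ s, IsGen m (fun z => r.lang [(z, none)]) I F T (g s)) (n : ℕ) (Φ : List L → Prop)
    (hΦ : Inv (Step r) (Kill r) Φ) (w : List L) (hw : w.length = n) (hwΦ : Φ w) :
    ¬ Full g n := by
  classical
  intro hfull
  have h1 := hfull (fun w e e' => if e = m.o ∧ e' = m.f then psi m Φ (List.ofFn w) else 0) ?_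
    (fun i => m.lam (w.get (Fin.cast hw.symm i))) m.o m.f
  · have h2 : List.ofFn (fun i => m.lam (w.get (Fin.cast hw.symm i))) = w.map m.lam := by
      subst hw
      apply List.ext_getElem
      · simp
      · intro i h1 h2
        simp
    rw [h2, if_pos ⟨rfl, rfl⟩, psi_lam, if_pos hwΦ] at h1
    exact one_ne_zero h1
  · intro gs
    have h3 := (vl_inv m (fun z => r.lang [(z, none)]) I F T r.lang hr (fun z h => h) g hg
      (List.ofFn gs)).1 (psi m Φ) (invF_psi m r Φ hΦ)
    rw [vl_eq g m.f n (List.ofFn gs) List.length_ofFn] at h3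
    refine Eq.trans ?_ h3
    refine Finset.sum_congr rfl fun w _ => ?_
    rw [Finset.sum_eq_single m.o, Finset.sum_eq_single m.f]
    · rw [if_pos ⟨rfl, rfl⟩]
    · intro b _ hb
      rw [if_neg (fun h => hb h.2), zero_mul]
    · intro h; exact absurd (Finset.mem_univ _) h
    · intro b _ hb
      apply Finset.sum_eq_zero
      intro e' _
      rw [if_neg (fun h => hb h.1), zero_mul]
    · intro h; exact absurd (Finset.mem_univ _) h

end main

theorem tG (hAU : StAU) : StG := by
  intro L _ r z D hz hL hD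
  obtain ⟨hr0, Q, _, I, F, T, hQ, hr⟩ := hAU (L × Option L) r
  classical
  have hc1 : Fintype.card L ≤ Fintype.card (Fin D) := by simpa using hL
  obtain ⟨lam⟩ := Function.Embedding.nonempty_of_card_le hc1
  have hc2 : Fintype.card (Bool ⊕ (Bool × Q)) ≤ Fintype.card (Fin D) := by
    simp only [Fintype.card_sum, Fintype.card_bool, Fintype.card_prod, Fintype.card_fin]
    omega
  obtain ⟨ι⟩ := Function.Embedding.nonempty_of_card_le hc2
  let m : Emb L Q D :=
    { lam := lam
      o := ι (Sum.inl false)
      f := ι (Sum.inl true)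
      su := fun q => ι (Sum.inr (false, q))
      sv := fun q => ι (Sum.inr (true, q))
      lam_inj := lam.injective
      su_inj := fun p q h => by simpa using ι.injective h
      sv_inj := fun p q h => by simpa using ι.injective h
      hof := fun h => by simpa using ι.injective h
      hou := fun q h => by simpa using ι.injective h
      hov := fun q h => by simpa using ι.injective h
      hfu := fun q h => by simpa using ι.injective h
      hfv := fun q h => by simpa using ι.injective h
      huv := fun p q h => by simpa using ι.injective h }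
  have hfin := isGen_finite m (fun z => r.lang [(z, none)]) I F T
  refine ⟨{h // IsGen m (fun z => r.lang [(z, none)]) I F T h}, hfin.fintype, Subtype.val, ?_, ?_, ?_⟩
  · refine ⟨m.lam z, fun e e' => ⟨⟨_, IsGen.bad z e e' hz⟩, fun e1 x e2 => ?_⟩⟩
    rfl
  · intro n _ hdead
    exact full_of_dead m r hr0 _ I F T hr Subtype.val (fun h hh => ⟨⟨h, hh⟩, rfl⟩) n hdead
  · rintro n _ ⟨Φ, hΦ, w, hw, hwΦ⟩
    exact not_full_of_inv m r I F T hr Subtype.val (fun s => s.2) n Φ hΦ w hw hwΦ

end Pool.Agent.LibPeps
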