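import Pool.Agent.LibPeps.RBase

set_option autoImplicit false

/-! Task R1: layers A and K. -/

namespace Pool.Agent.LibPeps
open Ltr

variable {Fr Sym : Type}

/-! #### layer A -/

theorem step_rA1 (u v : List (Ltr Fr Sym)) : Step rA1 u v ↔ ∃ y l m,
    O0 y ∧ Pl y ∧ Spn (fun _ => True) l ∧ X1 m ∧ Pl m ∧ u = y :: (flat l ++ [m]) ∧
      v = y.setA true :: (flat l ++ [m.setA true]) := by
  unfold rA1
  simp only [step_cchg, step_scX, step_chg]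
  constructor
  · rintro ⟨x, y, w, w', ⟨h1, h2, rfl⟩, ⟨l, a, b, hl, ⟨m, m', ⟨h3, h4, rfl⟩, rfl, rfl⟩, rfl, rfl⟩,
      rfl, rfl⟩
    exact ⟨x, l, m, h1, h2, hl, h3, h4, rfl, rfl⟩
  · rintro ⟨y, l, m, h1, h2, hl, h3, h4, rfl, rfl⟩
    exact ⟨y, _, _, _, ⟨h1, h2, rfl⟩, ⟨l, _, _, hl, ⟨m, _, ⟨h3, h4, rfl⟩, rfl, rfl⟩, rfl, rfl⟩,
      rfl, rfl⟩

theorem stepA (u v : List (Ltr Fr Sym)) : Step sysA u v ↔ RuleA u v := by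
  unfold sysA
  have n1 : AK (kA1 : LR Fr Sym) := ak_cat (ak_sc (ak_kl _))
  have n2 : AK (kA2 : LR Fr Sym) := ak_cat (ak_sc (ak_kl _))
  have n3 : AK (kA3 : LR Fr Sym) := ak_kl _
  have n4 : AK (kS1 : LR Fr Sym) := ak_cat (ak_kl _)
  have n5 : AK (kS2 : LR Fr Sym) := ak_cat (ak_kl _)
  have n6 : AK (kS3 : LR Fr Sym) := ak_cat (ak_cat (ak_kl _))
  have n7 : AK (kS4 : LR Fr Sym) := ak_cat (ak_cat (ak_kl _))
  simp only [step_alts_cons, step_alts_nil, step_ak n1, step_ak n2, step_ak n3, step_ak n4,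
    step_ak n5, step_ak n6, step_ak n7, or_false, step_rA1, rA0, step_chg]
  constructor
  · rintro (⟨x, y, ⟨h1, h2, rfl⟩, rfl, rfl⟩ | ⟨y, l, m, h1, h2, h3, h4, h5, rfl, rfl⟩)
    · exact RuleA.a0 x h1 h2
    · exact RuleA.a1 y l m h1 h2 h3 h4 h5
  · intro h
    cases h with
    | a0 x h1 h2 => exact Or.inl ⟨x, _, ⟨h1, h2, rfl⟩, rfl, rfl⟩
    | a1 y l m h1 h2 h3 h4 h5 => exact Or.inr ⟨y, l, m, h1, h2, h3, h4, h5, rfl, rfl⟩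

theorem killA (u : List (Ltr Fr Sym)) : Kill sysA u ↔ KillA u := by
  unfold sysA
  have n1 : AK (kA1 : LR Fr Sym) := ak_cat (ak_sc (ak_kl _))
  have n2 : AK (kA2 : LR Fr Sym) := ak_cat (ak_sc (ak_kl _))
  have n3 : AK (kA3 : LR Fr Sym) := ak_kl _
  have n4 : AK (kS1 : LR Fr Sym) := ak_cat (ak_kl _)
  have n5 : AK (kS2 : LR Fr Sym) := ak_cat (ak_kl _)
  have n6 : AK (kS3 : LR Fr Sym) := ak_cat (ak_cat (ak_kl _))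
  have n7 : AK (kS4 : LR Fr Sym) := ak_cat (ak_cat (ak_kl _))
  have m0 : NK (rA0 : LR Fr Sym) := nk_chg _
  have m1 : NK (rA1 : LR Fr Sym) := nk_cat (nk_chg _) (nk_sc (nk_rX _) (nk_chg _))
  simp only [kill_alts_cons, kill_alts_nil, kill_ak n1, kill_ak n2, kill_ak n3, kill_ak n4,
    kill_ak n5, kill_ak n6, kill_ak n7, kill_nk m0, kill_nk m1, or_false, false_or]
  simp only [kA1, kA2, kA3, kS1, kS2, kS3, kS4, dom_csame, dom_scX, dom_kl]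
  constructor
  · rintro (⟨y, w, h1, ⟨l, w', hl, ⟨m, ⟨h2, h3⟩, rfl⟩, rfl⟩, rfl⟩ |
      ⟨y, w, ⟨h1, h1'⟩, ⟨l, w', hl, ⟨m, h2, rfl⟩, rfl⟩, rfl⟩ | ⟨x, ⟨h1, h2⟩, rfl⟩ |
      ⟨x, w, h1, ⟨y, h2, rfl⟩, rfl⟩ | ⟨x, w, h1, ⟨y, h2, rfl⟩, rfl⟩ |
      ⟨x, w, h1, ⟨y, w', h2, ⟨z, h3, rfl⟩, rfl⟩, rfl⟩ |
      ⟨x, w, h1, ⟨y, w', h2, ⟨z, h3, rfl⟩, rfl⟩, rfl⟩)
    · exact KillA.a1 y l m h1 hl h2 h3
    · exact KillA.a2 y l m h1 h1' hl h2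
    · exact KillA.a3 x h1 h2
    · exact KillA.s1 x y h1 h2
    · exact KillA.s2 x y h1 h2
    · exact KillA.s3 x y z h1 h2 h3
    · exact KillA.s4 x y z h1 h2 h3
  · intro h
    cases h with
    | a1 y l m h1 hl h2 h3 =>
      exact Or.inl ⟨y, _, h1, ⟨l, _, hl, ⟨m, ⟨h2, h3⟩, rfl⟩, rfl⟩, rfl⟩
    | a2 y l m h1 h1' hl h2 =>
      exact Or.inr (Or.inl ⟨y, _, ⟨h1, h1'⟩, ⟨l, _, hl, ⟨m, h2, rfl⟩, rfl⟩, rfl⟩)
    | a3 x h1 h2 => exact Or.inr (Or.inr (Or.inl ⟨x, ⟨h1, h2⟩, rfl⟩))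
    | s1 x y h1 h2 => exact Or.inr (Or.inr (Or.inr (Or.inl ⟨x, _, h1, ⟨y, h2, rfl⟩, rfl⟩)))
    | s2 x y h1 h2 =>
      exact Or.inr (Or.inr (Or.inr (Or.inr (Or.inl ⟨x, _, h1, ⟨y, h2, rfl⟩, rfl⟩))))
    | s3 x y z h1 h2 h3 =>
      exact Or.inr (Or.inr (Or.inr (Or.inr (Or.inr (Or.inl
        ⟨x, _, h1, ⟨y, _, h2, ⟨z, h3, rfl⟩, rfl⟩, rfl⟩)))))
    | s4 x y z h1 h2 h3 =>
      exact Or.inr (Or.inr (Or.inr (Or.inr (Or.inr (Or.inr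
        ⟨x, _, h1, ⟨y, _, h2, ⟨z, h3, rfl⟩, rfl⟩, rfl⟩)))))

/-! #### layer K -/

theorem setK_self (x : Ltr Fr Sym) (b : Bool) (h : x.k = b) : x.setK b = x := by
  cases x
  simp_all [Ltr.setK]

theorem step_rEk (b b' : Bool) (u v : List (Ltr Fr Sym)) : Step (rEk b b') u v ↔
    ∃ e, CE b e ∧ u = cflat [e] ∧ v = cflat [(e.1.setK b', e.2)] := by
  unfold rEk sK
  rw [step_cchg]
  simp only [diag_sc _ _ (diag_same _) (diag_same _), dom_scsame, dom_same, cflat_one]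
  constructor
  · rintro ⟨x, y, w, w', ⟨h1, h2, rfl⟩, ⟨⟨C, w1, hC, ⟨m, hm, rfl⟩, rfl⟩, rfl⟩, rfl, rfl⟩
    exact ⟨(x, C, m), ⟨h1, h2, hC, hm⟩, rfl, rfl⟩
  · rintro ⟨⟨x, C, m⟩, ⟨h1, h2, hC, hm⟩, rfl, rfl⟩
    exact ⟨x, _, _, _, ⟨h1, h2, rfl⟩, ⟨⟨C, [m], hC, ⟨m, hm, rfl⟩, rfl⟩, rfl⟩, rfl, rfl⟩

theorem dom_rEk (b b' : Bool) (u : List (Ltr Fr Sym)) : Dom (rEk b b') u ↔
    ∃ e, CE b e ∧ u = cflat [e] := by
  unfold rEk sK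
  rw [dom_cchg]
  simp only [dom_scsame, dom_same, cflat_one]
  constructor
  · rintro ⟨x, w, ⟨y, h1, h2, rfl⟩, ⟨C, w1, hC, ⟨m, hm, rfl⟩, rfl⟩, rfl⟩
    exact ⟨(x, C, m), ⟨h1, h2, hC, hm⟩, rfl⟩
  · rintro ⟨⟨x, C, m⟩, ⟨h1, h2, hC, hm⟩, rfl⟩
    exact ⟨x, _, ⟨_, h1, h2, rfl⟩, ⟨C, [m], hC, ⟨m, hm, rfl⟩, rfl⟩, rfl⟩

theorem nk_rEk (b b' : Bool) : NK (rEk b b' : LR Fr Sym) :=
  nk_cat (nk_chg _) (nk_sc (nk_same _) (nk_same _))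

theorem diag_rEk (b : Bool) (u v : List (Ltr Fr Sym)) :
    Step (rEk b b) u v ↔ Dom (rEk b b) u ∧ v = u := by
  rw [step_rEk, dom_rEk]
  constructor
  · rintro ⟨e, h, rfl, rfl⟩
    refine ⟨⟨e, h, rfl⟩, ?_⟩
    rw [setK_self _ _ h.2.1]
  · rintro ⟨⟨e, h, rfl⟩, rfl⟩
    refine ⟨e, h, rfl, ?_⟩
    rw [setK_self _ _ h.2.1]

theorem cflat_eq (es : List (Ltr Fr Sym × List (Ltr Fr Sym) × Ltr Fr Sym)) :
    (es.map (fun e => cflat [e])).flatten = cflat es := by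
  simp only [cflat_one]
  rfl

theorem par_rEk (b : Bool) (us : List (List (Ltr Fr Sym))) :
    (∀ u ∈ us, Dom (rEk b b) u) ↔ ∃ es : List (Ltr Fr Sym × List (Ltr Fr Sym) × Ltr Fr Sym),
      (∀ e ∈ es, CE b e) ∧ us = es.map (fun e => cflat [e]) := by
  simp only [dom_rEk]
  exact par_list (fun e : Ltr Fr Sym × List (Ltr Fr Sym) × Ltr Fr Sym => CE b e)
    (fun e => cflat [e]) us

theorem dom_rIn (b' : Bool) (u : List (Ltr Fr Sym)) : Dom (rIn b') u ↔ ∃ u', InL u u' := by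
  unfold rIn sK
  rw [dom_alt, dom_chg, dom_cat]
  simp only [dom_rEk, dom_sc, dom_same]
  constructor
  · rintro (⟨x, ⟨y, h1, h2, rfl⟩, rfl⟩ | ⟨u1, u2, ⟨e, he, rfl⟩, ⟨us, w, h1, ⟨o, ⟨ho1, ho2⟩, rfl⟩,
      rfl⟩, rfl⟩)
    · exact ⟨_, InL.cell x h1 h2⟩
    · have h1' : ∀ x ∈ us, Dom (rEk false false) x := fun x hx => (dom_rEk _ _ _).2 (h1 x hx)
      obtain ⟨es, h3, rfl⟩ := (par_rEk false us).1 h1'
      refine ⟨cflat ((e.1.setK false, e.2) :: es) ++ [o], ?_⟩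
      rw [cflat_eq, ← List.append_assoc, show cflat [e] ++ cflat es = cflat (e :: es) by
        rw [cflat_one, cflat_cons]]
      exact InL.chain e es o he h3 ho1 ho2
  · rintro ⟨u', h⟩
    cases h with
    | cell o h1 h2 => exact Or.inl ⟨o, ⟨_, h1, h2, rfl⟩, rfl⟩
    | chain e es o he h3 ho1 ho2 =>
      refine Or.inr ⟨cflat [e], cflat es ++ [o], ⟨e, he, rfl⟩,
        ⟨es.map (fun e => cflat [e]), [o], ?_, ⟨o, ⟨ho1, ho2⟩, rfl⟩, ?_⟩, ?_⟩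
      · intro x hx
        exact (dom_rEk _ _ _).1 ((par_rEk false _).2 ⟨es, h3, rfl⟩ x hx)
      · rw [cflat_eq]
      · rw [← List.append_assoc]
        congr 1
        rw [cflat_one, cflat_cons]

theorem step_rIn (u v : List (Ltr Fr Sym)) : Step (rIn false) u v ↔ InL u v := by
  unfold rIn sK
  rw [step_alt, step_chg, step_cat]
  simp only [step_rEk, step_scdiag _ _ (diag_rEk false), step_same]
  constructor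
  · rintro (⟨x, y, ⟨h1, h2, rfl⟩, rfl, rfl⟩ | ⟨u1, v1, u2, v2, ⟨e, he, rfl, rfl⟩,
      ⟨us, w, w', h1, ⟨o, ⟨ho1, ho2⟩, rfl, rfl⟩, rfl, rfl⟩, rfl, rfl⟩)
    · exact InL.cell x h1 h2
    · obtain ⟨es, h3, rfl⟩ := (par_rEk false us).1 h1
      rw [cflat_eq, ← List.append_assoc, ← List.append_assoc,
        show cflat [e] ++ cflat es = cflat (e :: es) by rw [cflat_one, cflat_cons],
        show cflat [(e.1.setK false, e.2)] ++ cflat es = cflat ((e.1.setK false, e.2) :: es) by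
          rw [cflat_one, cflat_cons]]
      exact InL.chain e es o he h3 ho1 ho2
  · intro h
    cases h with
    | cell o h1 h2 => exact Or.inl ⟨o, _, ⟨h1, h2, rfl⟩, rfl, rfl⟩
    | chain e es o he h3 ho1 ho2 =>
      refine Or.inr ⟨cflat [e], cflat [(e.1.setK false, e.2)], cflat es ++ [o], cflat es ++ [o],
        ⟨e, he, rfl, rfl⟩, ⟨es.map (fun e => cflat [e]), [o], [o],
          (par_rEk false _).2 ⟨es, h3, rfl⟩, ⟨o, ⟨ho1, ho2⟩, rfl, rfl⟩, ?_, ?_⟩, ?_, ?_⟩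
      · rw [cflat_eq]
      · rw [cflat_eq]
      · rw [← List.append_assoc]
        congr 1
        rw [cflat_one, cflat_cons]
      · rw [← List.append_assoc]
        congr 1
        rw [cflat_one, cflat_cons]

theorem nk_rIn (b' : Bool) : NK (rIn b' : LR Fr Sym) :=
  nk_alt (nk_chg _) (nk_cat (nk_rEk _ _) (nk_sc (nk_rEk _ _) (nk_same _)))

theorem dom_rRt (r : LR Fr Sym) (u : List (Ltr Fr Sym)) : Dom (rRt r) u ↔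
    ∃ s y l w, Sep s ∧ O0 y ∧ Spn (fun x => x.k = false) l ∧ Dom r w ∧
      u = s :: y :: (flat l ++ w) := by
  unfold rRt
  simp only [dom_csame, dom_scX]
  constructor
  · rintro ⟨s, w, hs, ⟨y, w', hy, ⟨l, w1, hl, h, rfl⟩, rfl⟩, rfl⟩
    exact ⟨s, y, l, w1, hs, hy, hl, h, rfl⟩
  · rintro ⟨s, y, l, w1, hs, hy, hl, h, rfl⟩
    exact ⟨s, _, hs, ⟨y, _, hy, ⟨l, w1, hl, h, rfl⟩, rfl⟩, rfl⟩

theorem step_rRt (r : LR Fr Sym) (u v : List (Ltr Fr Sym)) : Step (rRt r) u v ↔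
    ∃ s y l w w', Sep s ∧ O0 y ∧ Spn (fun x => x.k = false) l ∧ Step r w w' ∧
      u = s :: y :: (flat l ++ w) ∧ v = s :: y :: (flat l ++ w') := by
  unfold rRt
  simp only [step_csame, step_scX]
  constructor
  · rintro ⟨s, w, w', hs, ⟨y, w2, w2', hy, ⟨l, w1, w1', hl, h, rfl, rfl⟩, rfl, rfl⟩, rfl, rfl⟩
    exact ⟨s, y, l, w1, w1', hs, hy, hl, h, rfl, rfl⟩
  · rintro ⟨s, y, l, w1, w1', hs, hy, hl, h, rfl, rfl⟩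
    exact ⟨s, _, _, hs, ⟨y, _, _, hy, ⟨l, w1, w1', hl, h, rfl, rfl⟩, rfl, rfl⟩, rfl, rfl⟩

theorem ak_rRt (r : LR Fr Sym) (h : AK r) : AK (rRt r) := ak_cat (ak_cat (ak_sc h))

theorem nk_rRt (r : LR Fr Sym) (h : NK r) : NK (rRt r) :=
  nk_cat (nk_same _) (nk_cat (nk_same _) (nk_sc (nk_rX _) h))

theorem ak_kK0 (b : Bool) : AK (kK0 b : LR Fr Sym) := ak_cat (ak_cat (ak_cat (ak_kl _)))

theorem ak_kKb (b : Bool) : AK (kKb b : LR Fr Sym) :=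
  ak_cat (ak_cat (ak_rRt _ (ak_cat (ak_cat (ak_kl _)))))

theorem ak_kK2 : AK (kK2 : LR Fr Sym) := ak_cat (ak_cat (ak_rRt _ (ak_kl _)))

theorem ak_kK3 : AK (kK3 : LR Fr Sym) := ak_cat (ak_cat (ak_rRt _ (ak_kl _)))

theorem stepK (u v : List (Ltr Fr Sym)) : Step sysK u v ↔ RuleK u v := by
  unfold sysK
  simp only [step_alts_cons, step_alts_nil, step_ak (ak_kK0 _), step_ak (ak_kKb _),
    step_ak ak_kK2, step_ak ak_kK3, or_false]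
  simp only [rK0, rK1, sK, step_cchg, step_csame, step_chg, step_cat (rEk false true),
    step_cat (rIn false), step_rEk, step_rIn, step_rRt, step_cZ]
  constructor
  · rintro (⟨o, o', w, w', ⟨h1, h2, rfl⟩, ⟨s, w1, w1', h3, ⟨y, w2, w2', h4, ⟨x, x', ⟨h5, h6, rfl⟩,
      rfl, rfl⟩, rfl, rfl⟩, rfl, rfl⟩, rfl, rfl⟩ |
      ⟨u1, v1, u2, v2, ⟨e, he, rfl, rfl⟩, ⟨u3, v3, u4, v4, hI, ⟨s, y, l, w, w', hs, hy, hl,
        ⟨x, x1, w5, w5', ⟨h7, h8, rfl⟩, ⟨z, w6, w6', hz, ⟨x', x1', ⟨h9, h10, rfl⟩, rfl, rfl⟩, rfl,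
          rfl⟩, rfl, rfl⟩, rfl, rfl⟩, rfl, rfl⟩, rfl, rfl⟩)
    · exact RuleK.k0 o s y x h1 h2 h3 h4 h5 h6
    · exact RuleK.k1 e u3 v3 s y l x z x' he hI hs hy hl h7 h8 hz h9 h10
  · intro h
    cases h with
    | k0 o s y x h1 h2 h3 h4 h5 h6 =>
      exact Or.inl ⟨o, _, _, _, ⟨h1, h2, rfl⟩, ⟨s, _, _, h3, ⟨y, _, _, h4, ⟨x, _, ⟨h5, h6, rfl⟩,
        rfl, rfl⟩, rfl, rfl⟩, rfl, rfl⟩, rfl, rfl⟩
    | k1 e u3 v3 s y l x z x' he hI hs hy hl h7 h8 hz h9 h10 =>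
      exact Or.inr ⟨_, _, _, _, ⟨e, he, rfl, rfl⟩, ⟨u3, v3, _, _, hI, ⟨s, y, l, _, _, hs, hy, hl,
        ⟨x, _, _, _, ⟨h7, h8, rfl⟩, ⟨z, _, _, hz, ⟨x', _, ⟨h9, h10, rfl⟩, rfl, rfl⟩, rfl,
          rfl⟩, rfl, rfl⟩, rfl, rfl⟩, rfl, rfl⟩, rfl, rfl⟩

theorem dom_kK0 (b : Bool) (u : List (Ltr Fr Sym)) : Dom (kK0 b) u ↔ ∃ o s y x,
    (O1 o ∧ o.k = b) ∧ Sep s ∧ O0 y ∧ (Sep x ∧ x.k ≠ b) ∧ u = [o, s, y, x] := by
  simp only [kK0, dom_csame, dom_kl]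
  constructor
  · rintro ⟨o, w, h1, ⟨s, w1, h3, ⟨y, w2, h4, ⟨x, h5, rfl⟩, rfl⟩, rfl⟩, rfl⟩
    exact ⟨o, s, y, x, h1, h3, h4, h5, rfl⟩
  · rintro ⟨o, s, y, x, h1, h3, h4, h5, rfl⟩
    exact ⟨o, _, h1, ⟨s, _, h3, ⟨y, _, h4, ⟨x, h5, rfl⟩, rfl⟩, rfl⟩, rfl⟩

theorem dom_kKb (b : Bool) (u : List (Ltr Fr Sym)) : Dom (kKb b) u ↔ ∃ e u1 u1' s y l x z x',
    CE b e ∧ InL u1 u1' ∧ Sep s ∧ O0 y ∧ Spn (fun x => x.k = false) l ∧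
      X0 x ∧ x.k = true ∧ IsZ z ∧ Sep x' ∧ x'.k ≠ b ∧
      u = cflat [e] ++ (u1 ++ s :: y :: (flat l ++ x :: (z ++ [x']))) := by
  simp only [kKb, dom_cat (rEk b b), dom_cat (rIn true), dom_rEk, dom_rIn, dom_rRt, dom_csame,
    dom_cZ, dom_kl]
  constructor
  · rintro ⟨u1, u2, ⟨e, he, rfl⟩, ⟨u3, u4, ⟨u3', hI⟩, ⟨s, y, l, w, hs, hy, hl,
        ⟨x, w5, ⟨h7, h8⟩, ⟨z, w6, hz, ⟨x', ⟨h9, h10⟩, rfl⟩, rfl⟩, rfl⟩, rfl⟩, rfl⟩, rfl⟩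
    exact ⟨e, u3, u3', s, y, l, x, z, x', he, hI, hs, hy, hl, h7, h8, hz, h9, h10, rfl⟩
  · rintro ⟨e, u3, u3', s, y, l, x, z, x', he, hI, hs, hy, hl, h7, h8, hz, h9, h10, rfl⟩
    exact ⟨_, _, ⟨e, he, rfl⟩, ⟨u3, _, ⟨u3', hI⟩, ⟨s, y, l, _, hs, hy, hl,
        ⟨x, _, ⟨h7, h8⟩, ⟨z, _, hz, ⟨x', ⟨h9, h10⟩, rfl⟩, rfl⟩, rfl⟩, rfl⟩, rfl⟩, rfl⟩

theorem dom_kK2 (u : List (Ltr Fr Sym)) : Dom kK2 u ↔ ∃ w u1 u1' s y l x,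
    X0 w ∧ InL u1 u1' ∧ Sep s ∧ O0 y ∧ Spn (fun x => x.k = false) l ∧ X0 x ∧ x.k = true ∧
      u = w :: (u1 ++ s :: y :: (flat l ++ [x])) := by
  simp only [kK2, dom_cat (rIn true), dom_rIn, dom_rRt, dom_csame, dom_kl]
  constructor
  · rintro ⟨w, w1, h0, ⟨u3, u4, ⟨u3', hI⟩, ⟨s, y, l, w2, hs, hy, hl,
        ⟨x, ⟨h7, h8⟩, rfl⟩, rfl⟩, rfl⟩, rfl⟩
    exact ⟨w, u3, u3', s, y, l, x, h0, hI, hs, hy, hl, h7, h8, rfl⟩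
  · rintro ⟨w, u3, u3', s, y, l, x, h0, hI, hs, hy, hl, h7, h8, rfl⟩
    exact ⟨w, _, h0, ⟨u3, _, ⟨u3', hI⟩, ⟨s, y, l, _, hs, hy, hl,
        ⟨x, ⟨h7, h8⟩, rfl⟩, rfl⟩, rfl⟩, rfl⟩

theorem dom_kK3 (u : List (Ltr Fr Sym)) : Dom kK3 u ↔ ∃ w u1 u1' s y l x,
    X1 w ∧ InL u1 u1' ∧ Sep s ∧ O0 y ∧ Spn (fun x => x.k = false) l ∧ X1 x ∧ x.k = true ∧
      u = w :: (u1 ++ s :: y :: (flat l ++ [x])) := by
  simp only [kK3, dom_cat (rIn true), dom_rIn, dom_rRt, dom_csame, dom_kl]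
  constructor
  · rintro ⟨w, w1, h0, ⟨u3, u4, ⟨u3', hI⟩, ⟨s, y, l, w2, hs, hy, hl,
        ⟨x, ⟨h7, h8⟩, rfl⟩, rfl⟩, rfl⟩, rfl⟩
    exact ⟨w, u3, u3', s, y, l, x, h0, hI, hs, hy, hl, h7, h8, rfl⟩
  · rintro ⟨w, u3, u3', s, y, l, x, h0, hI, hs, hy, hl, h7, h8, rfl⟩
    exact ⟨w, _, h0, ⟨u3, _, ⟨u3', hI⟩, ⟨s, y, l, _, hs, hy, hl,
        ⟨x, ⟨h7, h8⟩, rfl⟩, rfl⟩, rfl⟩, rfl⟩

theorem killK (u : List (Ltr Fr Sym)) : Kill sysK u ↔ KillK u := by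
  have m0 : NK (rK0 : LR Fr Sym) :=
    nk_cat (nk_chg _) (nk_cat (nk_same _) (nk_cat (nk_same _) (nk_chg _)))
  have m1 : NK (rK1 : LR Fr Sym) :=
    nk_cat (nk_rEk _ _) (nk_cat (nk_rIn _) (nk_rRt _ (nk_cat (nk_chg _)
      (nk_cat nk_rZ (nk_chg _)))))
  unfold sysK
  simp only [kill_alts_cons, kill_alts_nil, kill_nk m0, kill_nk m1, kill_ak (ak_kK0 _),
    kill_ak (ak_kKb _), kill_ak ak_kK2, kill_ak ak_kK3, or_false, false_or, dom_kK0, dom_kKb,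
    dom_kK2, dom_kK3]
  constructor
  · rintro (h | h | h | h | h | h)
    · obtain ⟨o, s, y, x, ⟨h1, h2⟩, h3, h4, ⟨h5, h6⟩, rfl⟩ := h
      exact KillK.k0 o s y x h1 h3 h4 h5 (by rw [h2]; exact h6.symm)
    · obtain ⟨o, s, y, x, ⟨h1, h2⟩, h3, h4, ⟨h5, h6⟩, rfl⟩ := h
      exact KillK.k0 o s y x h1 h3 h4 h5 (by rw [h2]; exact h6.symm)
    · obtain ⟨e, u3, u3', s, y, l, x, z, x', he, hI, hs, hy, hl, h7, h8, hz, h9, h10, rfl⟩ := h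
      exact KillK.kb true e u3 u3' s y l x z x' he hI hs hy hl h7 h8 hz h9 h10
    · obtain ⟨e, u3, u3', s, y, l, x, z, x', he, hI, hs, hy, hl, h7, h8, hz, h9, h10, rfl⟩ := h
      exact KillK.kb false e u3 u3' s y l x z x' he hI hs hy hl h7 h8 hz h9 h10
    · obtain ⟨w, u3, u3', s, y, l, x, h0, hI, hs, hy, hl, h7, h8, rfl⟩ := h
      exact KillK.k2 w u3 u3' s y l x h0 hI hs hy hl h7 h8
    · obtain ⟨w, u3, u3', s, y, l, x, h0, hI, hs, hy, hl, h7, h8, rfl⟩ := h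
      exact KillK.k3 w u3 u3' s y l x h0 hI hs hy hl h7 h8
  · intro h
    cases h with
    | k0 o s y x h1 h3 h4 h5 h6 =>
      cases hb : o.k with
      | true => exact Or.inl ⟨o, s, y, x, ⟨h1, hb⟩, h3, h4, ⟨h5, by rw [hb] at h6; exact h6.symm⟩,
          rfl⟩
      | false => exact Or.inr (Or.inl ⟨o, s, y, x, ⟨h1, hb⟩, h3, h4,
          ⟨h5, by rw [hb] at h6; exact h6.symm⟩, rfl⟩)
    | kb b e u3 u3' s y l x z x' he hI hs hy hl h7 h8 hz h9 h10 =>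
      cases b with
      | true => exact Or.inr (Or.inr (Or.inl ⟨e, u3, u3', s, y, l, x, z, x', he, hI, hs, hy, hl,
          h7, h8, hz, h9, h10, rfl⟩))
      | false => exact Or.inr (Or.inr (Or.inr (Or.inl ⟨e, u3, u3', s, y, l, x, z, x', he, hI, hs,
          hy, hl, h7, h8, hz, h9, h10, rfl⟩)))
    | k2 w u3 u3' s y l x h0 hI hs hy hl h7 h8 =>
      exact Or.inr (Or.inr (Or.inr (Or.inr (Or.inl
        ⟨w, u3, u3', s, y, l, x, h0, hI, hs, hy, hl, h7, h8, rfl⟩))))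
    | k3 w u3 u3' s y l x h0 hI hs hy hl h7 h8 =>
      exact Or.inr (Or.inr (Or.inr (Or.inr (Or.inr
        ⟨w, u3, u3', s, y, l, x, h0, hI, hs, hy, hl, h7, h8, rfl⟩))))

theorem tR1 : StR1 := fun _ _ u v => ⟨stepA u v, killA u, stepK u v, killK u⟩

end Pool.Agent.LibPeps
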