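import Pool.Agent.LibPeps.RBase

set_option autoImplicit false

/-! Task R2: layer C and the size of the system. -/

namespace Pool.Agent.LibPeps
open Ltr

variable {Fr Sym : Type}

theorem step_rEnd (c c' : Con Fr Sym) (u v : List (Ltr Fr Sym)) : Step (rEnd c c') u v ↔
    (∃ x, X1 x ∧ x.c = c ∧ u = [x] ∧ v = [x.setC c']) ∨
    (∃ x z s, X0 x ∧ x.c = c ∧ IsZ z ∧ Sep s ∧ s.c = .nil ∧ u = x :: (z ++ [s]) ∧
      v = x.setC c' :: (z ++ [s])) := by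
  unfold rEnd sC
  rw [step_alt, step_chg]
  simp only [step_cchg, step_cZ, step_same]
  constructor
  · rintro (⟨x, y, ⟨h1, h2, rfl⟩, rfl, rfl⟩ | ⟨x, y, w, w', ⟨h1, h2, rfl⟩, ⟨z, w1, w1', hz,
      ⟨s, ⟨h3, h4⟩, rfl, rfl⟩, rfl, rfl⟩, rfl, rfl⟩)
    · exact Or.inl ⟨x, h1, h2, rfl, rfl⟩
    · exact Or.inr ⟨x, z, s, h1, h2, hz, h3, h4, rfl, rfl⟩
  · rintro (⟨x, h1, h2, rfl, rfl⟩ | ⟨x, z, s, h1, h2, hz, h3, h4, rfl, rfl⟩)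
    · exact Or.inl ⟨x, _, ⟨h1, h2, rfl⟩, rfl, rfl⟩
    · exact Or.inr ⟨x, _, _, _, ⟨h1, h2, rfl⟩, ⟨z, _, _, hz,
      ⟨s, ⟨h3, h4⟩, rfl, rfl⟩, rfl, rfl⟩, rfl, rfl⟩

theorem nk_rEnd (c c' : Con Fr Sym) : NK (rEnd c c') :=
  nk_alt (nk_chg _) (nk_cat (nk_chg _) (nk_cat nk_rZ (nk_same _)))

theorem dom_kEnd (P : Con Fr Sym → Prop) (u : List (Ltr Fr Sym)) : Dom (kEnd P) u ↔
    (∃ x, X1 x ∧ P x.c ∧ u = [x]) ∨
    (∃ x z s, X0 x ∧ P x.c ∧ IsZ z ∧ Sep s ∧ s.c = .nil ∧ u = x :: (z ++ [s])) := by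
  unfold kEnd
  rw [dom_alt, dom_kl]
  simp only [dom_csame, dom_cZ, dom_kl]
  constructor
  · rintro (⟨x, ⟨h1, h2⟩, rfl⟩ | ⟨x, w, ⟨h1, h2⟩, ⟨z, w1, hz, ⟨s, ⟨h3, h4⟩, rfl⟩, rfl⟩, rfl⟩)
    · exact Or.inl ⟨x, h1, h2, rfl⟩
    · exact Or.inr ⟨x, z, s, h1, h2, hz, h3, h4, rfl⟩
  · rintro (⟨x, h1, h2, rfl⟩ | ⟨x, z, s, h1, h2, hz, h3, h4, rfl⟩)
    · exact Or.inl ⟨x, ⟨h1, h2⟩, rfl⟩
    · exact Or.inr ⟨x, _, ⟨h1, h2⟩, ⟨z, _, hz, ⟨s, ⟨h3, h4⟩, rfl⟩, rfl⟩, rfl⟩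

theorem ak_kEnd (P : Con Fr Sym → Prop) : AK (kEnd P) :=
  ak_alt (ak_kl _) (ak_cat (ak_cat (ak_kl _)))

theorem rC1_some (M : Mach Fr Sym) (φ φ' : Fr) (b : Sym) (h : M.push φ = some (b, φ')) :
    rC1 M φ = .cat (sC X0 (.fr φ) (.fr φ')) (.cat rZ (.sc (rX fun x => x.c.IsUnc)
      (rEnd .nil (.unc b)))) := by
  unfold rC1
  rw [h]

theorem rC1_none (M : Mach Fr Sym) (φ : Fr) (h : M.push φ = none) :
    rC1 M φ = .cat (sC X0 (.fr φ) (.cons φ)) (.cat rZ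
      (chg fun x y => Sep x ∧ ∃ b, x.c = .unc b ∧ y = x.setC (.fr (M.enter φ b)))) := by
  unfold rC1
  rw [h]

theorem step_rC1 (M : Mach Fr Sym) (φ : Fr) (u v : List (Ltr Fr Sym)) (h : Step (rC1 M φ) u v) :
    RuleC M u v := by
  cases hp : M.push φ with
  | none =>
    rw [rC1_none M φ hp] at h
    unfold sC at h
    simp only [step_cchg, step_cZ, step_chg] at h
    obtain ⟨x, y, w, w', ⟨h1, h2, rfl⟩, ⟨z, w1, w1', hz, ⟨x', y', ⟨h3, b, h4, rfl⟩, rfl, rfl⟩,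
      rfl, rfl⟩, rfl, rfl⟩ := h
    exact RuleC.move φ b x z x' hp h1 h2 hz h3 h4
  | some p =>
    obtain ⟨b, φ'⟩ := p
    rw [rC1_some M φ φ' b hp] at h
    unfold sC at h
    simp only [step_cchg, step_cZ, step_scX, step_rEnd] at h
    obtain ⟨x, y, w, w', ⟨h1, h2, rfl⟩, ⟨z, w1, w1', hz, ⟨l, w2, w2', hl, h3, rfl, rfl⟩,
      rfl, rfl⟩, rfl, rfl⟩ := h
    rcases h3 with ⟨x', h4, h5, rfl, rfl⟩ | ⟨x', z', s, h4, h5, hz', h6, h7, rfl, rfl⟩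
    · exact RuleC.push1 φ φ' b x z l x' hp h1 h2 hz hl h4 h5
    · exact RuleC.push2 φ φ' b x z l x' z' s hp h1 h2 hz hl h4 h5 hz' h6 h7

theorem nk_rC1 (M : Mach Fr Sym) (φ : Fr) : NK (rC1 M φ) := by
  cases hp : M.push φ with
  | none =>
    rw [rC1_none M φ hp]
    exact nk_cat (nk_chg _) (nk_cat nk_rZ (nk_chg _))
  | some p =>
    obtain ⟨b, φ'⟩ := p
    rw [rC1_some M φ φ' b hp]
    exact nk_cat (nk_chg _) (nk_cat nk_rZ (nk_sc (nk_rX _) (nk_rEnd _ _)))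

section
variable (M : Mach Fr Sym)

theorem ak_kC1 : AK (kC1 : LR Fr Sym) := ak_cat (ak_kl _)
theorem ak_kC2 : AK (kC2 : LR Fr Sym) := ak_cat (ak_cat (ak_kl _))
theorem ak_kC3 : AK (kC3 : LR Fr Sym) := ak_cat (ak_cat (ak_kl _))
theorem ak_kC4 : AK (kC4 : LR Fr Sym) := ak_cat (ak_cat (ak_kl _))
theorem ak_kC5 (ψ : Fr) : AK (kC5 M ψ) := ak_cat (ak_cat (ak_kl _))
theorem ak_kC6 : AK (kC6 : LR Fr Sym) := ak_kl _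
theorem ak_kC7 : AK (kC7 M) := ak_cat (ak_kl _)
theorem ak_kC8 : AK (kC8 M) := ak_cat (ak_cat (ak_kl _))
theorem ak_kC9 (b : Sym) : AK (kC9 M b) := ak_cat (ak_cat (ak_sc (ak_kEnd _)))
theorem ak_kC10 : AK (kC10 M) := ak_kEnd _
theorem ak_kC11 : AK (kC11 M) := ak_kl _

variable [Fintype Fr] [Fintype Sym]

theorem stepC (u v : List (Ltr Fr Sym)) : Step (sysC M) u v ↔ RuleC M u v := by
  unfold sysC
  simp only [step_alt, step_bigT, step_alts_cons, step_alts_nil, step_ak (ak_kC5 M _),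
    step_ak (ak_kC9 M _), step_ak ak_kC1, step_ak ak_kC2, step_ak ak_kC3, step_ak ak_kC4,
    step_ak ak_kC6, step_ak (ak_kC7 M), step_ak (ak_kC8 M), step_ak (ak_kC10 M),
    step_ak (ak_kC11 M), exists_false, or_false, false_or]
  constructor
  · rintro (⟨φ, h⟩ | h)
    · exact step_rC1 M φ u v h
    · simp only [rC0, sC, step_csame, step_chg] at h
      obtain ⟨y, w, w', h1, ⟨x, x', ⟨h2, h3, rfl⟩, rfl, rfl⟩, rfl, rfl⟩ := h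
      exact RuleC.c0 y x h1 h2 h3
  · intro h
    cases h with
    | c0 y x h1 h2 h3 =>
      refine Or.inr ?_
      simp only [rC0, sC, step_csame, step_chg]
      exact ⟨y, _, _, h1, ⟨x, _, ⟨h2, h3, rfl⟩, rfl, rfl⟩, rfl, rfl⟩
    | push1 φ φ' b x z l x' hp h1 h2 hz hl h4 h5 =>
      refine Or.inl ⟨φ, ?_⟩
      rw [rC1_some M φ φ' b hp]
      unfold sC
      simp only [step_cchg, step_cZ, step_scX, step_rEnd]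
      exact ⟨x, _, _, _, ⟨h1, h2, rfl⟩, ⟨z, _, _, hz, ⟨l, _, _, hl,
        Or.inl ⟨x', h4, h5, rfl, rfl⟩, rfl, rfl⟩, rfl, rfl⟩, rfl, rfl⟩
    | push2 φ φ' b x z l x' z' s hp h1 h2 hz hl h4 h5 hz' h6 h7 =>
      refine Or.inl ⟨φ, ?_⟩
      rw [rC1_some M φ φ' b hp]
      unfold sC
      simp only [step_cchg, step_cZ, step_scX, step_rEnd]
      exact ⟨x, _, _, _, ⟨h1, h2, rfl⟩, ⟨z, _, _, hz, ⟨l, _, _, hl,
        Or.inr ⟨x', z', s, h4, h5, hz', h6, h7, rfl, rfl⟩, rfl, rfl⟩, rfl, rfl⟩, rfl, rfl⟩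
    | move φ b x z x' hp h1 h2 hz h3 h4 =>
      refine Or.inl ⟨φ, ?_⟩
      rw [rC1_none M φ hp]
      unfold sC
      simp only [step_cchg, step_cZ, step_chg]
      exact ⟨x, _, _, _, ⟨h1, h2, rfl⟩, ⟨z, _, _, hz, ⟨x', _, ⟨h3, b, h4, rfl⟩, rfl, rfl⟩,
        rfl, rfl⟩, rfl, rfl⟩

/-- kills of the form X0 with P, Z, separator with Q -/
theorem dom_pair (P Q : Ltr Fr Sym → Prop) (u : List (Ltr Fr Sym)) :
    Dom (.cat (same P) (.cat rZ (kl Q))) u ↔ ∃ x z x', P x ∧ IsZ z ∧ Q x' ∧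
      u = x :: (z ++ [x']) := by
  simp only [dom_csame, dom_cZ, dom_kl]
  constructor
  · rintro ⟨x, w, h1, ⟨z, w1, hz, ⟨x', h2, rfl⟩, rfl⟩, rfl⟩
    exact ⟨x, z, x', h1, hz, h2, rfl⟩
  · rintro ⟨x, z, x', h1, hz, h2, rfl⟩
    exact ⟨x, _, h1, ⟨z, _, hz, ⟨x', h2, rfl⟩, rfl⟩, rfl⟩

/-- kills of two letters -/
theorem dom_two (P Q : Ltr Fr Sym → Prop) (u : List (Ltr Fr Sym)) :
    Dom (.cat (same P) (kl Q)) u ↔ ∃ x x', P x ∧ Q x' ∧ u = [x, x'] := by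
  simp only [dom_csame, dom_kl]
  constructor
  · rintro ⟨x, w, h1, ⟨x', h2, rfl⟩, rfl⟩
    exact ⟨x, x', h1, h2, rfl⟩
  · rintro ⟨x, x', h1, h2, rfl⟩
    exact ⟨x, _, h1, ⟨x', h2, rfl⟩, rfl⟩

theorem dom_kC9 (b : Sym) (u : List (Ltr Fr Sym)) : Dom (kC9 M b) u ↔ ∃ x z l w,
    (X0 x ∧ ∃ φ ψ, x.c = .fr φ ∧ M.push ψ = some (b, φ)) ∧ IsZ z ∧
      Spn (fun x => x.c.IsUnc) l ∧ Dom (kEnd fun c => ∃ b', c = .unc b' ∧ b' ≠ b) w ∧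
      u = x :: (z ++ (flat l ++ w)) := by
  unfold kC9
  simp only [dom_csame, dom_cZ, dom_scX]
  constructor
  · rintro ⟨x, w, h1, ⟨z, w1, hz, ⟨l, w2, hl, h, rfl⟩, rfl⟩, rfl⟩
    exact ⟨x, z, l, w2, h1, hz, hl, h, rfl⟩
  · rintro ⟨x, z, l, w2, h1, hz, hl, h, rfl⟩
    exact ⟨x, _, h1, ⟨z, _, hz, ⟨l, w2, hl, h, rfl⟩, rfl⟩, rfl⟩

theorem killC (u : List (Ltr Fr Sym)) : Kill (sysC M) u ↔ KillC M u := by
  have m0 : NK (rC0 M) := nk_cat (nk_same _) (nk_chg _)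
  unfold sysC
  simp only [kill_alt, kill_bigT, kill_alts_cons, kill_alts_nil, kill_nk (nk_rC1 M _),
    kill_nk m0, kill_ak (ak_kC5 M _),
    kill_ak (ak_kC9 M _), kill_ak ak_kC1, kill_ak ak_kC2, kill_ak ak_kC3, kill_ak ak_kC4,
    kill_ak ak_kC6, kill_ak (ak_kC7 M), kill_ak (ak_kC8 M), kill_ak (ak_kC10 M),
    kill_ak (ak_kC11 M), exists_false, or_false, false_or, dom_kC9]
  simp only [kC1, kC2, kC3, kC4, kC5, kC6, kC7, kC8, kC10, kC11, dom_pair, dom_two, dom_kEnd,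
    dom_kl]
  constructor
  · rintro (⟨ψ, x, z, x', ⟨h1, h2⟩, hz, ⟨h3, φ, h4, h5, h6⟩, rfl⟩ |
      ⟨b, x, z, l, w, ⟨h1, φ, ψ, h2, h3⟩, hz, hl, h4, rfl⟩ |
      ⟨x, x', h1, ⟨h2, h3⟩, rfl⟩ |
      ⟨x, z, x', ⟨h1, h2⟩, hz, ⟨h3, h4⟩, rfl⟩ |
      ⟨x, z, x', ⟨h1, h2⟩, hz, ⟨h3, h4⟩, rfl⟩ |
      ⟨x, z, x', ⟨h1, h2⟩, hz, ⟨h3, h4⟩, rfl⟩ |
      ⟨x, ⟨h1, h2⟩, rfl⟩ |
      ⟨x, x', h1, ⟨h2, φ, h3, h4, h5⟩, rfl⟩ |
      ⟨x, z, x', ⟨h1, h2⟩, hz, ⟨h3, b, h4⟩, rfl⟩ |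
      (⟨x, h1, ⟨φ, h2, h3⟩, rfl⟩ | ⟨x, z, s, h1, ⟨φ, h2, h3⟩, hz, h4, h5, rfl⟩) |
      ⟨x, ⟨h1, φ, h2, h3⟩, rfl⟩)
    · refine KillC.c2 x z x' h1 hz h3 ?_
      rw [h2, h4]
      exact BadPair.p4 ψ φ h5 h6
    · rcases h4 with ⟨x', h5, ⟨b', h6, h7⟩, rfl⟩ | ⟨x', z', s, h5, ⟨b', h6, h7⟩, hz', h8, h9, rfl⟩
      · exact KillC.c5 φ ψ b b' x z l x' h3 h7 h1 h2 hz hl h5 h6
      · exact KillC.c6 φ ψ b b' x z l x' z' s h3 h7 h1 h2 hz hl h5 h6 hz' h8 h9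
    · exact KillC.c1 x x' h1 h2 h3
    · refine KillC.c2 x z x' h1 hz h3 ?_
      rw [h2]
      exact BadPair.p1 _ h4
    · exact KillC.c2 x z x' h1 hz h3 (BadPair.p2 _ _ h2 h4)
    · exact KillC.c2 x z x' h1 hz h3 (BadPair.p3 _ _ h2 h4)
    · exact KillC.c3 x h1 h2
    · exact KillC.c4 x x' φ h1 h2 h3 h4 h5
    · refine KillC.c2 x z x' h1 hz h3 ?_
      rw [h2, h4]
      exact BadPair.p5 b
    · exact KillC.c7 φ x h1 h2 h3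
    · exact KillC.c8 φ x z s h1 h2 h3 hz h4 h5
    · exact KillC.c9 φ x h1 h2 h3
  · intro h
    cases h with
    | c1 x x' h1 h2 h3 => exact Or.inr (Or.inr (Or.inl ⟨x, x', h1, ⟨h2, h3⟩, rfl⟩))
    | c2 x z x' h1 hz h3 hb =>
      generalize hc : x.c = c at hb
      generalize hc' : x'.c = c' at hb
      cases hb with
      | p1 c h4 =>
        exact Or.inr (Or.inr (Or.inr (Or.inl ⟨x, z, x', ⟨h1, hc⟩, hz,
          ⟨h3, by rw [hc']; exact h4⟩, rfl⟩)))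
      | p2 c c' h4 h5 =>
        exact Or.inr (Or.inr (Or.inr (Or.inr (Or.inl ⟨x, z, x', ⟨h1, by rw [hc]; exact h4⟩, hz,
          ⟨h3, by rw [hc']; exact h5⟩, rfl⟩))))
      | p3 c c' h4 h5 =>
        exact Or.inr (Or.inr (Or.inr (Or.inr (Or.inr (Or.inl
          ⟨x, z, x', ⟨h1, by rw [hc]; exact h4⟩, hz, ⟨h3, by rw [hc']; exact h5⟩, rfl⟩)))))
      | p4 ψ φ h4 h5 =>
        exact Or.inl ⟨ψ, x, z, x', ⟨h1, hc⟩, hz, ⟨h3, φ, hc', h4, h5⟩, rfl⟩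
      | p5 b =>
        exact Or.inr (Or.inr (Or.inr (Or.inr (Or.inr (Or.inr (Or.inr (Or.inr (Or.inl
          ⟨x, z, x', ⟨h1, hc⟩, hz, ⟨h3, b, hc'⟩, rfl⟩))))))))
    | c3 x h1 h2 =>
      exact Or.inr (Or.inr (Or.inr (Or.inr (Or.inr (Or.inr (Or.inl ⟨x, ⟨h1, h2⟩, rfl⟩))))))
    | c4 x x' φ h1 h2 h3 h4 h5 =>
      exact Or.inr (Or.inr (Or.inr (Or.inr (Or.inr (Or.inr (Or.inr (Or.inl
        ⟨x, x', h1, ⟨h2, φ, h3, h4, h5⟩, rfl⟩)))))))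
    | c5 φ ψ b b' x z l x' h3 h7 h1 h2 hz hl h5 h6 =>
      exact Or.inr (Or.inl ⟨b, x, z, l, _, ⟨h1, φ, ψ, h2, h3⟩, hz, hl,
        Or.inl ⟨x', h5, ⟨b', h6, h7⟩, rfl⟩, rfl⟩)
    | c6 φ ψ b b' x z l x' z' s h3 h7 h1 h2 hz hl h5 h6 hz' h8 h9 =>
      exact Or.inr (Or.inl ⟨b, x, z, l, _, ⟨h1, φ, ψ, h2, h3⟩, hz, hl,
        Or.inr ⟨x', z', s, h5, ⟨b', h6, h7⟩, hz', h8, h9, rfl⟩, rfl⟩)
    | c7 φ x h1 h2 h3 =>
      exact Or.inr (Or.inr (Or.inr (Or.inr (Or.inr (Or.inr (Or.inr (Or.inr (Or.inr (Or.inl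
        (Or.inl ⟨x, h1, ⟨φ, h2, h3⟩, rfl⟩))))))))))
    | c8 φ x z s h1 h2 h3 hz h4 h5 =>
      exact Or.inr (Or.inr (Or.inr (Or.inr (Or.inr (Or.inr (Or.inr (Or.inr (Or.inr (Or.inl
        (Or.inr ⟨x, z, s, h1, ⟨φ, h2, h3⟩, hz, h4, h5, rfl⟩))))))))))
    | c9 φ x h1 h2 h3 =>
      exact Or.inr (Or.inr (Or.inr (Or.inr (Or.inr (Or.inr (Or.inr (Or.inr (Or.inr (Or.inr
        ⟨x, ⟨h1, φ, h2, h3⟩, rfl⟩)))))))))

theorem sz_bigT {α : Type} (ι : Type) [Fintype ι] (f : ι → Rex α) (K : ℕ)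
    (h : ∀ i, (f i).sz ≤ K) : (bigT ι f).sz ≤ K * Fintype.card ι := by
  unfold bigT
  rw [Rex.sz]
  refine (Finset.sum_le_sum (fun i _ => h _)).trans ?_
  simp [mul_comm]

theorem sz_sys : (sys M).sz ≤ 1000 + 100 * Fintype.card Fr + 100 * Fintype.card Sym := by
  have h1 := sz_bigT Fr (rC1 M) 50 (by
    intro φ
    cases hp : M.push φ with
    | none =>
      rw [rC1_none M φ hp]
      simp [Rex.sz, sC, rZ, rE, chg, same]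
    | some p =>
      obtain ⟨b, φ'⟩ := p
      rw [rC1_some M φ φ' b hp]
      simp [Rex.sz, sC, rZ, rE, chg, same, rX, rEnd])
  have h2 := sz_bigT Fr (kC5 M) 50 (by
    intro φ
    simp [Rex.sz, kC5, rZ, rE, same, kl])
  have h3 := sz_bigT Sym (kC9 M) 100 (by
    intro φ
    simp [Rex.sz, kC9, rZ, rE, same, kl, rX, kEnd])
  have h4 : (sysA : LR Fr Sym).sz ≤ 200 := by
    simp [Rex.sz, sysA, alts, rA0, rA1, kA1, kA2, kA3, kS1, kS2, kS3, kS4, rZ, rE, same, kl, chg,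
      rX]
  have h5 : (sysK : LR Fr Sym).sz ≤ 400 := by
    simp [Rex.sz, sysK, alts, rK0, rK1, kK0, kKb, kK2, kK3, rIn, rRt, rEk, sK, rZ, rE, same, kl,
      chg, rX]
  have h6 : (alts [rC0 M, kC1, kC2, kC3, kC4, kC6, kC7 M, kC8 M, kC10 M, kC11 M]).sz ≤ 400 := by
    simp [Rex.sz, alts, rC0, kC1, kC2, kC3, kC4, kC6, kC7, kC8, kC10, kC11, kEnd, sC, rZ, rE,
      same, kl, chg]
  have h7 : (sys M).sz = (sysA : LR Fr Sym).sz + ((sysK : LR Fr Sym).sz +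
      ((bigT Fr (rC1 M)).sz + ((bigT Fr (kC5 M)).sz + ((bigT Sym (kC9 M)).sz +
        (alts [rC0 M, kC1, kC2, kC3, kC4, kC6, kC7 M, kC8 M, kC10 M, kC11 M]).sz)))) := by
    simp only [sys, sysC, Rex.sz]
  rw [h7]
  omega

end

theorem tR2 : StR2 := fun _ _ _ _ M u v => ⟨stepC M u v, killC M u, sz_sys M⟩

end Pool.Agent.LibPeps
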