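import Pool.Agent.LibPeps.DefsP

set_option autoImplicit false

/-! TASK W.  The PEPS with physical index (generator s, letter y) and entries
`g s l u r * [w = y]`: the down leg is copied to the physical index, so the rows decouple. -/

namespace Pool.Agent.LibPeps

section W
variable {G V E : Type} [Fintype E] [DecidableEq E]

theorem W_sum_cons {X : Type} [Fintype X] [DecidableEq X] (n : ℕ) (f : (Fin (n + 1) → X) → ℂ) :
    ∑ p : Fin (n + 1) → X, f p = ∑ x : X, ∑ q : Fin n → X, f (Fin.cons x q) := by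
  rw [← Fintype.sum_prod_type']
  exact (Fintype.sum_equiv (Fin.consEquiv fun _ => X) _ _ (fun _ => rfl)).symm

theorem W_amp_path (g : G → E → V → E → ℂ) (n : ℕ) (s : Fin n → G) (w : Fin n → V) (e e' : E) :
    amp g (List.ofFn s) (List.ofFn w) e e' =
      ∑ p : Fin (n + 1) → E, (if p 0 = e ∧ p (Fin.last n) = e' then 1 else 0) *
        ∏ j : Fin n, g (s j) (p j.castSucc) (w j) (p j.succ) := by
  induction n generalizing e with
  | zero =>
    rw [W_sum_cons, List.ofFn_zero, List.ofFn_zero, amp, Finset.sum_eq_single e]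
    · simp
    · intro x _ hx
      simp [hx]
    · intro h; exact absurd (Finset.mem_univ _) h
  | succ n ih =>
    rw [List.ofFn_succ, List.ofFn_succ, amp, W_sum_cons]
    symm
    rw [Finset.sum_eq_single e]
    · simp only [ih, Finset.mul_sum]
      rw [Finset.sum_comm]
      refine Finset.sum_congr rfl fun p _ => ?_
      rw [Finset.sum_eq_single (p 0)]
      · have h1 : (Fin.cons e p : Fin (n + 1 + 1) → E) (Fin.last (n + 1)) = p (Fin.last n) := rfl
        have h2 : ∀ j : Fin n, (Fin.cons e p : Fin (n + 1 + 1) → E) j.succ.castSucc =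
            p j.castSucc := fun _ => rfl
        have h3 : (Fin.cons e p : Fin (n + 1 + 1) → E) (Fin.castSucc 0) = e := rfl
        simp only [Fin.prod_univ_succ, h1, h2, h3, Fin.cons_zero, Fin.cons_succ, true_and]
        ring
      · intro x _ hx
        rw [if_neg (fun h => hx h.1.symm)]
        ring
      · intro h; exact absurd (Finset.mem_univ _) h
    · intro x _ hx
      refine Finset.sum_eq_zero fun p _ => ?_
      rw [if_neg (fun h => hx h.1), zero_mul]
    · intro h; exact absurd (Finset.mem_univ _) h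

/-- Sum over the horizontal edges row by row. -/
theorem W_rows (n k : ℕ) (B : (Fin n → E) → (Fin n → E) → ℂ)
    (F : Fin n → (Fin (k + 1) → E) → ℂ) :
    ∑ h : Fin n → Fin (k + 1) → E, B (fun i => h i 0) (fun i => h i (Fin.last k)) *
        ∏ i, F i (h i) =
      ∑ l : Fin n → E, ∑ r : Fin n → E, B l r *
        ∏ i, ∑ p : Fin (k + 1) → E, (if p 0 = l i ∧ p (Fin.last k) = r i then 1 else 0) *
          F i p := by
  have h1 : ∀ l r : Fin n → E,
      ∏ i, ∑ p : Fin (k + 1) → E, (if p 0 = l i ∧ p (Fin.last k) = r i then (1 : ℂ) else 0) *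
          F i p =
      ∑ h : Fin n → Fin (k + 1) → E,
        ∏ i, (if h i 0 = l i ∧ h i (Fin.last k) = r i then (1 : ℂ) else 0) * F i (h i) := by
    intro l r
    rw [Finset.prod_univ_sum, Fintype.piFinset_univ]
  simp only [h1, Finset.mul_sum]
  have h2 : ∀ l : Fin n → E, (∑ r : Fin n → E, ∑ h : Fin n → Fin (k + 1) → E,
      B l r * ∏ i, (if h i 0 = l i ∧ h i (Fin.last k) = r i then (1 : ℂ) else 0) * F i (h i)) =
      ∑ h : Fin n → Fin (k + 1) → E, ∑ r : Fin n → E,
      B l r * ∏ i, (if h i 0 = l i ∧ h i (Fin.last k) = r i then (1 : ℂ) else 0) * F i (h i) :=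
    fun l => Finset.sum_comm
  simp only [h2]
  rw [Finset.sum_comm]
  refine Finset.sum_congr rfl fun h _ => ?_
  rw [Finset.sum_eq_single (fun i => h i 0), Finset.sum_eq_single (fun i => h i (Fin.last k))]
  · simp
  · intro r _ hr
    obtain ⟨i, hi⟩ : ∃ i, h i (Fin.last k) ≠ r i := by
      by_contra hc
      push Not at hc
      exact hr (funext fun i => (hc i).symm)
    rw [Finset.prod_eq_zero (Finset.mem_univ i), mul_zero]
    rw [if_neg (fun h => hi h.2), zero_mul]
  · intro h; exact absurd (Finset.mem_univ _) h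
  · intro l _ hl
    obtain ⟨i, hi⟩ : ∃ i, h i 0 ≠ l i := by
      by_contra hc
      push Not at hc
      exact hl (funext fun i => (hc i).symm)
    refine Finset.sum_eq_zero fun r _ => ?_
    rw [Finset.prod_eq_zero (Finset.mem_univ i), mul_zero]
    rw [if_neg (fun h => hi h.1), zero_mul]
  · intro h; exact absurd (Finset.mem_univ _) h

/-- A product of separating kernels separates. -/
theorem W_prod {S X : Type} [Fintype X] [DecidableEq X] (m : ℕ) (K : Fin m → S → X → ℂ)
    (hK : ∀ i, ∀ β : X → ℂ, (∀ s, ∑ x, β x * K i s x = 0) → ∀ x, β x = 0)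
    (b : (Fin m → X) → ℂ)
    (hb : ∀ s : Fin m → S, ∑ x : Fin m → X, b x * ∏ i, K i (s i) (x i) = 0) :
    ∀ x, b x = 0 := by
  induction m with
  | zero =>
    intro x
    have := hb (fun i => i.elim0)
    simpa [Subsingleton.elim x default] using this
  | succ m ih =>
    have h1 : ∀ (x0 : X) (x' : Fin m → X), b (Fin.cons x0 x') = 0 := by
      intro x0 x'
      refine hK 0 (fun x0 => b (Fin.cons x0 x')) ?_ x0
      intro s0
      refine ih (fun i => K i.succ) (fun i => hK i.succ)
        (fun x' => ∑ x0, b (Fin.cons x0 x') * K 0 s0 x0) ?_ x'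
      intro s'
      have h2 := hb (Fin.cons s0 s')
      rw [W_sum_cons, Finset.sum_comm] at h2
      rw [← h2]
      refine Finset.sum_congr rfl fun x' _ => ?_
      rw [Finset.sum_mul]
      refine Finset.sum_congr rfl fun x0 _ => ?_
      simp only [Fin.prod_univ_succ, Fin.cons_zero, Fin.cons_succ]
      ring
    intro x
    rw [← Fin.cons_self_tail x]
    exact h1 _ _

end W

/-- The tensor. -/
noncomputable def W_A {D d : ℕ} {G : Type} (g : G → Fin D → Fin D → Fin D → ℂ)
    (q : Fin d ≃ G × Fin D) : Tensor d D :=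
  fun s l r u w => g (q s).1 l u r * if w = (q s).2 then 1 else 0

theorem W_region {D d : ℕ} {G : Type} (g : G → Fin D → Fin D → Fin D → ℂ)
    (q : Fin d ≃ G × Fin D) (n : ℕ) (b : Bdry n D → ℂ) (s : Fin n → Fin n → Fin d) :
    regionMap (W_A g q) n b s =
      ∑ v0 : Fin n → Fin D, ∑ l : Fin n → Fin D, ∑ r : Fin n → Fin D,
        b (l, r, v0, (Fin.cons v0 (fun i j => (q (s i j)).2) : Fin (n + 1) → Fin n → Fin D)
          (Fin.last n)) *
        ∏ i, amp g (List.ofFn fun j => (q (s i j)).1)
          (List.ofFn ((Fin.cons v0 (fun i j => (q (s i j)).2) : Fin (n + 1) → Fin n → Fin D)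
            i.castSucc)) (l i) (r i) := by
  change (∑ h : Fin n → Fin (n + 1) → Fin D, ∑ v : Fin (n + 1) → Fin n → Fin D,
    b (fun i => h i 0, fun i => h i (Fin.last n), fun j => v 0 j, fun j => v (Fin.last n) j) *
      ∏ i, ∏ j, W_A g q (s i j) (h i j.castSucc) (h i j.succ) (v i.castSucc j) (v i.succ j)) = _
  rw [Finset.sum_comm, W_sum_cons]
  refine Finset.sum_congr rfl fun v0 _ => ?_
  rw [Finset.sum_eq_single (fun i j => (q (s i j)).2)]
  · simp only [W_amp_path]
    rw [← W_rows n n (fun l r => b (l, r, v0,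
      (Fin.cons v0 (fun i j => (q (s i j)).2) : Fin (n + 1) → Fin n → Fin D) (Fin.last n)))]
    refine Finset.sum_congr rfl fun h _ => ?_
    congr 1
    refine Finset.prod_congr rfl fun i _ => Finset.prod_congr rfl fun j _ => ?_
    simp [W_A]
  · intro v _ hv
    obtain ⟨i, hi⟩ : ∃ i, v i ≠ fun j => (q (s i j)).2 := by
      by_contra hc
      push Not at hc
      exact hv (funext hc)
    obtain ⟨j, hj⟩ : ∃ j, v i j ≠ (q (s i j)).2 := by
      by_contra hc
      push Not at hc
      exact hi (funext hc)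
    refine Finset.sum_eq_zero fun h _ => ?_
    rw [Finset.prod_eq_zero (Finset.mem_univ i), mul_zero]
    rw [Finset.prod_eq_zero (Finset.mem_univ j)]
    rw [W_A, Fin.cons_succ, if_neg hj, mul_zero]
  · intro h; exact absurd (Finset.mem_univ _) h

theorem W_split {D d : ℕ} {G : Type} (g : G → Fin D → Fin D → Fin D → ℂ)
    (q : Fin d ≃ G × Fin D) (m : ℕ) (b : Bdry (m + 1) D → ℂ)
    (s : Fin (m + 1) → Fin (m + 1) → Fin d) :
    regionMap (W_A g q) (m + 1) b s =
      ∑ x : Fin m → Fin D × Fin D,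
        (∑ v0 : Fin (m + 1) → Fin D, ∑ l0, ∑ r0,
          b (Fin.cons l0 (fun i => (x i).1), Fin.cons r0 (fun i => (x i).2), v0,
            fun j => (q (s (Fin.last m) j)).2) *
          amp g (List.ofFn fun j => (q (s 0 j)).1) (List.ofFn v0) l0 r0) *
        ∏ i : Fin m, amp g (List.ofFn fun j => (q (s i.succ j)).1)
          (List.ofFn fun j => (q (s i.castSucc j)).2) (x i).1 (x i).2 := by
  rw [W_region]
  have h1 : ∀ F : (Fin m → Fin D) → (Fin m → Fin D) → ℂ,
      ∑ x : Fin m → Fin D × Fin D, F (fun i => (x i).1) (fun i => (x i).2) =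
        ∑ l, ∑ r, F l r := by
    intro F
    rw [← Fintype.sum_prod_type']
    exact Fintype.sum_equiv (Equiv.arrowProdEquivProdArrow _ _ _) _ _ (fun _ => rfl)
  rw [h1 (fun l' r' => (∑ v0 : Fin (m + 1) → Fin D, ∑ l0, ∑ r0,
          b (Fin.cons l0 l', Fin.cons r0 r', v0,
            fun j => (q (s (Fin.last m) j)).2) *
          amp g (List.ofFn fun j => (q (s 0 j)).1) (List.ofFn v0) l0 r0) *
        ∏ i : Fin m, amp g (List.ofFn fun j => (q (s i.succ j)).1)
          (List.ofFn fun j => (q (s i.castSucc j)).2) (l' i) (r' i))]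
  have e1 : ∀ v0 : Fin (m + 1) → Fin D,
      (Fin.cons v0 (fun i j => (q (s i j)).2) : Fin (m + 1 + 1) → Fin (m + 1) → Fin D)
        (Fin.last (m + 1)) = fun j => (q (s (Fin.last m) j)).2 := fun _ => rfl
  have e2 : ∀ (v0 : Fin (m + 1) → Fin D) (i : Fin m),
      (Fin.cons v0 (fun i j => (q (s i j)).2) : Fin (m + 1 + 1) → Fin (m + 1) → Fin D)
        i.succ.castSucc = fun j => (q (s i.castSucc j)).2 := fun _ _ => rfl
  have e3 : ∀ (v0 : Fin (m + 1) → Fin D),
      (Fin.cons v0 (fun i j => (q (s i j)).2) : Fin (m + 1 + 1) → Fin (m + 1) → Fin D)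
        (Fin.castSucc 0) = v0 := fun _ => rfl
  have e4 : ∀ v0 : Fin (m + 1) → Fin D, ∀ F : (Fin (m + 1) → Fin D) → (Fin (m + 1) → Fin D) → ℂ,
      ∑ l, ∑ r, F l r = ∑ l' : Fin m → Fin D, ∑ r' : Fin m → Fin D, ∑ l0, ∑ r0,
        F (Fin.cons l0 l') (Fin.cons r0 r') := by
    intro _ F
    rw [W_sum_cons, Finset.sum_comm]
    refine Finset.sum_congr rfl fun l' _ => ?_
    simp only [W_sum_cons]
    have : ∀ l0, (∑ r0, ∑ r' : Fin m → Fin D, F (Fin.cons l0 l') (Fin.cons r0 r')) =
        ∑ r' : Fin m → Fin D, ∑ r0, F (Fin.cons l0 l') (Fin.cons r0 r') :=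
      fun l0 => Finset.sum_comm
    simp only [this]
    rw [Finset.sum_comm]
  rw [Finset.sum_congr rfl (fun v0 _ => e4 v0 _), Finset.sum_comm]
  refine Finset.sum_congr rfl fun l' _ => ?_
  rw [Finset.sum_comm]
  refine Finset.sum_congr rfl fun r' _ => ?_
  rw [Finset.sum_mul]
  refine Finset.sum_congr rfl fun v0 _ => ?_
  rw [Finset.sum_mul]
  refine Finset.sum_congr rfl fun l0 _ => ?_
  rw [Finset.sum_mul]
  refine Finset.sum_congr rfl fun r0 _ => ?_
  simp only [Fin.prod_univ_succ, e1, e2, e3, Fin.cons_zero, Fin.cons_succ]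
  ring

theorem tW : StW := by
  intro D G _ g _
  classical
  refine ⟨Fintype.card (G × Fin D), W_A g (Fintype.equivFin _).symm, ?_⟩
  generalize (Fintype.equivFin (G × Fin D)).symm = q
  intro n hn
  obtain ⟨m, rfl⟩ : ∃ m, n = m + 1 := ⟨n - 1, by omega⟩
  constructor
  · intro hinj β hβ
    have h0 : regionMap (W_A g q) (m + 1) (fun x => β x.2.2.1 (x.1 0) (x.2.1 0)) = 0 := by
      funext s
      rw [W_split]
      simp only [Fin.cons_zero]
      rw [hβ (fun j => (q (s 0 j)).1)]
      simp
    have h1 := hinj (h0.trans (map_zero _).symm)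
    intro w e e'
    exact congrFun h1 (fun _ => e, fun _ => e', w, w)
  · intro hfull
    rw [injective_iff_map_eq_zero]
    intro b hb
    have key : ∀ (l0 r0 : Fin D) (l' r' : Fin m → Fin D) (v0 v1 : Fin (m + 1) → Fin D),
        b (Fin.cons l0 l', Fin.cons r0 r', v0, v1) = 0 := by
      intro l0 r0 l' r' v0 v1
      refine hfull (fun v0 l0 r0 => b (Fin.cons l0 l', Fin.cons r0 r', v0, v1)) ?_ v0 l0 r0
      intro s0
      have h2 := W_prod (S := Fin (m + 1) → G) (X := Fin D × Fin D) m
        (fun i s x => amp g (List.ofFn s) (List.ofFn v1) x.1 x.2) ?_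
        (fun x => ∑ v0 : Fin (m + 1) → Fin D, ∑ l0, ∑ r0,
          b (Fin.cons l0 (fun i => (x i).1), Fin.cons r0 (fun i => (x i).2), v0, v1) *
          amp g (List.ofFn s0) (List.ofFn v0) l0 r0) ?_ (fun i => (l' i, r' i))
      · exact h2
      · intro i β hβ x
        have h3 := hfull (fun w e e' => if w = v1 then β (e, e') else 0) ?_ v1 x.1 x.2
        · simpa using h3
        · intro s
          rw [Finset.sum_eq_single v1]
          · simp only [if_true]
            have h4 := hβ s
            rw [Fintype.sum_prod_type] at h4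
            exact h4
          · intro w _ hw
            simp [hw]
          · intro h; exact absurd (Finset.mem_univ _) h
      · intro s'
        have h5 := congrFun hb (fun i j => q.symm ((Fin.cons s0 s' : Fin (m + 1) → _) i j, v1 j))
        rw [W_split] at h5
        simpa using h5
    funext x
    obtain ⟨l, r, v0, v1⟩ := x
    have := key (l 0) (r 0) (Fin.tail l) (Fin.tail r) v0 v1
    rw [Fin.cons_self_tail, Fin.cons_self_tail] at this
    exact this

end Pool.Agent.LibPeps
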