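import Pool.Agent.LibPeps.Final
import Pool.Agent.LibPeps.A1
import Pool.Agent.LibPeps.A2
import Pool.Agent.LibPeps.A3
import Pool.Agent.LibPeps.A4
import Pool.Agent.LibPeps.AU
import Pool.Agent.LibPeps.G
import Pool.Agent.LibPeps.W
import Pool.Agent.LibPeps.R1
import Pool.Agent.LibPeps.R2
import Pool.Agent.LibPeps.B1
import Pool.Agent.LibPeps.B2
import Pool.Agent.LibPeps.B3
import Pool.Agent.LibPeps.B4
import Pool.Agent.LibPeps.B5
import Pool.Agent.LibPeps.Q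
import Pool.Agent.LibPeps.D

set_option autoImplicit false

/-! The main theorem. -/

namespace Pool.Agent.LibPeps

theorem one_le_d {d D : ℕ} (hD : 1 ≤ D) (A : Tensor d D) (hA : IsNormal A) : 1 ≤ d := by
  by_contra h
  have hd : d = 0 := by omega
  subst hd
  obtain ⟨n, hn, hinj⟩ := hA
  have hE : IsEmpty (Fin n → Fin n → Fin 0) :=
    ⟨fun f => (f ⟨0, hn⟩ ⟨0, hn⟩).elim0⟩
  have hs : Subsingleton ((Fin n → Fin n → Fin 0) → ℂ) := inferInstance
  have h1 : (fun _ : Bdry n D => (0 : ℂ)) = fun _ => 1 := hinj (Subsingleton.elim _ _)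
  let z : Fin D := ⟨0, hD⟩
  have h2 := congrFun h1 (fun _ => z, fun _ => z, fun _ => z, fun _ => z)
  exact zero_ne_one h2

theorem main (g : ℕ → ℕ) (hg : Computable g) : ∃ D₀ : ℕ, ∀ D : ℕ, D₀ ≤ D →
    ∃ (d : ℕ) (A : Tensor d D), 1 ≤ d ∧ IsNormal A ∧ g D < injIndex A := by
  obtain ⟨D₀, h⟩ := final (tG tAU) tW tR1 tR2 (tA4 tA1 (tA2 tA1) (tA3 tA1))
    (tB5 (tB2 tB1) (tB3 tB1) (tB4 tB1)) tQ tD g hg
  refine ⟨max D₀ 1, fun D hD => ?_⟩
  obtain ⟨d, A, h1, h2⟩ := h D (le_trans (le_max_left _ _) hD)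
  exact ⟨d, A, one_le_d (le_trans (le_max_right _ _) hD) A h1, h1, h2⟩

end Pool.Agent.LibPeps
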