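import Pool.Agent.LibPeps.DefsQ

set_option autoImplicit false

/-! TASK Q: the writing machine of a queue automaton. -/

namespace Pool.Agent.LibPeps
open Pool.Agent.LibQA

namespace TaskQ

/-- The word written in state q on the letter a. -/
def out (δ : ℕ → ℕ → Option (ℕ × List ℕ)) (q a : ℕ) : List ℕ := ((δ q a).map Prod.snd).getD []

/-- The next state. -/
def nx (δ : ℕ → ℕ → Option (ℕ × List ℕ)) (q a : ℕ) : ℕ := ((δ q a).map Prod.fst).getD q

/-- The front symbols. -/
abbrev FrQ (n s k l : ℕ) : Type := Fin (n + 1) ⊕ (Fin s × Fin k × Fin (l + 1))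

/-- The machine. -/
def mach (s k : ℕ) [NeZero s] [NeZero k] (δ : ℕ → ℕ → Option (ℕ × List ℕ)) (q₀ : Fin s)
    (ini : List ℕ) (l : ℕ) : Mach (FrQ ini.length s k l) (Fin k) where
  push φ := match φ with
    | .inl i =>
      if h : (i : ℕ) + 1 < ini.length + 1 then
        some (Fin.ofNat k (ini.getD i 0), .inl ⟨i + 1, h⟩) else none
    | .inr (q, a, j) =>
      if h : (j : ℕ) + 1 < l + 1 ∧ (j : ℕ) < (out δ q a).length then
        some (Fin.ofNat k ((out δ q a).getD j 0), .inr (q, a, ⟨j + 1, h.1⟩)) else none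
  enter φ b := match φ with
    | .inl _ => .inr (q₀, b, 0)
    | .inr (q, a, _) => .inr (Fin.ofNat s (nx δ q a), b, 0)
  ini := .inl 0
  halt φ := ∃ q a j, φ = .inr (q, a, j) ∧ δ q a = none
  push_inj := by
    intro φ ψ χ b b' h1 h2
    rcases φ with i | ⟨q, a, j⟩ <;> rcases ψ with i' | ⟨q', a', j'⟩ <;> dsimp only at h1 h2 <;>
      split_ifs at h1 with g1 <;> split_ifs at h2 with g2 <;>
      simp only [Option.some.injEq, Prod.mk.injEq] at h1 h2 <;>
      obtain ⟨_, h1⟩ := h1 <;> obtain ⟨_, h2⟩ := h2 <;> rw [← h2] at h1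
    · simp only [Sum.inl.injEq, Fin.mk.injEq] at h1
      congr 1
      apply Fin.ext
      omega
    · cases h1
    · cases h1
    · simp only [Sum.inr.injEq, Prod.mk.injEq, Fin.mk.injEq] at h1
      obtain ⟨rfl, rfl, h⟩ := h1
      have : j = j' := Fin.ext (by omega)
      rw [this]
  enter_push := by
    intro φ ψ b b' h
    rcases φ with i | ⟨q, a, j⟩ <;> rcases ψ with i' | ⟨q', a', j'⟩ <;> dsimp only at h <;>
      split_ifs at h with g1 <;>
      simp only [Option.some.injEq, Prod.mk.injEq] at h <;> obtain ⟨_, h⟩ := h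
    · cases h
    · cases h
    · simp only [Sum.inr.injEq, Prod.mk.injEq] at h
      have := congrArg Fin.val h.2.2
      simp at this
    · simp only [Sum.inr.injEq, Prod.mk.injEq] at h
      have := congrArg Fin.val h.2.2
      simp at this
  enter_inj := by
    intro φ b b' h
    rcases φ with i | ⟨q, a, j⟩ <;> dsimp only at h <;>
      simp only [Sum.inr.injEq, Prod.mk.injEq] at h
    · exact h.2.1
    · exact h.2.1
  ini_push := by
    intro φ b h
    rcases φ with i | ⟨q, a, j⟩ <;> dsimp only at h <;> split_ifs at h with g1 <;>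
      simp only [Option.some.injEq, Prod.mk.injEq] at h <;> obtain ⟨_, h⟩ := h
    · simp only [Sum.inl.injEq] at h
      have := congrArg Fin.val h
      simp at this
    · cases h
  ini_enter := by
    intro φ b h
    rcases φ with i | ⟨q, a, j⟩ <;> dsimp only at h <;> cases h

section
variable {Fr Sym : Type} {M : Mach Fr Sym}

theorem nxt_push {c : List Fr} {φ φ' : Fr} {u : List Sym} {b : Sym}
    (h : M.push φ = some (b, φ')) : M.nxt (c, φ, u) = some (c, φ', u ++ [b]) := by
  simp only [Mach.nxt, h]

theorem nxt_nil {c : List Fr} {φ : Fr} (h : M.push φ = none) : M.nxt (c, φ, []) = none := by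
  simp only [Mach.nxt, h]

theorem nxt_move {c : List Fr} {φ : Fr} {u : List Sym} {b : Sym}
    (h : M.push φ = none) : M.nxt (c, φ, b :: u) = some (c ++ [φ], M.enter φ b, u) := by
  simp only [Mach.nxt, h]

end

theorem qrun_none {δ : ℕ → ℕ → Option (ℕ × List ℕ)} {c : ℕ × List ℕ} {T T' : ℕ} (h : T ≤ T')
    (hT : QRun δ c T = none) : QRun δ c T' = none := by
  induction T', h using Nat.le_induction with
  | base => exact hT
  | succ n _ ih => rw [QRun, ih]; rfl

theorem qrun_good {s k : ℕ} {δ : ℕ → ℕ → Option (ℕ × List ℕ)} {q₀ : ℕ} {ini : List ℕ}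
    (hF : QFinite s k δ) (hq : q₀ < s) (hi : ini ≠ []) (hk : ∀ c ∈ ini, c < k) :
    ∀ t q w, QRun δ (q₀, ini) t = some (q, w) → q < s ∧ w ≠ [] ∧ ∀ c ∈ w, c < k := by
  intro t
  induction t with
  | zero =>
    intro q w h
    rw [QRun, Option.some.injEq, Prod.mk.injEq] at h
    obtain ⟨rfl, rfl⟩ := h
    exact ⟨hq, hi, hk⟩
  | succ t ih =>
    intro q w h
    rw [QRun] at h
    obtain ⟨⟨q', w'⟩, h1, h2⟩ := Option.bind_eq_some_iff.1 h
    obtain ⟨g1, g2, g3⟩ := ih q' w' h1
    cases w' with
    | nil => exact absurd rfl g2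
    | cons a w' =>
      rw [QStep] at h2
      dsimp only at h2
      obtain ⟨⟨q1, v⟩, e1, e2⟩ := Option.map_eq_some_iff.1 h2
      rw [Prod.mk.injEq] at e2
      obtain ⟨rfl, rfl⟩ := e2
      obtain ⟨f1, f2, f3⟩ := hF q' a _ g1 (g3 a List.mem_cons_self) e1
      refine ⟨f1, by simp [f2], ?_⟩
      intro c hc
      rcases List.mem_append.1 hc with hc | hc
      · exact g3 c (List.mem_cons_of_mem _ hc)
      · exact f3 c hc

section
variable {s k : ℕ} [NeZero s] [NeZero k] {δ : ℕ → ℕ → Option (ℕ × List ℕ)} {q₀ : Fin s}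
  {ini : List ℕ} {l : ℕ}

/-- The invariant. -/
def Iv (δ : ℕ → ℕ → Option (ℕ × List ℕ)) (q₀ : Fin s) (ini : List ℕ) (l : ℕ) :
    List (FrQ ini.length s k l) × FrQ ini.length s k l × List (Fin k) → Prop
  | (c, .inl i, u) => c = [] ∧ u.map Fin.val = ini.take i
  | (c, .inr (q, a, j), u) => ∃ t w, c.length = t + 1 ∧
      QRun δ (q₀, ini) t = some ((q : ℕ), (a : ℕ) :: w) ∧
      u.map Fin.val = w ++ (out δ q a).take j ∧ (j : ℕ) ≤ (out δ q a).length

/-- The length. -/
def len {A B C : Type} (x : List A × B × List C) : ℕ := x.1.length + x.2.2.length + 1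

omit [NeZero s] [NeZero k] in
theorem iv_halt {c : List (FrQ ini.length s k l)} {q : Fin s} {a : Fin k} {j : Fin (l + 1)}
    {u : List (Fin k)} (h : Iv δ q₀ ini l (c, .inr (q, a, j), u)) (hn : δ q a = none) :
    QRun δ (q₀, ini) (len (c, (Sum.inr (q, a, j) : FrQ ini.length s k l), u)) = none := by
  obtain ⟨t, w, h1, h2, h3, h4⟩ := h
  have e : QRun δ (q₀, ini) (t + 1) = none := by
    rw [QRun, h2, Option.bind_some, QStep]
    simp [hn]
  refine qrun_none ?_ e
  simp only [len]
  omega

theorem val_ofNat {x : ℕ} (h : x < k) : ((Fin.ofNat k x : Fin k) : ℕ) = x := by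
  simp [Fin.ofNat, Nat.mod_eq_of_lt h]

theorem out_some {q a q' : ℕ} {v : List ℕ} (h : δ q a = some (q', v)) : out δ q a = v := by
  simp [out, h]

theorem nx_some {q a q' : ℕ} {v : List ℕ} (h : δ q a = some (q', v)) : nx δ q a = q' := by
  simp [nx, h]

theorem take_succ_getD (v : List ℕ) (j : ℕ) (h : j < v.length) :
    v.take (j + 1) = v.take j ++ [v.getD j 0] := by
  rw [List.take_succ_eq_append_getElem h, List.getD_eq_getElem?_getD, List.getElem?_eq_getElem h,
    Option.getD_some]

theorem iv_step (hF : QFinite s k δ) (hi : ini ≠ []) (hk : ∀ c ∈ ini, c < k)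
    (hl : ∀ q < s, ∀ a < k, (out δ q a).length ≤ l)
    {x y : List (FrQ ini.length s k l) × FrQ ini.length s k l × List (Fin k)}
    (h : Iv δ q₀ ini l x) (hx : (mach s k δ q₀ ini l).nxt x = some y) :
    Iv δ q₀ ini l y ∨ QRun δ (q₀, ini) (len y) = none := by
  obtain ⟨c, φ, u⟩ := x
  rcases φ with i | ⟨q, a, j⟩
  · obtain ⟨rfl, h2⟩ := h
    by_cases hp : (i : ℕ) + 1 < ini.length + 1
    · have e : (mach s k δ q₀ ini l).push (.inl i) =
          some (Fin.ofNat k (ini.getD i 0), .inl ⟨i + 1, hp⟩) := dif_pos hp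
      rw [nxt_push e, Option.some.injEq] at hx
      subst hx
      left
      refine ⟨rfl, ?_⟩
      have hlt : (i : ℕ) < ini.length := by omega
      rw [take_succ_getD _ _ hlt, List.map_append, h2, List.map_singleton, val_ofNat]
      rw [List.getD_eq_getElem?_getD, List.getElem?_eq_getElem hlt, Option.getD_some]
      exact hk _ (List.getElem_mem hlt)
    · have e : (mach s k δ q₀ ini l).push (.inl i) = none := dif_neg hp
      cases u with
      | nil => rw [nxt_nil e] at hx; cases hx
      | cons b u' =>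
        rw [nxt_move e, Option.some.injEq] at hx
        subst hx
        left
        refine ⟨0, u'.map Fin.val, rfl, ?_, by simp, by simp⟩
        rw [QRun, Option.some.injEq, Prod.mk.injEq]
        refine ⟨rfl, ?_⟩
        have h3 : ini.take i = ini := List.take_of_length_le (by omega)
        rw [h3] at h2
        rw [← h2, List.map_cons]
  · have h0 := h
    obtain ⟨t, w, h1, h2, h3, h4⟩ := h
    by_cases hp : (j : ℕ) + 1 < l + 1 ∧ (j : ℕ) < (out δ q a).length
    · have e : (mach s k δ q₀ ini l).push (.inr (q, a, j)) =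
          some (Fin.ofNat k ((out δ q a).getD j 0), .inr (q, a, ⟨j + 1, hp.1⟩)) := dif_pos hp
      rw [nxt_push e, Option.some.injEq] at hx
      subst hx
      left
      refine ⟨t, w, h1, h2, ?_, hp.2⟩
      have hlt := hp.2
      rw [take_succ_getD _ _ hlt, List.map_append, h3, List.map_singleton, val_ofNat,
        List.append_assoc]
      rw [List.getD_eq_getElem?_getD, List.getElem?_eq_getElem hlt, Option.getD_some]
      cases hd : δ q a with
      | none => simp [out, hd] at hlt
      | some r =>
        have e1 : out δ q a = r.2 := by simp [out, hd]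
        have := (hF q a r q.2 a.2 hd).2.2
        rw [← e1] at this
        exact this _ (List.getElem_mem hlt)
    · have e : (mach s k δ q₀ ini l).push (.inr (q, a, j)) = none := dif_neg hp
      have hj : (j : ℕ) = (out δ q a).length := by
        have := hl q q.2 a a.2
        omega
      cases u with
      | nil => rw [nxt_nil e] at hx; cases hx
      | cons b u' =>
        rw [nxt_move e, Option.some.injEq] at hx
        subst hx
        cases hd : δ q a with
        | none =>
          right
          refine qrun_none ?_ (iv_halt h0 hd)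
          simp only [len, List.length_append, List.length_cons, List.length_nil]
          omega
        | some r =>
          left
          have hlt := (hF q a r q.2 a.2 hd).1
          have hnx : nx δ q a = r.1 := by simp [nx, hd]
          have hou : out δ q a = r.2 := by simp [out, hd]
          refine ⟨t + 1, u'.map Fin.val, by simp [h1], ?_, by simp, by simp⟩
          have e4 : ((Fin.ofNat s (nx δ q a) : Fin s) : ℕ) = r.1 := by
            rw [hnx]; exact val_ofNat hlt
          rw [QRun, h2, Option.bind_some, QStep]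
          dsimp only
          rw [hd, Option.map_some, e4, Option.some.injEq, Prod.mk.injEq]
          refine ⟨rfl, ?_⟩
          rw [hj, List.take_length, hou, List.map_cons] at h3
          exact h3.symm

theorem len_le {x y : List (FrQ ini.length s k l) × FrQ ini.length s k l × List (Fin k)}
    (hx : (mach s k δ q₀ ini l).nxt x = some y) : len x ≤ len y := by
  obtain ⟨c, φ, u⟩ := x
  cases hp : (mach s k δ q₀ ini l).push φ with
  | some r =>
    rw [nxt_push hp, Option.some.injEq] at hx
    subst hx
    simp only [len, List.length_append]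
    omega
  | none =>
    cases u with
    | nil => rw [nxt_nil hp] at hx; cases hx
    | cons b u' =>
      rw [nxt_move hp, Option.some.injEq] at hx
      subst hx
      simp only [len, List.length_append, List.length_cons, List.length_nil]
      omega

theorem iv_run (hF : QFinite s k δ) (hi : ini ≠ []) (hk : ∀ c ∈ ini, c < k)
    (hl : ∀ q < s, ∀ a < k, (out δ q a).length ≤ l) :
    ∀ t x, (mach s k δ q₀ ini l).run t = some x →
      Iv δ q₀ ini l x ∨ QRun δ (q₀, ini) (len x) = none := by
  intro t
  induction t with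
  | zero =>
    intro x hx
    rw [Mach.run, Option.some.injEq] at hx
    subst hx
    left
    exact ⟨rfl, by simp⟩
  | succ t ih =>
    intro x hx
    rw [Mach.run] at hx
    obtain ⟨y, h1, h2⟩ := Option.bind_eq_some_iff.1 hx
    rcases ih y h1 with h | h
    · exact iv_step hF hi hk hl h h2
    · exact Or.inr (qrun_none (len_le h2) h)

theorem reach_inl (hk : ∀ c ∈ ini, c < k) : ∀ i (hi : i < ini.length + 1),
    ∃ t u, (mach s k δ q₀ ini l).run t = some ([], .inl ⟨i, hi⟩, u) ∧
      u.map Fin.val = ini.take i := by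
  intro i
  induction i with
  | zero =>
    intro hi
    exact ⟨0, [], rfl, rfl⟩
  | succ i ih =>
    intro hi
    obtain ⟨t, u, h1, h2⟩ := ih (by omega)
    have e : (mach s k δ q₀ ini l).push (.inl ⟨i, by omega⟩) =
          some (Fin.ofNat k (ini.getD i 0), .inl ⟨i + 1, hi⟩) := dif_pos hi
    refine ⟨t + 1, u ++ [Fin.ofNat k (ini.getD i 0)], ?_, ?_⟩
    · rw [Mach.run, h1, Option.bind_some, nxt_push e]
    · have hlt : (i : ℕ) < ini.length := by omega
      rw [take_succ_getD _ _ hlt, List.map_append, h2, List.map_singleton, val_ofNat]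
      rw [List.getD_eq_getElem?_getD, List.getElem?_eq_getElem hlt, Option.getD_some]
      exact hk _ (List.getElem_mem hlt)

theorem reach_inr (hF : QFinite s k δ) {c : List (FrQ ini.length s k l)} {q : Fin s} {a : Fin k}
    {u : List (Fin k)} {t₀ : ℕ}
    (h : (mach s k δ q₀ ini l).run t₀ = some (c, .inr (q, a, 0), u)) :
    ∀ j (hj : j < l + 1), j ≤ (out δ q a).length →
    ∃ t u', (mach s k δ q₀ ini l).run t = some (c, .inr (q, a, ⟨j, hj⟩), u') ∧
      u'.map Fin.val = u.map Fin.val ++ (out δ q a).take j := by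
  intro j
  induction j with
  | zero =>
    intro hj _
    exact ⟨t₀, u, h, by simp⟩
  | succ j ih =>
    intro hj hj2
    obtain ⟨t, u', h1, h2⟩ := ih (by omega) (by omega)
    have e : (mach s k δ q₀ ini l).push (.inr (q, a, ⟨j, by omega⟩)) =
          some (Fin.ofNat k ((out δ q a).getD j 0), .inr (q, a, ⟨j + 1, hj⟩)) :=
      dif_pos ⟨hj, hj2⟩
    refine ⟨t + 1, u' ++ [Fin.ofNat k ((out δ q a).getD j 0)], ?_, ?_⟩
    · rw [Mach.run, h1, Option.bind_some, nxt_push e]
    · have hlt : j < (out δ q a).length := hj2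
      rw [take_succ_getD _ _ hlt, List.map_append, h2, List.map_singleton, val_ofNat,
        List.append_assoc]
      rw [List.getD_eq_getElem?_getD, List.getElem?_eq_getElem hlt, Option.getD_some]
      cases hd : δ q a with
      | none => simp [out, hd] at hlt
      | some r =>
        have e1 : out δ q a = r.2 := by simp [out, hd]
        have := (hF q a r q.2 a.2 hd).2.2
        rw [← e1] at this
        exact this _ (List.getElem_mem hlt)

theorem reach (hF : QFinite s k δ) (hi : ini ≠ []) (hk : ∀ c ∈ ini, c < k)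
    (hl : ∀ q < s, ∀ a < k, (out δ q a).length ≤ l) :
    ∀ t q w, QRun δ (q₀, ini) t = some (q, w) →
      ∃ (t' : ℕ) (c : List (FrQ ini.length s k l)) (q' : Fin s) (a : Fin k) (u : List (Fin k)),
        (mach s k δ q₀ ini l).run t' = some (c, .inr (q', a, 0), u) ∧ (q' : ℕ) = q ∧
          w = (a : ℕ) :: u.map Fin.val := by
  intro t
  induction t with
  | zero =>
    intro q w h
    rw [QRun, Option.some.injEq, Prod.mk.injEq] at h
    obtain ⟨rfl, rfl⟩ := h
    obtain ⟨t', u, h1, h2⟩ := reach_inl (s := s) (k := k) (δ := δ) (q₀ := q₀) (l := l) hk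
      ini.length (Nat.lt_succ_self _)
    rw [List.take_length] at h2
    cases u with
    | nil => exact absurd h2.symm hi
    | cons b u' =>
      refine ⟨t' + 1, [.inl ⟨ini.length, Nat.lt_succ_self _⟩], q₀, b, u', ?_, rfl, ?_⟩
      · have e : (mach s k δ q₀ ini l).push (.inl ⟨ini.length, Nat.lt_succ_self _⟩) = none :=
          dif_neg (by simp)
        rw [Mach.run, h1, Option.bind_some, nxt_move e]
        rfl
      · rw [← h2, List.map_cons]
  | succ t ih =>
    intro q w h
    rw [QRun] at h
    obtain ⟨⟨q', w'⟩, h1, h2⟩ := Option.bind_eq_some_iff.1 h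
    obtain ⟨t', c, q1, a, u, g1, rfl, rfl⟩ := ih q' w' h1
    rw [QStep] at h2
    dsimp only at h2
    obtain ⟨⟨q2, v⟩, e1, e2⟩ := Option.map_eq_some_iff.1 h2
    rw [Prod.mk.injEq] at e2
    obtain ⟨rfl, rfl⟩ := e2
    obtain ⟨f1, f2, f3⟩ := hF q1 a _ q1.2 a.2 e1
    have hou := out_some e1
    have hnx := nx_some e1
    have hlen := hl q1 q1.2 a a.2
    obtain ⟨t2, u', g2, g3⟩ := reach_inr hF g1 (out δ q1 a).length (by omega) le_rfl
    rw [List.take_length, hou] at g3
    cases u' with
    | nil =>
      exfalso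
      rw [List.map_nil] at g3
      have := congrArg List.length g3
      simp only [List.length_nil, List.length_append, List.length_map] at this
      have : v.length = 0 := by omega
      exact f2 (List.length_eq_zero_iff.1 this)
    | cons b u'' =>
      refine ⟨t2 + 1, c ++ [.inr (q1, a, ⟨(out δ q1 a).length, by omega⟩)],
        Fin.ofNat s (nx δ q1 a), b, u'', ?_, ?_, ?_⟩
      · have e : (mach s k δ q₀ ini l).push
            (.inr (q1, a, ⟨(out δ q1 a).length, by omega⟩)) = none := dif_neg (by simp)
        rw [Mach.run, g2, Option.bind_some, nxt_move e]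
        rfl
      · rw [hnx]
        exact val_ofNat f1
      · dsimp only
        rw [← g3, List.map_cons]

end

end TaskQ

open TaskQ in
/-- TASK Q. -/
theorem tQ : StQ := by
  intro s k δ q₀ hF hq
  obtain ⟨l, hl⟩ : ∃ l, ∀ q < s, ∀ a < k, (out δ q a).length ≤ l := by
    refine ⟨∑ q ∈ Finset.range s, ∑ a ∈ Finset.range k, (out δ q a).length, ?_⟩
    intro q hq a ha
    calc (out δ q a).length ≤ ∑ a ∈ Finset.range k, (out δ q a).length :=
          Finset.single_le_sum (f := fun a => (out δ q a).length) (fun _ _ => Nat.zero_le _)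
            (Finset.mem_range.2 ha)
      _ ≤ _ := Finset.single_le_sum
            (f := fun q => ∑ a ∈ Finset.range k, (out δ q a).length)
            (fun _ _ => Nat.zero_le _) (Finset.mem_range.2 hq)
  refine ⟨1 + s * (k * (l + 1)) + k, ?_⟩
  intro ini hi hk
  have hk0 : 0 < k := by
    cases ini with
    | nil => exact absurd rfl hi
    | cons a w => exact lt_of_le_of_lt (Nat.zero_le _) (hk a List.mem_cons_self)
  have : NeZero k := ⟨by omega⟩
  have : NeZero s := ⟨by omega⟩
  refine ⟨FrQ ini.length s k l, Fin k, inferInstance, inferInstance,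
    mach s k δ ⟨q₀, hq⟩ ini l, ?_, ?_, ?_, ?_⟩
  · simp only [FrQ, Fintype.card_sum, Fintype.card_prod, Fintype.card_fin]
    omega
  · simp only [Fintype.card_fin]
    omega
  · intro T hT t c φ u hrun hle hh
    apply hT
    obtain ⟨q, a, j, rfl, hn⟩ := hh
    rcases iv_run (q₀ := ⟨q₀, hq⟩) hF hi hk hl t _ hrun with h | h
    · exact qrun_none hle (iv_halt h hn)
    · exact qrun_none hle h
  · rintro ⟨T, hT⟩
    have hex : ∃ T, QRun δ (q₀, ini) T = none := ⟨T, hT⟩
    classical
    obtain ⟨t, q, w, h1, h2⟩ : ∃ t q w, QRun δ (q₀, ini) t = some (q, w) ∧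
        QRun δ (q₀, ini) (t + 1) = none := by
      have hf := Nat.find_spec hex
      have hmin := fun m => Nat.find_min hex (m := m)
      cases hn : Nat.find hex with
      | zero =>
        rw [hn] at hf
        cases hf
      | succ n =>
        rw [hn] at hf
        have := hmin n (by omega)
        cases hr : QRun δ (q₀, ini) n with
        | none => exact absurd hr this
        | some r => exact ⟨n, r.1, r.2, hr, hf⟩
    obtain ⟨g1, g2, g3⟩ := qrun_good hF hq hi hk t q w h1
    obtain ⟨t', c, q', a, u, e1, rfl, rfl⟩ :=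
      reach (q₀ := ⟨q₀, hq⟩) hF hi hk hl t q w h1
    refine ⟨t', c, _, u, e1, q', a, 0, rfl, ?_⟩
    rw [QRun, h1, Option.bind_some, QStep] at h2
    dsimp only at h2
    exact Option.map_eq_none_iff.1 h2

end Pool.Agent.LibPeps
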