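import Pool.Agent.LibPeps.SysRex

set_option autoImplicit false

/-! Calculus of `Step` and `Kill` for rational expressions. -/

namespace Pool.Agent.LibPeps
open Ltr

section calcu
variable {L : Type}

/-- u is the first component of an accepted pair word. -/
def Dom (r : Rex (L × Option L)) (u : List L) : Prop := ∃ pl, r.lang pl ∧ pl.map Prod.fst = u

/-- every accepted word kills -/
def AK (r : Rex (L × Option L)) : Prop := ∀ pl, r.lang pl → none ∈ pl.map Prod.snd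

/-- no accepted word kills -/
def NK (r : Rex (L × Option L)) : Prop := ∀ pl, r.lang pl → none ∉ pl.map Prod.snd

theorem kill_ak {r : Rex (L × Option L)} (h : AK r) (u : List L) : Kill r u ↔ Dom r u :=
  ⟨fun ⟨pl, h1, h2, _⟩ => ⟨pl, h1, h2⟩, fun ⟨pl, h1, h2⟩ => ⟨pl, h1, h2, h pl h1⟩⟩

theorem kill_nk {r : Rex (L × Option L)} (h : NK r) (u : List L) : Kill r u ↔ False :=
  ⟨fun ⟨pl, h1, _, h3⟩ => h pl h1 h3, False.elim⟩

theorem step_ak {r : Rex (L × Option L)} (h : AK r) (u v : List L) : Step r u v ↔ False := by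
  refine ⟨fun ⟨pl, h1, _, h3⟩ => ?_, False.elim⟩
  have := h pl h1
  rw [h3] at this
  simp at this

/-! #### alternatives -/

theorem step_alt (r s : Rex (L × Option L)) (u v : List L) :
    Step (.alt r s) u v ↔ Step r u v ∨ Step s u v := by
  constructor
  · rintro ⟨pl, h | h, h2⟩
    · exact Or.inl ⟨pl, h, h2⟩
    · exact Or.inr ⟨pl, h, h2⟩
  · rintro (⟨pl, h, h2⟩ | ⟨pl, h, h2⟩)
    · exact ⟨pl, Or.inl h, h2⟩
    · exact ⟨pl, Or.inr h, h2⟩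

theorem kill_alt (r s : Rex (L × Option L)) (u : List L) :
    Kill (.alt r s) u ↔ Kill r u ∨ Kill s u := by
  constructor
  · rintro ⟨pl, h | h, h2⟩
    · exact Or.inl ⟨pl, h, h2⟩
    · exact Or.inr ⟨pl, h, h2⟩
  · rintro (⟨pl, h, h2⟩ | ⟨pl, h, h2⟩)
    · exact ⟨pl, Or.inl h, h2⟩
    · exact ⟨pl, Or.inr h, h2⟩

theorem dom_alt (r s : Rex (L × Option L)) (u : List L) :
    Dom (.alt r s) u ↔ Dom r u ∨ Dom s u := by
  constructor
  · rintro ⟨pl, h | h, h2⟩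
    · exact Or.inl ⟨pl, h, h2⟩
    · exact Or.inr ⟨pl, h, h2⟩
  · rintro (⟨pl, h, h2⟩ | ⟨pl, h, h2⟩)
    · exact ⟨pl, Or.inl h, h2⟩
    · exact ⟨pl, Or.inr h, h2⟩

theorem nk_alt {r s : Rex (L × Option L)} (h1 : NK r) (h2 : NK s) : NK (.alt r s) := by
  rintro pl (h | h)
  · exact h1 pl h
  · exact h2 pl h

theorem ak_alt {r s : Rex (L × Option L)} (h1 : AK r) (h2 : AK s) : AK (.alt r s) := by
  rintro pl (h | h)
  · exact h1 pl h
  · exact h2 pl h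

theorem step_alts_nil (u v : List L) : Step (alts []) u v ↔ False := by
  refine ⟨?_, False.elim⟩
  rintro ⟨pl, ⟨x, hx, _⟩, _⟩
  exact hx

theorem kill_alts_nil (u : List L) : Kill (alts ([] : List (Rex (L × Option L)))) u ↔ False := by
  refine ⟨?_, False.elim⟩
  rintro ⟨pl, ⟨x, hx, _⟩, _⟩
  exact hx

theorem step_alts_cons (r : Rex (L × Option L)) (rs : List (Rex (L × Option L))) (u v : List L) :
    Step (alts (r :: rs)) u v ↔ Step r u v ∨ Step (alts rs) u v := step_alt _ _ _ _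

theorem kill_alts_cons (r : Rex (L × Option L)) (rs : List (Rex (L × Option L))) (u : List L) :
    Kill (alts (r :: rs)) u ↔ Kill r u ∨ Kill (alts rs) u := kill_alt _ _ _

theorem step_bigT (ι : Type) [Fintype ι] (f : ι → Rex (L × Option L)) (u v : List L) :
    Step (bigT ι f) u v ↔ ∃ i, Step (f i) u v := by
  constructor
  · rintro ⟨pl, ⟨i, h⟩, h2⟩
    exact ⟨_, pl, h, h2⟩
  · rintro ⟨i, pl, h, h2⟩
    refine ⟨pl, ⟨Fintype.equivFin ι i, ?_⟩, h2⟩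
    simpa using h

theorem kill_bigT (ι : Type) [Fintype ι] (f : ι → Rex (L × Option L)) (u : List L) :
    Kill (bigT ι f) u ↔ ∃ i, Kill (f i) u := by
  constructor
  · rintro ⟨pl, ⟨i, h⟩, h2⟩
    exact ⟨_, pl, h, h2⟩
  · rintro ⟨i, pl, h, h2⟩
    refine ⟨pl, ⟨Fintype.equivFin ι i, ?_⟩, h2⟩
    simpa using h

/-! #### letters -/

theorem step_same (P : L → Prop) (u v : List L) :
    Step (same P) u v ↔ ∃ x, P x ∧ u = [x] ∧ v = [x] := by
  constructor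
  · rintro ⟨pl, ⟨⟨x, y⟩, ⟨h1, h2⟩, rfl⟩, rfl, h3⟩
    simp only at h1 h2
    subst h2
    refine ⟨x, h1, rfl, ?_⟩
    have h4 : [x].map some = v.map some := h3
    exact (List.map_injective_iff.2 (Option.some_injective L) h4).symm
  · rintro ⟨x, h, rfl, rfl⟩
    exact ⟨[(x, some x)], ⟨(x, some x), ⟨h, rfl⟩, rfl⟩, rfl, rfl⟩

theorem step_chg (R : L → L → Prop) (u v : List L) :
    Step (chg R) u v ↔ ∃ x y, R x y ∧ u = [x] ∧ v = [y] := by
  constructor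
  · rintro ⟨pl, ⟨⟨x, y⟩, ⟨z, h1, h2⟩, rfl⟩, rfl, h3⟩
    simp only at h1 h2
    subst h1
    refine ⟨x, z, h2, rfl, ?_⟩
    have h4 : [z].map some = v.map some := h3
    exact (List.map_injective_iff.2 (Option.some_injective L) h4).symm
  · rintro ⟨x, y, h, rfl, rfl⟩
    exact ⟨[(x, some y)], ⟨(x, some y), ⟨y, rfl, h⟩, rfl⟩, rfl, rfl⟩

theorem dom_same (P : L → Prop) (u : List L) : Dom (same P) u ↔ ∃ x, P x ∧ u = [x] := by
  constructor
  · rintro ⟨pl, ⟨⟨x, y⟩, ⟨h1, h2⟩, rfl⟩, rfl⟩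
    exact ⟨x, h1, rfl⟩
  · rintro ⟨x, h, rfl⟩
    exact ⟨[(x, some x)], ⟨(x, some x), ⟨h, rfl⟩, rfl⟩, rfl⟩

theorem dom_chg (R : L → L → Prop) (u : List L) :
    Dom (chg R) u ↔ ∃ x, (∃ y, R x y) ∧ u = [x] := by
  constructor
  · rintro ⟨pl, ⟨⟨x, y⟩, ⟨z, h1, h2⟩, rfl⟩, rfl⟩
    exact ⟨x, ⟨z, h2⟩, rfl⟩
  · rintro ⟨x, ⟨y, h⟩, rfl⟩
    exact ⟨[(x, some y)], ⟨(x, some y), ⟨y, rfl, h⟩, rfl⟩, rfl⟩

theorem dom_kl (P : L → Prop) (u : List L) : Dom (kl P) u ↔ ∃ x, P x ∧ u = [x] := by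
  constructor
  · rintro ⟨pl, ⟨⟨x, y⟩, ⟨h1, h2⟩, rfl⟩, rfl⟩
    exact ⟨x, h1, rfl⟩
  · rintro ⟨x, h, rfl⟩
    exact ⟨[(x, none)], ⟨(x, none), ⟨h, rfl⟩, rfl⟩, rfl⟩

theorem nk_same (P : L → Prop) : NK (same P) := by
  rintro pl ⟨⟨x, y⟩, ⟨h1, h2⟩, rfl⟩ h
  simp only at h2
  subst h2
  simp at h

theorem nk_chg (R : L → L → Prop) : NK (chg R) := by
  rintro pl ⟨⟨x, y⟩, ⟨z, h1, h2⟩, rfl⟩ h
  simp only at h1
  subst h1
  simp at h

theorem ak_kl (P : L → Prop) : AK (kl P) := by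
  rintro pl ⟨⟨x, y⟩, ⟨h1, h2⟩, rfl⟩
  simp only at h2
  subst h2
  simp

/-! #### concatenation -/

theorem step_cat (r s : Rex (L × Option L)) (u v : List L) :
    Step (.cat r s) u v ↔ ∃ u1 v1 u2 v2, Step r u1 v1 ∧ Step s u2 v2 ∧ u = u1 ++ u2 ∧
      v = v1 ++ v2 := by
  constructor
  · rintro ⟨pl, ⟨p1, p2, h1, h2, rfl⟩, rfl, h3⟩
    rw [List.map_append] at h3
    obtain ⟨v1, v2, rfl, h4, h5⟩ := List.map_eq_append_iff.1 h3.symm
    exact ⟨p1.map Prod.fst, v1, p2.map Prod.fst, v2, ⟨p1, h1, rfl, h4.symm⟩,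
      ⟨p2, h2, rfl, h5.symm⟩, by rw [List.map_append], rfl⟩
  · rintro ⟨u1, v1, u2, v2, ⟨p1, h1, rfl, e1⟩, ⟨p2, h2, rfl, e2⟩, rfl, rfl⟩
    exact ⟨p1 ++ p2, ⟨p1, p2, h1, h2, rfl⟩, by rw [List.map_append], by
      rw [List.map_append, e1, e2, List.map_append]⟩

theorem dom_cat (r s : Rex (L × Option L)) (u : List L) :
    Dom (.cat r s) u ↔ ∃ u1 u2, Dom r u1 ∧ Dom s u2 ∧ u = u1 ++ u2 := by
  constructor
  · rintro ⟨pl, ⟨p1, p2, h1, h2, rfl⟩, rfl⟩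
    exact ⟨p1.map Prod.fst, p2.map Prod.fst, ⟨p1, h1, rfl⟩, ⟨p2, h2, rfl⟩,
      by rw [List.map_append]⟩
  · rintro ⟨u1, u2, ⟨p1, h1, rfl⟩, ⟨p2, h2, rfl⟩, rfl⟩
    exact ⟨p1 ++ p2, ⟨p1, p2, h1, h2, rfl⟩, by rw [List.map_append]⟩

theorem nk_cat {r s : Rex (L × Option L)} (h1 : NK r) (h2 : NK s) : NK (.cat r s) := by
  rintro pl ⟨p1, p2, g1, g2, rfl⟩ h
  rw [List.map_append, List.mem_append] at h
  rcases h with h | h
  · exact h1 _ g1 h
  · exact h2 _ g2 h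

theorem ak_cat {r s : Rex (L × Option L)} (h2 : AK s) : AK (.cat r s) := by
  rintro pl ⟨p1, p2, g1, g2, rfl⟩
  rw [List.map_append, List.mem_append]
  exact Or.inr (h2 _ g2)

/-! #### iteration -/

theorem nk_sc {r s : Rex (L × Option L)} (h1 : NK r) (h2 : NK s) : NK (.sc r s) := by
  rintro pl ⟨us, v, g1, g2, rfl⟩ h
  rw [List.map_append, List.mem_append] at h
  rcases h with h | h
  · rw [List.mem_map] at h
    obtain ⟨x, hx, hx2⟩ := h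
    rw [List.mem_flatten] at hx
    obtain ⟨u, hu, hx⟩ := hx
    exact h1 u (g1 u hu) (List.mem_map.2 ⟨x, hx, hx2⟩)
  · exact h2 _ g2 h

theorem ak_sc {r s : Rex (L × Option L)} (h2 : AK s) : AK (.sc r s) := by
  rintro pl ⟨us, v, g1, g2, rfl⟩
  rw [List.map_append, List.mem_append]
  exact Or.inr (h2 _ g2)

theorem dom_sc (r s : Rex (L × Option L)) (u : List L) :
    Dom (.sc r s) u ↔ ∃ (us : List (List L)) (w : List L), (∀ x ∈ us, Dom r x) ∧ Dom s w ∧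
      u = us.flatten ++ w := by
  constructor
  · rintro ⟨pl, ⟨ps, p2, h1, h2, rfl⟩, rfl⟩
    refine ⟨ps.map (List.map Prod.fst), p2.map Prod.fst, ?_, ⟨p2, h2, rfl⟩, by
      rw [List.map_append, List.map_flatten]⟩
    intro x hx
    rw [List.mem_map] at hx
    obtain ⟨p, hp, rfl⟩ := hx
    exact ⟨p, h1 p hp, rfl⟩
  · rintro ⟨us, w, h1, ⟨p2, h2, rfl⟩, rfl⟩
    induction us with
    | nil => exact ⟨p2, ⟨[], p2, by simp, h2, rfl⟩, rfl⟩
    | cons x us ih =>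
      obtain ⟨pl, ⟨ps, p3, g1, g2, rfl⟩, g3⟩ := ih (fun y hy => h1 y (List.mem_cons_of_mem _ hy))
      obtain ⟨p, hp, rfl⟩ := h1 x List.mem_cons_self
      refine ⟨p ++ (ps.flatten ++ p3), ⟨p :: ps, p3, ?_, g2, by simp⟩, ?_⟩
      · intro y hy
        rcases List.mem_cons.1 hy with rfl | hy
        · exact hp
        · exact g1 y hy
      · rw [List.map_append, g3]; simp

theorem step_sc (r s : Rex (L × Option L)) (u v : List L) :
    Step (.sc r s) u v ↔ ∃ (us : List (List L × List L)) (w w' : List L),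
      (∀ x ∈ us, Step r x.1 x.2) ∧ Step s w w' ∧
      u = (us.map Prod.fst).flatten ++ w ∧ v = (us.map Prod.snd).flatten ++ w' := by
  constructor
  · rintro ⟨pl, ⟨ps, p2, h1, h2, rfl⟩, rfl, h3⟩
    rw [List.map_append] at h3
    obtain ⟨v1, v2, rfl, h4, h5⟩ := List.map_eq_append_iff.1 h3.symm
    clear h3
    induction ps generalizing v1 with
    | nil =>
      have : v1 = [] := by simpa using h4
      subst this
      exact ⟨[], p2.map Prod.fst, v2, by simp, ⟨p2, h2, rfl, h5.symm⟩, by simp, by simp⟩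
    | cons p ps ih =>
      rw [List.flatten_cons, List.map_append] at h4
      obtain ⟨v3, v4, rfl, h6, h7⟩ := List.map_eq_append_iff.1 h4
      obtain ⟨us, w, w', a1, a2, a3, a4⟩ := ih (fun x hx => h1 x (List.mem_cons_of_mem _ hx)) v4 h7
      refine ⟨(p.map Prod.fst, v3) :: us, w, w', ?_, a2, ?_, ?_⟩
      · intro x hx
        rcases List.mem_cons.1 hx with rfl | hx
        · exact ⟨p, h1 p List.mem_cons_self, rfl, h6.symm⟩
        · exact a1 x hx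
      · rw [List.flatten_cons, List.append_assoc, List.map_append, a3]; simp
      · rw [List.append_assoc, a4]; simp
  · rintro ⟨us, w, w', h1, ⟨p2, h2, rfl, h3⟩, rfl, rfl⟩
    induction us with
    | nil => exact ⟨p2, ⟨[], p2, by simp, h2, rfl⟩, rfl, h3⟩
    | cons x us ih =>
      obtain ⟨pl, ⟨ps, p3, g1, g2, rfl⟩, g3, g4⟩ :=
        ih (fun y hy => h1 y (List.mem_cons_of_mem _ hy))
      obtain ⟨p, hp, hp1, hp2⟩ := h1 x List.mem_cons_self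
      refine ⟨p ++ (ps.flatten ++ p3), ⟨p :: ps, p3, ?_, g2, by simp⟩, ?_, ?_⟩
      · intro y hy
        rcases List.mem_cons.1 hy with rfl | hy
        · exact hp
        · exact g1 y hy
      · rw [List.map_append, g3, hp1]; simp
      · rw [List.map_append, g4, hp2]; simp

/-- parametrised lists -/
theorem par_list {α β : Type} (Q : α → Prop) (f : α → β) (us : List β) :
    (∀ u ∈ us, ∃ a, Q a ∧ u = f a) ↔ ∃ l : List α, (∀ a ∈ l, Q a) ∧ us = l.map f := by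
  constructor
  · intro h
    induction us with
    | nil => exact ⟨[], by simp, rfl⟩
    | cons u us ih =>
      obtain ⟨l, h1, h2⟩ := ih (fun v hv => h v (List.mem_cons_of_mem _ hv))
      obtain ⟨a, ha, hu⟩ := h u List.mem_cons_self
      refine ⟨a :: l, ?_, by rw [List.map_cons, ← h2, hu]⟩
      intro b hb
      rcases List.mem_cons.1 hb with rfl | hb
      · exact ha
      · exact h1 b hb
  · rintro ⟨l, h1, rfl⟩ u hu
    rw [List.mem_map] at hu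
    obtain ⟨a, ha, rfl⟩ := hu
    exact ⟨a, h1 a ha, rfl⟩

end calcu

variable {Fr Sym : Type}

/-! #### the tokens -/

theorem flat_cons (p : Ltr Fr Sym × List (Ltr Fr Sym)) (l : List (Ltr Fr Sym × List (Ltr Fr Sym))) :
    flat (p :: l) = p.1 :: (p.2 ++ flat l) := by simp [flat]

theorem cflat_cons (e : Ltr Fr Sym × List (Ltr Fr Sym) × Ltr Fr Sym)
    (l : List (Ltr Fr Sym × List (Ltr Fr Sym) × Ltr Fr Sym)) :
    cflat (e :: l) = e.1 :: (e.2.1 ++ [e.2.2]) ++ cflat l := by simp [cflat]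

theorem cflat_one (e : Ltr Fr Sym × List (Ltr Fr Sym) × Ltr Fr Sym) :
    cflat [e] = e.1 :: (e.2.1 ++ [e.2.2]) := by simp [cflat]

theorem flatten_single {α : Type} (l : List α) : (l.map (fun a => [a])).flatten = l := by
  induction l with
  | nil => rfl
  | cons a l ih => rw [List.map_cons, List.flatten_cons, ih]; rfl

/-- a word of letters with P, from lists of one letter words -/
theorem par_same (P : Ltr Fr Sym → Prop) (us : List (List (Ltr Fr Sym)))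
    (h : ∀ u ∈ us, Dom (same P) u) : ∃ C : List (Ltr Fr Sym), (∀ x ∈ C, P x) ∧ us.flatten = C := by
  have h2 : ∀ u ∈ us, ∃ a, P a ∧ u = [a] := fun u hu => (dom_same P u).1 (h u hu)
  obtain ⟨l, h3, h4⟩ := (par_list P (fun a => [a]) us).1 h2
  refine ⟨l, h3, ?_⟩
  rw [h4, flatten_single]

theorem dom_scsame (P : Ltr Fr Sym → Prop) (s : LR Fr Sym) (u : List (Ltr Fr Sym)) :
    Dom (.sc (same P) s) u ↔ ∃ (C w : List (Ltr Fr Sym)), (∀ x ∈ C, P x) ∧ Dom s w ∧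
      u = C ++ w := by
  rw [dom_sc]
  constructor
  · rintro ⟨us, w, h1, h2, rfl⟩
    obtain ⟨C, h3, h4⟩ := par_same P us h1
    exact ⟨C, w, h3, h2, by rw [h4]⟩
  · rintro ⟨C, w, h1, h2, rfl⟩
    refine ⟨C.map (fun a => [a]), w, ?_, h2, by rw [flatten_single]⟩
    intro x hx
    rw [List.mem_map] at hx
    obtain ⟨a, ha, rfl⟩ := hx
    exact (dom_same P _).2 ⟨a, h1 a ha, rfl⟩

theorem step_scdiag (r s : LR Fr Sym) (hr : ∀ u v, Step r u v ↔ Dom r u ∧ v = u)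
    (u v : List (Ltr Fr Sym)) :
    Step (.sc r s) u v ↔ ∃ (us : List (List (Ltr Fr Sym))) (w w' : List (Ltr Fr Sym)),
      (∀ x ∈ us, Dom r x) ∧ Step s w w' ∧ u = us.flatten ++ w ∧ v = us.flatten ++ w' := by
  rw [step_sc]
  constructor
  · rintro ⟨us, w, w', h1, h2, rfl, rfl⟩
    refine ⟨us.map Prod.fst, w, w', ?_, h2, rfl, ?_⟩
    · intro x hx
      rw [List.mem_map] at hx
      obtain ⟨a, ha, rfl⟩ := hx
      exact ((hr _ _).1 (h1 a ha)).1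
    · congr 2
      apply List.map_congr_left
      intro a ha
      exact ((hr _ _).1 (h1 a ha)).2
  · rintro ⟨us, w, w', h1, h2, rfl, rfl⟩
    refine ⟨us.map (fun u => (u, u)), w, w', ?_, h2, by simp [Function.comp_def],
      by simp [Function.comp_def]⟩
    intro x hx
    rw [List.mem_map] at hx
    obtain ⟨a, ha, rfl⟩ := hx
    exact (hr _ _).2 ⟨h1 a ha, rfl⟩

theorem diag_same (P : Ltr Fr Sym → Prop) (u v : List (Ltr Fr Sym)) :
    Step (same P) u v ↔ Dom (same P) u ∧ v = u := by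
  rw [step_same, dom_same]
  constructor
  · rintro ⟨x, h, rfl, rfl⟩
    exact ⟨⟨x, h, rfl⟩, rfl⟩
  · rintro ⟨⟨x, h, rfl⟩, rfl⟩
    exact ⟨x, h, rfl, rfl⟩

theorem diag_cat (r s : LR Fr Sym) (hr : ∀ u v, Step r u v ↔ Dom r u ∧ v = u)
    (hs : ∀ u v, Step s u v ↔ Dom s u ∧ v = u) (u v : List (Ltr Fr Sym)) :
    Step (.cat r s) u v ↔ Dom (.cat r s) u ∧ v = u := by
  rw [step_cat, dom_cat]
  constructor
  · rintro ⟨u1, v1, u2, v2, h1, h2, rfl, rfl⟩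
    rw [hr] at h1
    rw [hs] at h2
    exact ⟨⟨u1, u2, h1.1, h2.1, rfl⟩, by rw [h1.2, h2.2]⟩
  · rintro ⟨⟨u1, u2, h1, h2, rfl⟩, rfl⟩
    exact ⟨u1, u1, u2, u2, (hr _ _).2 ⟨h1, rfl⟩, (hs _ _).2 ⟨h2, rfl⟩, rfl, rfl⟩

theorem diag_sc (r s : LR Fr Sym) (hr : ∀ u v, Step r u v ↔ Dom r u ∧ v = u)
    (hs : ∀ u v, Step s u v ↔ Dom s u ∧ v = u) (u v : List (Ltr Fr Sym)) :
    Step (.sc r s) u v ↔ Dom (.sc r s) u ∧ v = u := by
  rw [step_scdiag r s hr, dom_sc]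
  constructor
  · rintro ⟨us, w, w', h1, h2, rfl, rfl⟩
    rw [hs] at h2
    exact ⟨⟨us, w, h1, h2.1, rfl⟩, by rw [h2.2]⟩
  · rintro ⟨⟨us, w, h1, h2, rfl⟩, rfl⟩
    exact ⟨us, w, w, h1, (hs _ _).2 ⟨h2, rfl⟩, rfl, rfl⟩

theorem diag_rE (u v : List (Ltr Fr Sym)) : Step rE u v ↔ Dom rE u ∧ v = u :=
  diag_cat _ _ (diag_same _) (diag_sc _ _ (diag_same _) (diag_same _)) u v

theorem diag_rZ (u v : List (Ltr Fr Sym)) : Step rZ u v ↔ Dom rZ u ∧ v = u :=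
  diag_sc _ _ diag_rE (diag_same _) u v

theorem diag_rX (P : Ltr Fr Sym → Prop) (u v : List (Ltr Fr Sym)) :
    Step (rX P) u v ↔ Dom (rX P) u ∧ v = u :=
  diag_cat _ _ (diag_same _) diag_rZ u v

theorem nk_rE : NK (rE : LR Fr Sym) := nk_cat (nk_same _) (nk_sc (nk_same _) (nk_same _))

theorem nk_rZ : NK (rZ : LR Fr Sym) := nk_sc nk_rE (nk_same _)

theorem nk_rX (P : Ltr Fr Sym → Prop) : NK (rX P : LR Fr Sym) := nk_cat (nk_same _) nk_rZ

theorem dom_rE (u : List (Ltr Fr Sym)) :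
    Dom rE u ↔ ∃ y C m, mL y ∧ (∀ x ∈ C, Pl x) ∧ mM m ∧ u = y :: (C ++ [m]) := by
  unfold rE
  rw [dom_cat]
  simp only [dom_scsame, dom_same]
  constructor
  · rintro ⟨u1, u2, ⟨y, hy, rfl⟩, ⟨C, w, hC, ⟨m, hm, rfl⟩, rfl⟩, rfl⟩
    exact ⟨y, C, m, hy, hC, hm, rfl⟩
  · rintro ⟨y, C, m, hy, hC, hm, rfl⟩
    exact ⟨[y], C ++ [m], ⟨y, hy, rfl⟩, ⟨C, [m], hC, ⟨m, hm, rfl⟩, rfl⟩, rfl⟩

theorem dom_rZ (u : List (Ltr Fr Sym)) : Dom rZ u ↔ IsZ u := by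
  unfold rZ
  rw [dom_sc]
  simp only [dom_rE, dom_same]
  constructor
  · rintro ⟨us, w, h1, ⟨x, hx, rfl⟩, rfl⟩
    induction us with
    | nil => exact IsZ.one x hx
    | cons v us ih =>
      obtain ⟨y, C, m, hy, hC, hm, rfl⟩ := h1 v List.mem_cons_self
      have := ih (fun z hz => h1 z (List.mem_cons_of_mem _ hz))
      have e : ((y :: (C ++ [m])) :: us).flatten ++ [x] = y :: (C ++ m :: (us.flatten ++ [x])) := by
        simp
      rw [e]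
      exact IsZ.ext y C m _ hy hC hm this
  · intro h
    induction h with
    | one x hx => exact ⟨[], [x], by simp, ⟨x, hx, rfl⟩, rfl⟩
    | ext y C m z hy hC hm _ ih =>
      obtain ⟨us, w, h1, h2, rfl⟩ := ih
      refine ⟨(y :: (C ++ [m])) :: us, w, ?_, h2, by simp⟩
      intro v hv
      rcases List.mem_cons.1 hv with rfl | hv
      · exact ⟨y, C, m, hy, hC, hm, rfl⟩
      · exact h1 v hv

theorem step_rZ (u v : List (Ltr Fr Sym)) : Step rZ u v ↔ IsZ u ∧ v = u := by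
  rw [diag_rZ, dom_rZ]

theorem dom_rX (P : Ltr Fr Sym → Prop) (u : List (Ltr Fr Sym)) :
    Dom (rX P) u ↔ ∃ p : Ltr Fr Sym × List (Ltr Fr Sym), (X0 p.1 ∧ P p.1 ∧ IsZ p.2) ∧
      u = p.1 :: p.2 := by
  unfold rX
  rw [dom_cat]
  simp only [dom_rZ, dom_same]
  constructor
  · rintro ⟨u1, z, ⟨x, ⟨h1, h2⟩, rfl⟩, hz, rfl⟩
    exact ⟨(x, z), ⟨h1, h2, hz⟩, rfl⟩
  · rintro ⟨⟨x, z⟩, ⟨h1, h2, hz⟩, rfl⟩
    exact ⟨[x], z, ⟨x, ⟨h1, h2⟩, rfl⟩, hz, rfl⟩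

theorem par_rX (P : Ltr Fr Sym → Prop) (us : List (List (Ltr Fr Sym))) :
    (∀ u ∈ us, Dom (rX P) u) ↔ ∃ l, Spn P l ∧ us = l.map (fun p => p.1 :: p.2) := by
  simp only [dom_rX]
  exact par_list (fun p : Ltr Fr Sym × List (Ltr Fr Sym) => X0 p.1 ∧ P p.1 ∧ IsZ p.2)
    (fun p => p.1 :: p.2) us

theorem dom_scX (P : Ltr Fr Sym → Prop) (s : LR Fr Sym) (u : List (Ltr Fr Sym)) :
    Dom (.sc (rX P) s) u ↔ ∃ l w, Spn P l ∧ Dom s w ∧ u = flat l ++ w := by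
  rw [dom_sc]
  constructor
  · rintro ⟨us, w, h1, h2, rfl⟩
    obtain ⟨l, h3, rfl⟩ := (par_rX P us).1 h1
    exact ⟨l, w, h3, h2, rfl⟩
  · rintro ⟨l, w, h1, h2, rfl⟩
    exact ⟨_, w, (par_rX P _).2 ⟨l, h1, rfl⟩, h2, rfl⟩

theorem step_scX (P : Ltr Fr Sym → Prop) (s : LR Fr Sym) (u v : List (Ltr Fr Sym)) :
    Step (.sc (rX P) s) u v ↔ ∃ l w w', Spn P l ∧ Step s w w' ∧ u = flat l ++ w ∧
      v = flat l ++ w' := by
  rw [step_scdiag _ _ (diag_rX P)]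
  constructor
  · rintro ⟨us, w, w', h1, h2, rfl, rfl⟩
    obtain ⟨l, h3, rfl⟩ := (par_rX P us).1 h1
    exact ⟨l, w, w', h3, h2, rfl, rfl⟩
  · rintro ⟨l, w, w', h1, h2, rfl, rfl⟩
    exact ⟨_, w, w', (par_rX P _).2 ⟨l, h1, rfl⟩, h2, rfl, rfl⟩

/-! #### heads -/

theorem dom_csame (P : Ltr Fr Sym → Prop) (s : LR Fr Sym) (u : List (Ltr Fr Sym)) :
    Dom (.cat (same P) s) u ↔ ∃ x w, P x ∧ Dom s w ∧ u = x :: w := by
  rw [dom_cat]
  simp only [dom_same]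
  constructor
  · rintro ⟨u1, u2, ⟨x, hx, rfl⟩, h, rfl⟩
    exact ⟨x, u2, hx, h, rfl⟩
  · rintro ⟨x, w, hx, h, rfl⟩
    exact ⟨[x], w, ⟨x, hx, rfl⟩, h, rfl⟩

theorem step_csame (P : Ltr Fr Sym → Prop) (s : LR Fr Sym) (u v : List (Ltr Fr Sym)) :
    Step (.cat (same P) s) u v ↔ ∃ x w w', P x ∧ Step s w w' ∧ u = x :: w ∧ v = x :: w' := by
  rw [step_cat]
  simp only [step_same]
  constructor
  · rintro ⟨u1, v1, u2, v2, ⟨x, hx, rfl, rfl⟩, h, rfl, rfl⟩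
    exact ⟨x, u2, v2, hx, h, rfl, rfl⟩
  · rintro ⟨x, w, w', hx, h, rfl, rfl⟩
    exact ⟨[x], [x], w, w', ⟨x, hx, rfl, rfl⟩, h, rfl, rfl⟩

theorem dom_cchg (R : Ltr Fr Sym → Ltr Fr Sym → Prop) (s : LR Fr Sym) (u : List (Ltr Fr Sym)) :
    Dom (.cat (chg R) s) u ↔ ∃ x w, (∃ y, R x y) ∧ Dom s w ∧ u = x :: w := by
  rw [dom_cat]
  simp only [dom_chg]
  constructor
  · rintro ⟨u1, u2, ⟨x, hx, rfl⟩, h, rfl⟩
    exact ⟨x, u2, hx, h, rfl⟩
  · rintro ⟨x, w, hx, h, rfl⟩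
    exact ⟨[x], w, ⟨x, hx, rfl⟩, h, rfl⟩

theorem step_cchg (R : Ltr Fr Sym → Ltr Fr Sym → Prop) (s : LR Fr Sym)
    (u v : List (Ltr Fr Sym)) :
    Step (.cat (chg R) s) u v ↔ ∃ x y w w', R x y ∧ Step s w w' ∧ u = x :: w ∧ v = y :: w' := by
  rw [step_cat]
  simp only [step_chg]
  constructor
  · rintro ⟨u1, v1, u2, v2, ⟨x, y, hx, rfl, rfl⟩, h, rfl, rfl⟩
    exact ⟨x, y, u2, v2, hx, h, rfl, rfl⟩
  · rintro ⟨x, y, w, w', hx, h, rfl, rfl⟩
    exact ⟨[x], [y], w, w', ⟨x, y, hx, rfl, rfl⟩, h, rfl, rfl⟩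

theorem dom_cZ (s : LR Fr Sym) (u : List (Ltr Fr Sym)) :
    Dom (.cat rZ s) u ↔ ∃ z w, IsZ z ∧ Dom s w ∧ u = z ++ w := by
  rw [dom_cat]
  simp only [dom_rZ]

theorem step_cZ (s : LR Fr Sym) (u v : List (Ltr Fr Sym)) :
    Step (.cat rZ s) u v ↔ ∃ z w w', IsZ z ∧ Step s w w' ∧ u = z ++ w ∧ v = z ++ w' := by
  rw [step_cat]
  simp only [step_rZ]
  constructor
  · rintro ⟨u1, v1, u2, v2, ⟨hz, rfl⟩, h, rfl, rfl⟩
    exact ⟨v1, u2, v2, hz, h, rfl, rfl⟩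
  · rintro ⟨z, w, w', hz, h, rfl, rfl⟩
    exact ⟨z, z, w, w', ⟨hz, rfl⟩, h, rfl, rfl⟩

end Pool.Agent.LibPeps
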